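import Pool.Agent.D4Q.Dat2b

set_option autoImplicit false
set_option maxRecDepth 100000

/-!
# Certificate for the cone II: computations in the kernel
-/

namespace Pool.Agent.D4Q.C2

theorem c_Z : beqK (mrg Yp Zm) (mrg Ym Zp) = true := by decide +kernel

theorem K_Xpll : okLin W Gk.length nu hXpll Zpl_Xpl_Xpl Xpll = true := by decide +kernel

theorem K_Xplr : okLin W Gk.length nu hXplr Zpl_Xpr_Xpl Xplr = true := by decide +kernel

theorem Sp_Xpl : beqK (mrg Zpl_Xpl_Xpl Zpl_Xpr_Xpl) Zpl_Xp = true := by decide +kernel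

theorem Sq_Xpl : beqK (mrg Xpll Xplr) Xpl = true := by decide +kernel

theorem K_Xprl : okLin W Gk.length nu hXprl Zpr_Xpl_Xpr Xprl = true := by decide +kernel

theorem K_Xprr : okLin W Gk.length nu hXprr Zpr_Xpr_Xpr Xprr = true := by decide +kernel

theorem Sp_Xpr : beqK (mrg Zpr_Xpl_Xpr Zpr_Xpr_Xpr) Zpr_Xp = true := by decide +kernel

theorem Sq_Xpr : beqK (mrg Xprl Xprr) Xpr = true := by decide +kernel

theorem Sp_Xp : beqK (mrg Zpl_Xp Zpr_Xp) Zp = true := by decide +kernel

theorem Sq_Xp : beqK (mrg Xpl Xpr) Xp = true := by decide +kernel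

theorem K_DD : okMul W Gk.length hDD D D0 DD = true := by decide +kernel

end Pool.Agent.D4Q.C2
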