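import Pool.Agent.D4Q.Dat2b

set_option autoImplicit false
set_option maxRecDepth 100000

/-!
# Certificate for the cone II: computations in the kernel
-/

namespace Pool.Agent.D4Q.C2

theorem K_0a : okSq W Gk.length q0a hp0a hn0a SP0a SN0a = true := by decide +kernel

theorem K_0b : okSq W Gk.length q0b hp0b hn0b SP0b SN0b = true := by decide +kernel

theorem K_1a : okSq W Gk.length q1a hp1a hn1a SP1a SN1a = true := by decide +kernel

theorem K_2a : okSq W Gk.length q2a hp2a hn2a SP2a SN2a = true := by decide +kernel

theorem K_3a : okSq W Gk.length q3a hp3a hn3a SP3a SN3a = true := by decide +kernel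

theorem K_4a : okSq W Gk.length q4a hp4a hn4a SP4a SN4a = true := by decide +kernel

theorem K_5a : okSq W Gk.length q5a hp5a hn5a SP5a SN5a = true := by decide +kernel

theorem K_6a : okSq W Gk.length q6a hp6a hn6a SP6a SN6a = true := by decide +kernel

end Pool.Agent.D4Q.C2
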