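import Pool.Agent.D4Q.Dat2b

set_option autoImplicit false
set_option maxRecDepth 100000

/-!
# Certificate for the cone II: computations in the kernel
-/

namespace Pool.Agent.D4Q.C2

theorem c_fin :
    leK (mrg (smulK 761332 DD) (mrg Xm (fold mrg [] (mapL Prod.fst S))))
      (mrg Xp (fold mrg [] (mapL Prod.snd S))) = true :=
  by decide +kernel

end Pool.Agent.D4Q.C2
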