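import Pool.Agent.D4Q.Dat3

set_option autoImplicit false
set_option maxRecDepth 100000

/-!
# Certificate for the cone III: computations in the kernel
-/

namespace Pool.Agent.D4Q.C3

theorem K_DD : okMul W Gk.length hDD D D0 DD = true := by decide +kernel

theorem K_0a : okSq W Gk.length q0a hp0a hn0a SP0a SN0a = true := by decide +kernel

theorem K_1a : okSq W Gk.length q1a hp1a hn1a SP1a SN1a = true := by decide +kernel

theorem K_2a : okSq W Gk.length q2a hp2a hn2a SP2a SN2a = true := by decide +kernel

theorem K_3a : okSq W Gk.length q3a hp3a hn3a SP3a SN3a = true := by decide +kernel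

theorem K_4a : okSq W Gk.length q4a hp4a hn4a SP4a SN4a = true := by decide +kernel

theorem K_5a : okSq W Gk.length q5a hp5a hn5a SP5a SN5a = true := by decide +kernel

theorem K_6a : okSq W Gk.length q6a hp6a hn6a SP6a SN6a = true := by decide +kernel

theorem c_fin :
    leK (mrg (smulK 761332 DD) (mrg Xm (fold mrg [] (mapL Prod.fst S))))
      (mrg Xp (fold mrg [] (mapL Prod.snd S))) = true :=
  by decide +kernel

end Pool.Agent.D4Q.C3
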