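import Pool.Agent.D4Q.Vec

set_option autoImplicit false

/-!
# P26. Degenerate base forms by a limit, and the inequality of the means
-/

namespace Pool.Agent.D4Q

open Matrix

/-- **Limit.** PROOF. By `FF_perturb` there is `K` with `FF (Q + ε E) ≤ FF Q + ε K` for `ε ≥ 0`. The
form `Q + ε E` is positive definite, so its determinant is positive and
`f ε = 60 det (Q + ε E) FF (Q + ε E) ≤ 60 det (Q + ε E) (FF Q + ε K)`. Let `ε` tend to zero from
above (both sides are continuous in `ε`). -/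
theorem lim_le {n : ℕ} {Q E : Matrix (Fin n) (Fin n) ℝ} (hQ : Q.PosDef) (hE : E.PosSemidef)
    {f : ℝ → ℝ} (hf : Continuous f) (h : ∀ ε : ℝ, 0 < ε → PH (Q + ε • E) = f ε) :
    f 0 ≤ PH Q := by
  obtain ⟨K, hK⟩ := FF_perturb hQ E hE
  have hdet : Continuous fun ε : ℝ => (Q + ε • E).det := by
    refine Continuous.matrix_det ?_
    exact continuous_const.add (continuous_id.smul continuous_const)
  have hg : Continuous fun ε : ℝ => 60 * (Q + ε • E).det * (FF Q + ε * K) :=
    (continuous_const.mul hdet).mul (continuous_const.add (continuous_id.mul continuous_const))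
  have h1 : ∀ ε : ℝ, 0 < ε → f ε ≤ 60 * (Q + ε • E).det * (FF Q + ε * K) := by
    intro ε hε
    rw [← h ε hε]
    unfold PH
    have hpos : 0 < (Q + ε • E).det := (hQ.add_posSemidef (hE.smul hε.le)).det_pos
    exact mul_le_mul_of_nonneg_left (hK ε hε.le) (by positivity)
  have h2 : f 0 ≤ 60 * (Q + (0 : ℝ) • E).det * (FF Q + 0 * K) :=
    le_of_tendsto_of_tendsto (hf.continuousWithinAt (s := Set.Ioi 0) (x := 0))
      (hg.continuousWithinAt (s := Set.Ioi 0) (x := 0))
      (by filter_upwards [self_mem_nhdsWithin] with ε hε using h1 ε hε)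
  simpa [PH] using h2

/-- **Inequality of the means.** PROOF. Divide the hypothesis (with `P ≤ 60 D F`) by `D` and `ν^3`:
`2640 F ≥ a + 3 b + T^2 / ν` with `a = 761332 D / ν^3`, `b = 13 ν`. By the inequality of the
arithmetic and the geometric mean `(a + 3 b)^4 ≥ 256 a b^3 = 256 * 761332 * 2197 * D`, and
`2640^4 * 28561 = 256 * 761332 * 2197 * 3240000`. So `3240000 F^4 ≥ 28561 D`, and if `T` is positive
then `2640 F > a + 3 b` and the inequality is strict. -/
theorem am_gm_fin {D F ν T P : ℝ} (hD : 0 < D) (hν : 0 < ν) (hT : 0 ≤ T) (hP : P ≤ 60 * D * F)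
    (h : 761332 * (D * D) ≤
      ν * (ν * (44 * (ν * P) - (39 * (ν * (ν * D)) + T * (T * D))))) :
    28561 * D ≤ 3240000 * F ^ 4 ∧ (28561 * D = 3240000 * F ^ 4 → T = 0) := by
  have hX0 : 0 < 761332 * D + 39 * ν ^ 4 := by positivity
  have h1 : 761332 * D + 39 * ν ^ 4 + ν ^ 2 * T ^ 2 ≤ 2640 * ν ^ 3 * F := by
    have h2 : D * (761332 * D + 39 * ν ^ 4 + ν ^ 2 * T ^ 2) ≤ D * (2640 * ν ^ 3 * F) := by
      have h3 : ν ^ 3 * P ≤ ν ^ 3 * (60 * D * F) :=
        mul_le_mul_of_nonneg_left hP (by positivity)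
      linarith
    exact le_of_mul_le_mul_left h2 hD
  have key : 256 * (761332 * D) * (13 * ν ^ 4) ^ 3 ≤ (761332 * D + 39 * ν ^ 4) ^ 4 := by
    have h2 : 0 ≤ (761332 * D - 13 * ν ^ 4) ^ 2 *
        ((761332 * D) ^ 2 + 14 * (761332 * D) * (13 * ν ^ 4) + 81 * (13 * ν ^ 4) ^ 2) := by
      positivity
    linarith
  have hν12 : 0 < ν ^ 12 := by positivity
  constructor
  · have h4 : (761332 * D + 39 * ν ^ 4) ^ 4 ≤ (2640 * ν ^ 3 * F) ^ 4 := by
      refine pow_le_pow_left₀ hX0.le ?_ 4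
      have h5 : 0 ≤ ν ^ 2 * T ^ 2 := by positivity
      linarith
    have h5 : ν ^ 12 * (256 * 761332 * 2197 * D) ≤ ν ^ 12 * (2640 ^ 4 * F ^ 4) := by
      linarith
    have h6 := le_of_mul_le_mul_left h5 hν12
    linarith
  · intro he
    by_contra hT0
    have hT1 : 0 < T := lt_of_le_of_ne hT (Ne.symm hT0)
    have h4 : (761332 * D + 39 * ν ^ 4) ^ 4 < (2640 * ν ^ 3 * F) ^ 4 := by
      refine pow_lt_pow_left₀ ?_ hX0.le (by norm_num)
      have h5 : 0 < ν ^ 2 * T ^ 2 := by positivity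
      linarith
    have h5 : ν ^ 12 * (256 * 761332 * 2197 * D) < ν ^ 12 * (2640 ^ 4 * F ^ 4) := by
      linarith
    have h6 := lt_of_mul_lt_mul_left h5 hν12.le
    linarith

end Pool.Agent.D4Q
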