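import Pool.Agent.D4Q.Poly

set_option autoImplicit false

/-!
# P20. Lists of monomials

A monomial with coefficient is a pair (coefficient, list of exponents). Functions which are
evaluated in the kernel are defined by recursors; do not change the definitions.
-/

namespace Pool.Agent.D4Q

/-- A monomial with coefficient. -/
abbrev Mo := ℕ × List ℕ

/-- The value of a list of monomials. -/
noncomputable def evS (x : ℕ → ℝ) (l : List Mo) : ℝ := (l.map fun q => (q.1 : ℝ) * evM x q.2).sum

/-- All exponent lists have length `n`. -/
def Len (n : ℕ) (l : List Mo) : Prop := ∀ q ∈ l, q.2.length = n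

/-- Increase the exponent number `i`. -/
def incr (i : ℕ) : List ℕ → List ℕ :=
  Nat.rec (motive := fun _ => List ℕ → List ℕ)
    (fun l => List.rec (motive := fun _ => List ℕ) [1] (fun e es _ => Nat.succ e :: es) l)
    (fun _ ih l => List.rec (motive := fun _ => List ℕ) (0 :: ih []) (fun e es _ => e :: ih es) l) i

theorem incr_zero_cons (e : ℕ) (es : List ℕ) : incr 0 (e :: es) = (e + 1) :: es := rfl

theorem incr_succ_cons (i e : ℕ) (es : List ℕ) : incr (i + 1) (e :: es) = e :: incr i es := rfl

/-- The sum of two exponent lists. -/
def addE (l m : List ℕ) : List ℕ := addL Nat.add l m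

/-- The monomials of the members of a list, the exponent `j, j + 1, ...` in front. -/
def monsL {α : Type} (f : α → List Mo) (l : List α) : ℕ → List Mo :=
  List.rec (motive := fun _ => ℕ → List Mo) (fun _ => [])
    (fun a _ ih j => fold (fun q r => (q.1, j :: q.2) :: r) (ih (j + 1)) (f a)) l

/-- The monomials of a polynomial. -/
def mons (n : ℕ) : MP n → List Mo :=
  Nat.rec (motive := fun n => MP n → List Mo) (fun c => bif Nat.beq c 0 then [] else [(c, [])])
    (fun _ ih l => monsL ih l 0) n

/-- The polynomial of a list of monomials. -/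
def toMP (n : ℕ) (l : List Mo) : MP n :=
  fold (fun q r => addP n (monP n q.2 q.1) r) (zeroP n) l

/-- Multiplication by a linear form with the coefficients `w` (number `i` onwards). -/
def linL (w : List ℕ) (q : Mo) (r : List Mo) : List Mo :=
  List.rec (motive := fun _ => ℕ → List Mo) (fun _ => r)
    (fun c _ ih i => bif Nat.beq c 0 then ih (i + 1) else (Nat.mul c q.1, incr i q.2) :: ih (i + 1))
    w 0

/-- Multiplication of all monomials of the list by a linear form. -/
def mulLin (w : List ℕ) (l : List Mo) : List Mo := fold (fun q r => linL w q r) [] l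

/-- The product of two lists. -/
def mulLL (l m : List Mo) : List Mo :=
  fold (fun q r => fold (fun p s => (Nat.mul q.1 p.1, addE q.2 p.2) :: s) r m) [] l

/-- The value of the linear form. -/
noncomputable def linV (w : List ℕ) (x : ℕ → ℝ) : ℝ :=
  ∑ i ∈ Finset.range w.length, (w.getD i 0 : ℝ) * x i

private theorem evS_nil (x : ℕ → ℝ) : evS x [] = 0 := by
  simp [evS]

private theorem evS_cons (x : ℕ → ℝ) (q : Mo) (l : List Mo) :
    evS x (q :: l) = (q.1 : ℝ) * evM x q.2 + evS x l := by
  simp [evS]

private theorem len_cons {n : ℕ} {q : Mo} {l : List Mo} :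
    Len n (q :: l) ↔ q.2.length = n ∧ Len n l := by
  unfold Len
  rw [List.forall_mem_cons]

private theorem monsL_nil {α : Type} (f : α → List Mo) (j : ℕ) : monsL f [] j = [] := rfl

private theorem monsL_cons {α : Type} (f : α → List Mo) (a : α) (l : List α) (j : ℕ) :
    monsL f (a :: l) j = fold (fun q r => (q.1, j :: q.2) :: r) (monsL f l (j + 1)) (f a) := rfl

private theorem mons_zero (c : ℕ) : mons 0 c = bif Nat.beq c 0 then [] else [(c, [])] := rfl

private theorem len_mons_zero (c : ℕ) : Len 0 (mons 0 c) := by
  rw [mons_zero]
  cases hc : Nat.beq c 0 with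
  | true =>
    intro q hq
    exact absurd hq List.not_mem_nil
  | false =>
    intro q hq
    rw [cond_false, List.mem_singleton] at hq
    rw [hq, List.length_nil]

private theorem evS_mons_zero (x : ℕ → ℝ) (c : ℕ) : evS x (mons 0 c) = (c : ℝ) := by
  rw [mons_zero]
  cases hc : Nat.beq c 0 with
  | true =>
    have hc0 : c = 0 := Nat.eq_of_beq_eq_true hc
    rw [cond_true, evS_nil, hc0, Nat.cast_zero]
  | false =>
    rw [cond_false, evS_cons, evS_nil, add_zero]
    change (c : ℝ) * evM x [] = c
    rw [evM_nil, mul_one]

private theorem len_fold {n j : ℕ} {r : List Mo} (hr : Len (n + 1) r) {l : List Mo}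
    (hl : Len n l) : Len (n + 1) (fold (fun q r => (q.1, j :: q.2) :: r) r l) := by
  induction l with
  | nil => exact hr
  | cons q l ih =>
    rw [len_cons] at hl
    rw [fold_cons, len_cons]
    refine ⟨?_, ih hl.2⟩
    rw [List.length_cons, hl.1]

private theorem evS_fold (x : ℕ → ℝ) (j : ℕ) (r l : List Mo) :
    evS x (fold (fun q r => (q.1, j :: q.2) :: r) r l) =
      x 0 ^ j * evS (fun i => x (i + 1)) l + evS x r := by
  induction l with
  | nil => rw [fold_nil, evS_nil, mul_zero, zero_add]
  | cons q l ih =>
    rw [fold_cons, evS_cons, evS_cons, ih]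
    change (q.1 : ℝ) * evM x (j :: q.2) + _ = _
    rw [evM_cons]
    ring

private theorem len_monsL {α : Type} {n : ℕ} {f : α → List Mo} (h : ∀ a, Len n (f a))
    (l : List α) (j : ℕ) : Len (n + 1) (monsL f l j) := by
  induction l generalizing j with
  | nil =>
    rw [monsL_nil]
    intro q hq
    exact absurd hq List.not_mem_nil
  | cons a l ih =>
    rw [monsL_cons]
    exact len_fold (ih (j + 1)) (h a)

private theorem evS_monsL {α : Type} (f : α → List Mo) (x : ℕ → ℝ) (l : List α) (j : ℕ) :
    evS x (monsL f l j) =
      x 0 ^ j * evL (fun a => evS (fun i => x (i + 1)) (f a)) (x 0) l := by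
  induction l generalizing j with
  | nil => rw [monsL_nil, evS_nil, evL_nil, mul_zero]
  | cons a l ih =>
    rw [monsL_cons, evS_fold, ih (j + 1), evL_cons]
    ring

/-- The inner recursion of `linL`. -/
private def lin (q : Mo) (r : List Mo) (w : List ℕ) : ℕ → List Mo :=
  List.rec (motive := fun _ => ℕ → List Mo) (fun _ => r)
    (fun c _ ih i => bif Nat.beq c 0 then ih (i + 1) else (Nat.mul c q.1, incr i q.2) :: ih (i + 1))
    w

private theorem linL_eq (w : List ℕ) (q : Mo) (r : List Mo) : linL w q r = lin q r w 0 := rfl

private theorem lin_nil (q : Mo) (r : List Mo) (i : ℕ) : lin q r [] i = r := rfl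

private theorem lin_cons (q : Mo) (r : List Mo) (c : ℕ) (w : List ℕ) (i : ℕ) :
    lin q r (c :: w) i = bif Nat.beq c 0 then lin q r w (i + 1)
      else (Nat.mul c q.1, incr i q.2) :: lin q r w (i + 1) := rfl

theorem evS_append (x : ℕ → ℝ) (l m : List Mo) : evS x (l ++ m) = evS x l + evS x m := by
  simp [evS]

theorem evM_incr {x : ℕ → ℝ} {i : ℕ} {es : List ℕ} (h : i < es.length) :
    evM x (incr i es) = x i * evM x es := by
  induction i generalizing x es with
  | zero =>
    cases es with
    | nil => simp at h
    | cons e es =>
      rw [incr_zero_cons, evM_cons, evM_cons]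
      ring
  | succ i ih =>
    cases es with
    | nil => simp at h
    | cons e es =>
      rw [List.length_cons] at h
      rw [incr_succ_cons, evM_cons, evM_cons, ih (by omega)]
      ring

theorem length_incr {i : ℕ} {es : List ℕ} (h : i < es.length) :
    (incr i es).length = es.length := by
  induction i generalizing es with
  | zero =>
    cases es with
    | nil => simp at h
    | cons e es => rw [incr_zero_cons, List.length_cons, List.length_cons]
  | succ i ih =>
    cases es with
    | nil => simp at h
    | cons e es =>
      rw [List.length_cons] at h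
      rw [incr_succ_cons, List.length_cons, List.length_cons, ih (by omega)]

theorem evM_addE {x : ℕ → ℝ} {l m : List ℕ} (h : l.length = m.length) :
    evM x (addE l m) = evM x l * evM x m := by
  induction l generalizing m x with
  | nil =>
    have hm : m = [] := List.length_eq_zero_iff.1 h.symm
    rw [hm]
    have h1 : addE [] [] = [] := rfl
    rw [h1, evM_nil, mul_one]
  | cons a l ih =>
    cases m with
    | nil => simp at h
    | cons b m =>
      rw [List.length_cons, List.length_cons] at h
      have h1 : addE (a :: l) (b :: m) = (a + b) :: addE l m := rfl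
      rw [h1, evM_cons, evM_cons, evM_cons, ih (by omega)]
      ring

theorem length_addE {l m : List ℕ} (h : l.length = m.length) :
    (addE l m).length = l.length := by
  induction l generalizing m with
  | nil =>
    have hm : m = [] := List.length_eq_zero_iff.1 h.symm
    rw [hm]
    rfl
  | cons a l ih =>
    cases m with
    | nil => simp at h
    | cons b m =>
      rw [List.length_cons, List.length_cons] at h
      have h1 : addE (a :: l) (b :: m) = (a + b) :: addE l m := rfl
      rw [h1, List.length_cons, List.length_cons, ih (by omega)]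

theorem len_mons (n : ℕ) (p : MP n) : Len n (mons n p) := by
  induction n with
  | zero => exact len_mons_zero p
  | succ n ih => exact len_monsL (f := mons n) ih p 0

/-- Induction on `n`, generalizing `x`; for the lists show that
`evS x (monsL f l j) = x 0 ^ j * evL ...`. -/
theorem evS_mons (n : ℕ) (x : ℕ → ℝ) (p : MP n) : evS x (mons n p) = ev n x p := by
  induction n generalizing x with
  | zero => exact evS_mons_zero x p
  | succ n ih =>
    refine (evS_monsL (mons n) x p 0).trans ?_
    rw [pow_zero, one_mul]
    have h2 : (fun a => evS (fun i => x (i + 1)) (mons n a)) = ev n (fun i => x (i + 1)) := by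
      funext a
      exact ih _ a
    rw [h2]
    rfl

theorem ev_toMP {n : ℕ} {l : List Mo} (hl : Len n l) (x : ℕ → ℝ) :
    ev n x (toMP n l) = evS x l := by
  unfold toMP
  induction l with
  | nil => rw [fold_nil, ev_zeroP, evS_nil]
  | cons q l ih =>
    rw [len_cons] at hl
    rw [fold_cons, ev_addP, ev_monP x hl.1, ih hl.2, evS_cons]

private theorem evS_lin (x : ℕ → ℝ) (q : Mo) (r : List Mo) (w : List ℕ) (i : ℕ)
    (h : w.length + i ≤ q.2.length) : evS x (lin q r w i) =
      (∑ k ∈ Finset.range w.length, (w.getD k 0 : ℝ) * x (i + k)) * ((q.1 : ℝ) * evM x q.2) +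
        evS x r := by
  induction w generalizing i with
  | nil => simp [lin_nil]
  | cons c w ih =>
    rw [List.length_cons] at h
    have ih' := ih (i + 1) (by omega)
    have hs : ∑ k ∈ Finset.range (c :: w).length, ((c :: w).getD k 0 : ℝ) * x (i + k) =
        ∑ k ∈ Finset.range w.length, (w.getD k 0 : ℝ) * x (i + 1 + k) + (c : ℝ) * x i := by
      rw [List.length_cons, Finset.sum_range_succ']
      congr 1
      apply Finset.sum_congr rfl
      intro k _
      rw [List.getD_cons_succ]
      congr 2
      omega
    rw [lin_cons, hs]
    cases hc : Nat.beq c 0 with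
    | true =>
      have hc0 : c = 0 := Nat.eq_of_beq_eq_true hc
      rw [cond_true, ih', hc0]
      push_cast
      ring
    | false =>
      rw [cond_false, evS_cons, ih']
      change ((Nat.mul c q.1 : ℕ) : ℝ) * evM x (incr i q.2) + _ = _
      rw [evM_incr (by omega), Nat.mul_eq]
      push_cast
      ring

private theorem len_lin {n : ℕ} {q : Mo} (hq : q.2.length = n) {r : List Mo} (hr : Len n r)
    (w : List ℕ) (i : ℕ) (h : w.length + i ≤ n) : Len n (lin q r w i) := by
  induction w generalizing i with
  | nil => exact hr
  | cons c w ih =>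
    rw [List.length_cons] at h
    have ih' := ih (i + 1) (by omega)
    rw [lin_cons]
    cases hc : Nat.beq c 0 with
    | true =>
      rw [cond_true]
      exact ih'
    | false =>
      rw [cond_false, len_cons]
      refine ⟨?_, ih'⟩
      change (incr i q.2).length = n
      rw [length_incr (by omega), hq]

theorem evS_mulLin {n : ℕ} {w : List ℕ} (hw : w.length = n) {l : List Mo} (hl : Len n l)
    (x : ℕ → ℝ) : evS x (mulLin w l) = linV w x * evS x l := by
  unfold mulLin
  induction l with
  | nil => rw [fold_nil, evS_nil, mul_zero]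
  | cons q l ih =>
    rw [len_cons] at hl
    rw [fold_cons, linL_eq, evS_lin x q _ w 0 (by omega), ih hl.2, evS_cons]
    unfold linV
    simp only [zero_add]
    ring

theorem len_mulLin {n : ℕ} {w : List ℕ} (hw : w.length = n) {l : List Mo} (hl : Len n l) :
    Len n (mulLin w l) := by
  unfold mulLin
  induction l with
  | nil =>
    intro q hq
    exact absurd hq List.not_mem_nil
  | cons q l ih =>
    rw [len_cons] at hl
    rw [fold_cons, linL_eq]
    exact len_lin hl.1 (ih hl.2) w 0 (by omega)

private theorem evS_inner {n : ℕ} (x : ℕ → ℝ) {q : Mo} (hq : q.2.length = n) (r : List Mo)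
    {m : List Mo} (hm : Len n m) :
    evS x (fold (fun p s => (Nat.mul q.1 p.1, addE q.2 p.2) :: s) r m) =
      (q.1 : ℝ) * evM x q.2 * evS x m + evS x r := by
  induction m with
  | nil => rw [fold_nil, evS_nil, mul_zero, zero_add]
  | cons p m ih =>
    rw [len_cons] at hm
    rw [fold_cons, evS_cons, evS_cons, ih hm.2]
    change ((Nat.mul q.1 p.1 : ℕ) : ℝ) * evM x (addE q.2 p.2) + _ = _
    rw [evM_addE (hq.trans hm.1.symm), Nat.mul_eq]
    push_cast
    ring

private theorem len_inner {n : ℕ} {q : Mo} (hq : q.2.length = n) {r : List Mo} (hr : Len n r)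
    {m : List Mo} (hm : Len n m) :
    Len n (fold (fun p s => (Nat.mul q.1 p.1, addE q.2 p.2) :: s) r m) := by
  induction m with
  | nil => exact hr
  | cons p m ih =>
    rw [len_cons] at hm
    rw [fold_cons, len_cons]
    refine ⟨?_, ih hm.2⟩
    change (addE q.2 p.2).length = n
    rw [length_addE (hq.trans hm.1.symm), hq]

theorem evS_mulLL {n : ℕ} {l m : List Mo} (hl : Len n l) (hm : Len n m) (x : ℕ → ℝ) :
    evS x (mulLL l m) = evS x l * evS x m := by
  unfold mulLL
  induction l with
  | nil => rw [fold_nil, evS_nil, zero_mul]
  | cons q l ih =>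
    rw [len_cons] at hl
    rw [fold_cons, evS_inner x hl.1 _ hm, ih hl.2, evS_cons]
    ring

theorem len_mulLL {n : ℕ} {l m : List Mo} (hl : Len n l) (hm : Len n m) : Len n (mulLL l m) := by
  unfold mulLL
  induction l with
  | nil =>
    intro q hq
    exact absurd hq List.not_mem_nil
  | cons q l ih =>
    rw [len_cons] at hl
    rw [fold_cons]
    exact len_inner hl.1 (ih hl.2) hm

end Pool.Agent.D4Q
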