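import Pool.Agent.D4Q.StepL

set_option autoImplicit false

/-!
# P13. The recursion for determinant and second moment

A list `L : List (V × ℕ)` of functionals with the numbers of their weights; the weights are
`w : ℕ → ℝ`.
-/

namespace Pool.Agent.D4Q

open Matrix

/-- The form `B + ∑ w_i (a · x)^2`, the sum over the pairs `(a, i)` of the list. -/
noncomputable def QL (B : Matrix (Fin 4) (Fin 4) ℝ) (w : ℕ → ℝ) :
    List (V × ℕ) → Matrix (Fin 4) (Fin 4) ℝ
  | [] => B
  | (a, i) :: L => QL B w L + w i • r1 a

/-- The determinant by deletion and contraction; `lf` is the value at the leaves. -/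
noncomputable def DR (lf : List V → ℝ) (w : ℕ → ℝ) : List (V × ℕ) → List V → ℝ
  | [], cs => lf cs
  | (a, i) :: L, cs =>
    match piv a cs with
    | none => DR lf w L cs
    | some (c, ds) => DR lf w L cs + w i * DR lf w L (ker a c ds)

/-- The second moment (times `60` and the determinant) by deletion and contraction. -/
noncomputable def PR (lf pf : List V → ℝ) (w : ℕ → ℝ) : List (V × ℕ) → List V → ℝ
  | [], cs => pf cs
  | (a, i) :: L, cs =>
    match piv a cs with
    | none => PR lf pf w L cs
    | some (c, ds) =>
      PR lf pf w L cs +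
        w i * (PR lf pf w L (ker a c ds) + 10 * DR lf w L cs) +
          5 * w i ^ 2 * DR lf w L (ker a c ds)

/-- The check of a recursion: the pivots do not fail and the leaves satisfy the test `T`. -/
def okR (T : List V → Bool) : List (V × ℕ) → List V → Bool
  | [], cs => T cs
  | (a, _) :: L, cs =>
    match piv a cs with
    | none => cs.all (fun c => dot a c == 0) && okR T L cs
    | some (c, ds) => okR T L cs && okR T L (ker a c ds)

/-- All forms `QL B w L` are positive definite (induction, `r1_posSemidef`). -/
theorem QL_posDef {B : Matrix (Fin 4) (Fin 4) ℝ} (hB : B.PosDef) {w : ℕ → ℝ}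
    (hw : ∀ i, 0 ≤ w i) (L : List (V × ℕ)) : (QL B w L).PosDef := by
  induction L with
  | nil => exact hB
  | cons x L ih =>
    obtain ⟨a, i⟩ := x
    exact ih.add_posSemidef ((r1_posSemidef a).smul (hw i))

/-- Compatibility of `QL B w L` (induction, `compat_add`). -/
theorem QL_compat {B : Matrix (Fin 4) (Fin 4) ℝ} {As : List V} (hC : Compat B As) {w : ℕ → ℝ}
    (hw : ∀ i, 0 ≤ w i) (L : List (V × ℕ)) (hL : ∀ x ∈ L, x.1 ∈ As) :
    Compat (QL B w L) As := by
  induction L with
  | nil => exact hC
  | cons x L ih =>
    obtain ⟨a, i⟩ := x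
    exact compat_add (ih fun y hy => hL y (List.mem_cons_of_mem _ hy))
      (hL (a, i) List.mem_cons_self) (hw i)

theorem all_dot {a : V} {cs : List V} (h : (cs.all fun c => dot a c == 0) = true) :
    ∀ c ∈ cs, dot a c = 0 := by
  intro c hc
  have := List.all_eq_true.1 h c hc
  simpa using this

/-- **The recursion for the determinant.** Induction on `L`, generalizing `S` and `cs`: the step is
`step_det` (then `flat_ker`, `piv_some`, `flat_perm` for the new flat) or `gram_zero`. -/
theorem rec_det {B : Matrix (Fin 4) (Fin 4) ℝ} (w : ℕ → ℝ) {T : List V → Bool} {lf : List V → ℝ}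
    (hlf : ∀ S cs, Flat S cs → T cs = true → (gram B cs).det = lf cs)
    (L : List (V × ℕ)) (S cs : List V) (hF : Flat S cs) (hok : okR T L cs = true) :
    (gram (QL B w L) cs).det = DR lf w L cs := by
  induction L generalizing S cs with
  | nil => exact hlf S cs hF hok
  | cons x L ih =>
    obtain ⟨a, i⟩ := x
    rw [show QL B w ((a, i) :: L) = QL B w L + w i • r1 a from rfl]
    cases hp : piv a cs with
    | none =>
      rw [okR, hp] at hok
      simp only [Bool.and_eq_true] at hok
      rw [DR, hp, gram_zero (all_dot hok.1)]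
      exact ih S cs hF hok.2
    | some r =>
      obtain ⟨c, ds⟩ := r
      rw [okR, hp] at hok
      simp only [Bool.and_eq_true] at hok
      obtain ⟨hc, hperm⟩ := piv_some hp
      rw [DR, hp, step_det hF hp]
      simp only
      rw [ih S cs hF hok.1, ih (a :: S) (ker a c ds) (flat_ker hc (flat_perm hF hperm)) hok.2]

/-- **The recursion for the second moment.** Induction on `L`, generalizing `S` and `cs`: the step
is `step_PH` for the form `QL B w L` (`QL_posDef`, `QL_compat`), with `rec_det`. -/
theorem rec_PH {B : Matrix (Fin 4) (Fin 4) ℝ} (hB : B.PosDef) {As : List V} (hC : Compat B As)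
    {w : ℕ → ℝ} (hw : ∀ i, 0 ≤ w i) {T : List V → Bool} {lf pf : List V → ℝ}
    (hlf : ∀ S cs, Flat S cs → T cs = true → (gram B cs).det = lf cs)
    (hpf : ∀ S cs, Flat S cs → T cs = true → PH (gram B cs) = pf cs)
    (L : List (V × ℕ)) (hL : ∀ x ∈ L, x.1 ∈ As) (S cs : List V) (hS : ∀ a ∈ S, a ∈ As)
    (hF : Flat S cs) (hok : okR T L cs = true) :
    PH (gram (QL B w L) cs) = PR lf pf w L cs := by
  induction L generalizing S cs with
  | nil => exact hpf S cs hF hok
  | cons x L ih =>
    obtain ⟨a, i⟩ := x
    have hL' : ∀ x ∈ L, x.1 ∈ As := fun y hy => hL y (List.mem_cons_of_mem _ hy)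
    have ha : a ∈ As := hL (a, i) List.mem_cons_self
    rw [show QL B w ((a, i) :: L) = QL B w L + w i • r1 a from rfl]
    cases hp : piv a cs with
    | none =>
      rw [okR, hp] at hok
      simp only [Bool.and_eq_true] at hok
      rw [PR, hp, gram_zero (all_dot hok.1)]
      exact ih hL' S cs hS hF hok.2
    | some r =>
      obtain ⟨c, ds⟩ := r
      rw [okR, hp] at hok
      simp only [Bool.and_eq_true] at hok
      obtain ⟨hc, hperm⟩ := piv_some hp
      have hF' : Flat (a :: S) (ker a c ds) := flat_ker hc (flat_perm hF hperm)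
      have hS' : ∀ b ∈ a :: S, b ∈ As := by
        intro b hb
        rcases List.mem_cons.1 hb with h | h
        · exact h ▸ ha
        · exact hS b h
      rw [PR, hp, step_PH (QL_posDef hB hw L) (QL_compat hC hw L hL') hS ha hF hp (hw i)]
      simp only
      rw [ih hL' S cs hS hF hok.1, ih hL' (a :: S) (ker a c ds) hS' hF' hok.2,
        rec_det w hlf L S cs hF hok.1, rec_det w hlf L (a :: S) (ker a c ds) hF' hok.2]

end Pool.Agent.D4Q
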