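import Pool.Agent.D4Q.Poly
import Pool.Agent.D4Q.RecR

set_option autoImplicit false

/-!
# P19. The recursion for determinant and second moment, as polynomials
-/

namespace Pool.Agent.D4Q

/-- The determinant (first component) and the second moment (second component) as polynomials in
`n` variables, by deletion and contraction; `lf` and `pf` are the values at the leaves. -/
def RPo (n : ℕ) (lf pf : List V → MP n) (L : List (V × ℕ)) : List V → MP n × MP n :=
  List.rec (motive := fun _ => List V → MP n × MP n) (fun cs => (lf cs, pf cs))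
    (fun x _ ih cs =>
      Option.rec (motive := fun _ => MP n × MP n) (ih cs)
        (fun p =>
          (addP n (ih cs).1 (mulV x.2 n (ih (ker x.1 p.1 p.2)).1),
            addP n (ih cs).2
              (mulV x.2 n
                (addP n (addP n (ih (ker x.1 p.1 p.2)).2 (smulP 10 n (ih cs).1))
                  (smulP 5 n (mulV x.2 n (ih (ker x.1 p.1 p.2)).1))))))
        (piv x.1 cs)) L

theorem RPo_nil (n : ℕ) (lf pf : List V → MP n) (cs : List V) :
    RPo n lf pf [] cs = (lf cs, pf cs) := rfl

private theorem RPo_cons (n : ℕ) (lf pf : List V → MP n) (a : V) (i : ℕ) (L : List (V × ℕ))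
    (cs : List V) : RPo n lf pf ((a, i) :: L) cs =
      Option.rec (motive := fun _ => MP n × MP n) (RPo n lf pf L cs)
        (fun p =>
          (addP n (RPo n lf pf L cs).1 (mulV i n (RPo n lf pf L (ker a p.1 p.2)).1),
            addP n (RPo n lf pf L cs).2
              (mulV i n
                (addP n (addP n (RPo n lf pf L (ker a p.1 p.2)).2
                  (smulP 10 n (RPo n lf pf L cs).1))
                  (smulP 5 n (mulV i n (RPo n lf pf L (ker a p.1 p.2)).1))))))
        (piv a cs) := rfl

theorem RPo_none {n : ℕ} {lf pf : List V → MP n} {a : V} {i : ℕ} {L : List (V × ℕ)} {cs : List V}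
    (h : piv a cs = none) : RPo n lf pf ((a, i) :: L) cs = RPo n lf pf L cs := by
  rw [RPo_cons, h]

theorem RPo_some {n : ℕ} {lf pf : List V → MP n} {a c : V} {i : ℕ} {L : List (V × ℕ)}
    {cs ds : List V} (h : piv a cs = some (c, ds)) :
    RPo n lf pf ((a, i) :: L) cs =
      (addP n (RPo n lf pf L cs).1 (mulV i n (RPo n lf pf L (ker a c ds)).1),
        addP n (RPo n lf pf L cs).2
          (mulV i n
            (addP n (addP n (RPo n lf pf L (ker a c ds)).2 (smulP 10 n (RPo n lf pf L cs).1))
              (smulP 5 n (mulV i n (RPo n lf pf L (ker a c ds)).1))))) := by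
  rw [RPo_cons, h]

/-- **Correctness.** PROOF. Induction on `L`, generalizing `cs`, with `DR`, `PR` of the file
`RecR`. -/
theorem ev_RPo {n : ℕ} {lf pf : List V → MP n} {x : ℕ → ℝ} {ld lp : List V → ℝ} (T : List V → Bool)
    (h1 : ∀ cs, T cs = true → ev n x (lf cs) = ld cs)
    (h2 : ∀ cs, T cs = true → ev n x (pf cs) = lp cs)
    (L : List (V × ℕ)) (hL : ∀ y ∈ L, y.2 < n) (cs : List V) (hok : okR T L cs = true) :
    ev n x (RPo n lf pf L cs).1 = DR ld x L cs ∧
      ev n x (RPo n lf pf L cs).2 = PR ld lp x L cs := by
  induction L generalizing cs with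
  | nil => exact ⟨h1 cs hok, h2 cs hok⟩
  | cons y L ih =>
    obtain ⟨a, i⟩ := y
    have hL' : ∀ y ∈ L, y.2 < n := fun y hy => hL y (List.mem_cons_of_mem _ hy)
    have hi : i < n := hL (a, i) List.mem_cons_self
    cases hp : piv a cs with
    | none =>
      rw [okR, hp] at hok
      simp only [Bool.and_eq_true] at hok
      rw [RPo_none hp, DR, PR, hp]
      exact ih hL' cs hok.2
    | some r =>
      obtain ⟨c, ds⟩ := r
      rw [okR, hp] at hok
      simp only [Bool.and_eq_true] at hok
      obtain ⟨a1, a2⟩ := ih hL' cs hok.1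
      obtain ⟨b1, b2⟩ := ih hL' (ker a c ds) hok.2
      rw [RPo_some hp, DR, PR, hp]
      refine ⟨?_, ?_⟩
      · simp only
        rw [ev_addP, ev_mulV hi, a1, b1]
      · simp only
        rw [ev_addP, ev_mulV hi, ev_addP, ev_addP, ev_smulP, ev_smulP, ev_mulV hi, a1, a2, b1, b2]
        push_cast
        ring

end Pool.Agent.D4Q
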