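import Pool.Agent.D4Q.Comp
import Pool.Agent.D4Q.Lim
import Pool.Agent.D4Q.RecP
import Pool.Agent.D4Q.Mon

set_option autoImplicit false

/-!
# P29. The polynomials of the first cone (diagonal base form)

The variables number `0, 1, 2, 3` are the coefficients of the diagonal base form.
-/

namespace Pool.Agent.D4Q

open Matrix

/-- The exponents of the variable number `i`. -/
def unitE (i : ℕ) : List ℕ := incr i [0, 0, 0, 0, 0, 0, 0, 0, 0, 0]

/-- The base form. -/
noncomputable def Bd (x : ℕ → ℝ) : Matrix (Fin 4) (Fin 4) ℝ :=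
  Matrix.diagonal fun i : Fin 4 => x i

/-- The sum of the variables in the support of `c`, times `m`, in front of `r`. -/
def linM (m : ℕ) (c : V) (r : List Mo) : List Mo :=
  (if c.1 = 0 then [] else [(m, unitE 0)]) ++ ((if c.2.1 = 0 then [] else [(m, unitE 1)]) ++
    ((if c.2.2.1 = 0 then [] else [(m, unitE 2)]) ++
      ((if c.2.2.2 = 0 then [] else [(m, unitE 3)]) ++ r)))

/-- The product of the sums over the supports. -/
def prdM (cs : List V) : List Mo :=
  fold (fun c r => mulLL (linM 1 c []) r) [(1, [0, 0, 0, 0, 0, 0, 0, 0, 0, 0])] cs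

/-- Five times the sum of all variables in the supports. -/
def sumM (cs : List V) : List Mo := fold (fun c r => linM 5 c r) [] cs

/-- Leaf of the determinant. -/
def lfI (cs : List V) : MP 10 := toMP 10 (prdM cs)

/-- Leaf of the second moment. -/
def pfI (cs : List V) : MP 10 := toMP 10 (mulLL (sumM cs) (prdM cs))

/-- All coordinates are zero or one. -/
def z01 (c : V) : Bool :=
  (c.1 == 0 || c.1 == 1) && (c.2.1 == 0 || c.2.1 == 1) && (c.2.2.1 == 0 || c.2.2.1 == 1) &&
    (c.2.2.2 == 0 || c.2.2.2 == 1)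

/-- The leaves: zero-one vectors with disjoint supports. -/
def leafI : List V → Bool
  | [] => true
  | c :: cs => z01 c && (cs.all fun d => dot c d == 0) && leafI cs

/-- The sum of the coefficients in the support. -/
noncomputable def rs (x : ℕ → ℝ) (c : V) : ℝ :=
  (if c.1 = 0 then 0 else x 0) + (if c.2.1 = 0 then 0 else x 1) +
    (if c.2.2.1 = 0 then 0 else x 2) + (if c.2.2.2 = 0 then 0 else x 3)

private theorem z01_iff {c : V} (h : z01 c = true) :
    (c.1 = 0 ∨ c.1 = 1) ∧ (c.2.1 = 0 ∨ c.2.1 = 1) ∧ (c.2.2.1 = 0 ∨ c.2.2.1 = 1) ∧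
      (c.2.2.2 = 0 ∨ c.2.2.2 = 1) := by
  unfold z01 at h
  simp only [Bool.and_eq_true, Bool.or_eq_true, beq_iff_eq] at h
  exact ⟨h.1.1.1, h.1.1.2, h.1.2, h.2⟩

private theorem leafI_cons {c : V} {cs : List V} (h : leafI (c :: cs) = true) :
    z01 c = true ∧ (∀ d ∈ cs, dot c d = 0) ∧ leafI cs = true := by
  rw [leafI] at h
  simp only [Bool.and_eq_true] at h
  exact ⟨h.1.1, all_dot h.1.2, h.2⟩

private theorem leafI_z {cs : List V} (h : leafI cs = true) : ∀ c ∈ cs, z01 c = true := by
  induction cs with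
  | nil => exact fun c hc => absurd hc List.not_mem_nil
  | cons a cs ih =>
    obtain ⟨h1, -, h3⟩ := leafI_cons h
    intro c hc
    rcases List.mem_cons.1 hc with rfl | hc
    · exact h1
    · exact ih h3 c hc

private theorem leafI_pw {cs : List V} (h : leafI cs = true) :
    cs.Pairwise fun c d => dot c d = 0 := by
  induction cs with
  | nil => exact List.Pairwise.nil
  | cons a cs ih =>
    obtain ⟨-, h2, h3⟩ := leafI_cons h
    exact List.Pairwise.cons h2 (ih h3)

private theorem dot_comm' (c d : V) : dot c d = dot d c := by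
  unfold dot
  ring

private theorem bl_Bd (x : ℕ → ℝ) (u v : V) :
    bl (Bd x) u v = x 0 * ((u.1 * v.1 : ℤ) : ℝ) + x 1 * ((u.2.1 * v.2.1 : ℤ) : ℝ) +
      x 2 * ((u.2.2.1 * v.2.2.1 : ℤ) : ℝ) + x 3 * ((u.2.2.2 * v.2.2.2 : ℤ) : ℝ) := by
  simp only [bl, Bd, dotProduct, mulVec_diagonal, ic, vc, Fin.sum_univ_four]
  simp only [Matrix.cons_val]
  push_cast
  simp
  ring

private theorem bl_self_Bd {c : V} (h : z01 c = true) (x : ℕ → ℝ) : bl (Bd x) c c = rs x c := by
  obtain ⟨h1, h2, h3, h4⟩ := z01_iff h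
  have key : ∀ (z : ℤ) (y : ℝ), (z = 0 ∨ z = 1) →
      y * ((z * z : ℤ) : ℝ) = if z = 0 then 0 else y := by
    rintro z y (rfl | rfl) <;> simp
  rw [bl_Bd, rs, key _ _ h1, key _ _ h2, key _ _ h3, key _ _ h4]

private theorem bl_Bd_zero {c d : V} (hc : z01 c = true) (hd : z01 d = true) (h : dot c d = 0)
    (x : ℕ → ℝ) : bl (Bd x) c d = 0 := by
  obtain ⟨h1, h2, h3, h4⟩ := z01_iff hc
  obtain ⟨k1, k2, k3, k4⟩ := z01_iff hd
  have key : ∀ (z y : ℤ), (z = 0 ∨ z = 1) → (y = 0 ∨ y = 1) → 0 ≤ z * y := by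
    rintro z y (rfl | rfl) (rfl | rfl) <;> simp
  have e1 := key _ _ h1 k1
  have e2 := key _ _ h2 k2
  have e3 := key _ _ h3 k3
  have e4 := key _ _ h4 k4
  unfold dot at h
  have f1 : c.1 * d.1 = 0 := by linarith
  have f2 : c.2.1 * d.2.1 = 0 := by linarith
  have f3 : c.2.2.1 * d.2.2.1 = 0 := by linarith
  have f4 : c.2.2.2 * d.2.2.2 = 0 := by linarith
  rw [bl_Bd, f1, f2, f3, f4]
  simp

/-- The Gram matrix of a leaf is diagonal: for zero-one vectors the scalar product zero means
disjoint supports. -/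
theorem gram_leafI {cs : List V} (h : leafI cs = true) (x : ℕ → ℝ) :
    gram (Bd x) cs = Matrix.diagonal fun i => rs x (cs.get i) := by
  have hz := leafI_z h
  have hp := leafI_pw h
  rw [List.pairwise_iff_get] at hp
  ext i j
  change bl (Bd x) (cs.get i) (cs.get j) = _
  by_cases hij : i = j
  · subst hij
    rw [Matrix.diagonal_apply_eq]
    exact bl_self_Bd (hz _ (List.get_mem cs i)) x
  · rw [Matrix.diagonal_apply_ne _ hij]
    apply bl_Bd_zero (hz _ (List.get_mem cs i)) (hz _ (List.get_mem cs j))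
    rcases lt_or_gt_of_ne hij with hlt | hgt
    · exact hp i j hlt
    · rw [dot_comm']
      exact hp j i hgt

private theorem evS_nil' (x : ℕ → ℝ) : evS x [] = 0 := by
  simp [evS]

private theorem evS_cons' (x : ℕ → ℝ) (q : Mo) (l : List Mo) :
    evS x (q :: l) = (q.1 : ℝ) * evM x q.2 + evS x l := by
  simp [evS]

private theorem evM_unitE (x : ℕ → ℝ) {i : ℕ} (hi : i < 10) : evM x (unitE i) = x i := by
  unfold unitE
  rw [evM_incr (by simpa using hi)]
  simp only [evM_cons, evM_nil, pow_zero, mul_one]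

private theorem len_unitE {i : ℕ} (hi : i < 10) : (unitE i).length = 10 := by
  unfold unitE
  rw [length_incr (by simpa using hi)]
  rfl

private theorem evS_ite (x : ℕ → ℝ) (z : ℤ) (m : ℕ) {i : ℕ} (hi : i < 10) (r : List Mo) :
    evS x ((if z = 0 then [] else [(m, unitE i)]) ++ r) =
      m * (if z = 0 then 0 else x i) + evS x r := by
  by_cases hz : z = 0
  · rw [if_pos hz, if_pos hz, List.nil_append, mul_zero, zero_add]
  · rw [if_neg hz, if_neg hz, List.singleton_append, evS_cons', evM_unitE x hi]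

private theorem len_ite (z : ℤ) (m : ℕ) {i : ℕ} (hi : i < 10) {r : List Mo} (hr : Len 10 r) :
    Len 10 ((if z = 0 then [] else [(m, unitE i)]) ++ r) := by
  by_cases hz : z = 0
  · rw [if_pos hz, List.nil_append]
    exact hr
  · rw [if_neg hz, List.singleton_append]
    intro q hq
    rcases List.mem_cons.1 hq with rfl | hq
    · exact len_unitE hi
    · exact hr q hq

private theorem evS_linM (x : ℕ → ℝ) (m : ℕ) (c : V) (r : List Mo) :
    evS x (linM m c r) = m * rs x c + evS x r := by
  unfold linM rs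
  rw [evS_ite x _ m (by norm_num), evS_ite x _ m (by norm_num), evS_ite x _ m (by norm_num),
    evS_ite x _ m (by norm_num)]
  ring

private theorem len_linM (m : ℕ) (c : V) {r : List Mo} (hr : Len 10 r) :
    Len 10 (linM m c r) := by
  unfold linM
  exact len_ite _ m (by norm_num) (len_ite _ m (by norm_num) (len_ite _ m (by norm_num)
    (len_ite _ m (by norm_num) hr)))

private theorem len_nil : Len 10 ([] : List Mo) := fun _ hq => absurd hq List.not_mem_nil

private theorem len_prdM (cs : List V) : Len 10 (prdM cs) := by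
  unfold prdM
  induction cs with
  | nil =>
    intro q hq
    rw [fold_nil, List.mem_singleton] at hq
    rw [hq]
    rfl
  | cons c cs ih =>
    rw [fold_cons]
    exact len_mulLL (len_linM 1 c len_nil) ih

private theorem evS_prdM (x : ℕ → ℝ) (cs : List V) :
    evS x (prdM cs) = (cs.map (rs x)).prod := by
  induction cs with
  | nil =>
    change evS x [(1, [0, 0, 0, 0, 0, 0, 0, 0, 0, 0])] = 1
    rw [evS_cons', evS_nil']
    simp only [evM_cons, evM_nil, pow_zero, mul_one, Nat.cast_one, add_zero]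
  | cons c cs ih =>
    change evS x (mulLL (linM 1 c []) (prdM cs)) = _
    rw [evS_mulLL (len_linM 1 c len_nil) (len_prdM cs), evS_linM, evS_nil', ih, List.map_cons,
      List.prod_cons, Nat.cast_one, one_mul, add_zero]

private theorem len_sumM (cs : List V) : Len 10 (sumM cs) := by
  unfold sumM
  induction cs with
  | nil => exact len_nil
  | cons c cs ih =>
    rw [fold_cons]
    exact len_linM 5 c ih

private theorem evS_sumM (x : ℕ → ℝ) (cs : List V) :
    evS x (sumM cs) = 5 * (cs.map (rs x)).sum := by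
  induction cs with
  | nil =>
    change evS x [] = _
    rw [evS_nil']
    simp
  | cons c cs ih =>
    change evS x (linM 5 c (sumM cs)) = _
    rw [evS_linM, ih, List.map_cons, List.sum_cons]
    push_cast
    ring

theorem det_leafI {cs : List V} (h : leafI cs = true) (x : ℕ → ℝ) :
    (gram (Bd x) cs).det = ev 10 x (lfI cs) := by
  rw [gram_leafI h x, Matrix.det_diagonal, lfI, ev_toMP (len_prdM cs), evS_prdM]
  exact Fin.prod_univ_fun_getElem cs (rs x)

private theorem rs_nonneg {x : ℕ → ℝ} (hx : ∀ i, 0 ≤ x i) (c : V) : 0 ≤ rs x c := by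
  have key : ∀ (z : ℤ) (i : ℕ), 0 ≤ (if z = 0 then 0 else x i) := by
    intro z i
    split_ifs
    · exact le_rfl
    · exact hx i
  unfold rs
  exact add_nonneg (add_nonneg (add_nonneg (key _ _) (key _ _)) (key _ _)) (key _ _)

/-- `FF_diag`: `60 * (product) * (sum) / 12`. -/
theorem PH_leafI {cs : List V} (h : leafI cs = true) {x : ℕ → ℝ} (hx : ∀ i, 0 ≤ x i) :
    PH (gram (Bd x) cs) = ev 10 x (pfI cs) := by
  have h1 : ∑ i, rs x (cs.get i) = (cs.map (rs x)).sum := Fin.sum_univ_fun_getElem cs (rs x)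
  have h2 : ∏ i, rs x (cs.get i) = (cs.map (rs x)).prod := Fin.prod_univ_fun_getElem cs (rs x)
  rw [gram_leafI h x, PH, Matrix.det_diagonal, FF_diag fun i => rs_nonneg hx _, pfI,
    ev_toMP (len_mulLL (len_sumM cs) (len_prdM cs)), evS_mulLL (len_sumM cs) (len_prdM cs),
    evS_prdM, evS_sumM, h1, h2]
  ring

private theorem L1_lt : ∀ y ∈ L1, y.2 < 10 := by
  decide

private theorem L1_ge : ∀ y ∈ L1, 4 ≤ y.2 := by
  decide

theorem coneI_det (hok : okR leafI L1 E4 = true) (x : ℕ → ℝ) :
    (QL (Bd x) x L1).det = ev 10 x (RPo 10 lfI pfI L1 E4).1 := by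
  have h1 := rec_det (B := Bd x) x (T := leafI) (lf := fun cs => ev 10 x (lfI cs))
    (fun S cs _ h => det_leafI h x) L1 [] E4 flat_E4 hok
  have h2 := (ev_RPo (n := 10) (lf := lfI) (pf := pfI) (x := x) (ld := fun cs => ev 10 x (lfI cs))
    (lp := fun cs => ev 10 x (pfI cs)) leafI (fun _ _ => rfl) (fun _ _ => rfl) L1 L1_lt E4 hok).1
  rw [h2, ← h1]
  exact (congrArg (fun M : Matrix (Fin 4) (Fin 4) ℝ => M.det) (gram_E4 (QL (Bd x) x L1))).symm

theorem coneI_PH_pos (hok : okR leafI L1 E4 = true) {x : ℕ → ℝ} (hx : ∀ i, 0 ≤ x i)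
    (h0 : ∀ i < 4, 0 < x i) : PH (QL (Bd x) x L1) = ev 10 x (RPo 10 lfI pfI L1 E4).2 := by
  have hB : (Bd x).PosDef := Matrix.PosDef.diagonal fun i => h0 i i.2
  have h1 := rec_PH hB (compat_diag fun i : Fin 4 => hx i) hx (T := leafI)
    (lf := fun cs => ev 10 x (lfI cs)) (pf := fun cs => ev 10 x (pfI cs))
    (fun S cs _ h => det_leafI h x) (fun S cs _ h => PH_leafI h hx) L1
    (fun y hy => List.mem_map_of_mem hy) [] E4 (fun a ha => absurd ha List.not_mem_nil)
    flat_E4 hok
  have h2 := (ev_RPo (n := 10) (lf := lfI) (pf := pfI) (x := x) (ld := fun cs => ev 10 x (lfI cs))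
    (lp := fun cs => ev 10 x (pfI cs)) leafI (fun _ _ => rfl) (fun _ _ => rfl) L1 L1_lt E4 hok).2
  rw [h2, ← h1]
  exact (congrArg (fun M : Matrix (Fin 4) (Fin 4) ℝ => PH M) (gram_E4 (QL (Bd x) x L1))).symm

private theorem cont_evL {α : Type} {f : ℝ → α → ℝ} (hf : ∀ a, Continuous fun e => f e a)
    {y : ℝ → ℝ} (hy : Continuous y) (l : List α) : Continuous fun e => evL (f e) (y e) l := by
  induction l with
  | nil => exact continuous_const
  | cons a l ih => exact (hf a).add (hy.mul ih)

private theorem cont_ev (n : ℕ) {y : ℝ → ℕ → ℝ} (hy : ∀ i, Continuous fun e => y e i)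
    (p : MP n) : Continuous fun e => ev n (y e) p := by
  induction n generalizing y with
  | zero => exact continuous_const
  | succ n ih => exact cont_evL (fun a => ih (fun i => hy (i + 1)) a) (hy 0) p

private theorem QL_congr (B : Matrix (Fin 4) (Fin 4) ℝ) {w w' : ℕ → ℝ} (L : List (V × ℕ))
    (h : ∀ y ∈ L, w y.2 = w' y.2) : QL B w L = QL B w' L := by
  induction L with
  | nil => rfl
  | cons y L ih =>
    obtain ⟨a, i⟩ := y
    change QL B w L + w i • r1 a = QL B w' L + w' i • r1 a
    rw [ih fun y hy => h y (List.mem_cons_of_mem _ hy), h (a, i) List.mem_cons_self]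

private theorem QL_add (B E : Matrix (Fin 4) (Fin 4) ℝ) (w : ℕ → ℝ) (L : List (V × ℕ)) :
    QL (B + E) w L = QL B w L + E := by
  induction L with
  | nil => rfl
  | cons y L ih =>
    obtain ⟨a, i⟩ := y
    change QL (B + E) w L + w i • r1 a = QL B w L + w i • r1 a + E
    rw [ih]
    abel

/-- PROOF. `lim_le` with the identity matrix: add `ε` to the variables `0, 1, 2, 3` (additivity of
`QL` in the base form; the value of a polynomial is continuous in `ε`); for `ε > 0` use
`coneI_PH_pos`. -/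
theorem coneI_PH (hok : okR leafI L1 E4 = true) {x : ℕ → ℝ} (hx : ∀ i, 0 ≤ x i)
    (hQ : (QL (Bd x) x L1).PosDef) :
    ev 10 x (RPo 10 lfI pfI L1 E4).2 ≤ PH (QL (Bd x) x L1) := by
  obtain ⟨y, hy⟩ : ∃ y : ℝ → ℕ → ℝ, ∀ e i, y e i = if i < 4 then x i + e else x i :=
    ⟨fun e i => if i < 4 then x i + e else x i, fun _ _ => rfl⟩
  have hyc : ∀ i, Continuous fun e => y e i := by
    intro i
    have h1 : (fun e => y e i) = fun e => if i < 4 then x i + e else x i := by
      funext e
      exact hy e i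
    rw [h1]
    by_cases hi : i < 4
    · simp only [if_pos hi]
      fun_prop
    · simp only [if_neg hi]
      fun_prop
  have hy0 : y 0 = x := by
    funext i
    rw [hy]
    simp
  have hQL : ∀ e, QL (Bd (y e)) (y e) L1 = QL (Bd x) x L1 + e • (1 : Matrix (Fin 4) (Fin 4) ℝ) := by
    intro e
    have h1 : Bd (y e) = Bd x + e • (1 : Matrix (Fin 4) (Fin 4) ℝ) := by
      unfold Bd
      rw [← Matrix.diagonal_one, ← Matrix.diagonal_smul, Matrix.diagonal_add]
      congr 1
      funext i
      rw [hy, if_pos i.2]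
      simp
    rw [h1, QL_add]
    congr 1
    apply QL_congr
    intro z hz
    rw [hy, if_neg (by have := L1_ge z hz; omega)]
  have h2 := lim_le (Q := QL (Bd x) x L1) (E := 1) hQ Matrix.PosSemidef.one
    (f := fun e => ev 10 (y e) (RPo 10 lfI pfI L1 E4).2) (cont_ev 10 hyc _) ?_
  · simp only [hy0] at h2
    exact h2
  · intro e he
    rw [← hQL]
    refine coneI_PH_pos hok (fun i => ?_) fun i hi => ?_
    · rw [hy]
      split_ifs
      · linarith [hx i]
      · exact hx i
    · rw [hy, if_pos hi]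
      linarith [hx i]

end Pool.Agent.D4Q
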