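import Pool.Agent.D4Q.Dat1
import Pool.Agent.D4Q.ConeI

set_option autoImplicit false
set_option maxRecDepth 100000

/-!
# The polynomials of the cone number 1 (computation in the kernel)
-/

namespace Pool.Agent.D4Q.C1

theorem okR_L : okR leafI L1 E4 = true := by decide +kernel

theorem eq_D : eqP 10 (RPo 10 lfI pfI L1 E4).1 D = true := by decide +kernel

theorem eq_P : eqP 10 (RPo 10 lfI pfI L1 E4).2 P = true := by decide +kernel

end Pool.Agent.D4Q.C1
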