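import Pool.Agent.D4Q.Comp
import Pool.Agent.D4Q.Lim
import Pool.Agent.D4Q.RecP

set_option autoImplicit false

/-!
# P28. The polynomials of the cones with the base form `D_4`

The variable number `0` is the coefficient of the base form.
-/

namespace Pool.Agent.D4Q

open Matrix

/-- Leaf of the determinant. -/
def lfD (cs : List V) : MP 10 := monP 10 [cs.length, 0, 0, 0, 0, 0, 0, 0, 0, 0] (leafD cs)

/-- Leaf of the second moment. -/
def pfD (cs : List V) : MP 10 := monP 10 [cs.length + 1, 0, 0, 0, 0, 0, 0, 0, 0, 0] (leafP cs)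

/-- Additivity in the base form (induction on `L`). -/
theorem QL_add_base (B E : Matrix (Fin 4) (Fin 4) ℝ) (w : ℕ → ℝ) (L : List (V × ℕ)) :
    QL (B + E) w L = QL B w L + E := by
  induction L with
  | nil => rfl
  | cons y L ih =>
    obtain ⟨a, i⟩ := y
    show QL (B + E) w L + w i • r1 a = QL B w L + w i • r1 a + E
    rw [ih]
    abel

private theorem evL_cont {α : Type} (f : α → ℝ) (l : List α) :
    Continuous fun s : ℝ => evL f s l := by
  induction l with
  | nil => exact continuous_const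
  | cons a l ih =>
    show Continuous fun s : ℝ => f a + s * evL f s l
    exact continuous_const.add (continuous_id.mul ih)

/-- The value of a polynomial is a continuous function of the first variable. -/
theorem ev_cont (p : MP 10) (x : ℕ → ℝ) :
    Continuous fun s : ℝ => ev 10 (fun i => if i = 0 then s else x i) p := by
  have h : (fun s : ℝ => ev 10 (fun i => if i = 0 then s else x i) p) =
      fun s : ℝ => evL (ev 9 fun i => x (i + 1)) s p := by
    funext s
    exact ev_succ 9 (fun i => if i = 0 then s else x i) p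
  rw [h]
  exact evL_cont _ _

theorem QL_congr {B : Matrix (Fin 4) (Fin 4) ℝ} {w w' : ℕ → ℝ} {L : List (V × ℕ)}
    (h : ∀ y ∈ L, w y.2 = w' y.2) : QL B w L = QL B w' L := by
  induction L with
  | nil => rfl
  | cons y L ih =>
    have h1 := h y List.mem_cons_self
    obtain ⟨a, i⟩ := y
    show QL B w L + w i • r1 a = QL B w' L + w' i • r1 a
    rw [ih fun z hz => h z (List.mem_cons_of_mem _ hz), h1]

private theorem ev_lf (x : ℕ → ℝ) (k c : ℕ) :
    ev 10 x (monP 10 [k, 0, 0, 0, 0, 0, 0, 0, 0, 0] c) = x 0 ^ k * c := by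
  rw [ev_monP (n := 10) x (es := [k, 0, 0, 0, 0, 0, 0, 0, 0, 0]) rfl c]
  simp only [evM_cons, evM_nil, pow_zero, mul_one]
  ring

private theorem ev_cone {L : List (V × ℕ)} (hok : okR leafT L E4 = true)
    (hL : ∀ y ∈ L, y.2 < 10) (x : ℕ → ℝ) :
    ev 10 x (RPo 10 lfD pfD L E4).1 = DR (fun cs => x 0 ^ cs.length * leafD cs) x L E4 ∧
      ev 10 x (RPo 10 lfD pfD L E4).2 =
        PR (fun cs => x 0 ^ cs.length * leafD cs) (fun cs => x 0 ^ (cs.length + 1) * leafP cs)
          x L E4 :=
  ev_RPo leafT (fun cs _ => ev_lf x cs.length (leafD cs))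
    (fun cs _ => ev_lf x (cs.length + 1) (leafP cs)) L hL E4 hok

/-- **The determinant.** PROOF. `rec_det` with `lf cs = x 0 ^ cs.length * leafD cs`
(`leaf_det_s`, `gram_E4`, `flat_E4`), and `ev_RPo` (`ev_monP`). -/
theorem coneD_det {L : List (V × ℕ)} (hok : okR leafT L E4 = true) (hL : ∀ y ∈ L, y.2 < 10)
    (x : ℕ → ℝ) :
    (QL (x 0 • Gm) x L).det = ev 10 x (RPo 10 lfD pfD L E4).1 := by
  rw [(ev_cone hok hL x).1]
  have h := rec_det (B := x 0 • Gm) x (T := leafT)
    (lf := fun cs => x 0 ^ cs.length * leafD cs)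
    (fun S cs _ hT => leaf_det_s hT (x 0)) L [] E4 flat_E4 hok
  have h2 : Matrix.det (n := Fin 4) (gram (QL (x 0 • Gm) x L) E4) =
      (QL (x 0 • Gm) x L).det := by rw [gram_E4]
  rw [← h2]
  exact h

/-- **The second moment, positive coefficient of the base.** PROOF. `rec_PH` with the form
`x 0 • Gm` (positive definite), `compat_smul`, `leaf_det_s`, `leaf_PH_s`, and `ev_RPo`. -/
theorem coneD_PH_pos {L : List (V × ℕ)} (hok : okR leafT L E4 = true) (hL : ∀ y ∈ L, y.2 < 10)
    (hC : Compat Gm (L.map Prod.fst)) {x : ℕ → ℝ} (hx : ∀ i, 0 ≤ x i) (h0 : 0 < x 0) :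
    PH (QL (x 0 • Gm) x L) = ev 10 x (RPo 10 lfD pfD L E4).2 := by
  rw [(ev_cone hok hL x).2]
  have h := rec_PH (B := x 0 • Gm) (Gm_posDef.smul h0) (As := L.map Prod.fst)
    (compat_smul hC h0.le) (w := x) hx (T := leafT)
    (lf := fun cs => x 0 ^ cs.length * leafD cs)
    (pf := fun cs => x 0 ^ (cs.length + 1) * leafP cs)
    (fun S cs _ hT => leaf_det_s hT (x 0)) (fun S cs _ hT => leaf_PH_s hT h0.le) L
    (fun y hy => List.mem_map_of_mem hy) [] E4 (fun a ha => absurd ha List.not_mem_nil)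
    flat_E4 hok
  have h2 : PH (n := 4) (gram (QL (x 0 • Gm) x L) E4) = PH (QL (x 0 • Gm) x L) := by
    rw [gram_E4]
  rw [← h2]
  exact h

/-- **The second moment, general case.** PROOF. If `x 0 > 0` this is `coneD_PH_pos`. If `x 0 = 0`
then `QL (ε • Gm) x L = QL (x 0 • Gm) x L + ε • Gm` (`QL_add_base`) and `lim_le` with
`f ε = ev 10 (fun i => if i = 0 then ε else x i) ...` (`ev_cont`, `QL_congr`). -/
theorem coneD_PH {L : List (V × ℕ)} (hok : okR leafT L E4 = true)
    (hL : ∀ y ∈ L, 1 ≤ y.2 ∧ y.2 < 10) (hC : Compat Gm (L.map Prod.fst)) {x : ℕ → ℝ}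
    (hx : ∀ i, 0 ≤ x i) (hQ : (QL (x 0 • Gm) x L).PosDef) :
    ev 10 x (RPo 10 lfD pfD L E4).2 ≤ PH (QL (x 0 • Gm) x L) := by
  have hL' : ∀ y ∈ L, y.2 < 10 := fun y hy => (hL y hy).2
  rcases (hx 0).eq_or_lt with h0 | h0
  · have h1 : ∀ ε : ℝ, 0 < ε → PH (QL (x 0 • Gm) x L + ε • Gm) =
        ev 10 (fun i => if i = 0 then ε else x i) (RPo 10 lfD pfD L E4).2 := by
      intro ε hε
      have h2 : QL (x 0 • Gm) x L + ε • Gm = QL (ε • Gm) (fun i => if i = 0 then ε else x i) L := by
        rw [← QL_add_base, ← h0, zero_smul, zero_add]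
        exact QL_congr fun y hy => by
          have h3 : y.2 ≠ 0 := Nat.one_le_iff_ne_zero.1 (hL y hy).1
          simp only [h3, if_false]
      rw [h2]
      exact coneD_PH_pos (x := fun i => if i = 0 then ε else x i) hok hL' hC
        (fun i => by
          by_cases hi : i = 0
          · simp only [hi, if_true]
            exact hε.le
          · simp only [hi, if_false]
            exact hx i) hε
    have h4 := lim_le hQ Gm_posDef.posSemidef
      (f := fun s : ℝ => ev 10 (fun i => if i = 0 then s else x i) (RPo 10 lfD pfD L E4).2)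
      (ev_cont _ x) h1
    have h5 : (fun i => if i = 0 then (0 : ℝ) else x i) = x := by
      funext i
      by_cases hi : i = 0
      · simp only [hi, if_true]
        exact h0
      · simp only [hi, if_false]
    simp only [h5] at h4
    exact h4
  · exact (coneD_PH_pos hok hL' hC hx h0).ge

end Pool.Agent.D4Q
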