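import Pool.Agent.D4Q.Fin1
import Pool.Agent.D4Q.Fin2
import Pool.Agent.D4Q.Fin3
import Pool.Agent.D4Q.Pol1
import Pool.Agent.D4Q.Pol2
import Pool.Agent.D4Q.Pol3

set_option autoImplicit false

/-!
# P30. The bound in the three cones

(Do not unfold the data: use only the theorems `C3.main`, `C3.okR_L`, `C3.eq_D`, `C3.eq_P` and
`C3.nu`, `C3.tt`, which are the lists `[22, 5, ..., 5]`, `[0, 1, ..., 1]`; in `C1` the lists
`[5, ..., 5]`, `[1, ..., 1]`.)
-/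

namespace Pool.Agent.D4Q

open Matrix

/-- Without weights only the base form remains. -/
private theorem QL_zero {B : Matrix (Fin 4) (Fin 4) ℝ} {w : ℕ → ℝ} {L : List (V × ℕ)}
    (h : ∀ y ∈ L, w y.2 = 0) : QL B w L = B := by
  induction L with
  | nil => rfl
  | cons y L ih =>
    obtain ⟨a, i⟩ := y
    change QL B w L + w i • r1 a = B
    have hi : w i = 0 := h (a, i) List.mem_cons_self
    rw [ih fun y hy => h y (List.mem_cons_of_mem _ hy), hi, zero_smul, add_zero]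

private theorem lin22 (x : ℕ → ℝ) : linV [22, 5, 5, 5, 5, 5, 5, 5, 5, 5] x =
    22 * x 0 + 5 * (x 1 + x 2 + x 3 + x 4 + x 5 + x 6 + x 7 + x 8 + x 9) := by
  simp [linV, Finset.sum_range_succ]
  ring

private theorem lin01 (x : ℕ → ℝ) : linV [0, 1, 1, 1, 1, 1, 1, 1, 1, 1] x =
    x 1 + x 2 + x 3 + x 4 + x 5 + x 6 + x 7 + x 8 + x 9 := by
  simp [linV, Finset.sum_range_succ]

private theorem lin5 (x : ℕ → ℝ) : linV [5, 5, 5, 5, 5, 5, 5, 5, 5, 5] x =
    5 * (x 0 + x 1 + x 2 + x 3 + x 4 + x 5 + x 6 + x 7 + x 8 + x 9) := by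
  simp [linV, Finset.sum_range_succ]
  ring

private theorem lin1 (x : ℕ → ℝ) : linV [1, 1, 1, 1, 1, 1, 1, 1, 1, 1] x =
    x 0 + x 1 + x 2 + x 3 + x 4 + x 5 + x 6 + x 7 + x 8 + x 9 := by
  simp [linV, Finset.sum_range_succ]

/-- The assembly. -/
private theorem bnd_aux {Q : Matrix (Fin 4) (Fin 4) ℝ} {D P ν T : ℝ} (hQ : Q.PosDef)
    (hD : Q.det = D) (hP : P ≤ PH Q) (hν : 0 < ν) (hT : 0 ≤ T)
    (h : 761332 * (D * D) ≤ ν * (ν * ((44 : ℕ) * (ν * P) -
      ((39 : ℕ) * (ν * (ν * D)) + T * (T * D))))) :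
    28561 * Q.det ≤ 3240000 * FF Q ^ 4 ∧ (28561 * Q.det = 3240000 * FF Q ^ 4 → T = 0) := by
  have hd : 0 < D := hD ▸ hQ.det_pos
  rw [PH, hD] at hP
  rw [hD]
  refine am_gm_fin hd hν hT hP ?_
  push_cast at h
  exact h

/-- In the two cones with the base form `D_4` the linear form is positive. -/
private theorem nu_pos {x : ℕ → ℝ} {L : List (V × ℕ)} (hL : ∀ y ∈ L, 1 ≤ y.2 ∧ y.2 < 10)
    (hx : ∀ i, 0 ≤ x i) (hQ : (QL (x 0 • Gm) x L).PosDef) :
    0 < linV [22, 5, 5, 5, 5, 5, 5, 5, 5, 5] x := by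
  by_contra hc
  rw [lin22] at hc
  have h0 := hx 0
  have h1 := hx 1
  have h2 := hx 2
  have h3 := hx 3
  have h4 := hx 4
  have h5 := hx 5
  have h6 := hx 6
  have h7 := hx 7
  have h8 := hx 8
  have h9 := hx 9
  have hz : ∀ i < 10, x i = 0 := by
    intro i hi
    interval_cases i <;> linarith
  have e : QL (x 0 • Gm) x L = 0 := by
    rw [QL_zero fun y hy => hz y.2 (hL y hy).2, hz 0 (by norm_num), zero_smul]
  have hp := hQ.det_pos
  rw [e, Matrix.det_zero] at hp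
  exact lt_irrefl _ hp

/-- The sum of the weights zero. -/
private theorem QL_of_sum {x : ℕ → ℝ} {L : List (V × ℕ)} (hL : ∀ y ∈ L, 1 ≤ y.2 ∧ y.2 < 10)
    (hx : ∀ i, 0 ≤ x i) (h : linV [0, 1, 1, 1, 1, 1, 1, 1, 1, 1] x = 0) :
    QL (x 0 • Gm) x L = x 0 • Gm := by
  rw [lin01] at h
  have h1 := hx 1
  have h2 := hx 2
  have h3 := hx 3
  have h4 := hx 4
  have h5 := hx 5
  have h6 := hx 6
  have h7 := hx 7
  have h8 := hx 8
  have h9 := hx 9
  have hz : ∀ i, 1 ≤ i → i < 10 → x i = 0 := by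
    intro i hi hi'
    interval_cases i <;> linarith
  exact QL_zero fun y hy => hz y.2 (hL y hy).1 (hL y hy).2

private theorem T_nonneg {x : ℕ → ℝ} (hx : ∀ i, 0 ≤ x i) :
    0 ≤ linV [0, 1, 1, 1, 1, 1, 1, 1, 1, 1] x := by
  rw [lin01]
  have h1 := hx 1
  have h2 := hx 2
  have h3 := hx 3
  have h4 := hx 4
  have h5 := hx 5
  have h6 := hx 6
  have h7 := hx 7
  have h8 := hx 8
  have h9 := hx 9
  linarith

private theorem idx3 : ∀ y ∈ L3, 1 ≤ y.2 ∧ y.2 < 10 := by decide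

private theorem idx2 : ∀ y ∈ L2, 1 ≤ y.2 ∧ y.2 < 10 := by decide

private theorem idx1 : ∀ y ∈ L1, 1 ≤ y.2 ∧ y.2 < 10 := by decide

/-- **Third cone.** PROOF. `D = ev 10 x C3.D` is the determinant (`coneD_det`, `ev_eqP C3.eq_D`),
`P = ev 10 x C3.P ≤ PH = 60 D FF` (`coneD_PH`, `ev_eqP C3.eq_P`). `D > 0` (positive definite),
`ν = linV nu x = 22 x 0 + 5 (x 1 + ... + x 9) > 0` because otherwise all `x i` with `i < 10` vanish
and the form is zero. `C3.main` and `am_gm_fin`; if equality holds then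
`T = linV tt x = x 1 + ... + x 9 = 0`. -/
theorem bnd3 {x : ℕ → ℝ} (hx : ∀ i, 0 ≤ x i) (hQ : (QL (x 0 • Gm) x L3).PosDef) :
    28561 * (QL (x 0 • Gm) x L3).det ≤ 3240000 * FF (QL (x 0 • Gm) x L3) ^ 4 ∧
      (28561 * (QL (x 0 • Gm) x L3).det = 3240000 * FF (QL (x 0 • Gm) x L3) ^ 4 →
        QL (x 0 • Gm) x L3 = x 0 • Gm) := by
  have hm := C3.main hx
  have hD : (QL (x 0 • Gm) x L3).det = ev 10 x C3.D := by
    rw [coneD_det C3.okR_L (fun y hy => (idx3 y hy).2) x]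
    exact ev_eqP C3.eq_D x
  have hP : ev 10 x C3.P ≤ PH (QL (x 0 • Gm) x L3) := by
    rw [← ev_eqP C3.eq_P x]
    exact coneD_PH C3.okR_L idx3 compat_L3 hx hQ
  have h := bnd_aux hQ hD hP (nu_pos idx3 hx hQ) (T_nonneg hx) hm
  exact ⟨h.1, fun he => QL_of_sum idx3 hx (h.2 he)⟩

/-- **Second cone.** The same. -/
theorem bnd2 {x : ℕ → ℝ} (hx : ∀ i, 0 ≤ x i) (hQ : (QL (x 0 • Gm) x L2).PosDef) :
    28561 * (QL (x 0 • Gm) x L2).det ≤ 3240000 * FF (QL (x 0 • Gm) x L2) ^ 4 ∧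
      (28561 * (QL (x 0 • Gm) x L2).det = 3240000 * FF (QL (x 0 • Gm) x L2) ^ 4 →
        QL (x 0 • Gm) x L2 = x 0 • Gm) := by
  have hm := C2.main hx
  have hD : (QL (x 0 • Gm) x L2).det = ev 10 x C2.D := by
    rw [coneD_det C2.okR_L (fun y hy => (idx2 y hy).2) x]
    exact ev_eqP C2.eq_D x
  have hP : ev 10 x C2.P ≤ PH (QL (x 0 • Gm) x L2) := by
    rw [← ev_eqP C2.eq_P x]
    exact coneD_PH C2.okR_L idx2 compat_L2 hx hQ
  have h := bnd_aux hQ hD hP (nu_pos idx2 hx hQ) (T_nonneg hx) hm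
  exact ⟨h.1, fun he => QL_of_sum idx2 hx (h.2 he)⟩

/-- **First cone.** The same with `coneI_det`, `coneI_PH`; equality would give
`T = x 0 + ... + x 9 = 0`, and the form would be zero. -/
theorem bnd1 {x : ℕ → ℝ} (hx : ∀ i, 0 ≤ x i) (hQ : (QL (Bd x) x L1).PosDef) :
    28561 * (QL (Bd x) x L1).det < 3240000 * FF (QL (Bd x) x L1) ^ 4 := by
  have hm := C1.main hx
  have hD : (QL (Bd x) x L1).det = ev 10 x C1.D := by
    rw [coneI_det C1.okR_L x]
    exact ev_eqP C1.eq_D x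
  have hP : ev 10 x C1.P ≤ PH (QL (Bd x) x L1) := by
    rw [← ev_eqP C1.eq_P x]
    exact coneI_PH C1.okR_L hx hQ
  have h0 := hx 0
  have h1 := hx 1
  have h2 := hx 2
  have h3 := hx 3
  have h4 := hx 4
  have h5 := hx 5
  have h6 := hx 6
  have h7 := hx 7
  have h8 := hx 8
  have h9 := hx 9
  have hT0 : 0 ≤ linV [1, 1, 1, 1, 1, 1, 1, 1, 1, 1] x := by
    rw [lin1]
    linarith
  have hTz : linV [1, 1, 1, 1, 1, 1, 1, 1, 1, 1] x ≠ 0 := by
    intro hc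
    rw [lin1] at hc
    have hz : ∀ i < 10, x i = 0 := by
      intro i hi
      interval_cases i <;> linarith
    have e : QL (Bd x) x L1 = 0 := by
      rw [QL_zero fun y hy => hz y.2 (idx1 y hy).2, Bd]
      rw [show (fun i : Fin 4 => x i) = 0 from funext fun i => hz i (by omega)]
      exact Matrix.diagonal_zero
    have hp := hQ.det_pos
    rw [e, Matrix.det_zero] at hp
    exact lt_irrefl _ hp
  have hν : 0 < linV [5, 5, 5, 5, 5, 5, 5, 5, 5, 5] x := by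
    have h10 := lt_of_le_of_ne hT0 (Ne.symm hTz)
    rw [lin1] at h10
    rw [lin5]
    linarith
  have h := bnd_aux hQ hD hP hν hT0 hm
  exact lt_of_le_of_ne h.1 fun he => hTz (h.2 he)

end Pool.Agent.D4Q
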