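import Pool.Agent.D4Q.Dat2b

set_option autoImplicit false
set_option maxRecDepth 100000

/-!
# Certificate for the cone II: computations in the kernel
-/

namespace Pool.Agent.D4Q.C2

theorem setup :
    Setup gens H Gk W :=
  {
    gensP := by decide
    HP := by decide +kernel
    chk := by decide +kernel
    ok := by decide +kernel
    len := by decide +kernel
    W10 := by decide +kernel
    pack := by decide +kernel }

theorem w_nu : invW gens nu = true := by decide +kernel

theorem w_tt : invW gens tt = true := by decide +kernel

theorem iP : invP 10 gens P = true := by decide +kernel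

theorem iD : invP 10 gens D = true := by decide +kernel

theorem K_P0 : okStart W Gk.length hP0 P P0 = true := by decide +kernel

theorem K_D0 : okStart W Gk.length hD0 D D0 = true := by decide +kernel

theorem K_A1 : okLin W Gk.length nu hA1 P0 A1 = true := by decide +kernel

theorem K_B1 : okLin W Gk.length nu hB1 D0 B1 = true := by decide +kernel

theorem K_B2 : okLin W Gk.length nu hB2 B1 B2 = true := by decide +kernel

theorem K_U1 : okLin W Gk.length tt hU1 D0 U1 = true := by decide +kernel

theorem K_U2 : okLin W Gk.length tt hU2 U1 U2 = true := by decide +kernel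

theorem c_W :
    beqK (mrg (mrg (smulK 44 A1) (mrg (smulK 39 []) [])) Wm) (mrg (mrg (smulK 44 []) (mrg (smulK 39 B2) U2)) Wp) = true :=
  by decide +kernel

theorem K_Ypl : okLin W Gk.length nu hYpl Wpl_Yp Ypl = true := by decide +kernel

theorem K_Ypr : okLin W Gk.length nu hYpr Wpr_Yp Ypr = true := by decide +kernel

theorem Sp_Yp : beqK (mrg Wpl_Yp Wpr_Yp) Wp = true := by decide +kernel

theorem Sq_Yp : beqK (mrg Ypl Ypr) Yp = true := by decide +kernel

end Pool.Agent.D4Q.C2
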