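import Pool.Agent.D4Q.LeafB
import Pool.Agent.D4Q.RecR

set_option autoImplicit false

/-!
# P27. Compatibility of the base forms with the functionals
-/

namespace Pool.Agent.D4Q

open Matrix

/-- The list of functionals of the third cone, with the numbers of their weights. -/
def L3 : List (V × ℕ) :=
  [((1, 1, 0, 0), 1), ((1, -1, 1, 0), 2), ((0, 0, -1, 1), 3), ((1, 0, 0, 0), 4),
    ((0, 1, 0, -1), 5), ((0, 1, -1, 1), 6), ((0, 1, -1, 0), 7), ((1, 0, 0, 1), 8),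
    ((0, 1, 0, 0), 9)]

/-- The list of functionals of the second cone. -/
def L2 : List (V × ℕ) :=
  [((1, 1, 0, 0), 1), ((1, -1, 1, 0), 2), ((0, 0, -1, 1), 3), ((1, 0, 0, 0), 4),
    ((0, 1, 0, -1), 5), ((0, 1, -1, 1), 6), ((0, 1, -1, 0), 7), ((1, 0, 1, -1), 8),
    ((1, 0, 0, 1), 9)]

/-- Companions for the third cone, one in every class modulo two. -/
def tab3 : List V :=
  [(0, 0, 0, 0), (0, 0, 0, 1), (0, 0, 1, 0), (0, 0, 1, 1), (0, 1, 0, 0), (0, 1, 2, 1),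
    (0, 1, 1, 0), (0, 1, 1, 1), (1, 0, 0, 0), (1, 0, 0, -1), (1, 0, -1, 0), (1, 0, -1, -1),
    (1, -1, -2, -2), (1, -1, -2, -1), (1, -1, -1, 0), (1, -1, -1, -1)]

/-- Companions for the second cone. -/
def tab2 : List V :=
  [(0, 0, 0, 0), (0, 0, 0, 1), (0, 0, 1, 0), (0, 0, 1, 1), (0, 1, 0, 0), (0, 1, 2, 1),
    (0, 1, 1, 0), (0, 1, 1, 1), (1, 0, 0, 0), (1, -2, -2, -1), (1, 0, -1, 0), (1, 0, -1, -1),
    (1, -1, -2, -2), (1, -1, -2, -1), (1, -1, -1, 0), (1, -1, -1, -1)]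

/-- The class modulo two. -/
def cls (v : V) : ℤ × ℤ × ℤ × ℤ := (v.1 % 2, v.2.1 % 2, v.2.2.1 % 2, v.2.2.2 % 2)

/-- **Compatibility from a table.** PROOF. Given `d` take the member `v` of the table in the class
of `d`. `d = v + 2 e` gives `gD d d = gD v v + 4 gD v e + 4 gD e e` (`gD` is symmetric and
bilinear), so `gD d d ≡ gD v v (mod 4)`; also `gD d d ≥ 0`, and `gD v v ∈ {0, 2, 4}`. If
`gD v v ≤ 2` this gives `gD d d ≥ gD v v`; if `gD v v = 4` then `v` and `d` are not divisible by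
two, so `d ≠ 0` and `gD d d > 0` (`Gm_posDef`), hence `gD d d ≥ 4`. -/
theorem compat_tab {tab As : List V}
    (h1 : ∀ c ∈ [(0 : ℤ), 1], ∀ c' ∈ [(0 : ℤ), 1], ∀ c'' ∈ [(0 : ℤ), 1], ∀ c''' ∈ [(0 : ℤ), 1],
      ∃ v ∈ tab, cls v = (c, c', c'', c'''))
    (h2 : ∀ v ∈ tab, ∀ a ∈ As, |dot a v| ≤ 1)
    (h3 : ∀ v ∈ tab, gD v v = 0 ∨ gD v v = 2 ∨ (gD v v = 4 ∧ cls v ≠ (0, 0, 0, 0))) :
    Compat Gm As := by
  intro d
  obtain ⟨v, hv, hc⟩ : ∃ v ∈ tab, cls v = cls d := by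
    have hm : ∀ z : ℤ, z % 2 ∈ [(0 : ℤ), 1] := by
      intro z
      rcases Int.emod_two_eq_zero_or_one z with h | h <;> rw [h] <;> decide
    exact h1 _ (hm d.1) _ (hm d.2.1) _ (hm d.2.2.1) _ (hm d.2.2.2)
  have hc' := hc
  simp only [cls, Prod.mk.injEq] at hc'
  obtain ⟨c1, c2, c3, c4⟩ := hc'
  obtain ⟨e1, g1⟩ : ∃ e : ℤ, d.1 = v.1 + 2 * e := ⟨(d.1 - v.1) / 2, by omega⟩
  obtain ⟨e2, g2⟩ : ∃ e : ℤ, d.2.1 = v.2.1 + 2 * e := ⟨(d.2.1 - v.2.1) / 2, by omega⟩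
  obtain ⟨e3, g3⟩ : ∃ e : ℤ, d.2.2.1 = v.2.2.1 + 2 * e := ⟨(d.2.2.1 - v.2.2.1) / 2, by omega⟩
  obtain ⟨e4, g4⟩ : ∃ e : ℤ, d.2.2.2 = v.2.2.2 + 2 * e := ⟨(d.2.2.2 - v.2.2.2) / 2, by omega⟩
  have hd : gD d d = gD v v +
      4 * (gD v (e1, e2, e3, e4) + gD (e1, e2, e3, e4) (e1, e2, e3, e4)) := by
    simp only [gD, dot, g1, g2, g3, g4]
    ring
  have hn : 0 ≤ gD d d := by
    unfold gD
    have s1 := mul_self_nonneg (dot (1, 1, 0, 0) d)
    have s2 := mul_self_nonneg (dot (1, -1, 1, 0) d)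
    have s3 := mul_self_nonneg (dot (0, 0, -1, 1) d)
    have s4 := mul_self_nonneg (dot (0, 0, 0, -1) d)
    linarith
  refine ⟨v, h2 v hv, ⟨(e1, e2, e3, e4), ?_⟩, ?_⟩
  · refine Prod.ext ?_ (Prod.ext ?_ (Prod.ext ?_ ?_))
    · show d.1 - v.1 = e1 + e1
      omega
    · show d.2.1 - v.2.1 = e2 + e2
      omega
    · show d.2.2.1 - v.2.2.1 = e3 + e3
      omega
    · show d.2.2.2 - v.2.2.2 = e4 + e4
      omega
  · rw [bl_Gm, bl_Gm]
    have hle : gD v v ≤ gD d d := by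
      rcases h3 v hv with h | h | ⟨h, h'⟩
      · omega
      · omega
      · by_contra hlt
        have h0 : gD d d = 0 := by omega
        unfold gD at h0
        have s1 := mul_self_nonneg (dot (1, 1, 0, 0) d)
        have s2 := mul_self_nonneg (dot (1, -1, 1, 0) d)
        have s3 := mul_self_nonneg (dot (0, 0, -1, 1) d)
        have s4 := mul_self_nonneg (dot (0, 0, 0, -1) d)
        have t1 := mul_self_eq_zero.1 (show dot (1, 1, 0, 0) d * dot (1, 1, 0, 0) d = 0 by linarith)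
        have t2 := mul_self_eq_zero.1
          (show dot (1, -1, 1, 0) d * dot (1, -1, 1, 0) d = 0 by linarith)
        have t3 := mul_self_eq_zero.1
          (show dot (0, 0, -1, 1) d * dot (0, 0, -1, 1) d = 0 by linarith)
        have t4 := mul_self_eq_zero.1
          (show dot (0, 0, 0, -1) d * dot (0, 0, 0, -1) d = 0 by linarith)
        simp only [dot] at t1 t2 t3 t4
        have u4 : d.2.2.2 = 0 := by omega
        have u3 : d.2.2.1 = 0 := by omega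
        have u2 : d.2.1 = 0 := by omega
        have u1 : d.1 = 0 := by omega
        apply h'
        rw [hc]
        unfold cls
        rw [u1, u2, u3, u4]
        rfl
    exact_mod_cast hle

theorem compat_L3 : Compat Gm (L3.map Prod.fst) := by
  exact compat_tab (tab := tab3) (by decide +kernel) (by decide +kernel) (by decide +kernel)

theorem compat_L2 : Compat Gm (L2.map Prod.fst) := by
  exact compat_tab (tab := tab2) (by decide +kernel) (by decide +kernel) (by decide +kernel)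

/-- The functionals of the first cone (differences of coordinates). -/
def L1 : List (V × ℕ) :=
  [((1, -1, 0, 0), 4), ((1, 0, -1, 0), 5), ((1, 0, 0, -1), 6), ((0, 1, -1, 0), 7),
    ((0, 1, 0, -1), 8), ((0, 0, 1, -1), 9)]

/-- PROOF. The companion of `d` is the vector `v` with coordinates `0` and `1` congruent to `d`:
`v_i^2 ≤ d_i^2`, and differences of coordinates of `v` are `-1`, `0` or `1`. -/
theorem compat_diag {ρ : Fin 4 → ℝ} (hρ : ∀ i, 0 ≤ ρ i) :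
    Compat (Matrix.diagonal ρ) (L1.map Prod.fst) := by
  intro d
  have hb : ∀ x : V, bl (Matrix.diagonal ρ) x x = ρ 0 * ((x.1 : ℤ) : ℝ) ^ 2 +
      ρ 1 * ((x.2.1 : ℤ) : ℝ) ^ 2 + ρ 2 * ((x.2.2.1 : ℤ) : ℝ) ^ 2 +
      ρ 3 * ((x.2.2.2 : ℤ) : ℝ) ^ 2 := by
    intro x
    unfold bl
    rw [show Matrix.diagonal ρ *ᵥ ic (vc x) = fun i => ρ i * ic (vc x) i from
      funext fun i => Matrix.mulVec_diagonal ρ _ i]
    simp only [dotProduct, Fin.sum_univ_four, ic, vc]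
    simp only [Matrix.cons_val]
    ring
  have hq : ∀ z : ℤ, (((z % 2 : ℤ)) : ℝ) ^ 2 ≤ ((z : ℤ) : ℝ) ^ 2 := by
    intro z
    have h : (z % 2) ^ 2 ≤ z ^ 2 := by
      rcases Int.emod_two_eq_zero_or_one z with h | h
      · rw [h]
        positivity
      · rw [h, sq_le_sq]
        exact Int.one_le_abs (by omega)
    exact_mod_cast h
  refine ⟨(d.1 % 2, d.2.1 % 2, d.2.2.1 % 2, d.2.2.2 % 2), ?_,
    ⟨(d.1 / 2, d.2.1 / 2, d.2.2.1 / 2, d.2.2.2 / 2), ?_⟩, ?_⟩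
  · intro a ha
    simp only [L1, List.map_cons, List.map_nil, List.mem_cons, List.not_mem_nil, or_false] at ha
    rcases ha with rfl | rfl | rfl | rfl | rfl | rfl <;>
    · simp only [dot]
      rw [abs_le]
      constructor <;> omega
  · refine Prod.ext ?_ (Prod.ext ?_ (Prod.ext ?_ ?_))
    · show d.1 - d.1 % 2 = d.1 / 2 + d.1 / 2
      omega
    · show d.2.1 - d.2.1 % 2 = d.2.1 / 2 + d.2.1 / 2
      omega
    · show d.2.2.1 - d.2.2.1 % 2 = d.2.2.1 / 2 + d.2.2.1 / 2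
      omega
    · show d.2.2.2 - d.2.2.2 % 2 = d.2.2.2 / 2 + d.2.2.2 / 2
      omega
  · rw [hb, hb]
    have k1 := mul_le_mul_of_nonneg_left (hq d.1) (hρ 0)
    have k2 := mul_le_mul_of_nonneg_left (hq d.2.1) (hρ 1)
    have k3 := mul_le_mul_of_nonneg_left (hq d.2.2.1) (hρ 2)
    have k4 := mul_le_mul_of_nonneg_left (hq d.2.2.2) (hρ 3)
    linarith

end Pool.Agent.D4Q
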