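import Pool.Agent.D4Q.Defs

set_option autoImplicit false

/-!
# P05. One line: convex sequences of layers
-/

namespace Pool.Agent.D4Q

open MeasureTheory

/-- **The nearest layer.** PROOF. Put `h k = G k + q (r - k)^2` and `D k = h (k + 1) - h k
= G (k + 1) - G k + q (1 - 2 (r - k))`. Then `D k - D (k - 1) = G (k + 1) + G (k - 1) - 2 G k + 2 q ≥ 0`
by `hG`, `D 0 ≥ 0` is `h1` and `D (-1) ≤ 0` is `h2` (multiply by `2 q > 0`). So `D` is monotone,
`D k ≥ 0` for `k ≥ 0`, `D k ≤ 0` for `k ≤ -1`, and `h k ≥ h 0` for all `k` by induction in both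
directions. Hence the infimum is the value at `k = 0` (`ciInf_le`, `le_ciInf`). -/
theorem layer_min {G : ℤ → ℝ} {q : ℝ} (hq : 0 < q)
    (hG : ∀ k : ℤ, -(2 * q) ≤ G (k + 1) + G (k - 1) - 2 * G k) {r : ℝ}
    (h1 : r ≤ 1 / 2 + (G 1 - G 0) / (2 * q)) (h2 : -(1 / 2) + (G 0 - G (-1)) / (2 * q) ≤ r) :
    ⨅ k : ℤ, (G k + q * (r - k) ^ 2) = G 0 + q * r ^ 2 := by
  obtain ⟨h, hh⟩ : ∃ h : ℤ → ℝ, h = fun k => G k + q * (r - k) ^ 2 := ⟨_, rfl⟩
  obtain ⟨D, hD⟩ : ∃ D : ℤ → ℝ, D = fun k => h (k + 1) - h k := ⟨_, rfl⟩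
  have e1 : ∀ k : ℤ, D k = G (k + 1) - G k + q * (1 - 2 * (r - k)) := by
    intro k
    rw [hD, hh]
    push_cast
    ring
  have mono : ∀ k : ℤ, D (k - 1) ≤ D k := by
    intro k
    rw [e1, e1]
    have h3 := hG k
    have e2 : k - 1 + 1 = k := by ring
    rw [e2]
    push_cast
    nlinarith
  have d0 : 0 ≤ D 0 := by
    rw [e1, zero_add]
    have h3 : (G 1 - G 0) / (2 * q) * (2 * q) = G 1 - G 0 := by field_simp
    have h4 : r * (2 * q) ≤ (1 / 2 + (G 1 - G 0) / (2 * q)) * (2 * q) :=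
      mul_le_mul_of_nonneg_right h1 (by linarith)
    rw [add_mul, h3] at h4
    push_cast
    nlinarith
  have dm : D (-1) ≤ 0 := by
    rw [e1]
    have h3 : (G 0 - G (-1)) / (2 * q) * (2 * q) = G 0 - G (-1) := by field_simp
    have h4 : (-(1 / 2) + (G 0 - G (-1)) / (2 * q)) * (2 * q) ≤ r * (2 * q) :=
      mul_le_mul_of_nonneg_right h2 (by linarith)
    rw [add_mul, h3] at h4
    have e2 : (-1 : ℤ) + 1 = 0 := by norm_num
    rw [e2]
    push_cast
    nlinarith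
  have up : ∀ n : ℕ, 0 ≤ D n ∧ h 0 ≤ h n := by
    intro n
    induction n with
    | zero => exact ⟨by simpa using d0, by simp⟩
    | succ n ih =>
      constructor
      · have h3 := mono ((n : ℤ) + 1)
        have e2 : (n : ℤ) + 1 - 1 = n := by ring
        rw [e2] at h3
        push_cast
        linarith [ih.1]
      · have h3 := ih.1
        rw [hD] at h3
        push_cast
        have h4 : 0 ≤ h ((n : ℤ) + 1) - h n := h3
        linarith [ih.2]
  have dn : ∀ n : ℕ, D (-(n : ℤ) - 1) ≤ 0 ∧ h 0 ≤ h (-(n : ℤ)) := by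
    intro n
    induction n with
    | zero =>
      refine ⟨?_, by simp⟩
      have e2 : -((0 : ℕ) : ℤ) - 1 = -1 := by norm_num
      rw [e2]
      exact dm
    | succ n ih =>
      constructor
      · have h3 := mono (-(n : ℤ) - 1)
        have e2 : -(((n + 1 : ℕ) : ℤ)) - 1 = -(n : ℤ) - 1 - 1 := by push_cast; ring
        rw [e2]
        linarith [ih.1]
      · have h3 := ih.1
        rw [hD] at h3
        have h4 : h (-(n : ℤ) - 1 + 1) - h (-(n : ℤ) - 1) ≤ 0 := h3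
        have e2 : -(n : ℤ) - 1 + 1 = -(n : ℤ) := by ring
        rw [e2] at h4
        have e3 : -(((n + 1 : ℕ) : ℤ)) = -(n : ℤ) - 1 := by push_cast; ring
        rw [e3]
        linarith [ih.2]
  have all : ∀ k : ℤ, h 0 ≤ h k := by
    intro k
    rcases Int.eq_nat_or_neg k with ⟨n, rfl | rfl⟩
    · exact (up n).2
    · exact (dn n).2
  have e0 : h 0 = G 0 + q * r ^ 2 := by
    rw [hh]
    push_cast
    ring
  have e5 : (⨅ k : ℤ, (G k + q * (r - k) ^ 2)) = ⨅ k : ℤ, h k := by rw [hh]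
  rw [e5, ← e0]
  refine le_antisymm (ciInf_le ⟨h 0, ?_⟩ 0) (le_ciInf all)
  rintro _ ⟨k, rfl⟩
  exact all k

/-- The layer function. -/
noncomputable def lay {n : ℕ} (g : (Fin n → ℝ) → ℝ) (p : Fin n → ℝ) (q : ℝ) (z : Fin n → ℝ)
    (r : ℝ) : ℝ :=
  ⨅ k : ℤ, (g (z - (k : ℝ) • p) + q * (r - k) ^ 2)

variable {n : ℕ} {g : (Fin n → ℝ) → ℝ}

/-- A continuous periodic function is bounded (it takes all its values on the compact cube
`Set.Icc 0 1`: subtract integer parts). -/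
theorem per_bdd (hg : Continuous g) (hp : Per g) : ∃ C : ℝ, ∀ z, |g z| ≤ C := by
  obtain ⟨C, hC⟩ := (isCompact_Icc (a := (0 : Fin n → ℝ)) (b := 1)).exists_bound_of_continuousOn
    hg.continuousOn
  refine ⟨C, fun z => ?_⟩
  have h1 := hp (z - ic fun i => ⌊z i⌋) fun i => ⌊z i⌋
  rw [sub_add_cancel] at h1
  rw [h1, ← Real.norm_eq_abs]
  refine hC _ ⟨fun i => ?_, fun i => ?_⟩
  · show (0 : ℝ) ≤ z i - (⌊z i⌋ : ℝ)
    linarith [Int.floor_le (z i)]
  · show z i - (⌊z i⌋ : ℝ) ≤ 1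
    linarith [Int.lt_floor_add_one (z i)]

/-- **Continuity of the layer function.** PROOF. Let `|g| ≤ C` (`per_bdd`). On the open set
`|r| < R` only the `k` with `|k| ≤ K` matter, where `K` is so large that `q (K - R)^2 > 2 C + q R^2`:
there `lay` is the minimum of finitely many continuous functions. -/
theorem lay_cont (hg : Continuous g) (hp : Per g) (p : Fin n → ℝ) {q : ℝ} (hq : 0 < q) :
    Continuous fun x : (Fin n → ℝ) × ℝ => lay g p q x.1 x.2 := by
  obtain ⟨C, hC⟩ := per_bdd hg hp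
  have hC0 : 0 ≤ C := (abs_nonneg _).trans (hC 0)
  rw [continuous_iff_continuousAt]
  rintro ⟨z₀, r₀⟩
  obtain ⟨R, hR⟩ : ∃ R : ℝ, R = |r₀| + 1 := ⟨_, rfl⟩
  have hR0 : 0 ≤ R := by rw [hR]; positivity
  obtain ⟨K, hK⟩ := exists_nat_gt (R + (2 * C + q * R ^ 2) / q + 1)
  have hS0 : 0 ≤ (2 * C + q * R ^ 2) / q := by positivity
  have hne : (Finset.Icc (-(K : ℤ)) K).Nonempty := ⟨0, by simp⟩
  have hF : Continuous fun x : (Fin n → ℝ) × ℝ => (Finset.Icc (-(K : ℤ)) K).inf' hne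
      fun k : ℤ => g (x.1 - (k : ℝ) • p) + q * (x.2 - k) ^ 2 := by
    refine Continuous.finset_inf'_apply hne fun k _ => ?_
    exact (hg.comp (continuous_fst.sub continuous_const)).add
      (continuous_const.mul ((continuous_snd.sub continuous_const).pow 2))
  refine hF.continuousAt.congr ?_
  have hopen : {x : (Fin n → ℝ) × ℝ | |x.2| < R} ∈ nhds (z₀, r₀) := by
    refine (isOpen_lt (continuous_abs.comp continuous_snd) continuous_const).mem_nhds ?_
    show |r₀| < R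
    rw [hR]
    linarith
  filter_upwards [hopen] with x hx
  have hx' : |x.2| < R := hx
  have hb : ∀ k : ℤ, -C ≤ g (x.1 - (k : ℝ) • p) + q * (x.2 - k) ^ 2 := by
    intro k
    have h1 := (abs_le.1 (hC (x.1 - (k : ℝ) • p))).1
    have h2 : 0 ≤ q * (x.2 - k) ^ 2 := by positivity
    linarith
  have hfar : ∀ k : ℤ, k ∉ Finset.Icc (-(K : ℤ)) K →
      g (x.1 - ((0 : ℤ) : ℝ) • p) + q * (x.2 - ((0 : ℤ) : ℝ)) ^ 2 ≤
        g (x.1 - (k : ℝ) • p) + q * (x.2 - k) ^ 2 := by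
    intro k hk
    have h1 := (abs_le.1 (hC (x.1 - (k : ℝ) • p))).1
    have h2 := (abs_le.1 (hC (x.1 - ((0 : ℤ) : ℝ) • p))).2
    have hkK : (K : ℝ) ≤ |(k : ℝ)| := by
      rw [Finset.mem_Icc, not_and_or, not_le, not_le] at hk
      rcases hk with hk | hk
      · have : (k : ℝ) < -(K : ℝ) := by exact_mod_cast hk
        rw [abs_of_nonpos (by linarith [(Nat.cast_nonneg K : (0 : ℝ) ≤ K)])]
        linarith
      · have : (K : ℝ) < (k : ℝ) := by exact_mod_cast hk
        exact this.le.trans (le_abs_self _)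
    have h3 : (K : ℝ) - R ≤ |x.2 - k| := by
      have := abs_sub_abs_le_abs_sub (k : ℝ) x.2
      rw [abs_sub_comm] at this
      linarith
    have h4 : 1 ≤ (K : ℝ) - R := by linarith
    have h5 : (K : ℝ) - R ≤ (x.2 - k) ^ 2 := by
      rw [← sq_abs]
      nlinarith
    have h6 : (2 * C + q * R ^ 2) / q ≤ (x.2 - k) ^ 2 := by linarith
    have h7 : 2 * C + q * R ^ 2 ≤ q * (x.2 - k) ^ 2 := by
      rw [div_le_iff₀ hq] at h6
      linarith
    have h8 : (x.2 - ((0 : ℤ) : ℝ)) ^ 2 ≤ R ^ 2 := by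
      rw [Int.cast_zero, sub_zero, ← sq_abs x.2]
      exact pow_le_pow_left₀ (abs_nonneg _) hx'.le 2
    have h9 := mul_le_mul_of_nonneg_left h8 hq.le
    linarith
  unfold lay
  refine le_antisymm (le_ciInf fun k => ?_) ?_
  · by_cases hk : k ∈ Finset.Icc (-(K : ℤ)) K
    · exact Finset.inf'_le _ hk
    · refine le_trans ?_ (hfar k hk)
      exact Finset.inf'_le (fun k : ℤ => g (x.1 - (k : ℝ) • p) + q * (x.2 - k) ^ 2)
        (b := 0) (by simp)
  · refine Finset.le_inf' _ _ fun k _ => ciInf_le ⟨-C, ?_⟩ k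
    rintro _ ⟨k, rfl⟩
    exact hb k

theorem lay_per (hp : Per g) (p : Fin n → ℝ) (q r : ℝ) : Per fun z => lay g p q z r := by
  intro z l
  unfold lay
  refine iInf_congr fun k => ?_
  have e : z + ic l - (k : ℝ) • p = z - (k : ℝ) • p + ic l := by abel
  rw [e, hp]

/-- Shift of the index. -/
theorem lay_shift (p : Fin n → ℝ) (q : ℝ) (z : Fin n → ℝ) (r : ℝ) :
    lay g p q (z + p) (r + 1) = lay g p q z r := by
  unfold lay
  rw [← (Equiv.addRight (1 : ℤ)).iInf_comp]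
  refine iInf_congr fun k => ?_
  simp only [Equiv.coe_addRight]
  have e : z + p - (((k + 1 : ℤ)) : ℝ) • p = z - (k : ℝ) • p := by
    push_cast
    rw [add_smul, one_smul]
    abel
  have e2 : r + 1 - (((k + 1 : ℤ)) : ℝ) = r - k := by push_cast; ring
  rw [e, e2]

/-- From `layer_min` with `G k = g (z - k p)`. -/
theorem lay_eq (p : Fin n → ℝ) {q : ℝ} (hq : 0 < q)
    (hC : ∀ z, -(2 * q) ≤ g (z + p) + g (z - p) - 2 * g z) {z : Fin n → ℝ} {r : ℝ}
    (h1 : r ≤ 1 / 2 + (g (z - p) - g z) / (2 * q))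
    (h2 : -(1 / 2) + (g z - g (z + p)) / (2 * q) ≤ r) :
    lay g p q z r = g z + q * r ^ 2 := by
  have h := layer_min (G := fun k : ℤ => g (z - (k : ℝ) • p)) hq (r := r) ?_ ?_ ?_
  · unfold lay
    rw [h]
    simp
  · intro k
    have h3 := hC (z - (k : ℝ) • p)
    have e1 : z - (((k + 1 : ℤ)) : ℝ) • p = z - (k : ℝ) • p - p := by
      push_cast
      rw [add_smul, one_smul]
      abel
    have e2 : z - (((k - 1 : ℤ)) : ℝ) • p = z - (k : ℝ) • p + p := by
      push_cast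
      rw [sub_smul, one_smul]
      abel
    show -(2 * q) ≤ g (z - (((k + 1 : ℤ)) : ℝ) • p) + g (z - (((k - 1 : ℤ)) : ℝ) • p) -
      2 * g (z - (k : ℝ) • p)
    rw [e1, e2]
    linarith
  · simpa using h1
  · simpa using h2

end Pool.Agent.D4Q
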