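import Pool.Agent.D4Q.Defs

set_option autoImplicit false

/-!
# P02. Fubini for the cube
-/

namespace Pool.Agent.D4Q

open MeasureTheory Matrix

variable {n : ℕ}

/-- The cube has measure one (`Real.volume_pi_Ico`). -/
theorem vol_cube : volume (cube n) = 1 := by
  rw [cube, Real.volume_pi_Ico]
  simp

/-- A continuous function is integrable on the cube (the cube is contained in the compact set
`Set.Icc 0 1`). -/
theorem integrableOn_cube {f : (Fin n → ℝ) → ℝ} (hf : Continuous f) :
    IntegrableOn f (cube n) := by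
  refine (hf.continuousOn.integrableOn_compact (μ := volume)
    (isCompact_Icc (a := (0 : Fin n → ℝ)) (b := 1))).mono_set ?_
  intro x hx
  exact ⟨fun i => (hx i trivial).1, fun i => (hx i trivial).2.le⟩

private theorem meas_cube : MeasurableSet (cube n) :=
  MeasurableSet.univ_pi fun _ => measurableSet_Ico

private theorem int_prod_aux {f : (Fin (n + 1) → ℝ) → ℝ} (hf : Continuous f) :
    IntegrableOn (fun y : ℝ × (Fin n → ℝ) => f (Fin.cons y.1 y.2 : Fin (n + 1) → ℝ))
      (Set.Ico (0 : ℝ) 1 ×ˢ cube n) (volume.prod volume) ∧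
    ∫ x in cube (n + 1), f x =
      ∫ y in Set.Ico (0 : ℝ) 1 ×ˢ cube n, f (Fin.cons y.1 y.2 : Fin (n + 1) → ℝ)
        ∂(volume.prod volume) := by
  have hc : Continuous fun y : ℝ × (Fin n → ℝ) => (Fin.cons y.1 y.2 : Fin (n + 1) → ℝ) := by
    refine continuous_pi fun i => ?_
    refine Fin.cases ?_ (fun j => ?_) i
    · simpa using continuous_fst
    · simp only [Fin.cons_succ]
      fun_prop
  constructor
  · refine ((hf.comp hc).continuousOn.integrableOn_compact
      ((isCompact_Icc (a := (0 : ℝ)) (b := 1)).prod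
        (isCompact_Icc (a := (0 : Fin n → ℝ)) (b := 1)))).mono_set ?_
    rintro ⟨r, z⟩ ⟨hr, hz⟩
    exact ⟨⟨hr.1, hr.2.le⟩, fun i => (hz i trivial).1, fun i => (hz i trivial).2.le⟩
  · have hmp := volume_preserving_piFinSuccAbove (fun _ : Fin (n + 1) => ℝ) 0
    have hemb : MeasurableEmbedding
        (MeasurableEquiv.piFinSuccAbove (fun _ : Fin (n + 1) => ℝ) 0) :=
      MeasurableEquiv.measurableEmbedding _
    have h := hmp.setIntegral_preimage_emb hemb
      (fun y : ℝ × (Fin n → ℝ) => f (Fin.cons y.1 y.2 : Fin (n + 1) → ℝ))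
      (Set.Ico (0 : ℝ) 1 ×ˢ cube n)
    have hpre : (MeasurableEquiv.piFinSuccAbove (fun _ : Fin (n + 1) => ℝ) 0) ⁻¹'
        (Set.Ico (0 : ℝ) 1 ×ˢ cube n) = cube (n + 1) := by
      ext x
      constructor
      · rintro ⟨h0, h1⟩ i -
        refine Fin.cases ?_ (fun j => ?_) i
        · exact h0
        · exact h1 j trivial
      · intro hx
        exact ⟨hx 0 trivial, fun j _ => hx (Fin.succ j) trivial⟩
    rw [hpre] at h
    rw [← MeasureTheory.Measure.volume_eq_prod]
    rw [← h]
    refine setIntegral_congr_fun meas_cube fun x _ => ?_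
    change f x = f (Fin.cons (x 0) (fun j => x (Fin.succ j)))
    congr 1
    funext i
    refine Fin.cases rfl (fun j => rfl) i

/-- **Fubini, first coordinate inside.** PROOF. `MeasurableEquiv.piFinSuccAbove (fun _ => ℝ) 0` is
measure preserving (`volume_preserving_piFinSuccAbove`) and sends `Fin.cons r z` to `(r, z)`; the
cube corresponds to `Set.Ico 0 1 ×ˢ cube n`. Then `setIntegral_prod` (the function is integrable
since it is continuous on a bounded set) and `intervalIntegral.integral_of_le`,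
`integral_Ioc_eq_integral_Ico`. -/
theorem int_cons {f : (Fin (n + 1) → ℝ) → ℝ} (hf : Continuous f) :
    ∫ x in cube (n + 1), f x =
      ∫ z in cube n, ∫ r in (0 : ℝ)..1, f (Fin.cons r z : Fin (n + 1) → ℝ) := by
  obtain ⟨hi, he⟩ := int_prod_aux hf
  rw [he, ← setIntegral_prod_swap, setIntegral_prod]
  · refine setIntegral_congr_fun meas_cube fun z _ => ?_
    simp only [Prod.swap_prod_mk]
    rw [intervalIntegral.integral_of_le zero_le_one, integral_Ico_eq_integral_Ioc]
  · exact hi.swap

/-- **Fubini, first coordinate outside.** -/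
theorem int_cons' {f : (Fin (n + 1) → ℝ) → ℝ} (hf : Continuous f) :
    ∫ x in cube (n + 1), f x =
      ∫ r in (0 : ℝ)..1, ∫ z in cube n, f (Fin.cons r z : Fin (n + 1) → ℝ) := by
  obtain ⟨hi, he⟩ := int_prod_aux hf
  rw [he, setIntegral_prod _ hi]
  rw [intervalIntegral.integral_of_le zero_le_one, integral_Ico_eq_integral_Ioc]

/-- **Exchange of the integrals** for a continuous function of two variables. -/
theorem int_swap {f : (Fin n → ℝ) → ℝ → ℝ} (hf : Continuous fun x : (Fin n → ℝ) × ℝ => f x.1 x.2) :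
    ∫ r in (0 : ℝ)..1, ∫ z in cube n, f z r = ∫ z in cube n, ∫ r in (0 : ℝ)..1, f z r := by
  have hi : IntegrableOn (fun y : (Fin n → ℝ) × ℝ => f y.1 y.2)
      (cube n ×ˢ Set.Ico (0 : ℝ) 1) (volume.prod volume) := by
    refine (hf.continuousOn.integrableOn_compact
      ((isCompact_Icc (a := (0 : Fin n → ℝ)) (b := 1)).prod
        (isCompact_Icc (a := (0 : ℝ)) (b := 1)))).mono_set ?_
    rintro ⟨z, r⟩ ⟨hz, hr⟩
    exact ⟨⟨fun i => (hz i trivial).1, fun i => (hz i trivial).2.le⟩, ⟨hr.1, hr.2.le⟩⟩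
  have h1 := setIntegral_prod (fun y : (Fin n → ℝ) × ℝ => f y.1 y.2) hi
  have h2 := setIntegral_prod_swap (cube n) (Set.Ico (0 : ℝ) 1)
    (fun y : (Fin n → ℝ) × ℝ => f y.1 y.2) (μ := volume) (ν := volume)
  have h3 := setIntegral_prod (fun y : ℝ × (Fin n → ℝ) => f y.2 y.1) hi.swap
  rw [intervalIntegral.integral_of_le zero_le_one, ← integral_Ico_eq_integral_Ioc]
  simp only [Prod.fst_swap, Prod.snd_swap] at h2
  rw [← h3, h2, h1]
  refine setIntegral_congr_fun meas_cube fun z _ => ?_
  simp only []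
  rw [intervalIntegral.integral_of_le zero_le_one, ← integral_Ico_eq_integral_Ioc]

end Pool.Agent.D4Q
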