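import Pool.Agent.D4Q.Defs

set_option autoImplicit false

/-!
# P01. Integrals of periodic functions over the cube
-/

namespace Pool.Agent.D4Q

open MeasureTheory Matrix

variable {n : ℕ}

private theorem tor_fd (n : ℕ) : IsAddFundamentalDomain
    (Submodule.span ℤ (Set.range (Pi.basisFun ℝ (Fin n)))) (cube n) volume := by
  have h := ZSpan.isAddFundamentalDomain (Pi.basisFun ℝ (Fin n)) volume
  rw [ZSpan.fundamentalDomain_pi_basisFun] at h
  exact h

private theorem tor_vinv (n : ℕ) : VAddInvariantMeasure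
    (Submodule.span ℤ (Set.range (Pi.basisFun ℝ (Fin n)))) (Fin n → ℝ) volume := by
  refine ⟨fun c s hs => ?_⟩
  exact (measurePreserving_add_left volume c.1).measure_preimage hs.nullMeasurableSet

private theorem tor_mem {g : Fin n → ℝ} :
    g ∈ Submodule.span ℤ (Set.range (Pi.basisFun ℝ (Fin n))) ↔ ∃ l : Fin n → ℤ, g = ic l := by
  rw [Module.Basis.mem_span_iff_repr_mem ℤ (Pi.basisFun ℝ (Fin n)) g]
  constructor
  · intro h
    choose l hl using h
    refine ⟨l, funext fun i => ?_⟩
    have h1 := hl i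
    simp only [Pi.basisFun_repr] at h1
    rw [← h1]
    rfl
  · rintro ⟨l, rfl⟩ i
    exact ⟨l i, by simp [ic]⟩

private theorem tor_inv {f : (Fin n → ℝ) → ℝ} (hf : Per f)
    (g : Submodule.span ℤ (Set.range (Pi.basisFun ℝ (Fin n)))) (x : Fin n → ℝ) :
    f (g +ᵥ x) = f x := by
  obtain ⟨l, hl⟩ := tor_mem.1 g.2
  rw [Submodule.vadd_def, vadd_eq_add, hl, add_comm]
  exact hf x l

private theorem tor_mul {n : ℕ} (A B : Matrix (Fin n) (Fin n) ℤ) :
    mc (A * B) = mc A * mc B := by
  unfold mc
  exact Matrix.map_mul (f := Int.castRingHom ℝ)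

private theorem tor_one (n : ℕ) : mc (1 : Matrix (Fin n) (Fin n) ℤ) = 1 := by
  unfold mc
  exact Matrix.map_one _ Int.cast_zero Int.cast_one

private theorem tor_det {n : ℕ} (W : Matrix (Fin n) (Fin n) ℤ) :
    (mc W).det = (W.det : ℝ) :=
  ((Int.castRingHom ℝ).map_det W).symm

private theorem tor_mp {n : ℕ} (W : Matrix (Fin n) (Fin n) ℤ) (hW : IsUnit W.det) :
    MeasurePreserving (fun x : Fin n → ℝ => mc W *ᵥ x) volume volume := by
  have h1 : |(mc W).det| = 1 := by
    rw [tor_det]
    rcases Int.isUnit_iff.1 hW with h | h <;> rw [h] <;> simp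
  have h0 : (mc W).det ≠ 0 := by
    intro h
    rw [h] at h1
    simp at h1
  have h2 := Real.map_matrix_volume_pi_eq_smul_volume_pi h0
  rw [abs_inv, h1, inv_one, ENNReal.ofReal_one, one_smul] at h2
  refine ⟨?_, h2⟩
  exact (LinearMap.continuous_of_finiteDimensional (Matrix.toLin' (mc W))).measurable

private theorem tor_pres {n : ℕ} (W : Matrix (Fin n) (Fin n) ℤ) {g : Fin n → ℝ}
    (hg : g ∈ Submodule.span ℤ (Set.range (Pi.basisFun ℝ (Fin n)))) :
    mc W *ᵥ g ∈ Submodule.span ℤ (Set.range (Pi.basisFun ℝ (Fin n))) := by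
  obtain ⟨l, rfl⟩ := tor_mem.1 hg
  refine tor_mem.2 ⟨W *ᵥ l, funext fun i => ?_⟩
  simp [mc, ic, Matrix.mulVec, dotProduct]

/-- **Translation.** PROOF. `cube n = ZSpan.fundamentalDomain (Pi.basisFun ℝ (Fin n))`
(`ZSpan.fundamentalDomain_pi_basisFun`), which is a fundamental domain of the group
`Submodule.span ℤ (Set.range (Pi.basisFun ℝ (Fin n)))` (`ZSpan.isAddFundamentalDomain`); the
elements of this group are the vectors `ic l`. The integral on the left is the integral of `f`
over the translate of the cube by `c` (`MeasurePreserving.setIntegral_preimage_emb`,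
`measurePreserving_add_right`), which is a fundamental domain of the same group
(the group acts by translations, everything commutes: `IsAddFundamentalDomain.image_of_equiv` or
directly from the definition). By `IsAddFundamentalDomain.setIntegral_eq` (no measurability of `f`
is needed) the two integrals agree, since `f` is invariant. -/
theorem int_shift {f : (Fin n → ℝ) → ℝ} (hf : Per f) (c : Fin n → ℝ) :
    ∫ x in cube n, f (x + c) = ∫ x in cube n, f x := by
  have h1 : ∫ x in cube n, f (x + c) = ∫ x in (fun x => x + c) '' cube n, f x :=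
    ((measurePreserving_add_right volume c).setIntegral_image_emb
      (MeasurableEquiv.addRight c).measurableEmbedding f (cube n)).symm
  rw [h1]
  haveI := tor_vinv n
  refine IsAddFundamentalDomain.setIntegral_eq
    (G := Submodule.span ℤ (Set.range (Pi.basisFun ℝ (Fin n)))) ?_ (tor_fd n) (tor_inv hf)
  refine (tor_fd n).image_of_equiv (Equiv.addRight c)
    (measurePreserving_add_right volume (-c)).quasiMeasurePreserving (Equiv.refl _) ?_
  intro g x
  simp only [Equiv.refl_apply, Equiv.coe_addRight, Submodule.vadd_def, vadd_eq_add]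
  abel

/-- **Change of basis.** PROOF. Let `w i` be the columns of `mc W`; they form a basis `b` of
`Fin n → ℝ` whose `ℤ`-span is the `ℤ`-span of the standard basis (because `W⁻¹` is integral).
The map `x ↦ mc W *ᵥ x` sends the cube onto `ZSpan.fundamentalDomain b` and preserves the volume
(`|det W| = 1`, `MeasureTheory.Measure.addHaar_preimage_linearMap` / `integral_image_eq...` /
`Real.map_matrix_volume_pi_eq_smul_volume_pi`). Both domains are fundamental domains of the same
group, so `IsAddFundamentalDomain.setIntegral_eq` applies. -/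
theorem int_uni {f : (Fin n → ℝ) → ℝ} (hf : Per f) (W : Matrix (Fin n) (Fin n) ℤ)
    (hW : IsUnit W.det) :
    ∫ x in cube n, f (mc W *ᵥ x) = ∫ x in cube n, f x := by
  have hW' : IsUnit (W⁻¹).det := by
    rw [Matrix.det_nonsing_inv]
    exact IsUnit.ringInverse hW
  have e1 : mc W * mc W⁻¹ = 1 := by rw [← tor_mul, Matrix.mul_nonsing_inv W hW, tor_one]
  have e2 : mc W⁻¹ * mc W = 1 := by rw [← tor_mul, Matrix.nonsing_inv_mul W hW, tor_one]
  let F : (Fin n → ℝ) ≃ (Fin n → ℝ) :=
    { toFun := fun x => mc W *ᵥ x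
      invFun := fun x => mc W⁻¹ *ᵥ x
      left_inv := fun x => by
        beta_reduce
        rw [Matrix.mulVec_mulVec, e2, Matrix.one_mulVec]
      right_inv := fun x => by
        beta_reduce
        rw [Matrix.mulVec_mulVec, e1, Matrix.one_mulVec] }
  have hmp := tor_mp W hW
  have hmp' := tor_mp W⁻¹ hW'
  have hemb : MeasurableEmbedding (fun x : Fin n → ℝ => mc W *ᵥ x) :=
    (MeasurableEquiv.mk F hmp.measurable hmp'.measurable).measurableEmbedding
  have h1 : ∫ x in cube n, f (mc W *ᵥ x) = ∫ x in (fun x => mc W *ᵥ x) '' cube n, f x :=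
    (hmp.setIntegral_image_emb hemb f (cube n)).symm
  rw [h1]
  haveI := tor_vinv n
  refine IsAddFundamentalDomain.setIntegral_eq
    (G := Submodule.span ℤ (Set.range (Pi.basisFun ℝ (Fin n)))) ?_ (tor_fd n) (tor_inv hf)
  let e : Submodule.span ℤ (Set.range (Pi.basisFun ℝ (Fin n))) ≃
      Submodule.span ℤ (Set.range (Pi.basisFun ℝ (Fin n))) :=
    { toFun := fun g => ⟨mc W⁻¹ *ᵥ g.1, tor_pres W⁻¹ g.2⟩
      invFun := fun g => ⟨mc W *ᵥ g.1, tor_pres W g.2⟩
      left_inv := fun g => Subtype.ext (by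
        change mc W *ᵥ (mc W⁻¹ *ᵥ g.1) = g.1
        rw [Matrix.mulVec_mulVec, e1, Matrix.one_mulVec])
      right_inv := fun g => Subtype.ext (by
        change mc W⁻¹ *ᵥ (mc W *ᵥ g.1) = g.1
        rw [Matrix.mulVec_mulVec, e2, Matrix.one_mulVec]) }
  refine (tor_fd n).image_of_equiv F hmp'.quasiMeasurePreserving e ?_
  intro g x
  change mc W *ᵥ (mc W⁻¹ *ᵥ g.1 + x) = g.1 + mc W *ᵥ x
  rw [Matrix.mulVec_add, Matrix.mulVec_mulVec, e1, Matrix.one_mulVec]

end Pool.Agent.D4Q
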