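import Pool.Agent.D4Q.Conv
import Pool.Agent.D4Q.Tor
import Pool.Agent.D4Q.Fub

set_option autoImplicit false

/-!
# P06. The layer formula for periodic functions
-/

namespace Pool.Agent.D4Q

open MeasureTheory

variable {n : ℕ} {g : (Fin n → ℝ) → ℝ}

private theorem int3 {A B C : (Fin n → ℝ) → ℝ} (hA : Continuous A) (hB : Continuous B)
    (hC : Continuous C) : ∫ z in cube n, (A z - B z + C z) =
      (∫ z in cube n, A z) - (∫ z in cube n, B z) + ∫ z in cube n, C z := by
  have h1 : IntegrableOn (fun z => A z - B z) (cube n) := integrableOn_cube (hA.sub hB)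
  rw [integral_add h1 (integrableOn_cube hC),
    integral_sub (integrableOn_cube hA) (integrableOn_cube hB)]

private theorem int5 {A B C D : (Fin n → ℝ) → ℝ} (c : ℝ) (hA : Continuous A)
    (hB : Continuous B) (hC : Continuous C) (hD : Continuous D) :
    ∫ z in cube n, (A z + c - B z + (C z - D z)) =
      (∫ z in cube n, A z) + c - (∫ z in cube n, B z) +
        ((∫ z in cube n, C z) - ∫ z in cube n, D z) := by
  have h0 : ∫ _z in cube n, c = c := by
    rw [setIntegral_const, measureReal_def, vol_cube]
    simp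
  have h1 : IntegrableOn (fun z => A z + c - B z) (cube n) := integrableOn_cube (by fun_prop)
  have h2 : IntegrableOn (fun z => C z - D z) (cube n) := integrableOn_cube (by fun_prop)
  have h3 : IntegrableOn (fun z => A z + c) (cube n) := integrableOn_cube (by fun_prop)
  have h4 : IntegrableOn (fun _ : Fin n → ℝ => c) (cube n) := integrableOn_cube (by fun_prop)
  rw [integral_add h1 h2, integral_sub h3 (integrableOn_cube hB),
    integral_add (integrableOn_cube hA) h4, h0,
    integral_sub (integrableOn_cube hC) (integrableOn_cube hD)]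

/-- **The telescoping identity.** With `ρ z = 1/2 + (g (z - p) - g z) / (2 q)` (so that
`ρ (z + p) - 1 = -1/2 + (g z - g (z + p)) / (2 q)`): the integral over the cube of the integral of
the layer function over one period is the integral over the cube of the integral of `g z + q r^2`
from `ρ (z + p) - 1` to `ρ z`.

PROOF. Write `M = lay g p q` and `Φ z r = ∫ u in 0..r, M z u`. By `hC`,
`ρ (z + p) - 1 ≤ ρ z`, and `lay_eq` gives `M z r = g z + q r^2` between these two numbers; so the
inner integral on the right is `Φ z (ρ z) - Φ z (ρ (z + p) - 1)`. By `lay_shift`,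
`Φ (z + p) (r + 1) = (∫ u in 0..1, M (z + p) u) + Φ z r` (split at `1`, substitute `u + 1`); with
`r = ρ (z + p) - 1`: `Φ z (ρ (z + p) - 1) = Φ (z + p) (ρ (z + p)) - ∫ u in 0..1, M (z + p) u`.
Put `A z = Φ z (ρ z)` and `B z = ∫ u in 0..1, M z u`, both continuous (`lay_cont`,
`intervalIntegral.continuous_parametric_intervalIntegral_of_continuous`) and periodic
(`lay_per`). The right inner integral is `A z - A (z + p) + B (z + p)`; integrating over the cube
and using `int_shift` twice gives `∫ B`. -/
theorem core_tele (hg : Continuous g) (hp : Per g) (p : Fin n → ℝ) {q : ℝ} (hq : 0 < q)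
    (hC : ∀ z, -(2 * q) ≤ g (z + p) + g (z - p) - 2 * g z) :
    ∫ z in cube n, ∫ r in (0 : ℝ)..1, lay g p q z r =
      ∫ z in cube n, ∫ r in (-(1 / 2) + (g z - g (z + p)) / (2 * q))..
        (1 / 2 + (g (z - p) - g z) / (2 * q)), (g z + q * r ^ 2) := by
  have hMc : Continuous (Function.uncurry fun z r => lay g p q z r) := lay_cont hg hp p hq
  have hMz : ∀ z, Continuous fun r => lay g p q z r := fun z =>
    hMc.comp (continuous_const.prodMk continuous_id)
  have hρc : Continuous fun z : Fin n → ℝ => 1 / 2 + (g (z - p) - g z) / (2 * q) := by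
    fun_prop
  have hA : Continuous fun z : Fin n → ℝ =>
      ∫ u in (0 : ℝ)..(1 / 2 + (g (z - p) - g z) / (2 * q)), lay g p q z u :=
    intervalIntegral.continuous_parametric_intervalIntegral_of_continuous hMc hρc
  have hB : Continuous fun z : Fin n → ℝ => ∫ u in (0 : ℝ)..1, lay g p q z u :=
    intervalIntegral.continuous_parametric_intervalIntegral_of_continuous hMc continuous_const
  have hMp : ∀ (z : Fin n → ℝ) (l : Fin n → ℤ) (r : ℝ),
      lay g p q (z + ic l) r = lay g p q z r := fun z l r => lay_per hp p q r z l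
  have hAp : Per fun z : Fin n → ℝ =>
      ∫ u in (0 : ℝ)..(1 / 2 + (g (z - p) - g z) / (2 * q)), lay g p q z u := by
    intro z l
    have h1 : g (z + ic l - p) = g (z - p) := by
      rw [add_sub_right_comm]
      exact hp _ _
    simp only [hMp, h1, hp z l]
  have hBp : Per fun z : Fin n → ℝ => ∫ u in (0 : ℝ)..1, lay g p q z u := by
    intro z l
    simp only [hMp]
  have hI : ∀ z, (∫ r in (-(1 / 2) + (g z - g (z + p)) / (2 * q))..
      (1 / 2 + (g (z - p) - g z) / (2 * q)), (g z + q * r ^ 2)) =
      (∫ u in (0 : ℝ)..(1 / 2 + (g (z - p) - g z) / (2 * q)), lay g p q z u) -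
      (∫ u in (0 : ℝ)..(1 / 2 + (g (z + p - p) - g (z + p)) / (2 * q)),
        lay g p q (z + p) u) + ∫ u in (0 : ℝ)..1, lay g p q (z + p) u := by
    intro z
    have hle : -(1 / 2) + (g z - g (z + p)) / (2 * q) ≤
        1 / 2 + (g (z - p) - g z) / (2 * q) := by
      have h1 : 0 < 2 * q := by linarith
      have h2 : 0 ≤ (g (z - p) - g z) / (2 * q) - (g z - g (z + p)) / (2 * q) + 1 := by
        rw [← sub_div, ← div_self h1.ne', ← add_div]
        refine div_nonneg ?_ h1.le
        have := hC z
        linarith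
      linarith
    have h1 : (∫ r in (-(1 / 2) + (g z - g (z + p)) / (2 * q))..
        (1 / 2 + (g (z - p) - g z) / (2 * q)), (g z + q * r ^ 2)) =
        ∫ r in (-(1 / 2) + (g z - g (z + p)) / (2 * q))..
        (1 / 2 + (g (z - p) - g z) / (2 * q)), lay g p q z r := by
      refine intervalIntegral.integral_congr fun r hr => ?_
      rw [Set.uIcc_of_le hle] at hr
      exact (lay_eq p hq hC hr.2 hr.1).symm
    have h2 := intervalIntegral.integral_interval_sub_left
      ((hMz z).intervalIntegrable (μ := volume) 0 (1 / 2 + (g (z - p) - g z) / (2 * q)))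
      ((hMz z).intervalIntegrable (μ := volume) 0 (-(1 / 2) + (g z - g (z + p)) / (2 * q)))
    have h3 : (∫ u in (0 : ℝ)..(-(1 / 2) + (g z - g (z + p)) / (2 * q)), lay g p q z u) =
        ∫ u in (1 : ℝ)..(1 / 2 + (g (z + p - p) - g (z + p)) / (2 * q)),
          lay g p q (z + p) u := by
      have h4 : ∀ u, lay g p q z u = lay g p q (z + p) (u + 1) := fun u =>
        (lay_shift p q z u).symm
      simp only [h4]
      rw [intervalIntegral.integral_comp_add_right (fun u => lay g p q (z + p) u) 1,
        add_sub_cancel_right]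
      congr 1 <;> ring
    have h5 := intervalIntegral.integral_add_adjacent_intervals
      ((hMz (z + p)).intervalIntegrable (μ := volume) 0 1)
      ((hMz (z + p)).intervalIntegrable (μ := volume) 1
        (1 / 2 + (g (z + p - p) - g (z + p)) / (2 * q)))
    rw [h1, ← h2, h3, ← h5]
    ring
  have hsh : Continuous fun z : Fin n → ℝ => z + p := by fun_prop
  simp only [hI]
  have e1 := int_shift hAp p
  have e2 := int_shift hBp p
  have e3 := int3 hA (hA.comp hsh) (hB.comp hsh)
  simp only [Function.comp_def] at e3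
  rw [e3, e1, e2]
  ring

/-- **The layer formula.** PROOF. By `core_tele` and `∫ r in a..b, (g + q r^2) = g (b - a) +
q (b^3 - a^3) / 3`. With `δ z = g (z - p) - g z`, `b = 1/2 + δ z / (2 q)`,
`a = -1/2 + δ (z + p) / (2 q)` (as `δ (z + p) = g z - g (z + p)`), `d = δ z / (2 q)`,
`d' = δ (z + p) / (2 q)`: the integrand is
`g (1 + d - d') + (q / 3) (1/4 + (3/4) (d - d') + (3/2) (d^2 + d'^2) + (d^3 - d'^3))`.
All functions are continuous and periodic, so `int_shift` gives `∫ d = ∫ d'`, `∫ d^2 = ∫ d'^2`,
`∫ d^3 = ∫ d'^3` and `∫ g z δ (z + p) = ∫ g (z - p) δ z`, hence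
`∫ g (d - d') = ∫ (g z - g (z - p)) δ z / (2 q) = - ∫ δ^2 / (2 q)`, and
`(q / 3) (1/4 + 3 ∫ d^2) = q / 12 + ∫ δ^2 / (4 q)`. (`vol_cube` for the constant.) -/
theorem core (hg : Continuous g) (hp : Per g) (p : Fin n → ℝ) {q : ℝ} (hq : 0 < q)
    (hC : ∀ z, -(2 * q) ≤ g (z + p) + g (z - p) - 2 * g z) :
    ∫ z in cube n, ∫ r in (0 : ℝ)..1, lay g p q z r =
      (∫ z in cube n, g z) + q / 12 - (1 / (4 * q)) * ∫ z in cube n, (g (z - p) - g z) ^ 2 := by
  rw [core_tele hg hp p hq hC]
  set K : (Fin n → ℝ) → ℝ := fun z => g (z - p) * ((g (z - p) - g z) / (2 * q)) +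
    q / 4 * ((g (z - p) - g z) / (2 * q)) - q / 2 * ((g (z - p) - g z) / (2 * q)) ^ 2 +
    q / 3 * ((g (z - p) - g z) / (2 * q)) ^ 3 with hK
  have hKc : Continuous K := by
    rw [hK]
    fun_prop
  have hKp : Per K := by
    intro z l
    have h1 : g (z + ic l - p) = g (z - p) := by
      rw [add_sub_right_comm]
      exact hp _ _
    simp only [hK, h1, hp z l]
  have hI : ∀ z, (∫ r in (-(1 / 2) + (g z - g (z + p)) / (2 * q))..
      (1 / 2 + (g (z - p) - g z) / (2 * q)), (g z + q * r ^ 2)) =
      g z + q / 12 - (1 / (4 * q)) * (g (z - p) - g z) ^ 2 + (K z - K (z + p)) := by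
    intro z
    have c1 : Continuous fun _ : ℝ => g z := continuous_const
    have c2 : Continuous fun r : ℝ => q * r ^ 2 := by fun_prop
    rw [intervalIntegral.integral_add (c1.intervalIntegrable _ _) (c2.intervalIntegrable _ _),
      intervalIntegral.integral_const, intervalIntegral.integral_const_mul, integral_pow]
    have hq' : q ≠ 0 := hq.ne'
    obtain ⟨d, hd⟩ : ∃ d, g (z - p) = g z + 2 * q * d :=
      ⟨(g (z - p) - g z) / (2 * q), by field_simp; ring⟩
    obtain ⟨e, he⟩ : ∃ e, g (z + p) = g z - 2 * q * e :=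
      ⟨(g z - g (z + p)) / (2 * q), by field_simp; ring⟩
    have h1 : (g (z - p) - g z) / (2 * q) = d := by
      rw [hd]
      field_simp
      ring
    have h2 : (g z - g (z + p)) / (2 * q) = e := by
      rw [he]
      field_simp
      ring
    have h3 : 1 / (4 * q) * (g (z - p) - g z) ^ 2 = q * d ^ 2 := by
      rw [hd]
      field_simp
      ring
    simp only [hK, add_sub_cancel_right, smul_eq_mul, h1, h2, h3]
    rw [hd]
    push_cast
    ring
  simp only [hI]
  rw [int5 (q / 12) hg (B := fun z => 1 / (4 * q) * (g (z - p) - g z) ^ 2) (by fun_prop) hKc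
    (D := fun z => K (z + p)) (hKc.comp (by fun_prop)), int_shift hKp p, integral_const_mul]
  ring

end Pool.Agent.D4Q
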