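import Mathlib

set_option autoImplicit false

/-!
# Definitions for the optimal lattice quantizer in dimension 4

`qf Q x = Q[x]`, `ic l` = integral vector as a real vector, `dsq Q x = min over l of Q[x - l]`,
`FF Q` = integral of `dsq Q` over the unit cube (the second moment of the Voronoi cell in lattice
coordinates).
-/

namespace Pool.Agent.D4Q

open MeasureTheory Matrix

variable {n : ℕ}

/-- The value `Q[x]` of the quadratic form with matrix `Q`. -/
def qf (Q : Matrix (Fin n) (Fin n) ℝ) (x : Fin n → ℝ) : ℝ := x ⬝ᵥ (Q *ᵥ x)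

/-- An integral vector as a real vector. -/
def ic (l : Fin n → ℤ) : Fin n → ℝ := fun i => (l i : ℝ)

/-- The squared distance of `x` to the lattice of integral vectors, with respect to `Q`. -/
noncomputable def dsq (Q : Matrix (Fin n) (Fin n) ℝ) (x : Fin n → ℝ) : ℝ :=
  ⨅ l : Fin n → ℤ, qf Q (x - ic l)

/-- The half open unit cube. -/
def cube (n : ℕ) : Set (Fin n → ℝ) := Set.univ.pi fun _ => Set.Ico (0 : ℝ) 1

/-- The mean squared distance to the lattice. -/
noncomputable def FF (Q : Matrix (Fin n) (Fin n) ℝ) : ℝ := ∫ x in cube n, dsq Q x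

/-- `f` has the integral vectors as periods. -/
def Per (f : (Fin n → ℝ) → ℝ) : Prop := ∀ (x : Fin n → ℝ) (l : Fin n → ℤ), f (x + ic l) = f x

/-- The integral matrix `W` as a real matrix. -/
def mc {m : ℕ} (W : Matrix (Fin m) (Fin n) ℤ) : Matrix (Fin m) (Fin n) ℝ :=
  W.map (fun z : ℤ => (z : ℝ))

/-- The form `Q` in the basis given by the columns of the integral matrix `W`. -/
def tr (W : Matrix (Fin n) (Fin n) ℤ) (Q : Matrix (Fin n) (Fin n) ℝ) :
    Matrix (Fin n) (Fin n) ℝ := (mc W)ᵀ * Q * mc W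

/-- Deleting the first row and column. -/
def low (Q : Matrix (Fin (n + 1)) (Fin (n + 1)) ℝ) : Matrix (Fin n) (Fin n) ℝ :=
  Q.submatrix Fin.succ Fin.succ

/-- The matrix unit at `(0, 0)`, the form `x 0 ^ 2`. -/
def E00 (n : ℕ) : Matrix (Fin (n + 1)) (Fin (n + 1)) ℝ :=
  Matrix.of fun i j => if i = 0 ∧ j = 0 then 1 else 0

end Pool.Agent.D4Q
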