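import Pool.Agent.D4Q.Vec

set_option autoImplicit false

/-!
# P11. Flats and their bases
-/

namespace Pool.Agent.D4Q

open Matrix

private theorem comb_single (cs : List V) (i : Fin cs.length) :
    comb cs (Pi.single i 1) = cs.get i := by
  unfold comb
  rw [Finset.sum_eq_single i, Pi.single_eq_same, one_smul]
  · intro j _ hj
    rw [Pi.single_eq_of_ne hj, zero_smul]
  · intro h
    exact absurd (Finset.mem_univ i) h

private theorem sp_get (cs : List V) (i : Fin cs.length) : Sp cs (cs.get i) :=
  ⟨Pi.single i 1, (comb_single cs i).symm⟩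

private theorem bl_sum_left (B : Matrix (Fin 4) (Fin 4) ℝ) {m : ℕ} (k : Fin m → ℤ)
    (f : Fin m → V) (z : V) : bl B (∑ i, k i • f i) z = ∑ i, (k i : ℝ) * bl B (f i) z := by
  have h := map_sum (AddMonoidHom.mk' (fun x => bl B x z) fun x y => bl_add_left B x y z)
    (fun i => k i • f i) Finset.univ
  simp only [AddMonoidHom.mk'_apply] at h
  rw [h]
  exact Finset.sum_congr rfl fun i _ => bl_zsmul_left B _ _ _

private theorem bl_sum_right (B : Matrix (Fin 4) (Fin 4) ℝ) {m : ℕ} (k : Fin m → ℤ)
    (f : Fin m → V) (z : V) : bl B z (∑ i, k i • f i) = ∑ i, (k i : ℝ) * bl B z (f i) := by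
  have h := map_sum (AddMonoidHom.mk' (fun x => bl B z x) fun x y => bl_add_right B x y z)
    (fun i => k i • f i) Finset.univ
  simp only [AddMonoidHom.mk'_apply] at h
  rw [h]
  exact Finset.sum_congr rfl fun i _ => bl_zsmul_right B _ _ _

private theorem FF_cast {m n : ℕ} (h : m = n) (Q : Matrix (Fin n) (Fin n) ℝ) :
    FF (Q.submatrix (Fin.cast h) (Fin.cast h)) = FF Q := by
  subst h
  rfl

/-- **Two bases of the same lattice.** PROOF. Write the members of `cs'` in terms of `cs` and
conversely: integral matrices `W` (rows `cs`, columns `cs'`) and `U` with `comb` identities; by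
linear independence `U W = 1` and `W U = 1`. Identify the two index types by `hl` (`obtain` an
equality of lengths and transport: work with `finCongr hl`), then `gram B cs'` is
`tr W (gram B cs)` up to the identification, and `det_tr`, `FF_tr`, `FF_perm` apply
(`IsUnit W.det` from `U W = 1`). -/
theorem gram_congr (B : Matrix (Fin 4) (Fin 4) ℝ) {cs cs' : List V}
    (hl : cs.length = cs'.length) (h : LI cs) (h' : LI cs') (hs : ∀ x, Sp cs x ↔ Sp cs' x) :
    (gram B cs).det = (gram B cs').det ∧ FF (gram B cs) = FF (gram B cs') := by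
  have hg : ∀ j : Fin cs'.length, ∃ k : Fin cs.length → ℤ, cs'.get j = comb cs k := fun j =>
    (hs _).2 (sp_get cs' j)
  have hf : ∀ j : Fin cs.length, ∃ k : Fin cs'.length → ℤ, cs.get j = comb cs' k := fun j =>
    (hs _).1 (sp_get cs j)
  choose w hw using hg
  choose u hu using hf
  set W : Matrix (Fin cs.length) (Fin cs.length) ℤ := Matrix.of fun i j => w (Fin.cast hl j) i
    with hW
  set U : Matrix (Fin cs.length) (Fin cs.length) ℤ := Matrix.of fun i j => u j (Fin.cast hl i)
    with hU
  have hWU : W * U = 1 := by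
    ext k j
    have h1 : cs.get j = comb cs fun k => (W * U) k j := by
      have h2 : comb cs' (u j) = ∑ i : Fin cs.length, U i j • comb cs (w (Fin.cast hl i)) := by
        unfold comb
        rw [← Equiv.sum_comp (finCongr hl)]
        refine Finset.sum_congr rfl fun i _ => ?_
        have h3 := hw (finCongr hl i)
        rw [h3]
        rfl
      rw [hu j, h2]
      unfold comb
      simp only [Finset.smul_sum]
      rw [Finset.sum_comm]
      refine Finset.sum_congr rfl fun i _ => ?_
      rw [Matrix.mul_apply, Finset.sum_smul]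
      refine Finset.sum_congr rfl fun l _ => ?_
      rw [smul_smul, mul_comm]
      rfl
    have h2 : comb cs ((fun k => (W * U) k j) - Pi.single j 1) = 0 := by
      rw [comb_sub, ← h1, comb_single, sub_self]
    have h3 := congrFun (h _ h2) k
    rw [Pi.sub_apply, Pi.zero_apply, sub_eq_zero] at h3
    rw [h3, Matrix.one_apply, Pi.single_apply]
  have hWd : IsUnit W.det := by
    have h1 := congrArg Matrix.det hWU
    rw [det_mul, det_one] at h1
    exact IsUnit.of_mul_eq_one _ h1
  have hG : (gram B cs').submatrix (Fin.cast hl) (Fin.cast hl) = tr W (gram B cs) := by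
    ext i j
    rw [Matrix.submatrix_apply]
    change bl B (cs'.get (Fin.cast hl i)) (cs'.get (Fin.cast hl j)) = _
    rw [hw, hw]
    unfold comb
    rw [bl_sum_left]
    simp only [bl_sum_right]
    unfold tr
    rw [Matrix.mul_apply]
    simp only [Matrix.mul_apply, Finset.sum_mul, Finset.mul_sum]
    rw [Finset.sum_comm]
    refine Finset.sum_congr rfl fun l _ => Finset.sum_congr rfl fun k _ => ?_
    simp only [mc, Matrix.map_apply, Matrix.transpose_apply, gram, hW, Matrix.of_apply]
    ring
  constructor
  · rw [← det_tr W hWd, ← hG]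
    exact Matrix.det_submatrix_equiv_self (finCongr hl) _
  · rw [← FF_tr W hWd, ← hG]
    exact FF_cast hl _

/-- `cs` is a basis of the lattice of all integral vectors annihilated by the functionals of `S`. -/
def Flat (S cs : List V) : Prop := LI cs ∧ ∀ x, Sp cs x ↔ ∀ a ∈ S, dot a x = 0

/-- The standard basis. -/
def E4 : List V := [(1, 0, 0, 0), (0, 1, 0, 0), (0, 0, 1, 0), (0, 0, 0, 1)]

private theorem comb_E4 (k : Fin 4 → ℤ) : comb E4 k = (k 0, k 1, k 2, k 3) := by
  have h : comb E4 k = ∑ i : Fin 4, k i • E4.get i := rfl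
  rw [h, Fin.sum_univ_four]
  simp [E4]

theorem flat_E4 : Flat [] E4 := by
  refine ⟨fun k hk => ?_, fun x => ⟨fun _ a ha => absurd ha (List.not_mem_nil), fun _ => ?_⟩⟩
  · have h1 := comb_E4 k
    rw [hk] at h1
    have a1 : (0 : ℤ) = k (0 : Fin 4) := congrArg Prod.fst h1
    have a2 : (0 : ℤ) = k (1 : Fin 4) := congrArg (fun x : V => x.2.1) h1
    have a3 : (0 : ℤ) = k (2 : Fin 4) := congrArg (fun x : V => x.2.2.1) h1
    have a4 : (0 : ℤ) = k (3 : Fin 4) := congrArg (fun x : V => x.2.2.2) h1
    have key : ∀ i : Fin 4, k i = 0 := by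
      intro i
      fin_cases i
      · exact a1.symm
      · exact a2.symm
      · exact a3.symm
      · exact a4.symm
    exact funext key
  · have h1 := comb_E4 (![x.1, x.2.1, x.2.2.1, x.2.2.2] : Fin 4 → ℤ)
    have h2 : comb E4 (![x.1, x.2.1, x.2.2.1, x.2.2.2] : Fin 4 → ℤ) = x := h1.trans rfl
    exact ⟨(![x.1, x.2.1, x.2.2.1, x.2.2.2] : Fin 4 → ℤ), h2.symm⟩

theorem gram_E4 (B : Matrix (Fin 4) (Fin 4) ℝ) : gram B E4 = B := by
  have key : ∀ i j : Fin 4, bl B (E4.get i) (E4.get j) = B i j := by
    intro i j
    fin_cases i <;> fin_cases j <;>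
      simp [bl, E4, ic, vc, dotProduct, mulVec, Fin.sum_univ_four]
  ext i j
  exact key i j

/-- Look for a vector `c` with `a · c = 1` or `a · c = -1`; the result is `c` and the list of the
other members. -/
def piv (a : V) : List V → Option (V × List V)
  | [] => none
  | c :: cs =>
    if dot a c = 1 ∨ dot a c = -1 then some (c, cs)
    else
      match piv a cs with
      | none => none
      | some (d, ds) => some (d, c :: ds)

/-- The basis of the kernel of `a` obtained from the pivot `c`. -/
def ker (a c : V) (cs : List V) : List V := cs.map fun d => subm (dot a c * dot a d) d c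

/-- Induction on the list. -/
theorem piv_some {a c : V} {cs ds : List V} (h : piv a cs = some (c, ds)) :
    (dot a c = 1 ∨ dot a c = -1) ∧ cs.Perm (c :: ds) := by
  induction cs generalizing c ds with
  | nil => simp [piv] at h
  | cons x xs ih =>
    unfold piv at h
    split_ifs at h with h1
    · simp only [Option.some.injEq, Prod.mk.injEq] at h
      obtain ⟨rfl, rfl⟩ := h
      exact ⟨h1, List.Perm.refl _⟩
    · cases h2 : piv a xs with
      | none => rw [h2] at h; simp at h
      | some y =>
        obtain ⟨d, es⟩ := y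
        rw [h2] at h
        simp only [Option.some.injEq, Prod.mk.injEq] at h
        obtain ⟨rfl, rfl⟩ := h
        have h3 := ih h2
        exact ⟨h3.1, (h3.2.cons x).trans (List.Perm.swap _ _ _)⟩

theorem dot_ker {a c : V} (hc : dot a c = 1 ∨ dot a c = -1) (ds : List V) :
    ∀ d ∈ ker a c ds, dot a d = 0 := by
  intro d hd
  obtain ⟨e, -, rfl⟩ := List.mem_map.1 hd
  rw [dot_subm]
  rcases hc with h | h
  · rw [h]
    ring
  · rw [h]
    ring

private theorem perm_equiv {cs cs' : List V} (h : cs.Perm cs') :
    ∃ σ : Fin cs.length ≃ Fin cs'.length, ∀ i, cs.get i = cs'.get (σ i) := by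
  induction h with
  | nil => exact ⟨Equiv.refl _, fun i => rfl⟩
  | @cons x l l' _ ih =>
    obtain ⟨σ, hσ⟩ := ih
    refine ⟨(finSuccEquiv l.length).trans ((Equiv.optionCongr σ).trans
      (finSuccEquiv l'.length).symm), fun i => ?_⟩
    refine Fin.cases ?_ (fun j => ?_) i
    · simp
    · simpa using hσ j
  | swap x y l =>
    refine ⟨Equiv.swap (0 : Fin (l.length + 2)) 1, fun i => ?_⟩
    refine Fin.cases ?_ (fun j => ?_) i
    · rw [Equiv.swap_apply_left]
      rfl
    · refine Fin.cases ?_ (fun k => ?_) j
      · have h1 : Equiv.swap (0 : Fin (l.length + 2)) 1 (Fin.succ 0) = 0 :=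
          Equiv.swap_apply_right _ _
        rw [h1]
        rfl
      · have h1 : Equiv.swap (0 : Fin (l.length + 2)) 1 k.succ.succ = k.succ.succ := by
          apply Equiv.swap_apply_of_ne_of_ne
          · exact Fin.succ_ne_zero _
          · intro h2
            have h3 := congrArg Fin.val h2
            simp at h3
        rw [h1]
        rfl
  | trans _ _ ih1 ih2 =>
    obtain ⟨σ, hσ⟩ := ih1
    obtain ⟨τ, hτ⟩ := ih2
    exact ⟨σ.trans τ, fun i => (hσ i).trans (hτ (σ i))⟩

private theorem comb_perm {cs cs' : List V} {σ : Fin cs.length ≃ Fin cs'.length}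
    (h : ∀ i, cs.get i = cs'.get (σ i)) (k : Fin cs'.length → ℤ) :
    comb cs (k ∘ σ) = comb cs' k := by
  unfold comb
  rw [← Equiv.sum_comp σ]
  exact Finset.sum_congr rfl fun i _ => by rw [h i]; rfl

/-- Permutations do not change the lattice. -/
theorem flat_perm {S cs cs' : List V} (h : Flat S cs) (hp : cs.Perm cs') : Flat S cs' := by
  obtain ⟨σ, hσ⟩ := perm_equiv hp
  refine ⟨fun k hk => ?_, fun x => ?_⟩
  · have h1 := h.1 (k ∘ σ) (by rw [comb_perm hσ, hk])
    funext i
    have h2 := congrFun h1 (σ.symm i)
    simpa using h2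
  · rw [← h.2 x]
    constructor
    · rintro ⟨k, rfl⟩
      exact ⟨k ∘ σ, (comb_perm hσ k).symm⟩
    · rintro ⟨k, rfl⟩
      refine ⟨k ∘ σ.symm, ?_⟩
      rw [← comb_perm hσ]
      congr 1
      funext i
      simp

private theorem len_ker (a c : V) (ds : List V) : ds.length = (ker a c ds).length := by
  unfold ker
  rw [List.length_map]

private theorem comb_ker (a c : V) (ds : List V) (k : Fin (ker a c ds).length → ℤ) :
    comb (ker a c ds) k = comb ds (fun i => k (Fin.cast (len_ker a c ds) i)) -
      (dot a c * dot a (comb ds fun i => k (Fin.cast (len_ker a c ds) i))) • c := by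
  rw [dot_comb]
  unfold comb
  rw [← Equiv.sum_comp (finCongr (len_ker a c ds)), Finset.mul_sum, Finset.sum_smul,
    ← Finset.sum_sub_distrib]
  refine Finset.sum_congr rfl fun i _ => ?_
  have h1 : (ker a c ds).get (finCongr (len_ker a c ds) i) =
      subm (dot a c * dot a (ds.get i)) (ds.get i) c := by
    simp [ker]
    rfl
  rw [h1, subm_eq, smul_sub, smul_smul]
  congr 2
  change k (Fin.cast (len_ker a c ds) i) * _ = _
  ring

private theorem cons_split (c : V) (cs : List V) (k : Fin (c :: cs).length → ℤ) :
    ∃ (r : ℤ) (k' : Fin cs.length → ℤ), k = (Fin.cons r k' : Fin (cs.length + 1) → ℤ) :=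
  ⟨k (0 : Fin (cs.length + 1)), fun i => k (i.succ : Fin (cs.length + 1)),
    (Fin.cons_self_tail (α := fun _ => ℤ) (n := cs.length) k).symm⟩

/-- **Elimination.** PROOF. A combination `r c + ∑ k_i d_i` equals
`(r + ∑ k_i m_i) c + ∑ k_i (d_i - m_i c)` with `m_i = (a · c) (a · d_i)`; this change of
coefficients is a bijection. (Induction on `ds` or direct sums; the length of `ker a c ds` is the
length of `ds`.) -/
theorem flat_ker_cons {S ds : List V} {a c : V} (h : Flat S (c :: ds)) :
    Flat S (c :: ker a c ds) := by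
  refine ⟨fun k hk => ?_, fun x => ?_⟩
  · obtain ⟨r, k', rfl⟩ := cons_split c (ker a c ds) k
    have hk2 : r • c + comb (ker a c ds) k' = 0 := by
      rw [← comb_cons]
      exact hk
    rw [comb_ker] at hk2
    set l : Fin ds.length → ℤ := fun i => k' (Fin.cast (len_ker a c ds) i) with hl
    set m := dot a c * dot a (comb ds l) with hm
    have h1 : comb (c :: ds) (Fin.cons (r - m) l : Fin (ds.length + 1) → ℤ) = 0 := by
      rw [comb_cons, sub_smul, ← hk2]
      abel
    have h2 := h.1 _ h1
    have h3 : r - m = 0 := congrFun h2 (0 : Fin (ds.length + 1))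
    have h4 : l = 0 := by
      funext i
      exact congrFun h2 (i.succ : Fin (ds.length + 1))
    have h5 : m = 0 := by
      rw [hm, h4]
      have h6 : comb ds 0 = 0 := by
        unfold comb
        simp
      rw [h6]
      simp [dot]
    have h6 : r = 0 := by omega
    have h7 : k' = 0 := by
      funext i
      exact congrFun h4 (Fin.cast (len_ker a c ds).symm i)
    rw [h6, h7]
    funext i
    refine Fin.cases (n := (ker a c ds).length) ?_ (fun j => ?_) i
    · rfl
    · rfl
  · rw [← h.2 x]
    constructor
    · rintro ⟨k, hk⟩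
      obtain ⟨r, k', rfl⟩ := cons_split c (ker a c ds) k
      have hk2 : x = r • c + comb (ker a c ds) k' := by
        rw [← comb_cons]
        exact hk
      rw [comb_ker] at hk2
      refine ⟨(Fin.cons (r - (dot a c * dot a (comb ds fun i =>
        k' (Fin.cast (len_ker a c ds) i)))) (fun i => k' (Fin.cast (len_ker a c ds) i)) :
        Fin (ds.length + 1) → ℤ), ?_⟩
      rw [comb_cons, hk2, sub_smul]
      abel
    · rintro ⟨k, hk⟩
      obtain ⟨r, k', rfl⟩ := cons_split c ds k
      have hk2 : x = r • c + comb ds k' := by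
        rw [← comb_cons]
        exact hk
      have h1 := comb_ker a c ds fun i => k' (Fin.cast (len_ker a c ds).symm i)
      have h2 : (fun i => (fun i => k' (Fin.cast (len_ker a c ds).symm i))
          (Fin.cast (len_ker a c ds) i)) = k' := rfl
      rw [h2] at h1
      refine ⟨(Fin.cons (r + dot a c * dot a (comb ds k'))
        (fun i => k' (Fin.cast (len_ker a c ds).symm i)) :
        Fin ((ker a c ds).length + 1) → ℤ), ?_⟩
      rw [comb_cons, hk2, h1, add_smul]
      abel

/-- **The kernel.** PROOF. If `x` is annihilated by `S` and by `a` then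
`x = r c + ∑ k_i d'_i` by `flat_ker_cons`, and `0 = a · x = r (a · c)`, so `r = 0`. -/
theorem flat_ker {S ds : List V} {a c : V} (hc : dot a c = 1 ∨ dot a c = -1)
    (h : Flat S (c :: ds)) : Flat (a :: S) (ker a c ds) := by
  have hf := flat_ker_cons (a := a) h
  have hd : ∀ k, dot a (comb (ker a c ds) k) = 0 := by
    intro k
    rw [dot_comb]
    refine Finset.sum_eq_zero fun i _ => ?_
    rw [dot_ker hc ds _ (List.get_mem _ _), mul_zero]
  refine ⟨fun k hk => ?_, fun x => ?_⟩
  · have h1 := hf.1 (Fin.cons 0 k : Fin ((ker a c ds).length + 1) → ℤ) (by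
      rw [comb_cons, hk, zero_smul, zero_add])
    funext i
    exact congrFun h1 (i.succ : Fin ((ker a c ds).length + 1))
  · constructor
    · rintro ⟨k, rfl⟩ b hb
      rcases List.mem_cons.1 hb with rfl | hb'
      · exact hd k
      · refine (hf.2 _).1 ⟨(Fin.cons 0 k : Fin ((ker a c ds).length + 1) → ℤ), ?_⟩ b hb'
        rw [comb_cons, zero_smul, zero_add]
    · intro hx
      obtain ⟨k, hk⟩ := (hf.2 x).2 fun b hb => hx b (List.mem_cons_of_mem _ hb)
      obtain ⟨r, k', rfl⟩ := cons_split c (ker a c ds) k
      have hk2 : x = r • c + comb (ker a c ds) k' := by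
        rw [← comb_cons]
        exact hk
      have h1 := hx a List.mem_cons_self
      rw [hk2, dot_add, dot_zsmul, hd, add_zero] at h1
      have h2 : r = 0 := by
        rcases hc with h3 | h3
        · rw [h3] at h1
          omega
        · rw [h3] at h1
          omega
      rw [h2, zero_smul, zero_add] at hk2
      exact ⟨k', hk2⟩

end Pool.Agent.D4Q
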