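import Pool.Agent.D4Q.StepA
import Pool.Agent.D4Q.Flat

set_option autoImplicit false

/-!
# P12. The recursion step for flats
-/

namespace Pool.Agent.D4Q

open Matrix

/-- **Compatibility** of a form with a list of functionals: every integral vector `d` has a
companion `v ≡ d (mod 2)` on which all functionals are at most one in absolute value, and which is
not longer than `d`. -/
def Compat (B : Matrix (Fin 4) (Fin 4) ℝ) (As : List V) : Prop :=
  ∀ d : V, ∃ v : V, (∀ a ∈ As, |dot a v| ≤ 1) ∧ Ev (d - v) ∧ bl B v v ≤ bl B d d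

/-- Adding squares of functionals of the list preserves compatibility. PROOF. `|a · v| ≤ |a · d|`:
if `a · d` is even then `a · v` is even, hence zero; otherwise `|a · d| ≥ 1 ≥ |a · v|`. -/
theorem compat_add {B : Matrix (Fin 4) (Fin 4) ℝ} {As : List V} (h : Compat B As) {a : V}
    (ha : a ∈ As) {t : ℝ} (ht : 0 ≤ t) : Compat (B + t • r1 a) As := by
  intro d
  obtain ⟨v, hv1, hv2, hv3⟩ := h d
  refine ⟨v, hv1, hv2, ?_⟩
  obtain ⟨y, hy⟩ := hv2
  have h1 : dot a d - dot a v = dot a y + dot a y := by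
    rw [← dot_sub, hy, dot_add]
  have h2 : |dot a v| ≤ |dot a d| := by
    have h3 := hv1 a ha
    by_cases h0 : dot a d = 0
    · have h4 := abs_le.mp h3
      have h5 : dot a v = 0 := by omega
      rw [h5, h0]
    · exact h3.trans (Int.one_le_abs h0)
  have h6 : ((dot a v : ℤ) : ℝ) ^ 2 ≤ ((dot a d : ℤ) : ℝ) ^ 2 := by
    have h7 := sq_le_sq.mpr h2
    exact_mod_cast h7
  rw [bl_r1, bl_r1]
  have h8 := mul_le_mul_of_nonneg_left h6 ht
  nlinarith [h8, hv3]

/-- Scaling. -/
theorem compat_smul {B : Matrix (Fin 4) (Fin 4) ℝ} {As : List V} (h : Compat B As) {s : ℝ}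
    (hs : 0 ≤ s) : Compat (s • B) As := by
  intro d
  obtain ⟨v, hv1, hv2, hv3⟩ := h d
  refine ⟨v, hv1, hv2, ?_⟩
  have h1 : ∀ x : V, bl (s • B) x x = s * bl B x x := by
    intro x
    unfold bl
    rw [Matrix.smul_mulVec, dotProduct_smul, smul_eq_mul]
  rw [h1, h1]
  exact mul_le_mul_of_nonneg_left hv3 hs

/-- **Convex layers of a flat.** PROOF. `Q` below is `gram B (c :: ds)` with `a · c = 1` or `-1` and
`a · d = 0` for `d` in `ds`, where `c :: ds` is a basis of the flat of `S ⊆ As`. Given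
`δ : Fin (ds.length + 1) → ℤ` with `δ 0 = 2` put `d = comb (c :: ds) δ`, so `a · d = 2 (a · c)` is
even and `a' · d = 0` for `a' ∈ S`. Take `v` from `Compat`. For `a' ∈ S` and for `a' = a` the number
`a' · v` is even with absolute value at most one, hence zero. So `v = comb (c :: ds) ν`, and
`0 = a · v = ν 0 (a · c)`, hence `ν 0 = 0`. Also `d - v = y + y` with `a' · y = 0` for `a' ∈ S`,
so `y = comb (c :: ds) ω` and `δ - ν = 2 ω` by linear independence. Finally `qf_gram`. -/
theorem layC_gram {B : Matrix (Fin 4) (Fin 4) ℝ} {As S : List V} (hC : Compat B As)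
    (hS : ∀ a ∈ S, a ∈ As) {a c : V} {ds : List V} (ha : a ∈ As) (hc : dot a c = 1 ∨ dot a c = -1)
    (hd : ∀ d ∈ ds, dot a d = 0) (hF : Flat S (c :: ds)) :
    LayC (n := ds.length) (gram B (c :: ds)) := by
  have hdot : ∀ k : Fin (ds.length + 1) → ℤ, dot a (comb (c :: ds) k) = k 0 * dot a c := by
    intro k
    rw [dot_comb]
    have h1 : (∑ i : Fin (ds.length + 1), k i * dot a ((c :: ds).get i)) = k 0 * dot a c := by
      rw [Fin.sum_univ_succ]
      have h2 : ∀ i : Fin ds.length, k i.succ * dot a ((c :: ds).get i.succ) = 0 := by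
        intro i
        have h3 : dot a ((c :: ds).get i.succ) = 0 := hd _ (List.get_mem ds i)
        rw [h3, mul_zero]
      rw [Finset.sum_eq_zero fun i _ => h2 i, add_zero]
      rfl
    exact h1
  intro δ hδ
  obtain ⟨v, hv1, ⟨y, hy⟩, hv3⟩ := hC (comb (c :: ds) δ)
  have hs1 : ∀ b ∈ S, dot b (comb (c :: ds) δ) = 0 := (hF.2 _).mp ⟨δ, rfl⟩
  have hy1 : ∀ b : V, dot b (comb (c :: ds) δ) - dot b v = dot b y + dot b y := by
    intro b
    rw [← dot_sub, hy, dot_add]
  have hv0 : ∀ b ∈ S, dot b v = 0 := by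
    intro b hb
    have h1 := hy1 b
    have h2 := abs_le.mp (hv1 b (hS b hb))
    have h3 := hs1 b hb
    omega
  have hya : ∀ b ∈ S, dot b y = 0 := by
    intro b hb
    have h1 := hy1 b
    have h2 := hv0 b hb
    have h3 := hs1 b hb
    omega
  have hva : dot a v = 0 := by
    have h1 := hy1 a
    have h2 := abs_le.mp (hv1 a ha)
    rw [hdot δ, hδ] at h1
    omega
  obtain ⟨ν, hν⟩ := (hF.2 v).mpr hv0
  obtain ⟨ω, hω⟩ := (hF.2 y).mpr hya
  have hν0 : ν 0 = 0 := by
    have h1 := hdot ν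
    rw [← hν, hva] at h1
    rcases hc with hc | hc
    · rw [hc] at h1
      omega
    · rw [hc] at h1
      omega
  have hk : δ - ν - (ω + ω) = 0 := by
    apply hF.1
    have h1 := comb_sub (c :: ds) (δ - ν) (ω + ω)
    have h2 := comb_sub (c :: ds) δ ν
    have h3 := comb_add (c :: ds) ω ω
    rw [h2, h3, ← hν, ← hω, hy, sub_self] at h1
    exact h1
  refine ⟨ν, hν0, fun i => ⟨ω i, ?_⟩, ?_⟩
  · have h1 := congrFun hk i
    simp only [Pi.sub_apply, Pi.add_apply, Pi.zero_apply] at h1
    omega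
  · have h1 := qf_gram B (c :: ds) ν
    have h2 := qf_gram B (c :: ds) δ
    rw [← hν] at h1
    exact (le_of_eq h1).trans (hv3.trans (le_of_eq h2.symm))

/-- The Gram matrix of the new form in the adapted basis. -/
theorem gram_add {B : Matrix (Fin 4) (Fin 4) ℝ} {a c : V} {ds : List V}
    (hc : dot a c = 1 ∨ dot a c = -1) (hd : ∀ d ∈ ds, dot a d = 0) (t : ℝ) :
    gram (B + t • r1 a) (c :: ds) = gram B (c :: ds) + t • E00 ds.length := by
  have h1 : ((dot a c : ℤ) : ℝ) * ((dot a c : ℤ) : ℝ) = 1 := by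
    rcases hc with hc | hc
    · rw [hc]
      norm_num
    · rw [hc]
      norm_num
  have h2 : ∀ i : Fin ds.length, dot a ((c :: ds).get i.succ) = 0 :=
    fun i => hd _ (List.get_mem ds i)
  have key : ∀ i j : Fin (ds.length + 1), bl (B + t • r1 a) ((c :: ds).get i) ((c :: ds).get j) =
      bl B ((c :: ds).get i) ((c :: ds).get j) + t * (if i = 0 ∧ j = 0 then 1 else 0) := by
    intro i j
    rw [bl_r1]
    refine Fin.cases ?_ (fun i => ?_) i
    · refine Fin.cases ?_ (fun j => ?_) j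
      · have h3 : (c :: ds).get (0 : Fin (ds.length + 1)) = c := rfl
        rw [h3, mul_assoc, h1]
        simp
      · rw [h2 j]
        simp [Fin.succ_ne_zero]
    · rw [h2 i]
      simp [Fin.succ_ne_zero]
  ext i j
  exact key i j

theorem low_gram (B : Matrix (Fin 4) (Fin 4) ℝ) (c : V) (ds : List V) :
    low (n := ds.length) (gram B (c :: ds)) = gram B ds := by
  ext i j
  rfl

private theorem stepL_base {S cs ds : List V} {a c : V} (hF : Flat S cs)
    (hp : piv a cs = some (c, ds)) :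
    (dot a c = 1 ∨ dot a c = -1) ∧ cs.length = (c :: ker a c ds).length ∧ LI cs ∧
      Flat S (c :: ker a c ds) ∧ ∀ x, Sp cs x ↔ Sp (c :: ker a c ds) x := by
  obtain ⟨hc, hperm⟩ := piv_some hp
  have hF2 : Flat S (c :: ker a c ds) := flat_ker_cons (flat_perm hF hperm)
  refine ⟨hc, ?_, hF.1, hF2, fun x => (hF.2 x).trans (hF2.2 x).symm⟩
  rw [hperm.length_eq]
  simp [ker]

/-- **The step, determinant.** PROOF. `piv_some`, `flat_perm`, `flat_ker_cons`: replace `cs` by
`c :: ker a c ds` on both sides (`gram_congr`, lengths agree), then `gram_add`, `det_E00`,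
`low_gram`. -/
theorem step_det {B : Matrix (Fin 4) (Fin 4) ℝ} {S cs ds : List V} {a c : V}
    (hF : Flat S cs) (hp : piv a cs = some (c, ds)) (t : ℝ) :
    (gram (B + t • r1 a) cs).det = (gram B cs).det + t * (gram B (ker a c ds)).det := by
  obtain ⟨hc, hl, h1, h2, hs⟩ := stepL_base hF hp
  rw [(gram_congr (B + t • r1 a) hl h1 h2.1 hs).1, (gram_congr B hl h1 h2.1 hs).1,
    gram_add hc (dot_ker hc ds) t]
  have h3 := det_E00 (n := (ker a c ds).length) (Q := gram B (c :: ker a c ds)) t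
  rw [low_gram] at h3
  exact h3

/-- **The step, second moment.** PROOF. As for `step_det`, with `stepA` (times `60`),
`layC_gram` and `gram_posDef`. -/
theorem step_PH {B : Matrix (Fin 4) (Fin 4) ℝ} (hB : B.PosDef) {As S cs ds : List V} {a c : V}
    (hC : Compat B As) (hS : ∀ a ∈ S, a ∈ As) (ha : a ∈ As) (hF : Flat S cs)
    (hp : piv a cs = some (c, ds)) {t : ℝ} (ht : 0 ≤ t) :
    PH (gram (B + t • r1 a) cs) =
      PH (gram B cs) + t * (PH (gram B (ker a c ds)) + 10 * (gram B cs).det) +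
        5 * t ^ 2 * (gram B (ker a c ds)).det := by
  obtain ⟨hc, hl, h1, h2, hs⟩ := stepL_base hF hp
  have hL := layC_gram hC hS ha hc (dot_ker hc ds) h2
  have hP : (gram B (c :: ker a c ds)).PosDef := gram_posDef hB h2.1
  have h3 := stepA (n := (ker a c ds).length) (Q := gram B (c :: ker a c ds)) hP hL ht
  rw [low_gram, ← gram_add hc (dot_ker hc ds) t] at h3
  unfold PH
  rw [(gram_congr (B + t • r1 a) hl h1 h2.1 hs).1, (gram_congr (B + t • r1 a) hl h1 h2.1 hs).2,
    (gram_congr B hl h1 h2.1 hs).1, (gram_congr B hl h1 h2.1 hs).2]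
  linear_combination 60 * h3

/-- If `a` vanishes on the list then the Gram matrix does not change. -/
theorem gram_zero {B : Matrix (Fin 4) (Fin 4) ℝ} {cs : List V} {a : V}
    (h : ∀ c ∈ cs, dot a c = 0) (t : ℝ) : gram (B + t • r1 a) cs = gram B cs := by
  ext i j
  have h1 : bl (B + t • r1 a) (cs.get i) (cs.get j) = bl B (cs.get i) (cs.get j) := by
    rw [bl_r1, h _ (List.get_mem cs i)]
    simp
  exact h1

end Pool.Agent.D4Q
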