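import Pool.Agent.D4Q.LeafA
import Pool.Agent.D4Q.StepL

set_option autoImplicit false

/-!
# P17. The base form `D_4` and its leaves
-/

namespace Pool.Agent.D4Q

open Matrix

/-- The Gram matrix of `D_4` in the basis `(1,1,0,0), (1,-1,0,0), (0,1,-1,0), (0,0,1,-1)`. -/
def Gm : Matrix (Fin 4) (Fin 4) ℝ := !![2, 0, 1, 0; 0, 2, -1, 0; 1, -1, 2, -1; 0, 0, -1, 2]

/-- The bilinear form of `D_4`. -/
def gD (x y : V) : ℤ :=
  dot (1, 1, 0, 0) x * dot (1, 1, 0, 0) y + dot (1, -1, 1, 0) x * dot (1, -1, 1, 0) y +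
    dot (0, 0, -1, 1) x * dot (0, 0, -1, 1) y + dot (0, 0, 0, -1) x * dot (0, 0, 0, -1) y

theorem bl_Gm (x y : V) : bl Gm x y = gD x y := by
  simp only [bl, Gm, gD, dot, dotProduct, mulVec, ic, vc, Fin.sum_univ_four, Matrix.of_apply]
  simp only [Matrix.cons_val]
  push_cast
  ring

private theorem gD_comm (x y : V) : gD x y = gD y x := by
  unfold gD
  ring

theorem Gm_posDef : Gm.PosDef := by
  refine Matrix.PosDef.of_dotProduct_mulVec_pos (Matrix.IsHermitian.ext fun i j => ?_)
    fun x hx => ?_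
  · rw [star_trivial]
    fin_cases i <;> fin_cases j <;> simp [Gm]
  · rw [star_trivial]
    have h1 : x ⬝ᵥ (Gm *ᵥ x) =
        (x 0 + x 1) ^ 2 + (x 0 - x 1 + x 2) ^ 2 + (x 3 - x 2) ^ 2 + x 3 ^ 2 := by
      simp only [Gm, dotProduct, mulVec, Fin.sum_univ_four, Matrix.of_apply]
      simp only [Matrix.cons_val]
      ring
    rw [h1]
    by_contra h2
    have e1 : (x 0 + x 1) ^ 2 = 0 := by
      nlinarith [sq_nonneg (x 0 + x 1), sq_nonneg (x 0 - x 1 + x 2), sq_nonneg (x 3 - x 2),
        sq_nonneg (x 3)]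
    have e2 : (x 0 - x 1 + x 2) ^ 2 = 0 := by
      nlinarith [sq_nonneg (x 0 + x 1), sq_nonneg (x 0 - x 1 + x 2), sq_nonneg (x 3 - x 2),
        sq_nonneg (x 3)]
    have e3 : (x 3 - x 2) ^ 2 = 0 := by
      nlinarith [sq_nonneg (x 0 + x 1), sq_nonneg (x 0 - x 1 + x 2), sq_nonneg (x 3 - x 2),
        sq_nonneg (x 3)]
    have e4 : x 3 ^ 2 = 0 := by
      nlinarith [sq_nonneg (x 0 + x 1), sq_nonneg (x 0 - x 1 + x 2), sq_nonneg (x 3 - x 2),
        sq_nonneg (x 3)]
    have f1 := pow_eq_zero_iff (two_ne_zero) |>.mp e1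
    have f2 := pow_eq_zero_iff (two_ne_zero) |>.mp e2
    have f3 := pow_eq_zero_iff (two_ne_zero) |>.mp e3
    have f4 := pow_eq_zero_iff (two_ne_zero) |>.mp e4
    apply hx
    funext i
    fin_cases i
    · show x 0 = 0
      linarith
    · show x 1 = 0
      linarith
    · show x 2 = 0
      linarith
    · show x 3 = 0
      linarith

private def W4 : Matrix (Fin 4) (Fin 4) ℤ :=
  !![-1, -1, 0, 0; 0, 1, -1, 0; 0, 1, 0, 0; 1, 0, 0, 1]

private theorem Gm_eq : Gm = tr W4 (DnG 3) := by
  ext i j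
  fin_cases i <;> fin_cases j <;>
    simp [Gm, tr, mc, W4, DnG, Matrix.mul_apply, Fin.sum_univ_four] <;> norm_num

/-- PROOF. `Gm = tr W (DnG 3)` with `W = ![![-1,-1,0,0],![0,1,-1,0],![0,1,0,0],![1,0,0,1]]`;
`FF_DnG 3` is `4/12 + 1/10`. -/
theorem FF_Gm : Gm.det = 4 ∧ FF Gm = 13 / 30 := by
  constructor
  · rw [Gm, Matrix.det_succ_row_zero]
    simp [Fin.sum_univ_succ, Matrix.det_fin_three, Fin.succAbove]
    norm_num
  · rw [Gm_eq, FF_tr]
    · rw [FF_DnG 3]
      norm_num
    · have h : W4.det = -1 := by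
        unfold W4
        decide +kernel
      rw [h]
      exact isUnit_one.neg

/-- The test for the leaves. -/
def leafT (cs : List V) : Bool :=
  match cs with
  | [] => true
  | [a] => decide (0 < gD a a)
  | [a, b] => T2a.elem (gD a a, gD a b, gD b b) || T2b.elem (gD a a, gD a b, gD b b)
  | [a, b, c] => T3.elem (gD a a, gD a b, gD a c, gD b b, gD b c, gD c c)
  | [a, b, c, d] => decide ([a, b, c, d] = E4)
  | _ => false

/-- The determinants of the leaves. -/
def leafD (cs : List V) : ℕ :=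
  match cs with
  | [] => 1
  | [a] => (gD a a).toNat
  | [a, b] => if T2a.elem (gD a a, gD a b, gD b b) then 4 else 3
  | _ => 4

/-- The values `60 det FF` of the leaves. -/
def leafP (cs : List V) : ℕ :=
  match cs with
  | [] => 0
  | [a] => 5 * (gD a a).toNat * (gD a a).toNat
  | [a, b] => if T2a.elem (gD a a, gD a b, gD b b) then 80 else 50
  | [_, _, _] => 90
  | _ => 104

private theorem gram_one (a : V) :
    gram Gm [a] = (!![(gD a a : ℝ)] : Matrix (Fin 1) (Fin 1) ℝ) := by
  refine Matrix.ext fun (i : Fin 1) (j : Fin 1) => ?_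
  fin_cases i
  fin_cases j
  exact bl_Gm a a

private theorem gram_two (a b : V) :
    gram Gm [a, b] =
      (!![(gD a a : ℝ), gD a b; gD a b, gD b b] : Matrix (Fin 2) (Fin 2) ℝ) := by
  refine Matrix.ext fun (i : Fin 2) (j : Fin 2) => ?_
  fin_cases i
  · fin_cases j
    · exact bl_Gm a a
    · exact bl_Gm a b
  · fin_cases j
    · exact (bl_Gm b a).trans (by rw [gD_comm]; rfl)
    · exact bl_Gm b b

private theorem gram_three (a b c : V) :
    gram Gm [a, b, c] =
      (!![(gD a a : ℝ), gD a b, gD a c; gD a b, gD b b, gD b c; gD a c, gD b c, gD c c] :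
        Matrix (Fin 3) (Fin 3) ℝ) := by
  refine Matrix.ext fun (i : Fin 3) (j : Fin 3) => ?_
  fin_cases i
  · fin_cases j
    · exact bl_Gm a a
    · exact bl_Gm a b
    · exact bl_Gm a c
  · fin_cases j
    · exact (bl_Gm b a).trans (by rw [gD_comm]; rfl)
    · exact bl_Gm b b
    · exact bl_Gm b c
  · fin_cases j
    · exact (bl_Gm c a).trans (by rw [gD_comm]; rfl)
    · exact (bl_Gm c b).trans (by rw [gD_comm]; rfl)
    · exact bl_Gm c c

private theorem leaf_all {cs : List V} (h : leafT cs = true) :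
    (gram Gm cs).det = leafD cs ∧ PH (gram Gm cs) = leafP cs := by
  match cs, h with
  | [], _ =>
    refine ⟨?_, ?_⟩
    · show Matrix.det (n := Fin 0) (gram Gm []) = _
      rw [Matrix.det_isEmpty]
      simp [leafD]
    · show PH (n := 0) (gram Gm []) = _
      rw [PH, FF_zero]
      simp [leafP]
  | [a], h =>
    have h1 : 0 < gD a a := by simpa [leafT] using h
    have h2 : (((gD a a).toNat : ℕ) : ℝ) = (gD a a : ℝ) := by
      have h3 : (((gD a a).toNat : ℕ) : ℤ) = gD a a := Int.toNat_of_nonneg h1.le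
      exact_mod_cast congrArg (Int.cast (R := ℝ)) h3
    have h4 : (0 : ℝ) ≤ (gD a a : ℝ) := by exact_mod_cast h1.le
    refine ⟨?_, ?_⟩
    · show Matrix.det (n := Fin 1) (gram Gm [a]) = _
      rw [gram_one]
      simp [leafD, h2]
    · show PH (n := 1) (gram Gm [a]) = _
      rw [gram_one, PH, FF_one _ h4]
      simp only [leafP, Nat.cast_mul, h2, Matrix.det_fin_one, Matrix.of_apply, Matrix.cons_val]
      push_cast
      ring
  | [a, b], h =>
    by_cases hT : T2a.elem (gD a a, gD a b, gD b b) = true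
    · have hm := List.elem_iff.mp hT
      obtain ⟨h1, h2⟩ := FF_T2a hm
      refine ⟨?_, ?_⟩
      · show Matrix.det (n := Fin 2) (gram Gm [a, b]) = _
        rw [gram_two, h1]
        simp only [leafD, hT, if_true]
        norm_num
      · show PH (n := 2) (gram Gm [a, b]) = _
        rw [gram_two, PH, h1, h2]
        simp only [leafP, hT, if_true]
        norm_num
    · have hT2 : T2b.elem (gD a a, gD a b, gD b b) = true := by
        have h3 : (T2a.elem (gD a a, gD a b, gD b b) || T2b.elem (gD a a, gD a b, gD b b)) =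
          true := h
        rw [Bool.or_eq_true] at h3
        exact h3.resolve_left hT
      have hm := List.elem_iff.mp hT2
      obtain ⟨h1, h2⟩ := FF_T2b hm
      refine ⟨?_, ?_⟩
      · show Matrix.det (n := Fin 2) (gram Gm [a, b]) = _
        rw [gram_two, h1]
        simp only [leafD, hT]
        norm_num
      · show PH (n := 2) (gram Gm [a, b]) = _
        rw [gram_two, PH, h1, h2]
        simp only [leafP, hT]
        norm_num
  | [a, b, c], h =>
    have hT : T3.elem (gD a a, gD a b, gD a c, gD b b, gD b c, gD c c) = true := h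
    have hm := List.elem_iff.mp hT
    obtain ⟨h1, h2⟩ := FF_T3 hm
    refine ⟨?_, ?_⟩
    · show Matrix.det (n := Fin 3) (gram Gm [a, b, c]) = _
      rw [gram_three, h1]
      simp [leafD]
    · show PH (n := 3) (gram Gm [a, b, c]) = _
      rw [gram_three, PH, h1, h2]
      simp only [leafP]
      norm_num
  | [a, b, c, d], h =>
    have hE : [a, b, c, d] = E4 := by simpa [leafT] using h
    obtain ⟨h1, h2⟩ := FF_Gm
    have h3 := gram_E4 Gm
    have hD : leafD [a, b, c, d] = 4 := rfl
    have hP : leafP [a, b, c, d] = 104 := rfl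
    rw [hD, hP, hE]
    refine ⟨?_, ?_⟩
    · show Matrix.det (n := Fin 4) (gram Gm E4) = _
      rw [h3, h1]
      norm_num
    · show PH (n := 4) (gram Gm E4) = _
      rw [h3, PH, h1, h2]
      norm_num
  | a :: b :: c :: d :: e :: l, h =>
    exact absurd h (by simp [leafT])

/-- Case distinction on the list; the Gram matrix is the matrix of the table (`bl_Gm`). -/
theorem leaf_det {cs : List V} (h : leafT cs = true) : (gram Gm cs).det = leafD cs :=
  (leaf_all h).1

theorem leaf_PH {cs : List V} (h : leafT cs = true) : PH (gram Gm cs) = leafP cs :=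
  (leaf_all h).2

private theorem gram_smul (s : ℝ) (cs : List V) : gram (s • Gm) cs = s • gram Gm cs := by
  ext i j
  rw [Matrix.smul_apply]
  show bl (s • Gm) _ _ = s • bl Gm _ _
  unfold bl
  rw [Matrix.smul_mulVec, dotProduct_smul]

/-- Scaling: `gram (s • Gm) cs = s • gram Gm cs`. -/
theorem leaf_det_s {cs : List V} (h : leafT cs = true) (s : ℝ) :
    (gram (s • Gm) cs).det = s ^ cs.length * leafD cs := by
  rw [gram_smul, Matrix.det_smul, leaf_det h, Fintype.card_fin]

theorem leaf_PH_s {cs : List V} (h : leafT cs = true) {s : ℝ} (hs : 0 ≤ s) :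
    PH (gram (s • Gm) cs) = s ^ (cs.length + 1) * leafP cs := by
  have h1 := leaf_PH h
  unfold PH at h1 ⊢
  rw [gram_smul, Matrix.det_smul, FF_smul s hs, Fintype.card_fin, ← h1]
  ring

end Pool.Agent.D4Q
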