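import Pool.Agent.D4Q.RedA
import Pool.Agent.D4Q.LeafB

set_option autoImplicit false

/-!
# P36. Forms of type `D_4`
-/

namespace Pool.Agent.D4Q

open Matrix

/-- `Q` is equivalent to a positive multiple of the form of `D_4`. -/
def IsD4 (Q : Matrix (Fin 4) (Fin 4) ℝ) : Prop :=
  ∃ (W : Matrix (Fin 4) (Fin 4) ℤ) (s : ℝ), IsUnit W.det ∧ 0 < s ∧ tr W Q = s • Gm

private theorem isD_mc_mul (U V : Matrix (Fin 4) (Fin 4) ℤ) : mc (U * V) = mc U * mc V := by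
  unfold mc
  exact Matrix.map_mul (f := Int.castRingHom ℝ)

private theorem isD_mc_one : mc (1 : Matrix (Fin 4) (Fin 4) ℤ) = 1 := by
  unfold mc
  exact Matrix.map_one _ Int.cast_zero Int.cast_one

private theorem isD_mc_inv {W : Matrix (Fin 4) (Fin 4) ℤ} (hW : IsUnit W.det) :
    (mc W)⁻¹ = mc W⁻¹ := by
  refine Matrix.inv_eq_right_inv ?_
  rw [← isD_mc_mul, Matrix.mul_nonsing_inv W hW, isD_mc_one]

private theorem isD_tr_one (Q : Matrix (Fin 4) (Fin 4) ℝ) : tr 1 Q = Q := by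
  unfold tr
  rw [isD_mc_one, Matrix.transpose_one, Matrix.one_mul, Matrix.mul_one]

private theorem isD_tr_smul (W : Matrix (Fin 4) (Fin 4) ℤ) (c : ℝ)
    (Q : Matrix (Fin 4) (Fin 4) ℝ) : tr W (c • Q) = c • tr W Q := by
  unfold tr
  rw [Matrix.mul_smul, Matrix.smul_mul]

/-- Invariance under change of basis (`tr_tr`, and the inverse of a unimodular matrix is integral
and unimodular). -/
theorem isD4_tr {Q : Matrix (Fin 4) (Fin 4) ℝ} {W : Matrix (Fin 4) (Fin 4) ℤ} (hW : IsUnit W.det) :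
    IsD4 (tr W Q) ↔ IsD4 Q := by
  constructor
  · rintro ⟨U, s, hU, hs, h⟩
    refine ⟨W * U, s, ?_, hs, ?_⟩
    · rw [Matrix.det_mul]
      exact hW.mul hU
    · rw [← h, tr_tr]
  · rintro ⟨U, s, hU, hs, h⟩
    refine ⟨W⁻¹ * U, s, ?_, hs, ?_⟩
    · rw [Matrix.det_mul]
      exact (Matrix.isUnit_nonsing_inv_det W hW).mul hU
    · rw [← h, tr_tr, Matrix.mul_nonsing_inv_cancel_left W U hW]

/-- The inverse form in the dual basis. -/
theorem tr_inv {Q : Matrix (Fin 4) (Fin 4) ℝ} {W : Matrix (Fin 4) (Fin 4) ℤ} (hW : IsUnit W.det) :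
    (tr W Q)⁻¹ = tr (W⁻¹)ᵀ Q⁻¹ := by
  unfold tr
  have h1 : mc (W⁻¹)ᵀ = ((mc W)⁻¹)ᵀ := by
    rw [isD_mc_inv hW]
    rfl
  rw [h1, Matrix.transpose_transpose, Matrix.mul_inv_rev, Matrix.mul_inv_rev,
    Matrix.transpose_nonsing_inv, Matrix.mul_assoc]

private def isDU : Matrix (Fin 4) (Fin 4) ℤ :=
  !![-1, 0, 0, 0; 0, 0, 1, 0; 0, 1, 2, 1; 0, 0, 1, 1]

private theorem isD_ADz : mc ADz = tr isDUᵀ Gm := by
  ext i j
  fin_cases i <;> fin_cases j <;>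
    simp [Gm, tr, mc, isDU, ADz, Matrix.mul_apply, Fin.sum_univ_four] <;> norm_num

private theorem isD_inv_Gm : Gm⁻¹ = (1 / 2 : ℝ) • mc ADz := by
  refine Matrix.inv_eq_right_inv ?_
  ext i j
  fin_cases i <;> fin_cases j <;>
    simp [Gm, mc, ADz, Matrix.mul_apply, Fin.sum_univ_four] <;> norm_num

private theorem isD_U_det : IsUnit (isDUᵀ).det := by
  have h : (isDUᵀ).det = 1 ∨ (isDUᵀ).det = -1 := by
    unfold isDU
    decide +kernel
  rcases h with h | h <;> rw [h]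
  · exact isUnit_one
  · exact isUnit_one.neg

private theorem isD_smul_Gm {s : ℝ} (hs : 0 < s) : IsD4 (s • Gm) :=
  ⟨1, s, by rw [Matrix.det_one]; exact isUnit_one, hs, isD_tr_one _⟩

/-- **The dual of `D_4` is similar to `D_4`.** PROOF. `Gm⁻¹ = (1/2) • mc ADz`, and
`ADz = U * G * Uᵀ` with the rows `(-1,0,0,0), (0,0,1,0), (0,1,2,1), (0,0,1,1)` of `U` and
`G = !![2,0,1,0; 0,2,-1,0; 1,-1,2,-1; 0,0,-1,2]`; that is `mc ADz = tr Uᵀ Gm`. Then `tr_inv`. -/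
theorem isD4_inv {Q : Matrix (Fin 4) (Fin 4) ℝ} (h : IsD4 Q) : IsD4 Q⁻¹ := by
  obtain ⟨W, s, hW, hs, h⟩ := h
  have hW' : IsUnit ((W⁻¹)ᵀ).det := by
    rw [Matrix.det_transpose]
    exact Matrix.isUnit_nonsing_inv_det W hW
  rw [← isD4_tr hW', ← tr_inv hW, h]
  have h1 : (s • Gm)⁻¹ = tr isDUᵀ ((s⁻¹ * (1 / 2)) • Gm) := by
    rw [isD_tr_smul, ← isD_ADz, mul_smul, ← isD_inv_Gm]
    refine Matrix.inv_eq_right_inv ?_
    have hd : IsUnit Gm.det := by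
      rw [FF_Gm.1]
      exact isUnit_iff_ne_zero.mpr (by norm_num)
    rw [Matrix.smul_mul, Matrix.mul_smul, Matrix.mul_nonsing_inv Gm hd, smul_smul,
      mul_inv_cancel₀ hs.ne', one_smul]
  rw [h1, isD4_tr isD_U_det]
  exact isD_smul_Gm (by positivity)

private theorem isD_back {Q : Matrix (Fin 4) (Fin 4) ℝ} {W : Matrix (Fin 4) (Fin 4) ℤ} {s : ℝ}
    (hW : IsUnit W.det) (h : tr W Q = s • Gm) : Q = tr W⁻¹ (s • Gm) := by
  rw [← h, tr_tr, Matrix.mul_nonsing_inv W hW, isD_tr_one]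

private theorem isD_qf_Gm (w : Fin 4 → ℤ) : qf Gm (ic w) =
    2 * ((w 0 * w 0 + w 1 * w 1 + w 2 * w 2 + w 3 * w 3 + w 0 * w 2 - w 1 * w 2 - w 2 * w 3 : ℤ) :
      ℝ) := by
  simp only [qf, Gm, dotProduct, mulVec, ic, Fin.sum_univ_four, Matrix.of_apply]
  simp only [Matrix.cons_val]
  push_cast
  ring

/-- **The minimum.** PROOF. In the basis where the form is `s • Gm` the value at a nonzero integral
vector is `s` times a positive even number (`qf Gm (ic v) = gD ...`, the form is even and positive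
definite), so at least `2 s`, and the determinant is `4 s^4`. -/
theorem isD4_min {Q : Matrix (Fin 4) (Fin 4) ℝ} (h : IsD4 Q) {v : Fin 4 → ℤ} (hv : v ≠ 0) :
    4 * Q.det ≤ qf Q (ic v) ^ 4 ∧ 0 < qf Q (ic v) := by
  obtain ⟨W, s, hW, hs, h⟩ := h
  obtain ⟨w, hw⟩ : ∃ w : Fin 4 → ℤ, w = W⁻¹ *ᵥ v := ⟨_, rfl⟩
  have hWw : W *ᵥ w = v := by
    rw [hw, Matrix.mulVec_mulVec, Matrix.mul_nonsing_inv W hW, Matrix.one_mulVec]
  have hw0 : w ≠ 0 := by
    intro e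
    apply hv
    rw [← hWw, e, Matrix.mulVec_zero]
  have hic : mc W *ᵥ ic w = ic v := by
    rw [← hWw]
    funext i
    unfold mc ic mulVec dotProduct
    push_cast
    rfl
  have hq : qf Q (ic v) = s * qf Gm (ic w) := by
    rw [← hic, ← qf_tr, h]
    unfold qf
    rw [Matrix.smul_mulVec, dotProduct_smul, smul_eq_mul]
  have hpos : 0 < qf Gm (ic w) := by
    refine qf_pos Gm_posDef ?_
    intro e
    apply hw0
    funext i
    have h1 : ((w i : ℤ) : ℝ) = 0 := congrFun e i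
    exact_mod_cast h1
  rw [isD_qf_Gm] at hq hpos
  obtain ⟨N, hN⟩ : ∃ N : ℤ, N = w 0 * w 0 + w 1 * w 1 + w 2 * w 2 + w 3 * w 3 + w 0 * w 2 -
    w 1 * w 2 - w 2 * w 3 := ⟨_, rfl⟩
  rw [← hN] at hq hpos
  have hN1 : (1 : ℝ) ≤ N := by
    have h1 : (0 : ℝ) < N := by linarith
    have h2 : (0 : ℤ) < N := by exact_mod_cast h1
    have h3 : (1 : ℤ) ≤ N := h2
    exact_mod_cast h3
  have hdet : Q.det = 4 * s ^ 4 := by
    rw [← det_tr W hW, h, Matrix.det_smul, FF_Gm.1, Fintype.card_fin]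
    ring
  have h2 : 2 * s ≤ qf Q (ic v) := by
    rw [hq]
    nlinarith
  refine ⟨?_, by linarith⟩
  rw [hdet]
  calc 4 * (4 * s ^ 4) = (2 * s) ^ 4 := by ring
    _ ≤ qf Q (ic v) ^ 4 := pow_le_pow_left₀ (by linarith) h2 4

/-- Positive definiteness and the determinant. -/
theorem isD4_posDef {Q : Matrix (Fin 4) (Fin 4) ℝ} (h : IsD4 Q) : Q.PosDef := by
  obtain ⟨W, s, hW, hs, h⟩ := h
  rw [isD_back hW h]
  exact posDef_tr (Gm_posDef.smul hs) W⁻¹ (Matrix.isUnit_nonsing_inv_det W hW)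

/-- Equality for `D_4`: `FF_Gm`, `FF_smul`, `det_tr`, `FF_tr`. -/
theorem eq_of_isD4 {Q : Matrix (Fin 4) (Fin 4) ℝ} (h : IsD4 Q) :
    28561 * Q.det = 3240000 * FF Q ^ 4 := by
  obtain ⟨W, s, hW, hs, h⟩ := h
  rw [← det_tr W hW, ← FF_tr W hW, h, FF_smul s hs.le, FF_Gm.2, Matrix.det_smul, FF_Gm.1,
    Fintype.card_fin]
  ring

end Pool.Agent.D4Q
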