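import Pool.Agent.D4Q.Vec

set_option autoImplicit false
set_option maxRecDepth 100000

/-!
# The automorphisms of `D_4` which move triples of functionals to the standard triples
(complete, checked by the kernel)
-/

namespace Pool.Agent.D4Q

/-- The twelve functionals of the cone of `D_4`, three frames of four. -/
def A12 : List V :=
  [(1, 1, 0, 0), (1, -1, 1, 0), (0, 0, -1, 1), (0, 0, 0, -1),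
    (1, 0, 0, 0), (0, 1, 0, -1), (0, 1, -1, 1), (1, 0, 1, 0),
    (0, 1, -1, 0), (1, 0, 1, -1), (1, 0, 0, 1), (0, 1, 0, 0)]

/-- Matrices as quadruples of rows. -/
abbrev M4 := V × V × V × V

/-- The transposed matrix times a vector. -/
def colT (M : M4) (a : V) : V :=
  (a.1 * M.1.1 + a.2.1 * M.2.1.1 + a.2.2.1 * M.2.2.1.1 + a.2.2.2 * M.2.2.2.1,
    a.1 * M.1.2.1 + a.2.1 * M.2.1.2.1 + a.2.2.1 * M.2.2.1.2.1 + a.2.2.2 * M.2.2.2.2.1,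
    a.1 * M.1.2.2.1 + a.2.1 * M.2.1.2.2.1 + a.2.2.1 * M.2.2.1.2.2.1 +
      a.2.2.2 * M.2.2.2.2.2.1,
    a.1 * M.1.2.2.2 + a.2.1 * M.2.1.2.2.2 + a.2.2.1 * M.2.2.1.2.2.2 +
      a.2.2.2 * M.2.2.2.2.2.2)

/-- The matrix with the given rows. -/
def toMat (M : M4) : Matrix (Fin 4) (Fin 4) ℤ := Matrix.of ![vc M.1, vc M.2.1, vc M.2.2.1, vc M.2.2.2]

/-- The table: for the triple `(i, j, k)` the entry number `16 i + 4 j + k` is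
(rows of `V`, list `σ`, `e`). -/
def tab64 : List (M4 × List ℕ × ℕ) :=
 [(((0, -1, 0, 0), (-1, 1, -1, 0), (-1, 1, -1, 1), (-1, 0, 0, 0)), [10, 11, 9, 8, 3, 1, 2, 0, 5, 7, 6, 4], 11),
  (((0, -1, 0, 0), (-1, 1, -1, 0), (-1, 1, 0, -1), (-1, 0, 0, 0)), [10, 11, 8, 9, 3, 2, 1, 0, 5, 6, 7, 4], 11),
  (((0, -1, 0, 0), (-1, 1, -1, 0), (-1, 1, 0, -1), (0, 1, 0, -1)), [9, 11, 8, 10, 2, 3, 1, 0, 6, 5, 7, 4], 11),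
  (((-1, 0, -1, 0), (0, 0, 0, 1), (0, 0, 1, 0), (0, 1, 0, 0)), [9, 10, 8, 11, 7, 5, 6, 4, 2, 0, 1, 3], 9),
  (((-1, 0, 0, 0), (1, 0, 0, 1), (1, -1, 0, 1), (0, 0, -1, 1)), [1, 2, 3, 0, 4, 7, 6, 5, 9, 10, 11, 8], 11),
  (((-1, 0, 0, 0), (1, 0, 0, 1), (1, 1, -1, 1), (0, 0, -1, 1)), [2, 1, 3, 0, 4, 6, 7, 5, 8, 10, 11, 9], 11),
  (((-1, 0, 0, -1), (0, 0, -1, 1), (1, -1, 0, 1), (1, 0, 0, 0)), [9, 8, 11, 10, 3, 2, 1, 0, 6, 5, 4, 7], 9),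
  (((-1, 0, -1, 1), (0, 0, 0, -1), (0, 0, 1, -2), (0, 1, 0, -1)), [9, 10, 8, 11, 1, 3, 2, 0, 6, 4, 7, 5], 11),
  (((-1, -1, 0, 0), (0, 1, -1, 0), (0, 2, -1, 0), (0, 1, 0, -1)), [4, 7, 5, 6, 1, 3, 2, 0, 11, 9, 10, 8], 11),
  (((-1, 0, 0, 0), (0, 0, -1, 1), (1, -1, 0, 1), (0, -1, 0, 0)), [10, 8, 11, 9, 4, 7, 5, 6, 1, 0, 2, 3], 9),
  (((-1, -1, 0, 0), (0, 1, -1, 0), (1, 1, -1, 1), (1, 0, 0, 0)), [4, 5, 7, 6, 3, 1, 2, 0, 11, 9, 8, 10], 11),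
  (((-1, 0, -1, 1), (0, 0, 0, -1), (1, 1, 0, -1), (1, 0, 0, 0)), [8, 9, 10, 11, 3, 2, 1, 0, 7, 4, 5, 6], 11),
  (((-1, 0, 0, 0), (0, 0, -1, 1), (0, 0, -1, 0), (0, -1, 0, 0)), [10, 9, 11, 8, 4, 6, 5, 7, 2, 0, 1, 3], 9),
  (((-1, -1, 0, 0), (0, 1, -1, 0), (1, 1, 0, -1), (0, 1, 0, -1)), [4, 6, 5, 7, 2, 3, 1, 0, 11, 8, 10, 9], 11),
  (((-1, -1, 0, 0), (0, 1, -1, 0), (1, 1, 0, -1), (1, 0, 0, 0)), [4, 5, 6, 7, 3, 2, 1, 0, 11, 8, 9, 10], 11),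
  (((-1, 0, -1, 1), (0, 0, 0, -1), (1, -1, 1, -1), (1, 0, 0, 0)), [9, 8, 10, 11, 3, 1, 2, 0, 6, 4, 5, 7], 11),
  (((0, 0, 0, -1), (-1, 0, 0, 0), (0, 0, 1, 0), (0, 1, 0, 0)), [5, 6, 7, 4, 11, 10, 9, 8, 2, 1, 0, 3], 9),
  (((0, -1, 0, 0), (-1, 0, 0, 0), (-1, 1, 0, -1), (0, 0, 1, -1)), [0, 2, 3, 1, 11, 8, 10, 9, 6, 5, 7, 4], 11),
  (((0, -1, 0, 0), (-1, 0, 0, 0), (-1, 1, 0, -1), (-1, 1, -1, 0)), [0, 3, 2, 1, 11, 8, 9, 10, 5, 6, 7, 4], 11),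
  (((0, -1, 0, 0), (0, 0, 0, 1), (-1, 1, -1, 1), (-1, 0, 0, 0)), [10, 8, 9, 11, 3, 0, 2, 1, 6, 7, 5, 4], 11),
  (((-1, 0, -1, 1), (1, 1, 0, 0), (1, 1, 0, -1), (1, 0, 0, 0)), [11, 9, 10, 8, 3, 2, 0, 1, 7, 4, 6, 5], 11),
  (((0, -1, 0, 0), (-1, 0, 0, 0), (-1, 1, 0, -1), (0, 0, 1, -1)), [0, 2, 3, 1, 11, 8, 10, 9, 6, 5, 7, 4], 9),
  (((-1, 0, 0, 0), (0, 0, -1, 1), (1, 1, -1, 1), (1, 0, 0, 1)), [8, 9, 11, 10, 4, 6, 7, 5, 2, 0, 3, 1], 11),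
  (((-1, -1, 0, 0), (0, 1, 0, 0), (0, 2, -1, 0), (0, 1, 0, -1)), [4, 7, 6, 5, 0, 3, 2, 1, 8, 9, 10, 11], 11),
  (((-1, 0, -1, 1), (0, 0, 1, -1), (0, 0, 1, -2), (0, 1, 0, -1)), [9, 10, 11, 8, 0, 3, 2, 1, 5, 4, 7, 6], 11),
  (((-1, 0, 0, 0), (0, 0, -1, 1), (1, 1, -1, 1), (0, 1, -1, 0)), [8, 10, 11, 9, 4, 5, 7, 6, 3, 0, 2, 1], 11),
  (((-1, 0, 0, 0), (0, -1, 0, 0), (1, -1, 0, 1), (0, 0, -1, 1)), [0, 2, 3, 1, 4, 7, 5, 6, 9, 10, 8, 11], 9),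
  (((-1, 0, 0, 0), (0, -1, 0, 0), (1, -1, 0, 1), (0, 0, -1, 1)), [0, 2, 3, 1, 4, 7, 5, 6, 9, 10, 8, 11], 11),
  (((-1, 0, -1, 1), (0, 1, 0, -1), (1, 1, 1, -1), (0, 0, 1, -1)), [2, 0, 3, 1, 10, 11, 9, 8, 5, 4, 6, 7], 11),
  (((-1, -1, 0, 0), (0, 1, 0, -1), (1, 1, 0, -1), (1, 0, 1, -1)), [4, 5, 6, 7, 8, 11, 10, 9, 2, 3, 0, 1], 11),
  (((-1, -1, 0, 0), (0, 1, 0, -1), (1, 1, 0, -1), (0, 1, -1, 0)), [4, 6, 5, 7, 8, 11, 9, 10, 3, 2, 0, 1], 11),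
  (((-1, 0, 0, 0), (0, 0, 0, -1), (0, 0, -1, 0), (0, -1, 0, 0)), [10, 9, 8, 11, 4, 5, 6, 7, 2, 1, 0, 3], 9),
  (((0, -1, 0, 0), (-1, 0, 0, 0), (0, 0, 1, 0), (0, 0, 1, -1)), [0, 1, 3, 2, 11, 9, 10, 8, 7, 5, 6, 4], 11),
  (((0, 0, 0, -1), (0, 1, 0, 0), (0, 0, 1, 0), (-1, 0, 0, 0)), [5, 6, 7, 4, 3, 0, 1, 2, 8, 9, 10, 11], 9),
  (((0, -1, 0, 0), (-1, 0, 0, 0), (-1, 1, -1, 1), (-1, 1, -1, 0)), [0, 3, 1, 2, 11, 9, 8, 10, 5, 7, 6, 4], 11),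
  (((0, -1, 0, 0), (0, 0, 0, 1), (0, 0, 1, 0), (-1, 0, 0, 0)), [10, 9, 8, 11, 3, 0, 1, 2, 7, 6, 5, 4], 11),
  (((0, -1, 0, 0), (-1, 0, 0, 0), (0, 0, 1, 0), (0, 0, 1, -1)), [0, 1, 3, 2, 11, 9, 10, 8, 7, 5, 6, 4], 9),
  (((-1, 0, -1, 1), (1, 0, 0, 0), (1, 1, 0, -1), (1, 1, 0, 0)), [3, 1, 0, 2, 11, 8, 10, 9, 7, 4, 6, 5], 11),
  (((-1, 0, 0, 0), (0, 0, -1, 1), (1, -1, 0, 1), (1, 0, 0, 1)), [9, 8, 11, 10, 4, 7, 6, 5, 1, 0, 3, 2], 11),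
  (((-1, -1, 0, 0), (0, 1, 0, 0), (1, 1, 1, -1), (0, 1, 0, -1)), [4, 6, 7, 5, 0, 3, 1, 2, 9, 8, 10, 11], 11),
  (((-1, -1, 0, 0), (0, 1, 0, -1), (1, 1, 1, -1), (1, 0, 1, -1)), [4, 5, 7, 6, 9, 11, 10, 8, 1, 3, 0, 2], 11),
  (((-1, 0, -1, 1), (0, 1, 0, -1), (0, 0, 1, -2), (0, 0, 1, -1)), [1, 0, 3, 2, 10, 11, 8, 9, 5, 4, 7, 6], 11),
  (((-1, -1, 0, 0), (0, 1, 0, -1), (0, 2, -1, 0), (0, 1, -1, 0)), [4, 7, 5, 6, 9, 11, 8, 10, 3, 1, 0, 2], 11),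
  (((0, -1, 0, 0), (0, 0, 0, 1), (0, 0, 1, 0), (-1, 0, 0, 0)), [10, 9, 8, 11, 3, 0, 1, 2, 7, 6, 5, 4], 9),
  (((-1, 0, 0, 0), (0, 0, -1, 1), (0, 0, -1, 0), (0, 1, -1, 0)), [9, 10, 11, 8, 4, 5, 6, 7, 3, 0, 1, 2], 11),
  (((-1, 0, -1, 1), (0, 0, 1, -1), (1, 1, 1, -1), (0, 1, 0, -1)), [8, 10, 11, 9, 0, 3, 1, 2, 5, 4, 6, 7], 11),
  (((-1, 0, 0, 0), (0, -1, 0, 0), (0, 0, -1, 0), (0, 0, -1, 1)), [0, 1, 3, 2, 4, 6, 5, 7, 8, 10, 9, 11], 9),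
  (((-1, 0, 0, 0), (0, -1, 0, 0), (0, 0, -1, 0), (0, 0, -1, 1)), [0, 1, 3, 2, 4, 6, 5, 7, 8, 10, 9, 11], 11),
  (((0, -1, 0, 0), (-1, 0, 0, 0), (0, 0, 1, 0), (0, 0, 0, 1)), [0, 1, 2, 3, 11, 10, 9, 8, 7, 6, 5, 4], 11),
  (((0, -1, 0, 0), (-1, 0, 0, 0), (-1, 1, -1, 1), (0, 0, 0, 1)), [0, 2, 1, 3, 11, 10, 8, 9, 6, 7, 5, 4], 11),
  (((-1, 0, -1, 0), (0, 1, 0, 0), (0, 0, 1, 0), (0, 0, 0, 1)), [1, 0, 2, 3, 7, 5, 6, 4, 8, 10, 9, 11], 9),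
  (((-1, 0, -1, 0), (0, 0, 0, 1), (0, 0, 1, 0), (0, 1, 0, 0)), [9, 10, 8, 11, 7, 5, 6, 4, 2, 0, 1, 3], 11),
  (((-1, -1, 0, 0), (0, 1, 0, -1), (1, 1, 1, -1), (0, 1, 0, 0)), [4, 6, 7, 5, 10, 11, 9, 8, 1, 2, 0, 3], 11),
  (((-1, -1, 0, 0), (0, 1, 0, -1), (0, 2, -1, 0), (0, 1, 0, 0)), [4, 7, 6, 5, 10, 11, 8, 9, 2, 1, 0, 3], 11),
  (((-1, 0, -1, 1), (0, 1, 0, -1), (0, 0, 1, -2), (0, 0, 0, -1)), [1, 0, 2, 3, 9, 11, 8, 10, 6, 4, 7, 5], 11),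
  (((0, 1, 0, 0), (-1, 0, -1, 0), (0, 0, -1, 0), (0, 0, 0, -1)), [1, 0, 2, 3, 8, 10, 9, 11, 7, 5, 6, 4], 9),
  (((0, -1, 0, 0), (-1, 0, 0, 0), (0, 0, 1, 0), (0, 0, 0, 1)), [0, 1, 2, 3, 11, 10, 9, 8, 7, 6, 5, 4], 9),
  (((-1, 0, 0, 0), (0, 0, -1, 1), (1, -1, 0, 1), (0, -1, 0, 0)), [10, 8, 11, 9, 4, 7, 5, 6, 1, 0, 2, 3], 11),
  (((-1, 0, -1, 1), (1, 0, 0, 0), (1, 1, 0, -1), (0, 0, 0, -1)), [2, 1, 0, 3, 11, 8, 9, 10, 7, 4, 5, 6], 11),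
  (((-1, 0, 0, 0), (0, -1, 0, 0), (1, -1, 1, -1), (0, 0, 0, -1)), [0, 2, 1, 3, 4, 5, 7, 6, 9, 8, 10, 11], 11),
  (((-1, 0, 0, 0), (0, 0, -1, 1), (0, 0, -1, 0), (0, -1, 0, 0)), [10, 9, 11, 8, 4, 6, 5, 7, 2, 0, 1, 3], 11),
  (((-1, 0, 0, 0), (0, -1, 0, 0), (0, 0, -1, 0), (0, 0, 0, -1)), [0, 1, 2, 3, 4, 5, 6, 7, 8, 9, 10, 11], 9),
  (((-1, 0, -1, 1), (1, 0, 0, 0), (1, -1, 1, -1), (0, 0, 0, -1)), [1, 2, 0, 3, 11, 9, 8, 10, 6, 4, 5, 7], 11),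
  (((-1, 0, 0, 0), (0, -1, 0, 0), (0, 0, -1, 0), (0, 0, 0, -1)), [0, 1, 2, 3, 4, 5, 6, 7, 8, 9, 10, 11], 11)]

/-- The check of an entry: `Vᵀ` maps the functional number `σ d` to plus or minus the functional
number `d`; `σ` is a permutation; the standard triple `3, 7, e` (`e = 9` or `e = 11`) comes from
`i, 4 + j, 8 + k`; and `σ` maps the frames of the standard functionals into frames. -/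
def okE (i j k : ℕ) (E : M4 × List ℕ × ℕ) : Bool :=
  ((List.range 12).all fun d =>
    let w := colT E.1 (A12.getD (E.2.1.getD d 0) 0)
    w == A12.getD d 0 || w == -A12.getD d 0) &&
  ((List.range 12).all fun d => E.2.1.contains d) && E.2.1.length == 12 &&
  (E.2.2 == 9 || E.2.2 == 11) &&
  ([3, 7, E.2.2].all fun p =>
    (E.2.1.getD p 0 == i || E.2.1.getD p 0 == 4 + j || E.2.1.getD p 0 == 8 + k) &&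
    (List.range 12).all fun d => !(d / 4 == p / 4) || E.2.1.getD d 0 / 4 == E.2.1.getD p 0 / 4)

theorem tab64_ok : ∀ i ∈ List.range 4, ∀ j ∈ List.range 4, ∀ k ∈ List.range 4,
    okE i j k (tab64.getD (16 * i + 4 * j + k) default) = true := by
  decide +kernel

end Pool.Agent.D4Q
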