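import Pool.Agent.D4Q.RedA
import Pool.Agent.D4Q.RedT
import Pool.Agent.D4Q.Comp

set_option autoImplicit false

/-!
# P33. The domain of the perfect form `D_4`
-/

namespace Pool.Agent.D4Q

open Matrix

/-- The functional number `d`. -/
def a12 (d : ℕ) : V := A12.getD d 0

private theorem redD_r1 (a b c d : ℤ) (i j : Fin 4) : r1 (a, b, c, d) i j =
    (![a, b, c, d] i : ℝ) * (![a, b, c, d] j : ℝ) := by
  rw [r1, vecMulVec_apply]
  fin_cases i <;> fin_cases j <;> simp [ic, vc]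

private theorem redD_sum12 (u : ℕ → ℝ) : ∑ d ∈ Finset.range 12, u d • r1 (a12 d) =
    u 0 • r1 (1, 1, 0, 0) + u 1 • r1 (1, -1, 1, 0) + u 2 • r1 (0, 0, -1, 1) +
    u 3 • r1 (0, 0, 0, -1) + u 4 • r1 (1, 0, 0, 0) + u 5 • r1 (0, 1, 0, -1) +
    u 6 • r1 (0, 1, -1, 1) + u 7 • r1 (1, 0, 1, 0) + u 8 • r1 (0, 1, -1, 0) +
    u 9 • r1 (1, 0, 1, -1) + u 10 • r1 (1, 0, 0, 1) + u 11 • r1 (0, 1, 0, 0) := by
  simp only [Finset.sum_range_succ, Finset.sum_range_zero, zero_add]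
  rfl

/-- **Representation.** PROOF. With `u 0 = Q 0 1`, `u 1 = 0`, `u 2 = -Q 0 2 + Q 1 2 + Q 2 2`,
`u 3 = -Q 0 2 - Q 0 3 + Q 1 2 + Q 1 3 + Q 2 2 + 2 Q 2 3 + Q 3 3`,
`u 4 = Q 0 0 - Q 0 1 - 2 Q 0 2 - Q 0 3`, `u 5 = -Q 1 2 - Q 1 3 - Q 2 2 - Q 2 3`,
`u 6 = -Q 1 2 - Q 2 2 - Q 2 3`, `u 7 = 0`, `u 8 = Q 2 2 + Q 2 3`, `u 9 = Q 0 2`,
`u 10 = Q 0 2 + Q 0 3`, `u 11 = -Q 0 1 + Q 1 1 + 2 Q 1 2 + Q 1 3 + Q 2 2 + Q 2 3` compare all
entries. -/
theorem rep12 {Q : Matrix (Fin 4) (Fin 4) ℝ} (hs : Q.IsSymm) :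
    ∃ u : ℕ → ℝ, Q = ∑ d ∈ Finset.range 12, u d • r1 (a12 d) := by
  have h10 := hs.apply 0 1
  have h20 := hs.apply 0 2
  have h30 := hs.apply 0 3
  have h21 := hs.apply 1 2
  have h31 := hs.apply 1 3
  have h32 := hs.apply 2 3
  refine ⟨fun d => ![Q 0 1, 0, -Q 0 2 + Q 1 2 + Q 2 2,
    -Q 0 2 - Q 0 3 + Q 1 2 + Q 1 3 + Q 2 2 + 2 * Q 2 3 + Q 3 3,
    Q 0 0 - Q 0 1 - 2 * Q 0 2 - Q 0 3, -Q 1 2 - Q 1 3 - Q 2 2 - Q 2 3,
    -Q 1 2 - Q 2 2 - Q 2 3, 0, Q 2 2 + Q 2 3, Q 0 2, Q 0 2 + Q 0 3,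
    -Q 0 1 + Q 1 1 + 2 * Q 1 2 + Q 1 3 + Q 2 2 + Q 2 3] (Fin.ofNat 12 d), ?_⟩
  rw [redD_sum12]
  ext i j
  fin_cases i <;> fin_cases j <;>
    simp [redD_r1, Fin.ofNat] <;> linarith

theorem pr_sum (A : Matrix (Fin 4) (Fin 4) ℤ) (u : ℕ → ℝ) :
    pr A (∑ d ∈ Finset.range 12, u d • r1 (a12 d)) =
      ∑ d ∈ Finset.range 12, u d * pr A (r1 (a12 d)) := by
  unfold pr
  simp only [Matrix.sum_apply, Matrix.smul_apply, smul_eq_mul, Finset.mul_sum]
  rw [Finset.sum_comm' (s := Finset.range 12) (t := fun _ => Finset.univ) (t' := Finset.univ)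
    (s' := fun _ => Finset.range 12) (by simp)]
  refine Finset.sum_congr rfl fun i _ => ?_
  rw [Finset.sum_comm' (s := Finset.range 12) (t := fun _ => Finset.univ) (t' := Finset.univ)
    (s' := fun _ => Finset.range 12) (by simp)]
  refine Finset.sum_congr rfl fun j _ => Finset.sum_congr rfl fun d _ => ?_
  ring

/-- The value of an integral matrix at the rank one form of `a` is `aᵀ A a`. -/
theorem pr_r1 (A : Matrix (Fin 4) (Fin 4) ℤ) (a : V) :
    pr A (r1 a) = ((vc a ⬝ᵥ (A *ᵥ vc a) : ℤ) : ℝ) := by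
  simp only [pr, r1, vecMulVec_apply, ic, dotProduct, mulVec, Int.cast_sum, Int.cast_mul,
    Finset.mul_sum]
  refine Finset.sum_congr rfl fun i _ => Finset.sum_congr rfl fun j _ => ?_
  ring

/-- `tr` of a rank one form. -/
theorem tr_r1 (M : M4) (a : V) : tr (toMat M) (r1 a) = r1 (colT M a) := by
  have h : ic (vc (colT M a)) = (mc (toMat M))ᵀ *ᵥ ic (vc a) := by
    funext i
    simp only [mulVec, dotProduct, Fin.sum_univ_four, transpose_apply, mc, toMat, map_apply,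
      of_apply, ic, vc, colT]
    fin_cases i <;> simp <;> ring
  rw [tr, r1, r1, h, mul_vecMulVec, vecMulVec_mul, mulVec_transpose]

/-- The sum over a frame is `Gm`. -/
theorem frame_sum {p : ℕ} (hp : p < 3) :
    r1 (a12 (4 * p)) + r1 (a12 (4 * p + 1)) + r1 (a12 (4 * p + 2)) + r1 (a12 (4 * p + 3)) = Gm := by
  obtain rfl | rfl | rfl : p = 0 ∨ p = 1 ∨ p = 2 := by omega
  · change r1 (1, 1, 0, 0) + r1 (1, -1, 1, 0) + r1 (0, 0, -1, 1) + r1 (0, 0, 0, -1) = Gm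
    ext i j
    fin_cases i <;> fin_cases j <;> simp [redD_r1, Gm] <;> norm_num
  · change r1 (1, 0, 0, 0) + r1 (0, 1, 0, -1) + r1 (0, 1, -1, 1) + r1 (1, 0, 1, 0) = Gm
    ext i j
    fin_cases i <;> fin_cases j <;> simp [redD_r1, Gm] <;> norm_num
  · change r1 (0, 1, -1, 0) + r1 (1, 0, 1, -1) + r1 (1, 0, 0, 1) + r1 (0, 1, 0, 0) = Gm
    ext i j
    fin_cases i <;> fin_cases j <;> simp [redD_r1, Gm] <;> norm_num

/-- The further check of an entry. -/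
private def redD_ok (E : M4 × List ℕ × ℕ) : Bool :=
  ((List.range 12).all fun d => decide (E.2.1.getD d 0 < 12)) &&
  ((List.range 12).all fun d => (List.range 12).any fun d' => E.2.1.getD d' 0 == d) &&
  decide (toMat E.1 * ADz * (toMat E.1)ᵀ = ADz)

set_option maxRecDepth 100000 in
private theorem redD_tab : ∀ i ∈ List.range 4, ∀ j ∈ List.range 4, ∀ k ∈ List.range 4,
    redD_ok (tab64.getD (16 * i + 4 * j + k) default) = true := by
  decide +kernel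

private theorem redD_tr_sum (W : Matrix (Fin 4) (Fin 4) ℤ) (u : ℕ → ℝ) :
    tr W (∑ d ∈ Finset.range 12, u d • r1 (a12 d)) =
      ∑ d ∈ Finset.range 12, u d • tr W (r1 (a12 d)) := by
  unfold tr
  rw [Matrix.mul_sum, Matrix.sum_mul]
  refine Finset.sum_congr rfl fun d _ => ?_
  rw [Matrix.mul_smul, Matrix.smul_mul]

private theorem redD_neg (a : V) : r1 (-a) = r1 a := by
  obtain ⟨a, b, c, d⟩ := a
  ext i j
  rw [show -((a, b, c, d) : V) = (-a, -b, -c, -d) from rfl, redD_r1, redD_r1]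
  fin_cases i <;> fin_cases j <;> simp

/-- **Moving a triple to the standard position.** `i, j, k` are the positions of the minima of `u`
in the three frames. PROOF. Let `E = (V, σ, e)` be the table entry of `(i, j, k)` (`tab64_ok`; `okE`
says what is needed). `tr V Q = ∑ u d • r1 (Vᵀ a_d)`; `σ` is a permutation of the indices below `12`
with `Vᵀ a_(σ d) = ± a_d`, so `tr V Q = ∑ u (σ d) • r1 (a_d)`: take `u' d = u (σ d)`. For
`p = 3, 7, e` the index `σ p` is the position of the minimum of `u` in its frame, and `σ` maps the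
frame of `p` into this frame, so `u' p ≤ u' d` for `d` in the frame of `p`. `V` is unimodular and
`V * ADz * Vᵀ = ADz`: by `frame_sum` (`V` permutes the frames) `tr V Gm = Gm`, so `det V = ± 1`
(`Gm.det = 4`), and `ADz = 2 Gm⁻¹` as real matrices. (Or check these two facts by `decide +kernel`
over the table.) -/
theorem standard {u : ℕ → ℝ} {i j k : ℕ} (hi : i < 4) (hj : j < 4) (hk : k < 4)
    (h0 : ∀ d < 4, u i ≤ u d) (h1 : ∀ d < 4, u (4 + j) ≤ u (4 + d))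
    (h2 : ∀ d < 4, u (8 + k) ≤ u (8 + d)) :
    ∃ (V : Matrix (Fin 4) (Fin 4) ℤ) (u' : ℕ → ℝ) (e : ℕ), IsUnit V.det ∧ V * ADz * Vᵀ = ADz ∧
      (e = 9 ∨ e = 11) ∧
      tr V (∑ d ∈ Finset.range 12, u d • r1 (a12 d)) =
        ∑ d ∈ Finset.range 12, u' d • r1 (a12 d) ∧
      (∀ d < 4, u' 3 ≤ u' d) ∧ (∀ d < 4, u' 7 ≤ u' (4 + d)) ∧ (∀ d < 4, u' e ≤ u' (8 + d)) := by
  have t1 := tab64_ok i (List.mem_range.2 hi) j (List.mem_range.2 hj) k (List.mem_range.2 hk)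
  have t2 := redD_tab i (List.mem_range.2 hi) j (List.mem_range.2 hj) k (List.mem_range.2 hk)
  generalize tab64.getD (16 * i + 4 * j + k) default = E at t1 t2
  obtain ⟨M, σ, e⟩ := E
  simp only [okE, Bool.and_eq_true, List.all_eq_true, List.mem_range, Bool.or_eq_true,
    beq_iff_eq, List.mem_cons, List.not_mem_nil, or_false, Bool.not_eq_true',
    beq_eq_false_iff_ne, ne_eq] at t1
  simp only [redD_ok, Bool.and_eq_true, List.all_eq_true, List.mem_range, decide_eq_true_eq,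
    List.any_eq_true, beq_iff_eq] at t2
  obtain ⟨⟨⟨⟨c1, -⟩, -⟩, c3⟩, c4⟩ := t1
  obtain ⟨⟨d1, d2⟩, d3⟩ := t2
  have hdet : (toMat M).det * (toMat M).det = 1 := by
    have h := congrArg Matrix.det d3
    rw [Matrix.det_mul, Matrix.det_mul, Matrix.det_transpose] at h
    have h4 : ADz.det = 4 := by decide +kernel
    rw [h4] at h
    linarith
  have key : ∀ p, p < 12 → (σ.getD p 0 = i ∨ σ.getD p 0 = 4 + j ∨ σ.getD p 0 = 8 + k) →
      (∀ d, d < 12 → d / 4 = p / 4 → σ.getD d 0 / 4 = σ.getD p 0 / 4) →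
      ∀ d, d < 12 → d / 4 = p / 4 → u (σ.getD p 0) ≤ u (σ.getD d 0) := by
    intro p hp h1' h2' d hd hdp
    have a1 := h2' d hd hdp
    have a2 := d1 d hd
    rcases h1' with h | h | h
    · rw [h] at a1 ⊢
      exact h0 _ (by omega)
    · rw [h] at a1 ⊢
      have a3 := h1 (σ.getD d 0 - 4) (by omega)
      rwa [show 4 + (σ.getD d 0 - 4) = σ.getD d 0 by omega] at a3
    · rw [h] at a1 ⊢
      have a3 := h2 (σ.getD d 0 - 8) (by omega)
      rwa [show 8 + (σ.getD d 0 - 8) = σ.getD d 0 by omega] at a3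
  have kk : ∀ p, (p = 3 ∨ p = 7 ∨ p = e) →
      ∀ d, d < 12 → d / 4 = p / 4 → u (σ.getD p 0) ≤ u (σ.getD d 0) := by
    intro p hp
    obtain ⟨b1, b2⟩ := c4 p hp
    refine key p ?_ (by rcases b1 with (b1 | b1) | b1 <;> tauto) fun d hd hdp => ?_
    · rcases hp with h | h | h
      · omega
      · omega
      · rcases c3 with c3 | c3 <;> omega
    · rcases b2 d hd with b | b
      · exact absurd hdp b
      · exact b
  refine ⟨toMat M, fun d => u (σ.getD d 0), e, ?_, d3, c3, ?_, fun d hd => ?_, fun d hd => ?_,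
    fun d hd => ?_⟩
  · exact IsUnit.of_mul_eq_one _ hdet
  · rw [redD_tr_sum]
    have hre : ∑ d ∈ Finset.range 12, u d • tr (toMat M) (r1 (a12 d)) =
        ∑ d ∈ Finset.range 12, u (σ.getD d 0) • tr (toMat M) (r1 (a12 (σ.getD d 0))) := by
      symm
      have hmaps : ∀ d ∈ Finset.range 12, σ.getD d 0 ∈ Finset.range 12 := fun d hd =>
        Finset.mem_range.2 (d1 d (Finset.mem_range.1 hd))
      have hsurj : ∀ b ∈ Finset.range 12, ∃ a, ∃ _ : a ∈ Finset.range 12, σ.getD a 0 = b := by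
        intro b hb
        obtain ⟨a, ha, hab⟩ := d2 b (Finset.mem_range.1 hb)
        exact ⟨a, Finset.mem_range.2 ha, hab⟩
      have hinj := Finset.inj_on_of_surj_on_of_card_le (fun a (_ : a ∈ Finset.range 12) =>
        σ.getD a 0) hmaps hsurj le_rfl
      exact Finset.sum_bij (fun a _ => σ.getD a 0) hmaps
        (fun a ha b hb hab => hinj ha hb hab) hsurj fun a _ => rfl
    rw [hre]
    refine Finset.sum_congr rfl fun d hd => ?_
    rw [tr_r1]
    congr 1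
    rcases c1 d (Finset.mem_range.1 hd) with h | h
    · exact congrArg r1 h
    · exact (congrArg r1 h).trans (redD_neg _)
  · exact kk 3 (Or.inl rfl) d (by omega) (by omega)
  · exact kk 7 (Or.inr (Or.inl rfl)) (4 + d) (by omega) (by omega)
  · exact kk e (Or.inr (Or.inr rfl)) (8 + d) (by omega) (by rcases c3 with c3 | c3 <;> omega)

/-- The first unimodular matrix. -/
private def redD_U9 : Matrix (Fin 4) (Fin 4) ℤ :=
  !![-1, -1, 0, 0; 0, 1, -1, 0; 0, 2, -2, 1; 0, 2, -1, 0]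

/-- The second unimodular matrix. -/
private def redD_U11 : Matrix (Fin 4) (Fin 4) ℤ :=
  !![-1, 0, 0, 0; 1, -1, 0, 1; 1, -1, 1, 1; 1, -1, 1, 0]

private theorem redD_v9 : ∀ d < 12,
    vc (a12 d) ⬝ᵥ ((redD_U9 * ADz * redD_U9ᵀ) *ᵥ vc (a12 d)) -
      vc (a12 d) ⬝ᵥ (ADz *ᵥ vc (a12 d)) = if d = 3 ∨ d = 7 ∨ d = 9 then 2 else 0 := by
  decide +kernel

private theorem redD_v11 : ∀ d < 12,
    vc (a12 d) ⬝ᵥ ((redD_U11 * AAz * redD_U11ᵀ) *ᵥ vc (a12 d)) -
      vc (a12 d) ⬝ᵥ (ADz *ᵥ vc (a12 d)) = if d = 3 ∨ d = 7 ∨ d = 11 then 2 else 0 := by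
  decide +kernel

private theorem redD_diff {N : Matrix (Fin 4) (Fin 4) ℤ} {e : ℕ} (he : e = 9 ∨ e = 11)
    (h : ∀ d < 12, vc (a12 d) ⬝ᵥ (N *ᵥ vc (a12 d)) -
      vc (a12 d) ⬝ᵥ (ADz *ᵥ vc (a12 d)) = if d = 3 ∨ d = 7 ∨ d = e then 2 else 0) (u : ℕ → ℝ) :
    pr N (∑ d ∈ Finset.range 12, u d • r1 (a12 d)) -
      pr ADz (∑ d ∈ Finset.range 12, u d • r1 (a12 d)) = 2 * (u 3 + u 7 + u e) := by
  rw [pr_sum, pr_sum, ← Finset.sum_sub_distrib]
  have h1 : ∀ d ∈ Finset.range 12, u d * pr N (r1 (a12 d)) - u d * pr ADz (r1 (a12 d)) =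
      u d * (if d = 3 ∨ d = 7 ∨ d = e then 2 else 0) := by
    intro d hd
    rw [pr_r1, pr_r1, ← mul_sub, ← Int.cast_sub, h d (Finset.mem_range.1 hd)]
    congr 1
    split_ifs <;> simp
  rw [Finset.sum_congr rfl h1]
  rcases he with rfl | rfl <;> simp [Finset.sum_range_succ] <;> ring

/-- **Case `D_4`.** PROOF. Write `Q` by `rep12`, let `i, j, k` be the positions of the minima of `u` in
the frames, and move to the standard position; let `Q' = tr V Q = ∑ u' d • r1 (a_d)`. Minimality is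
inherited: `pr ADz Q' = pr (V * ADz * Vᵀ) Q = pr ADz Q` and
`pr (U' * A' * U'ᵀ) Q' = pr ((V U') * A' * (V U')ᵀ) Q` (`pr_tr`). If `e = 9` take
`U = ` rows `(-1,-1,0,0), (0,1,-1,0), (0,2,-2,1), (0,2,-1,0)` and `A' = ADz`: `N = U * ADz * Uᵀ` is
`!![2,-1,-2,-2; -1,2,3,2; -2,3,6,4; -2,2,4,4]`. If `e = 11` take `U = ` rows
`(-1,0,0,0), (1,-1,0,1), (1,-1,1,1), (1,-1,1,0)` and `A' = AAz`: `N = U * AAz * Uᵀ` is
`!![2,-2,-3,-2; -2,4,5,3; -3,5,8,5; -2,3,5,4]`. In both cases `aᵀ N a - aᵀ ADz a` is `2` for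
`a = a_3, a_7, a_e` and `0` for the other nine functionals (finite check, `pr_r1`), so
`0 ≤ pr N Q' - pr ADz Q' = 2 (u' 3 + u' 7 + u' e)`. Put `s = u' 3 + u' 7 + u' e` and
`t d = u' d - (u' of the standard index of the frame of d) ≥ 0`; by `frame_sum`
`Q' = s • Gm + ∑ t d • r1 (a_d)` and `t 3 = t 7 = t e = 0`. The weights: `x 0 = s`, and
`x 1, ..., x 9` are `t` at `0, 1, 2, 4, 5, 6, 8, 10, 11` if `e = 9` (list `L3`) and at
`0, 1, 2, 4, 5, 6, 8, 9, 10` if `e = 11` (list `L2`); the other `x i` are zero. -/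
theorem caseD {Q : Matrix (Fin 4) (Fin 4) ℝ} (hs : Q.IsSymm)
    (hmin : ∀ U' : Matrix (Fin 4) (Fin 4) ℤ, IsUnit U'.det →
      ∀ A' : Matrix (Fin 4) (Fin 4) ℤ, (A' = AAz ∨ A' = ADz) →
        pr ADz Q ≤ pr (U' * A' * U'ᵀ) Q) :
    ∃ (V : Matrix (Fin 4) (Fin 4) ℤ) (x : ℕ → ℝ), IsUnit V.det ∧ (∀ i, 0 ≤ x i) ∧
      (tr V Q = QL (x 0 • Gm) x L3 ∨ tr V Q = QL (x 0 • Gm) x L2) := by
  obtain ⟨w, hw⟩ := rep12 hs
  obtain ⟨i, hi, hi'⟩ := Finset.exists_min_image (Finset.range 4) w ⟨0, by simp⟩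
  obtain ⟨j, hj, hj'⟩ := Finset.exists_min_image (Finset.range 4) (fun d => w (4 + d))
    ⟨0, by simp⟩
  obtain ⟨k, hk, hk'⟩ := Finset.exists_min_image (Finset.range 4) (fun d => w (8 + d))
    ⟨0, by simp⟩
  obtain ⟨V, u, e, hV, hVA, he, hsum, m0, m1, m2⟩ := standard (u := w) (Finset.mem_range.1 hi)
    (Finset.mem_range.1 hj) (Finset.mem_range.1 hk)
    (fun d hd => hi' d (Finset.mem_range.2 hd)) (fun d hd => hj' d (Finset.mem_range.2 hd))
    (fun d hd => hk' d (Finset.mem_range.2 hd))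
  rw [← hw] at hsum
  have hmin' : ∀ (U' A' : Matrix (Fin 4) (Fin 4) ℤ), IsUnit U'.det → (A' = AAz ∨ A' = ADz) →
      pr ADz (tr V Q) ≤ pr (U' * A' * U'ᵀ) (tr V Q) := by
    intro U' A' hU' hA'
    rw [pr_tr, pr_tr, hVA]
    have h := hmin (V * U') (by rw [Matrix.det_mul]; exact hV.mul hU') A' hA'
    rwa [Matrix.transpose_mul, show V * U' * A' * (U'ᵀ * Vᵀ) = V * (U' * A' * U'ᵀ) * Vᵀ by
      simp only [Matrix.mul_assoc]] at h
  have n0 := m0 0 (by omega)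
  have n1 := m0 1 (by omega)
  have n2 := m0 2 (by omega)
  have n4 := m1 0 (by omega)
  have n5 := m1 1 (by omega)
  have n6 := m1 2 (by omega)
  have n8 := m2 0 (by omega)
  have n9 := m2 1 (by omega)
  have n10 := m2 2 (by omega)
  have n11 := m2 3 (by omega)
  norm_num at n4 n5 n6 n8 n9 n10 n11
  rcases he with rfl | rfl
  · have hs0 : 0 ≤ u 3 + u 7 + u 9 := by
      have h1 := redD_diff (Or.inl rfl) redD_v9 u
      have h2 := hmin' redD_U9 ADz
        (Int.isUnit_iff.2 (by decide +kernel)) (Or.inr rfl)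
      rw [hsum] at h2
      linarith
    refine ⟨V, fun n => ![u 3 + u 7 + u 9, u 0 - u 3, u 1 - u 3, u 2 - u 3, u 4 - u 7,
      u 5 - u 7, u 6 - u 7, u 8 - u 9, u 10 - u 9, u 11 - u 9, 0, 0] (Fin.ofNat 12 n),
      hV, fun n => ?_, Or.inl ?_⟩
    · beta_reduce
      generalize Fin.ofNat 12 n = m
      fin_cases m <;> simp <;> linarith
    · rw [hsum, redD_sum12]
      ext i j
      fin_cases i <;> fin_cases j <;>
        simp [QL, L3, redD_r1, Gm, Fin.ofNat] <;> ring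
  · have hs0 : 0 ≤ u 3 + u 7 + u 11 := by
      have h1 := redD_diff (Or.inr rfl) redD_v11 u
      have h2 := hmin' redD_U11 AAz
        (Int.isUnit_iff.2 (by decide +kernel)) (Or.inl rfl)
      rw [hsum] at h2
      linarith
    refine ⟨V, fun n => ![u 3 + u 7 + u 11, u 0 - u 3, u 1 - u 3, u 2 - u 3, u 4 - u 7,
      u 5 - u 7, u 6 - u 7, u 8 - u 11, u 9 - u 11, u 10 - u 11, 0, 0] (Fin.ofNat 12 n),
      hV, fun n => ?_, Or.inr ?_⟩
    · beta_reduce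
      generalize Fin.ofNat 12 n = m
      fin_cases m <;> simp <;> linarith
    · rw [hsum, redD_sum12]
      ext i j
      fin_cases i <;> fin_cases j <;>
        simp [QL, L2, redD_r1, Gm, Fin.ofNat] <;> ring

end Pool.Agent.D4Q
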