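import Pool.Agent.D4Q.RedA
import Pool.Agent.D4Q.ConeI

set_option autoImplicit false

/-!
# P32. The domain of the perfect form `A_4`
-/

namespace Pool.Agent.D4Q

open Matrix

private theorem nn {Q : Matrix (Fin 4) (Fin 4) ℝ}
    (hmin : ∀ U' : Matrix (Fin 4) (Fin 4) ℤ, IsUnit U'.det →
      pr AAz Q ≤ pr (U' * ADz * U'ᵀ) Q) (U V M : Matrix (Fin 4) (Fin 4) ℤ) (h1 : U * V = 1)
    (h2 : U * ADz * Uᵀ = M) : pr AAz Q ≤ pr M Q := by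
  rw [← h2]
  exact hmin U (Matrix.isUnit_det_of_right_inverse h1)

private theorem pr_lit (a b c d e f g h i j k l m n o p : ℤ) (Q : Matrix (Fin 4) (Fin 4) ℝ) :
    pr !![a, b, c, d; e, f, g, h; i, j, k, l; m, n, o, p] Q =
      (a * Q 0 0 + b * Q 0 1 + c * Q 0 2 + d * Q 0 3) +
      (e * Q 1 0 + f * Q 1 1 + g * Q 1 2 + h * Q 1 3) +
      (i * Q 2 0 + j * Q 2 1 + k * Q 2 2 + l * Q 2 3) +
      (m * Q 3 0 + n * Q 3 1 + o * Q 3 2 + p * Q 3 3) := by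
  simp [pr, Fin.sum_univ_four]

/-- **Case `A_4`.** PROOF. Put `x 4 = -Q 0 1`, `x 5 = -Q 0 2`, `x 6 = -Q 0 3`, `x 7 = -Q 1 2`,
`x 8 = -Q 1 3`, `x 9 = -Q 2 3`, `x i = Q i 0 + Q i 1 + Q i 2 + Q i 3` for `i < 4` (row sums), and
`x i = 0` for the other `i`. Then `Q = QL (Bd x) x L1` (compare the entries, `Q` is symmetric).
Nonnegativity: for each of the ten coefficients there is a unimodular `U` with
`pr (U * ADz * Uᵀ) Q - pr AAz Q = 2 * (coefficient)`. The matrices `U` (rows):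
`x 0`: `(-2,0,-1,0), (-1,-1,0,0), (-1,0,-1,0), (-1,0,-1,1)`;
`x 1`: `(-1,-1,0,0), (-2,0,-1,0), (-1,0,-1,0), (-1,0,-1,1)`;
`x 2`: `(-1,-1,0,0), (-1,0,-1,0), (-2,0,-1,0), (-1,0,-1,1)`;
`x 3`: `(-1,-1,0,0), (-1,0,-1,0), (-1,0,-1,1), (-2,0,-1,0)`;
`x 4`: `(-1,-1,0,0), (-1,1,-1,0), (-1,0,-1,0), (-1,0,-1,1)`;
`x 5`: `(-1,-1,0,0), (-1,0,-1,0), (-1,1,-1,0), (-1,0,-1,1)`;
`x 6`: `(-1,-1,0,0), (-1,0,-1,0), (-1,0,-1,1), (-1,1,-1,0)`;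
`x 7`: `(-1,-1,0,0), (-1,0,-1,0), (-1,0,0,0), (-1,0,-1,1)`;
`x 8`: `(-1,-1,0,0), (-1,0,-1,0), (-1,0,-1,1), (-1,0,0,0)`;
`x 9`: `(-1,-1,0,0), (-1,0,-1,0), (-1,0,-1,1), (-1,0,0,-1)`.
(For instance for `x 0` the matrix `U * ADz * Uᵀ` is
`!![4,2,2,2; 2,2,1,1; 2,1,2,1; 2,1,1,2]`; in every case it is a `decide`.) -/
theorem caseI {Q : Matrix (Fin 4) (Fin 4) ℝ} (hs : Q.IsSymm)
    (hmin : ∀ U' : Matrix (Fin 4) (Fin 4) ℤ, IsUnit U'.det →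
      pr AAz Q ≤ pr (U' * ADz * U'ᵀ) Q) :
    ∃ x : ℕ → ℝ, (∀ i, 0 ≤ x i) ∧ Q = QL (Bd x) x L1 := by
  have e01 : Q 0 1 = Q 1 0 := hs.apply 1 0
  have e02 : Q 0 2 = Q 2 0 := hs.apply 2 0
  have e03 : Q 0 3 = Q 3 0 := hs.apply 3 0
  have e12 : Q 1 2 = Q 2 1 := hs.apply 2 1
  have e13 : Q 1 3 = Q 3 1 := hs.apply 3 1
  have e23 : Q 2 3 = Q 3 2 := hs.apply 3 2
  have p0 : 0 ≤ Q 0 0 + Q 1 0 + Q 2 0 + Q 3 0 := by
    have h := nn hmin !![-2, 0, -1, 0; -1, -1, 0, 0; -1, 0, -1, 0; -1, 0, -1, 1]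
      !![-1, 0, 1, 0; 1, -1, -1, 0; 1, 0, -2, 0; 0, 0, -1, 1]
      !![4, 2, 2, 2; 2, 2, 1, 1; 2, 1, 2, 1; 2, 1, 1, 2] (by decide) (by decide)
    rw [AAz, pr_lit, pr_lit] at h
    push_cast at h
    linarith
  have p1 : 0 ≤ Q 1 0 + Q 1 1 + Q 2 1 + Q 3 1 := by
    have h := nn hmin !![-1, -1, 0, 0; -2, 0, -1, 0; -1, 0, -1, 0; -1, 0, -1, 1]
      !![0, -1, 1, 0; -1, 1, -1, 0; 0, 1, -2, 0; 0, 0, -1, 1]
      !![2, 2, 1, 1; 2, 4, 2, 2; 1, 2, 2, 1; 1, 2, 1, 2] (by decide) (by decide)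
    rw [AAz, pr_lit, pr_lit] at h
    push_cast at h
    linarith
  have p2 : 0 ≤ Q 2 0 + Q 2 1 + Q 2 2 + Q 3 2 := by
    have h := nn hmin !![-1, -1, 0, 0; -1, 0, -1, 0; -2, 0, -1, 0; -1, 0, -1, 1]
      !![0, 1, -1, 0; -1, -1, 1, 0; 0, -2, 1, 0; 0, -1, 0, 1]
      !![2, 1, 2, 1; 1, 2, 2, 1; 2, 2, 4, 2; 1, 1, 2, 2] (by decide) (by decide)
    rw [AAz, pr_lit, pr_lit] at h
    push_cast at h
    linarith
  have p3 : 0 ≤ Q 3 0 + Q 3 1 + Q 3 2 + Q 3 3 := by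
    have h := nn hmin !![-1, -1, 0, 0; -1, 0, -1, 0; -1, 0, -1, 1; -2, 0, -1, 0]
      !![0, 1, 0, -1; -1, -1, 0, 1; 0, -2, 0, 1; 0, -1, 1, 0]
      !![2, 1, 1, 2; 1, 2, 1, 2; 1, 1, 2, 2; 2, 2, 2, 4] (by decide) (by decide)
    rw [AAz, pr_lit, pr_lit] at h
    push_cast at h
    linarith
  have p4 : 0 ≤ -Q 1 0 := by
    have h := nn hmin !![-1, -1, 0, 0; -1, 1, -1, 0; -1, 0, -1, 0; -1, 0, -1, 1]
      !![-1, -1, 1, 0; 0, 1, -1, 0; 1, 1, -2, 0; 0, 0, -1, 1]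
      !![2, 0, 1, 1; 0, 2, 1, 1; 1, 1, 2, 1; 1, 1, 1, 2] (by decide) (by decide)
    rw [AAz, pr_lit, pr_lit] at h
    push_cast at h
    linarith
  have p5 : 0 ≤ -Q 2 0 := by
    have h := nn hmin !![-1, -1, 0, 0; -1, 0, -1, 0; -1, 1, -1, 0; -1, 0, -1, 1]
      !![-1, 1, -1, 0; 0, -1, 1, 0; 1, -2, 1, 0; 0, -1, 0, 1]
      !![2, 1, 0, 1; 1, 2, 1, 1; 0, 1, 2, 1; 1, 1, 1, 2] (by decide) (by decide)
    rw [AAz, pr_lit, pr_lit] at h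
    push_cast at h
    linarith
  have p6 : 0 ≤ -Q 3 0 := by
    have h := nn hmin !![-1, -1, 0, 0; -1, 0, -1, 0; -1, 0, -1, 1; -1, 1, -1, 0]
      !![-1, 1, 0, -1; 0, -1, 0, 1; 1, -2, 0, 1; 0, -1, 1, 0]
      !![2, 1, 1, 0; 1, 2, 1, 1; 1, 1, 2, 1; 0, 1, 1, 2] (by decide) (by decide)
    rw [AAz, pr_lit, pr_lit] at h
    push_cast at h
    linarith
  have p7 : 0 ≤ -Q 2 1 := by
    have h := nn hmin !![-1, -1, 0, 0; -1, 0, -1, 0; -1, 0, 0, 0; -1, 0, -1, 1]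
      !![0, 0, -1, 0; -1, 0, 1, 0; 0, -1, 1, 0; 0, -1, 0, 1]
      !![2, 1, 1, 1; 1, 2, 0, 1; 1, 0, 2, 1; 1, 1, 1, 2] (by decide) (by decide)
    rw [AAz, pr_lit, pr_lit] at h
    push_cast at h
    linarith
  have p8 : 0 ≤ -Q 3 1 := by
    have h := nn hmin !![-1, -1, 0, 0; -1, 0, -1, 0; -1, 0, -1, 1; -1, 0, 0, 0]
      !![0, 0, 0, -1; -1, 0, 0, 1; 0, -1, 0, 1; 0, -1, 1, 0]
      !![2, 1, 1, 1; 1, 2, 1, 0; 1, 1, 2, 1; 1, 0, 1, 2] (by decide) (by decide)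
    rw [AAz, pr_lit, pr_lit] at h
    push_cast at h
    linarith
  have p9 : 0 ≤ -Q 3 2 := by
    have h := nn hmin !![-1, -1, 0, 0; -1, 0, -1, 0; -1, 0, -1, 1; -1, 0, 0, -1]
      !![0, 1, -1, -1; -1, -1, 1, 1; 0, -2, 1, 1; 0, -1, 1, 0]
      !![2, 1, 1, 1; 1, 2, 1, 1; 1, 1, 2, 0; 1, 1, 0, 2] (by decide) (by decide)
    rw [AAz, pr_lit, pr_lit] at h
    push_cast at h
    linarith
  refine ⟨fun i => ([Q 0 0 + Q 1 0 + Q 2 0 + Q 3 0,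
    Q 1 0 + Q 1 1 + Q 2 1 + Q 3 1,
    Q 2 0 + Q 2 1 + Q 2 2 + Q 3 2,
    Q 3 0 + Q 3 1 + Q 3 2 + Q 3 3,
    -Q 1 0,
    -Q 2 0,
    -Q 3 0,
    -Q 2 1,
    -Q 3 1,
    -Q 3 2] : List ℝ).getD i 0, fun i => ?_, ?_⟩
  · by_cases hi : i < 10
    · interval_cases i
      · exact p0
      · exact p1
      · exact p2
      · exact p3
      · exact p4
      · exact p5
      · exact p6
      · exact p7
      · exact p8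
      · exact p9
    · refine le_of_eq (List.getD_eq_default _ _ ?_).symm
      change 10 ≤ i
      omega
  · ext i j
    fin_cases i <;> fin_cases j <;>
      simp [QL, L1, Bd, r1, vecMulVec, ic, vc] <;> linarith

end Pool.Agent.D4Q
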