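import Pool.Agent.D4Q.TrAG
import Pool.Agent.D4Q.RedI
import Pool.Agent.D4Q.RedD
import Pool.Agent.D4Q.IsD

set_option autoImplicit false

/-!
# P37. The densest lattice packing in dimension four (Korkine-Zolotarev), with uniqueness
-/

namespace Pool.Agent.D4Q

open Matrix

private theorem det_mc (A : Matrix (Fin 4) (Fin 4) ℤ) : (mc A).det = (A.det : ℝ) :=
  ((Int.castRingHom ℝ).map_det A).symm

private theorem AD_mul_Gm : mc ADz * ((1 / 2 : ℝ) • Gm) = 1 := by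
  ext i j
  fin_cases i <;> fin_cases j <;>
    simp [Gm, mc, ADz, Matrix.mul_apply, Fin.sum_univ_four] <;> norm_num

private theorem AD_inv : (mc ADz)⁻¹ = (1 / 2 : ℝ) • Gm := Matrix.inv_eq_right_inv AD_mul_Gm

private theorem AD_posDef : (mc ADz).PosDef := by
  have h1 : ((1 / 2 : ℝ) • Gm).PosDef := Gm_posDef.smul (by norm_num)
  have h2 := h1.inv
  rw [← AD_inv] at h2
  have hu : IsUnit (mc ADz).det := Matrix.isUnit_det_of_right_inverse AD_mul_Gm
  rwa [Matrix.nonsing_inv_nonsing_inv _ hu] at h2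

private theorem AA_posDef : (mc AAz).PosDef := by
  refine Matrix.PosDef.of_dotProduct_mulVec_pos (Matrix.IsHermitian.ext fun i j => ?_)
    fun x hx => ?_
  · rw [star_trivial]
    fin_cases i <;> fin_cases j <;> simp [AAz, mc]
  · rw [star_trivial]
    have h1 : x ⬝ᵥ (mc AAz *ᵥ x) =
        x 0 ^ 2 + x 1 ^ 2 + x 2 ^ 2 + x 3 ^ 2 + (x 0 + x 1 + x 2 + x 3) ^ 2 := by
      simp only [mc, AAz, dotProduct, mulVec, Fin.sum_univ_four, Matrix.map_apply,
        Matrix.of_apply]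
      simp only [Matrix.cons_val]
      push_cast
      ring
    rw [h1]
    obtain ⟨i, hi⟩ := Function.ne_iff.1 hx
    have hi' : 0 < x i ^ 2 := by
      have : x i ≠ 0 := hi
      positivity
    fin_cases i
    · have : 0 < x 0 ^ 2 := hi'
      positivity
    · have : 0 < x 1 ^ 2 := hi'
      positivity
    · have : 0 < x 2 ^ 2 := hi'
      positivity
    · have : 0 < x 3 ^ 2 := hi'
      positivity

/-- `ADz = 2 Gm⁻¹` and the determinants. -/
theorem ADz_facts : (mc ADz).det = 4 ∧ (mc AAz).det = 5 ∧ (mc ADz)⁻¹ = (1 / 2 : ℝ) • Gm ∧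
    (mc ADz).PosDef ∧ (mc AAz).PosDef := by
  refine ⟨?_, ?_, AD_inv, AD_posDef, AA_posDef⟩
  · rw [det_mc, show ADz.det = 4 by decide +kernel]
    norm_num
  · rw [det_mc, show AAz.det = 5 by decide +kernel]
    norm_num

theorem pr_eq_trace (A : Matrix (Fin 4) (Fin 4) ℤ) {Q : Matrix (Fin 4) (Fin 4) ℝ}
    (hQ : Q.IsSymm) : pr A Q = (mc A * Q).trace := by
  rw [Matrix.trace]
  simp only [pr, Matrix.diag_apply, Matrix.mul_apply]
  refine Finset.sum_congr rfl fun i _ => Finset.sum_congr rfl fun j _ => ?_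
  rw [hQ.apply i j]
  rfl

private theorem trace_r1 (a : V) (R : Matrix (Fin 4) (Fin 4) ℝ) :
    (r1 a * R).trace = qf R (ic (vc a)) := by
  unfold r1 qf
  rw [Matrix.trace, dotProduct]
  simp only [Matrix.diag_apply, Matrix.mul_apply, vecMulVec_apply, mulVec, dotProduct]
  rw [Finset.sum_comm]
  refine Finset.sum_congr rfl fun i _ => ?_
  rw [Finset.mul_sum]
  refine Finset.sum_congr rfl fun j _ => ?_
  ring

private theorem pr_add (A : Matrix (Fin 4) (Fin 4) ℤ) (Q Q' : Matrix (Fin 4) (Fin 4) ℝ) :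
    pr A (Q + Q') = pr A Q + pr A Q' := by
  simp only [pr, Matrix.add_apply, mul_add, Finset.sum_add_distrib]

private theorem pr_smul (A : Matrix (Fin 4) (Fin 4) ℤ) (c : ℝ) (Q : Matrix (Fin 4) (Fin 4) ℝ) :
    pr A (c • Q) = c * pr A Q := by
  simp only [pr, Matrix.smul_apply, smul_eq_mul, Finset.mul_sum]
  refine Finset.sum_congr rfl fun i _ => Finset.sum_congr rfl fun j _ => ?_
  ring

/-- The induction along a list of functionals with value two. -/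
private theorem QL_bound {A : Matrix (Fin 4) (Fin 4) ℤ} {R : Matrix (Fin 4) (Fin 4) ℝ} {m : ℝ}
    (h : ∀ v : Fin 4 → ℤ, v ≠ 0 → m ≤ qf R (ic v)) {x : ℕ → ℝ} (hx : ∀ i, 0 ≤ x i)
    {B : Matrix (Fin 4) (Fin 4) ℝ} (hB : m * pr A B ≤ 2 * (B * R).trace) (L : List (V × ℕ))
    (hL : ∀ y ∈ L, vc y.1 ≠ 0 ∧ pr A (r1 y.1) = 2) :
    m * pr A (QL B x L) ≤ 2 * (QL B x L * R).trace := by
  induction L with
  | nil => exact hB
  | cons y L ih =>
    obtain ⟨a, i⟩ := y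
    have h1 := hL (a, i) List.mem_cons_self
    have h2 := ih fun y hy => hL y (List.mem_cons_of_mem _ hy)
    have h3 := h (vc a) h1.1
    change m * pr A (QL B x L + x i • r1 a) ≤ 2 * ((QL B x L + x i • r1 a) * R).trace
    rw [pr_add, pr_smul, add_mul, Matrix.trace_add, Matrix.smul_mul, Matrix.trace_smul,
      trace_r1, h1.2, smul_eq_mul]
    have h4 := mul_le_mul_of_nonneg_left h3 (hx i)
    linarith

private theorem QL_nonneg {A : Matrix (Fin 4) (Fin 4) ℤ} {x : ℕ → ℝ} (hx : ∀ i, 0 ≤ x i)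
    {B : Matrix (Fin 4) (Fin 4) ℝ} (hB : 0 ≤ pr A B) (L : List (V × ℕ))
    (hL : ∀ y ∈ L, pr A (r1 y.1) = 2) : 0 ≤ pr A (QL B x L) := by
  induction L with
  | nil => exact hB
  | cons y L ih =>
    obtain ⟨a, i⟩ := y
    have h1 := hL (a, i) List.mem_cons_self
    have h2 := ih fun y hy => hL y (List.mem_cons_of_mem _ hy)
    change 0 ≤ pr A (QL B x L + x i • r1 a)
    rw [pr_add, pr_smul, h1]
    have := hx i
    linarith

private theorem L1_ok : ∀ y ∈ L1, vc y.1 ≠ 0 ∧ vc y.1 ⬝ᵥ (AAz *ᵥ vc y.1) = 2 := by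
  decide +kernel

private theorem L3_ok : ∀ y ∈ L3, vc y.1 ≠ 0 ∧ vc y.1 ⬝ᵥ (ADz *ᵥ vc y.1) = 2 := by
  decide +kernel

private theorem L2_ok : ∀ y ∈ L2, vc y.1 ≠ 0 ∧ vc y.1 ⬝ᵥ (ADz *ᵥ vc y.1) = 2 := by
  decide +kernel

/-- **Sum of the coefficients, first cone.** If the form `R` is at least `m` at all nonzero integral
vectors then `m` times the sum of the coefficients is at most the trace of `Q * R`; and the inner
product with `AAz` is twice this sum (`AAz` has the value two at all ten functionals). -/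
theorem coef1 {R : Matrix (Fin 4) (Fin 4) ℝ} (hR : R.PosDef) {m : ℝ}
    (h : ∀ v : Fin 4 → ℤ, v ≠ 0 → m ≤ qf R (ic v)) {x : ℕ → ℝ} (hx : ∀ i, 0 ≤ x i) :
    m * pr AAz (QL (Bd x) x L1) ≤ 2 * (QL (Bd x) x L1 * R).trace := by
  refine QL_bound h hx ?_ L1 ?_
  · have e1 : Bd x = x 0 • r1 (1, 0, 0, 0) + x 1 • r1 (0, 1, 0, 0) + x 2 • r1 (0, 0, 1, 0) +
        x 3 • r1 (0, 0, 0, 1) := by
      ext i j
      fin_cases i <;> fin_cases j <;> simp [Bd, r1, vecMulVec, ic, vc]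
    have g : ∀ a : V, vc a ≠ 0 → vc a ⬝ᵥ (AAz *ᵥ vc a) = 2 → pr AAz (r1 a) = 2 ∧
        m ≤ (r1 a * R).trace := by
      intro a ha h2
      refine ⟨?_, ?_⟩
      · rw [pr_r1, h2]
        norm_num
      · rw [trace_r1]
        exact h _ ha
    obtain ⟨a1, b1⟩ := g (1, 0, 0, 0) (by decide) (by decide)
    obtain ⟨a2, b2⟩ := g (0, 1, 0, 0) (by decide) (by decide)
    obtain ⟨a3, b3⟩ := g (0, 0, 1, 0) (by decide) (by decide)
    obtain ⟨a4, b4⟩ := g (0, 0, 0, 1) (by decide) (by decide)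
    rw [e1]
    simp only [pr_add, pr_smul, add_mul, Matrix.trace_add, Matrix.smul_mul, Matrix.trace_smul,
      smul_eq_mul, a1, a2, a3, a4]
    have c1 := mul_le_mul_of_nonneg_left b1 (hx 0)
    have c2 := mul_le_mul_of_nonneg_left b2 (hx 1)
    have c3 := mul_le_mul_of_nonneg_left b3 (hx 2)
    have c4 := mul_le_mul_of_nonneg_left b4 (hx 3)
    linarith
  · intro y hy
    obtain ⟨h1, h2⟩ := L1_ok y hy
    refine ⟨h1, ?_⟩
    rw [pr_r1, h2]
    norm_num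

/-- **Sum of the coefficients, the other cones.** `Gm` is the sum of four rank one forms, and `ADz`
has the value two at all functionals. -/
theorem coefD {R : Matrix (Fin 4) (Fin 4) ℝ} (hR : R.PosDef) {m : ℝ}
    (h : ∀ v : Fin 4 → ℤ, v ≠ 0 → m ≤ qf R (ic v)) {x : ℕ → ℝ} (hx : ∀ i, 0 ≤ x i)
    {L : List (V × ℕ)} (hL : L = L3 ∨ L = L2) :
    m * pr ADz (QL (x 0 • Gm) x L) ≤ 2 * (QL (x 0 • Gm) x L * R).trace := by
  refine QL_bound h hx ?_ L ?_
  · have e1 : Gm = r1 (1, 1, 0, 0) + r1 (1, -1, 1, 0) + r1 (0, 0, -1, 1) +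
        r1 (0, 0, 0, -1) := by
      ext i j
      fin_cases i <;> fin_cases j <;> simp [Gm, r1, vecMulVec, ic, vc] <;> norm_num
    have g : ∀ a : V, vc a ≠ 0 → vc a ⬝ᵥ (ADz *ᵥ vc a) = 2 → pr ADz (r1 a) = 2 ∧
        m ≤ (r1 a * R).trace := by
      intro a ha h2
      refine ⟨?_, ?_⟩
      · rw [pr_r1, h2]
        norm_num
      · rw [trace_r1]
        exact h _ ha
    obtain ⟨a1, b1⟩ := g (1, 1, 0, 0) (by decide) (by decide)
    obtain ⟨a2, b2⟩ := g (1, -1, 1, 0) (by decide) (by decide)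
    obtain ⟨a3, b3⟩ := g (0, 0, -1, 1) (by decide) (by decide)
    obtain ⟨a4, b4⟩ := g (0, 0, 0, -1) (by decide) (by decide)
    have c1 : m * pr ADz Gm ≤ 2 * (Gm * R).trace := by
      rw [e1]
      simp only [pr_add, add_mul, Matrix.trace_add, a1, a2, a3, a4]
      linarith
    rw [pr_smul, Matrix.smul_mul, Matrix.trace_smul, smul_eq_mul]
    have c2 := mul_le_mul_of_nonneg_left c1 (hx 0)
    linarith
  · intro y hy
    have h1 : vc y.1 ≠ 0 ∧ vc y.1 ⬝ᵥ (ADz *ᵥ vc y.1) = 2 := by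
      rcases hL with rfl | rfl
      · exact L3_ok y hy
      · exact L2_ok y hy
    refine ⟨h1.1, ?_⟩
    rw [pr_r1, h1.2]
    norm_num

private theorem pr_two {A : Matrix (Fin 4) (Fin 4) ℤ} {a : V}
    (h : vc a ⬝ᵥ (A *ᵥ vc a) = 2) : pr A (r1 a) = 2 := by
  rw [pr_r1, h]
  norm_num

private theorem nonneg1 {x : ℕ → ℝ} (hx : ∀ i, 0 ≤ x i) : 0 ≤ pr AAz (QL (Bd x) x L1) := by
  refine QL_nonneg hx ?_ L1 fun y hy => pr_two (L1_ok y hy).2
  have e : pr AAz (Bd x) = 2 * (x 0 + x 1 + x 2 + x 3) := by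
    simp [pr, AAz, Bd, Fin.sum_univ_four]
    ring
  have h0 := hx 0
  have h1 := hx 1
  have h2 := hx 2
  have h3 := hx 3
  rw [e]
  linarith

private theorem nonnegD {x : ℕ → ℝ} (hx : ∀ i, 0 ≤ x i) {L : List (V × ℕ)}
    (hL : L = L3 ∨ L = L2) : 0 ≤ pr ADz (QL (x 0 • Gm) x L) := by
  refine QL_nonneg hx ?_ L fun y hy => ?_
  · have e : pr ADz Gm = 8 := by
      simp [pr, ADz, Gm, Fin.sum_univ_four]
      norm_num
    rw [pr_smul, e]
    have := hx 0
    linarith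
  · rcases hL with rfl | rfl
    · exact pr_two (L3_ok y hy).2
    · exact pr_two (L2_ok y hy).2

private theorem ic_mulVec (W : Matrix (Fin 4) (Fin 4) ℤ) (v : Fin 4 → ℤ) :
    mc W *ᵥ ic v = ic (W *ᵥ v) := by
  ext i
  simp [mulVec, dotProduct, mc, ic]

/-- The form in another basis and its inverse. -/
private theorem dual_facts {R : Matrix (Fin 4) (Fin 4) ℝ} (hR : R.PosDef) {m : ℝ}
    (h : ∀ v : Fin 4 → ℤ, v ≠ 0 → m ≤ qf R (ic v)) {W : Matrix (Fin 4) (Fin 4) ℤ}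
    (hW : IsUnit W.det) :
    (tr W R⁻¹).PosDef ∧ (tr W R⁻¹)⁻¹.PosDef ∧
      (∀ v : Fin 4 → ℤ, v ≠ 0 → m ≤ qf (tr W R⁻¹)⁻¹ (ic v)) ∧
      (tr W R⁻¹ * (tr W R⁻¹)⁻¹).trace = 4 ∧ (tr W R⁻¹).det * R.det = 1 := by
  have h1 : (tr W R⁻¹).PosDef := posDef_tr hR.inv W hW
  have hu : IsUnit R.det := hR.det_pos.ne'.isUnit
  refine ⟨h1, h1.inv, ?_, ?_, ?_⟩
  · intro v hv
    rw [tr_inv hW, Matrix.nonsing_inv_nonsing_inv _ hu, qf_tr, ic_mulVec]
    apply h
    intro h0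
    apply hv
    have hW' : IsUnit (W⁻¹)ᵀ.det := by
      rw [Matrix.det_transpose]
      exact (Matrix.isUnit_nonsing_inv_det_iff).2 hW
    have h2 : (W⁻¹)ᵀ⁻¹ *ᵥ ((W⁻¹)ᵀ *ᵥ v) = v := by
      rw [Matrix.mulVec_mulVec, Matrix.nonsing_inv_mul _ hW', Matrix.one_mulVec]
    rw [← h2, h0, Matrix.mulVec_zero]
  · rw [Matrix.mul_nonsing_inv _ h1.det_pos.ne'.isUnit, Matrix.trace_one]
    norm_num
  · rw [det_tr W hW, ← Matrix.det_mul, Matrix.nonsing_inv_mul _ hu, Matrix.det_one]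

private theorem posDef_isSymm {Q : Matrix (Fin 4) (Fin 4) ℝ} (hQ : Q.PosDef) : Q.IsSymm := by
  have h := hQ.isHermitian
  rwa [Matrix.IsHermitian, Matrix.conjTranspose_eq_transpose_of_trivial] at h

/-- The final computation. -/
private theorem fin_ineq {m p d r k : ℝ} (hm : 0 < m) (hr : 0 < r) (hdr : d * r = 1)
    (h1 : m * p ≤ 8) (hp : 0 ≤ p) (h2 : 256 * (k * d) ≤ p ^ 4) : k * m ^ 4 ≤ 16 * r := by
  have h3 : (m * p) ^ 4 ≤ 8 ^ 4 := pow_le_pow_left₀ (mul_nonneg hm.le hp) h1 4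
  rw [mul_pow] at h3
  have hm4 : 0 < m ^ 4 := by positivity
  have h4 : m ^ 4 * (256 * (k * d)) ≤ 8 ^ 4 := (mul_le_mul_of_nonneg_left h2 hm4.le).trans h3
  have h5 : m ^ 4 * (256 * (k * d)) * r ≤ 8 ^ 4 * r := mul_le_mul_of_nonneg_right h4 hr.le
  have h6 : m ^ 4 * (256 * (k * d)) * r = 256 * (k * m ^ 4) * (d * r) := by ring
  rw [h6, hdr] at h5
  linarith

/-- **Korkine-Zolotarev.** PROOF. Let `Q = R⁻¹`, positive definite. `reduce` gives `U` and the perfect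
form `A`; let `Q' = tr U Q` (in the case `ADz` let `Q' = tr (U * V) Q` with `V` from `caseD`; `pr` and
the following facts hold for it as well). `R' = Q'⁻¹` is the form `R` in another basis
(`Q'⁻¹ = W⁻¹ R W⁻ᵀ` with `W` unimodular), so it is at least `m` at all nonzero integral vectors. By
`coef1` or `coefD`, `m * pr A Q' ≤ 2 * (Q' * R').trace = 8`. By `pr_eq_trace` and `trace_amgm`
`(pr A Q')^4 ≥ 256 * A.det * Q'.det ≥ 1024 / R.det` (`Q'.det = 1 / R.det`, `A.det ≥ 4`). So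
`(8 / m)^4 ≥ 1024 / R.det`, that is `m^4 ≤ 4 R.det`. If equality holds then `A.det = 4`, so
`A = ADz`, and the equality in `trace_amgm` gives `Q' = c • ADz⁻¹ = (c / 2) • Gm`; so `Q` is of type
`IsD4`, and so is its inverse `R` (`isD4_inv`). -/
theorem dens {R : Matrix (Fin 4) (Fin 4) ℝ} (hR : R.PosDef) {m : ℝ} (hm : 0 < m)
    (h : ∀ v : Fin 4 → ℤ, v ≠ 0 → m ≤ qf R (ic v)) :
    m ^ 4 ≤ 4 * R.det ∧ (m ^ 4 = 4 * R.det → IsD4 R) := by
  obtain ⟨f1, f2, f3, f4, f5⟩ := ADz_facts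
  have hr : 0 < R.det := hR.det_pos
  have hm4 : 0 < m ^ 4 := by positivity
  obtain ⟨U, hU, A, hA, hmin⟩ := reduce hR.inv
  obtain ⟨g1, g2, g3, g4, g5⟩ := dual_facts hR h hU
  rcases hA with rfl | rfl
  · obtain ⟨x, hx, hQ⟩ := caseI (posDef_isSymm g1) fun U' hU' => hmin U' hU' ADz (Or.inr rfl)
    have h1 := coef1 g2 g3 hx
    have hp := nonneg1 hx
    rw [← hQ] at hp
    rw [← hQ, g4] at h1
    have h2 := (trace_amgm f5 g1).1
    rw [← pr_eq_trace _ (posDef_isSymm g1), f2] at h2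
    have h3 := fin_ineq hm hr g5 (by linarith) hp h2
    refine ⟨by linarith, fun h4 => ?_⟩
    exfalso
    linarith
  · obtain ⟨V, x, hV, hx, hQ⟩ := caseD (posDef_isSymm g1) hmin
    have hUV : IsUnit (U * V).det := by
      rw [Matrix.det_mul]
      exact hU.mul hV
    rw [tr_tr] at hQ
    obtain ⟨k1, k2, k3, k4, k5⟩ := dual_facts hR h hUV
    have h1 : m * pr ADz (tr (U * V) R⁻¹) ≤ 8 ∧ 0 ≤ pr ADz (tr (U * V) R⁻¹) := by
      rcases hQ with hQ | hQ
      · have h1 := coefD k2 k3 hx (Or.inl rfl)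
        have hp := nonnegD hx (Or.inl rfl)
        rw [← hQ] at hp
        rw [← hQ, k4] at h1
        exact ⟨by linarith, hp⟩
      · have h1 := coefD k2 k3 hx (Or.inr rfl)
        have hp := nonnegD hx (Or.inr rfl)
        rw [← hQ] at hp
        rw [← hQ, k4] at h1
        exact ⟨by linarith, hp⟩
    obtain ⟨h2, h2'⟩ := trace_amgm f4 k1
    rw [← pr_eq_trace _ (posDef_isSymm k1), f1] at h2 h2'
    have h3 := fin_ineq hm hr k5 h1.1 h1.2 h2
    refine ⟨by linarith, fun h4 => ?_⟩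
    have h5 : 256 * (4 * (tr (U * V) R⁻¹).det) = pr ADz (tr (U * V) R⁻¹) ^ 4 := by
      apply le_antisymm h2
      have h6 : (m * pr ADz (tr (U * V) R⁻¹)) ^ 4 ≤ 8 ^ 4 :=
        pow_le_pow_left₀ (mul_nonneg hm.le h1.2) h1.1 4
      rw [mul_pow, h4] at h6
      have h7 := mul_le_mul_of_nonneg_left h6 k1.det_pos.le
      have h8 : (tr (U * V) R⁻¹).det * (4 * R.det * pr ADz (tr (U * V) R⁻¹) ^ 4) =
          4 * pr ADz (tr (U * V) R⁻¹) ^ 4 * ((tr (U * V) R⁻¹).det * R.det) := by ring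
      rw [h8, k5] at h7
      linarith
    obtain ⟨c, hc, hQc⟩ := h2' h5
    have h6 : IsD4 R⁻¹ := by
      refine ⟨U * V, c * (1 / 2), hUV, by positivity, ?_⟩
      rw [hQc, f3, smul_smul]
    have h7 := isD4_inv h6
    rwa [Matrix.nonsing_inv_nonsing_inv _ hr.ne'.isUnit] at h7

end Pool.Agent.D4Q
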