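import Pool.Agent.D4Q.DsqB

set_option autoImplicit false

/-!
# P14. The root lattice `D_N` (`N = n + 1`), first part

`DnG n` is the Gram matrix of the basis `2 e_0, e_0 + e_1, ..., e_0 + e_n` of `D_N`. In this basis
the point with coordinates `cons r z` is the vector `cons (2 r + ∑ z) z`.
-/

namespace Pool.Agent.D4Q

open MeasureTheory Matrix

variable {n : ℕ}

/-- The Gram matrix of `D_N`, `N = n + 1`. -/
def DnG (n : ℕ) : Matrix (Fin (n + 1)) (Fin (n + 1)) ℝ :=
  Matrix.of fun i j => if i = 0 ∧ j = 0 then 4 else if i = 0 ∨ j = 0 ∨ i = j then 2 else 1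

/-- The squared distance to `D_N`. -/
noncomputable def fD (y : Fin (n + 1) → ℝ) : ℝ :=
  ⨅ l : {l : Fin (n + 1) → ℤ // Even (∑ i, l i)}, ∑ i, (y i - (l.1 i : ℝ)) ^ 2

/-- The unit vector `e_0`. -/
def e0 (n : ℕ) : Fin (n + 1) → ℝ := fun i => if i = 0 then 1 else 0

private theorem DnG_zz : DnG n 0 0 = 4 := by simp [DnG]

private theorem DnG_zs (j : Fin n) : DnG n 0 j.succ = 2 := by simp [DnG, Fin.succ_ne_zero]

private theorem DnG_sz (j : Fin n) : DnG n j.succ 0 = 2 := by simp [DnG, Fin.succ_ne_zero]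

private theorem DnG_ss (i j : Fin n) :
    DnG n i.succ j.succ = 1 + (if i = j then 1 else 0) := by
  by_cases h : i = j
  · subst h
    simp [DnG, Fin.succ_ne_zero]
    norm_num
  · simp [DnG, Fin.succ_ne_zero, h]

theorem qf_DnG (r : ℝ) (z : Fin n → ℝ) :
    qf (DnG n) (Fin.cons r z : Fin (n + 1) → ℝ) = (2 * r + ∑ i, z i) ^ 2 + ∑ i, z i ^ 2 := by
  have h1 : ∀ i : Fin n, ∑ j, DnG n i.succ j.succ * z j = ∑ j, z j + z i := by
    intro i
    simp_rw [DnG_ss, add_mul, one_mul, ite_mul, one_mul, zero_mul]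
    rw [Finset.sum_add_distrib, Finset.sum_ite_eq]
    simp
  have h2 : ∑ i, z i * (2 * r + (∑ j, z j + z i)) =
      (∑ i, z i) * (2 * r + ∑ j, z j) + ∑ i, z i ^ 2 := by
    rw [Finset.sum_mul, ← Finset.sum_add_distrib]
    refine Finset.sum_congr rfl fun i _ => ?_
    ring
  unfold qf
  simp only [dotProduct, mulVec, Fin.sum_univ_succ, Fin.cons_zero, Fin.cons_succ, DnG_zz, DnG_zs,
    DnG_sz]
  simp_rw [h1]
  rw [h2, ← Finset.mul_sum]
  ring

private theorem DnG_herm : (DnG n).IsHermitian := by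
  ext i j
  simp only [conjTranspose_apply, star_trivial, DnG, of_apply]
  by_cases hi : i = 0 <;> by_cases hj : j = 0 <;> simp [hi, hj, eq_comm]

theorem DnG_posDef : (DnG n).PosDef := by
  refine PosDef.of_dotProduct_mulVec_pos DnG_herm fun x hx => ?_
  have h0 : x = (Fin.cons (x 0) (fun i : Fin n => x i.succ) : Fin (n + 1) → ℝ) := by
    funext i
    refine Fin.cases rfl (fun j => rfl) i
  have h1 := qf_DnG (x 0) fun i : Fin n => x i.succ
  rw [← h0] at h1
  have h2 : star x ⬝ᵥ DnG n *ᵥ x = qf (DnG n) x := by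
    rw [star_trivial]
    rfl
  rw [h2, h1]
  have h3 : 0 ≤ ∑ i : Fin n, x i.succ ^ 2 := Finset.sum_nonneg fun i _ => sq_nonneg _
  rcases h3.lt_or_eq with h3 | h3
  · have := sq_nonneg (2 * x 0 + ∑ i : Fin n, x i.succ)
    linarith
  · have h4 : ∀ i : Fin n, x i.succ = 0 := by
      intro i
      have h5 := (Finset.sum_eq_zero_iff_of_nonneg
        (fun (j : Fin n) _ => sq_nonneg (x j.succ))).1 h3.symm i (Finset.mem_univ i)
      exact pow_eq_zero_iff (two_ne_zero) |>.1 h5
    have h6 : x 0 ≠ 0 := by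
      intro h7
      apply hx
      funext i
      refine Fin.cases h7 (fun j => h4 j) i
    simp only [h4, Finset.sum_const_zero, add_zero]
    have : 0 < (2 * x 0) ^ 2 := by positivity
    simpa using this

/-- PROOF. The substitution `l = cons k m ↦ cons (2 k + ∑ m) m` is a bijection from the integral
vectors to the vectors with even coordinate sum. -/
theorem dsq_DnG (r : ℝ) (z : Fin n → ℝ) :
    dsq (DnG n) (Fin.cons r z : Fin (n + 1) → ℝ) =
      fD (Fin.cons (2 * r + ∑ i, z i) z : Fin (n + 1) → ℝ) := by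
  unfold dsq fD
  have hev : ∀ l : Fin (n + 1) → ℤ, Even (∑ i, (Fin.cons (2 * l 0 + ∑ i : Fin n, l i.succ)
      (fun i : Fin n => l i.succ) : Fin (n + 1) → ℤ) i) := by
    intro l
    rw [Fin.sum_univ_succ]
    simp only [Fin.cons_zero, Fin.cons_succ]
    exact ⟨l 0 + ∑ i : Fin n, l i.succ, by ring⟩
  refine Function.Surjective.iInf_congr
    (fun l : Fin (n + 1) → ℤ => (⟨(Fin.cons (2 * l 0 + ∑ i : Fin n, l i.succ)
      (fun i : Fin n => l i.succ) : Fin (n + 1) → ℤ), hev l⟩ :
        {l : Fin (n + 1) → ℤ // Even (∑ i, l i)})) ?_ ?_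
  · rintro ⟨m, k, hk⟩
    refine ⟨Fin.cons (k - ∑ i : Fin n, m i.succ) fun i => m i.succ, Subtype.ext ?_⟩
    funext i
    refine Fin.cases ?_ (fun j => ?_) i
    · simp only [Fin.cons_zero, Fin.cons_succ]
      rw [Fin.sum_univ_succ] at hk
      linarith
    · simp only [Fin.cons_succ]
  · intro l
    have h1 : (Fin.cons r z : Fin (n + 1) → ℝ) - ic l =
        Fin.cons (r - l 0) fun i : Fin n => z i - l i.succ := by
      funext i
      refine Fin.cases ?_ (fun j => ?_) i
      · simp [ic]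
      · simp [ic]
    rw [h1, qf_DnG, Fin.sum_univ_succ]
    simp only [Fin.cons_zero, Fin.cons_succ]
    rw [Finset.sum_sub_distrib]
    push_cast
    ring

/-- From `dsq_DnG` and `dsq_cont`: `fD y = dsq (DnG n) (cons ((y 0 - ∑ tail) / 2) tail)`. -/
theorem fD_cont : Continuous (fD (n := n)) := by
  have h1 : (fD (n := n)) = fun y => dsq (DnG n)
      (Fin.cons ((y 0 - ∑ i : Fin n, y i.succ) / 2) fun i : Fin n => y i.succ) := by
    funext y
    rw [dsq_DnG]
    congr 1
    funext i
    refine Fin.cases ?_ (fun j => ?_) i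
    · simp only [Fin.cons_zero]
      ring
    · simp only [Fin.cons_succ]
  rw [h1]
  refine (dsq_cont DnG_posDef).comp (continuous_pi fun i => ?_)
  refine Fin.cases ?_ (fun j => ?_) i
  · simp only [Fin.cons_zero]
    fun_prop
  · simp only [Fin.cons_succ]
    fun_prop

theorem fD_per {l : Fin (n + 1) → ℤ} (hl : Even (∑ i, l i)) (y : Fin (n + 1) → ℝ) :
    fD (y + ic l) = fD y := by
  unfold fD
  refine Function.Surjective.iInf_congr
    (fun m : {l : Fin (n + 1) → ℤ // Even (∑ i, l i)} =>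
      (⟨m.1 - l, by
        simp only [Pi.sub_apply, Finset.sum_sub_distrib]
        exact m.2.sub hl⟩ : {l : Fin (n + 1) → ℤ // Even (∑ i, l i)})) ?_ ?_
  · rintro ⟨m, hm⟩
    refine ⟨⟨m + l, ?_⟩, Subtype.ext ?_⟩
    · simp only [Pi.add_apply, Finset.sum_add_distrib]
      exact hm.add hl
    · simp
  · intro m
    refine Finset.sum_congr rfl fun i _ => ?_
    simp only [Pi.sub_apply, Pi.add_apply, ic]
    push_cast
    ring

private theorem ic_add (l m : Fin (n + 1) → ℤ) : ic (l + m) = ic l + ic m := by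
  funext i
  simp [ic]

private theorem ic_single (n : ℕ) : ic (Pi.single 0 1 : Fin (n + 1) → ℤ) = e0 n := by
  funext i
  by_cases h : i = 0
  · subst h
    simp [ic, e0]
  · simp [ic, e0, h]

private theorem sum_single_one (n : ℕ) : ∑ i, (Pi.single 0 1 : Fin (n + 1) → ℤ) i = 1 := by
  simp [Finset.sum_pi_single']

/-- PROOF. If the coordinate sum of `l` is even both terms are invariant (`fD_per`); if it is odd
then `l` and `l + e_0` differ from even vectors by `e_0`, and the two terms are exchanged. -/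
theorem fD_sum_per : Per fun y : Fin (n + 1) → ℝ => fD y + fD (y + e0 n) := by
  intro x l
  change fD (x + ic l) + fD (x + ic l + e0 n) = fD x + fD (x + e0 n)
  rcases Int.even_or_odd (∑ i, l i) with h | h
  · have h1 : x + ic l + e0 n = x + e0 n + ic l := by abel
    rw [h1, fD_per h, fD_per h]
  · have h1 : x + ic l = x + e0 n + ic (l - Pi.single 0 1) := by
      rw [sub_eq_add_neg, ic_add, ← ic_single]
      have : ic (-(Pi.single 0 1 : Fin (n + 1) → ℤ)) = -ic (Pi.single 0 1) := by
        funext i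
        simp [ic]
      rw [this]
      abel
    have h2 : x + ic l + e0 n = x + ic (l + Pi.single 0 1) := by
      rw [ic_add, ic_single]
      abel
    rw [h2, h1, fD_per, fD_per]
    · ring
    · simp only [Pi.add_apply, Finset.sum_add_distrib, sum_single_one]
      exact h.add_odd odd_one
    · simp only [Pi.sub_apply, Finset.sum_sub_distrib, sum_single_one]
      exact h.sub_odd odd_one

/-- **Unfolding.** PROOF. `FF (DnG n) = ∫ z, ∫ r in 0..1, fD (cons (2 r + ∑ z) z)` by `int_cons` and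
`dsq_DnG`; for fixed `z` substitute `u = 2 r + ∑ z`: the inner integral is
`(1/2) ∫ u in (∑ z)..(2 + ∑ z), fD (cons u z)`, which equals `(1/2) ∫ u in 0..2, fD (cons u z)`
because the integrand has period two in `u` (`fD_per`,
`Function.Periodic.intervalIntegral_add_eq`); split at `1` and substitute `u + 1`
(`cons (u + 1) z = cons u z + e0`). Then `int_cons` backwards. -/
theorem FF_DnG_unfold :
    FF (DnG n) = 1 / 2 * ∫ y in cube (n + 1), (fD y + fD (y + e0 n)) := by
  have hc2 : Continuous fun y : Fin (n + 1) → ℝ => fD y + fD (y + e0 n) :=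
    fD_cont.add (fD_cont.comp (continuous_id.add continuous_const))
  unfold FF
  rw [int_cons (dsq_cont DnG_posDef), int_cons hc2, ← integral_const_mul]
  refine integral_congr_ae (Filter.Eventually.of_forall fun z => ?_)
  change (∫ r in (0 : ℝ)..1, dsq (DnG n) (Fin.cons r z : Fin (n + 1) → ℝ)) =
    1 / 2 * ∫ r in (0 : ℝ)..1, (fD (Fin.cons r z : Fin (n + 1) → ℝ) +
      fD ((Fin.cons r z : Fin (n + 1) → ℝ) + e0 n))
  set g : ℝ → ℝ := fun u => fD (Fin.cons u z : Fin (n + 1) → ℝ) with hg
  have hcons : Continuous fun u : ℝ => (Fin.cons u z : Fin (n + 1) → ℝ) := by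
    refine continuous_pi fun i => ?_
    refine Fin.cases ?_ (fun j => ?_) i
    · simp only [Fin.cons_zero]
      exact continuous_id
    · simp only [Fin.cons_succ]
      exact continuous_const
  have hgc : Continuous g := fD_cont.comp hcons
  have hgp : Function.Periodic g 2 := by
    intro u
    have h1 : (Fin.cons (u + 2) z : Fin (n + 1) → ℝ) =
        (Fin.cons u z : Fin (n + 1) → ℝ) + ic (Fin.cons 2 0 : Fin (n + 1) → ℤ) := by
      funext i
      refine Fin.cases ?_ (fun j => ?_) i
      · simp [ic]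
      · simp [ic]
    change fD (Fin.cons (u + 2) z : Fin (n + 1) → ℝ) = fD (Fin.cons u z : Fin (n + 1) → ℝ)
    rw [h1, fD_per]
    rw [Fin.sum_univ_succ]
    simp
  have hs : ∀ u, fD ((Fin.cons u z : Fin (n + 1) → ℝ) + e0 n) = g (u + 1) := by
    intro u
    change _ = fD (Fin.cons (u + 1) z : Fin (n + 1) → ℝ)
    congr 1
    funext i
    refine Fin.cases ?_ (fun j => ?_) i
    · simp [e0]
    · simp [e0, Fin.succ_ne_zero]
  have h1 : (∫ r in (0 : ℝ)..1, dsq (DnG n) (Fin.cons r z : Fin (n + 1) → ℝ)) =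
      ∫ r in (0 : ℝ)..1, g (2 * r + ∑ i, z i) := by
    congr 1
    funext r
    rw [dsq_DnG]
  rw [h1, intervalIntegral.integral_comp_mul_add g two_ne_zero]
  have h2 : (∫ x in (2 : ℝ) * 0 + ∑ i, z i..2 * 1 + ∑ i, z i, g x) =
      ∫ x in (0 : ℝ)..2, g x := by
    have h3 := hgp.intervalIntegral_add_eq (∑ i, z i) 0
    rw [zero_add] at h3
    rw [← h3]
    congr 1 <;> ring
  have h4 : (∫ x in (0 : ℝ)..2, g x) = (∫ x in (0 : ℝ)..1, g x) + ∫ x in (0 : ℝ)..1, g (x + 1) := by
    rw [intervalIntegral.integral_comp_add_right g 1, zero_add, one_add_one_eq_two]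
    exact (intervalIntegral.integral_add_adjacent_intervals (hgc.intervalIntegrable _ _)
      (hgc.intervalIntegrable _ _)).symm
  have h5 : (∫ r in (0 : ℝ)..1, (fD (Fin.cons r z : Fin (n + 1) → ℝ) +
      fD ((Fin.cons r z : Fin (n + 1) → ℝ) + e0 n))) =
        (∫ x in (0 : ℝ)..1, g x) + ∫ x in (0 : ℝ)..1, g (x + 1) := by
    have hg1 : Continuous fun x => g (x + 1) := hgc.comp (continuous_id.add continuous_const)
    rw [← intervalIntegral.integral_add (hgc.intervalIntegrable _ _)
      (hg1.intervalIntegrable _ _)]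
    congr 1
    funext r
    rw [hs]
  rw [h2, h4, h5, smul_eq_mul]
  norm_num

end Pool.Agent.D4Q
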