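import Pool.Agent.D4Q.DnA

set_option autoImplicit false

/-!
# P15. The second moment of `D_N`, and of diagonal forms
-/

namespace Pool.Agent.D4Q

open MeasureTheory Matrix

variable {n : ℕ}

private theorem dn_sq {y : ℝ} (hy : |y| ≤ 1 / 2) (l : ℤ) : y ^ 2 ≤ (y - (l : ℝ)) ^ 2 := by
  obtain ⟨h1, h2⟩ := abs_le.1 hy
  rcases lt_trichotomy l 0 with h | h | h
  · have h3 : (l : ℝ) ≤ -1 := by exact_mod_cast Int.le_sub_one_of_lt h
    nlinarith
  · subst h; simp
  · have h3 : (1 : ℝ) ≤ l := by exact_mod_cast h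
    nlinarith

private theorem dn_sq' {y : ℝ} (hy : |y| ≤ 1 / 2) {l : ℤ} (hl : l ≠ 0) :
    y ^ 2 + 1 - 2 * |y| ≤ (y - (l : ℝ)) ^ 2 := by
  have h1 : (1 : ℝ) ≤ |(l : ℝ)| := by exact_mod_cast Int.one_le_abs hl
  have h2 : y * (l : ℝ) ≤ |y| * |(l : ℝ)| := by
    rw [← abs_mul]
    exact le_abs_self _
  have h3 : |(l : ℝ)| ^ 2 = (l : ℝ) ^ 2 := sq_abs _
  nlinarith [abs_nonneg y, mul_nonneg (sub_nonneg.2 h1) (show (0 : ℝ) ≤ |(l : ℝ)| + 1 - 2 * |y| by
    linarith)]

private theorem dn_norm (y : Fin (n + 1) → ℝ) : ∃ i0, ‖y‖ = |y i0| := by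
  obtain ⟨i0, -, hi0⟩ := Finset.exists_max_image Finset.univ (fun i => |y i|)
    ⟨0, Finset.mem_univ _⟩
  refine ⟨i0, le_antisymm ?_ (norm_le_pi_norm y i0)⟩
  rw [pi_norm_le_iff_of_nonneg (abs_nonneg _)]
  exact fun i => hi0 i (Finset.mem_univ i)

private theorem dn_meas : MeasurableSet (cube n) :=
  MeasurableSet.univ_pi fun _ => measurableSet_Ico

/-- PROOF. `(y_i - l_i)^2 ≥ y_i^2` for every integer `l_i` since `|y_i| ≤ 1/2`; equality for
`l = 0`. -/
theorem fD_in {y : Fin (n + 1) → ℝ} (hy : ∀ i, |y i| ≤ 1 / 2) : fD y = ∑ i, y i ^ 2 := by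
  have hb : BddBelow (Set.range fun l : {l : Fin (n + 1) → ℤ // Even (∑ i, l i)} =>
      ∑ i, (y i - (l.1 i : ℝ)) ^ 2) := by
    refine ⟨0, ?_⟩
    rintro _ ⟨l, rfl⟩
    exact Finset.sum_nonneg fun i _ => sq_nonneg _
  have : Nonempty {l : Fin (n + 1) → ℤ // Even (∑ i, l i)} := ⟨⟨0, by simp⟩⟩
  refine le_antisymm ?_ ?_
  · have h1 := ciInf_le hb ⟨0, by simp⟩
    simpa [fD] using h1
  · exact le_ciInf fun l => Finset.sum_le_sum fun i _ => dn_sq (hy i) (l.1 i)

/-- PROOF. `fD (y + e_0)` is the minimum of `∑ (y_i - l_i)^2` over the vectors `l` with odd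
coordinate sum (`l = l' - e_0`). Some `l_i` is nonzero, and then
`(y_i - l_i)^2 ≥ (1 - |y_i|)^2 = y_i^2 + 1 - 2 |y_i| ≥ y_i^2 + 1 - 2 ‖y‖`, the other terms are
`≥ y_j^2`. Equality for `l = ± e_i`, where `i` is an index with `|y_i| = ‖y‖` (sup norm). -/
theorem fD_out {y : Fin (n + 1) → ℝ} (hy : ∀ i, |y i| ≤ 1 / 2) :
    fD (y + e0 n) = ∑ i, y i ^ 2 + 1 - 2 * ‖y‖ := by
  have hb : BddBelow (Set.range fun l : {l : Fin (n + 1) → ℤ // Even (∑ i, l i)} =>
      ∑ i, ((y + e0 n) i - (l.1 i : ℝ)) ^ 2) := by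
    refine ⟨0, ?_⟩
    rintro _ ⟨l, rfl⟩
    exact Finset.sum_nonneg fun i _ => sq_nonneg _
  have : Nonempty {l : Fin (n + 1) → ℤ // Even (∑ i, l i)} := ⟨⟨0, by simp⟩⟩
  have hsum0 : ∑ i : Fin (n + 1), (if i = 0 then (1 : ℤ) else 0) = 1 := by simp
  refine le_antisymm ?_ ?_
  · obtain ⟨i0, hi0⟩ := dn_norm y
    obtain ⟨s, hs, hs'⟩ : ∃ s : ℤ, (s = 1 ∨ s = -1) ∧ (s : ℝ) * y i0 = |y i0| := by
      rcases le_total 0 (y i0) with h | h
      · exact ⟨1, Or.inl rfl, by rw [abs_of_nonneg h]; simp⟩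
      · exact ⟨-1, Or.inr rfl, by rw [abs_of_nonpos h]; simp⟩
    have hev : Even (∑ i : Fin (n + 1),
        ((if i = i0 then s else 0) + (if i = 0 then (1 : ℤ) else 0))) := by
      rw [Finset.sum_add_distrib, hsum0, Finset.sum_ite_eq' Finset.univ i0 fun _ => s]
      rcases hs with h | h <;> rw [h] <;> simp
    have h1 := ciInf_le hb ⟨fun i => (if i = i0 then s else 0) + (if i = 0 then (1 : ℤ) else 0),
      hev⟩
    refine h1.trans (le_of_eq ?_)
    have hs2 : (s : ℝ) ^ 2 = 1 := by rcases hs with h | h <;> rw [h] <;> norm_num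
    have h2 : ∀ i, ((y + e0 n) i - (((if i = i0 then s else 0) +
        (if i = 0 then (1 : ℤ) else 0) : ℤ) : ℝ)) ^ 2 =
        y i ^ 2 + (if i = i0 then 1 - 2 * |y i0| else 0) := by
      intro i
      have h3 : (y + e0 n) i = y i + (if i = 0 then 1 else 0) := rfl
      rw [h3]
      push_cast
      by_cases hi : i = i0
      · subst hi
        simp only [if_true]
        have h4 : (y i + (if i = 0 then (1 : ℝ) else 0) -
            ((s : ℝ) + (if i = 0 then (1 : ℝ) else 0))) = y i - s := by ring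
        rw [h4, ← hs']
        linear_combination hs2
      · simp only [if_neg hi]
        ring
    simp only []
    rw [Finset.sum_congr rfl fun i _ => h2 i, Finset.sum_add_distrib,
      Finset.sum_ite_eq' Finset.univ i0 fun _ => 1 - 2 * |y i0|]
    simp only [Finset.mem_univ, if_true]
    rw [hi0]
    ring
  · refine le_ciInf fun l => ?_
    obtain ⟨i0, hi0⟩ : ∃ i0, l.1 i0 - (if i0 = 0 then (1 : ℤ) else 0) ≠ 0 := by
      by_contra hcon
      push Not at hcon
      have h1 : ∑ i, l.1 i = 1 := by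
        rw [← hsum0]
        exact Finset.sum_congr rfl fun i _ => by linarith [hcon i]
      have h2 := l.2
      rw [h1] at h2
      exact absurd h2 (by decide)
    have h2 : ∀ i, y i ^ 2 + (if i = i0 then 1 - 2 * ‖y‖ else 0) ≤
        ((y + e0 n) i - (l.1 i : ℝ)) ^ 2 := by
      intro i
      have h3 : (y + e0 n) i - (l.1 i : ℝ) =
          y i - ((l.1 i - (if i = 0 then (1 : ℤ) else 0) : ℤ) : ℝ) := by
        show y i + (if i = 0 then 1 else 0) - (l.1 i : ℝ) = _
        push_cast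
        ring
      rw [h3]
      by_cases hi : i = i0
      · subst hi
        simp only [if_true]
        have h4 := dn_sq' (hy i) hi0
        have h5 : |y i| ≤ ‖y‖ := norm_le_pi_norm y i
        linarith
      · simp only [if_neg hi, add_zero]
        exact dn_sq (hy i) _
    have h3 := Finset.sum_le_sum fun i (_ : i ∈ Finset.univ) => h2 i
    rw [Finset.sum_add_distrib, Finset.sum_ite_eq' Finset.univ i0 fun _ => 1 - 2 * ‖y‖] at h3
    simp only [Finset.mem_univ, if_true] at h3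
    linarith

/-- The vector with all coordinates `1/2`. -/
noncomputable def hf (n : ℕ) : Fin n → ℝ := fun _ => 1 / 2

private theorem dn_cube {x : Fin n → ℝ} (hx : x ∈ cube n) (i : Fin n) :
    |(x + -hf n) i| ≤ 1 / 2 := by
  have h1 := hx i trivial
  have h2 : (x + -hf n) i = x i - 1 / 2 := (sub_eq_add_neg _ _).symm
  rw [h2, abs_le]
  constructor <;> linarith [h1.1, h1.2]

private theorem dn_norm_cons (r : ℝ) (z : Fin n → ℝ) :
    ‖(Fin.cons r z : Fin (n + 1) → ℝ) - hf (n + 1)‖ = max |r - 1 / 2| ‖z - hf n‖ := by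
  refine le_antisymm ?_ ?_
  · rw [pi_norm_le_iff_of_nonneg (le_max_of_le_left (abs_nonneg _))]
    intro i
    refine Fin.cases ?_ (fun j => ?_) i
    · exact le_max_left _ _
    · exact (norm_le_pi_norm (z - hf n) j).trans (le_max_right _ _)
  · refine max_le ?_ ?_
    · exact norm_le_pi_norm ((Fin.cons r z : Fin (n + 1) → ℝ) - hf (n + 1)) 0
    · rw [pi_norm_le_iff_of_nonneg (norm_nonneg _)]
      intro j
      exact norm_le_pi_norm ((Fin.cons r z : Fin (n + 1) → ℝ) - hf (n + 1)) (Fin.succ j)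

private theorem dn_inner {t : ℝ} (h0 : 0 ≤ t) (h1 : t ≤ 1 / 2) (k : ℕ) :
    ∫ r in (0 : ℝ)..1, (max |r - 1 / 2| t) ^ k =
      2 * k / (k + 1) * t ^ (k + 1) + 1 / ((k + 1) * 2 ^ k) := by
  have hc : Continuous fun r : ℝ => (max |r - 1 / 2| t) ^ k := by fun_prop
  have hk : ((k : ℝ) + 1) ≠ 0 := by positivity
  rw [← intervalIntegral.integral_add_adjacent_intervals (b := 1 / 2 - t)
    (hc.intervalIntegrable _ _) (hc.intervalIntegrable _ _),
    ← intervalIntegral.integral_add_adjacent_intervals (a := 1 / 2 - t) (b := 1 / 2 + t)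
    (hc.intervalIntegrable _ _) (hc.intervalIntegrable _ _)]
  have e1 : ∫ r in (0 : ℝ)..(1 / 2 - t), (max |r - 1 / 2| t) ^ k =
      ((1 / 2) ^ (k + 1) - t ^ (k + 1)) / (k + 1) := by
    have h2 : ∫ r in (0 : ℝ)..(1 / 2 - t), (max |r - 1 / 2| t) ^ k =
        ∫ r in (0 : ℝ)..(1 / 2 - t), (1 / 2 - r) ^ k := by
      refine intervalIntegral.integral_congr fun r hr => ?_
      rw [Set.uIcc_of_le (by linarith)] at hr
      rw [abs_of_nonpos (by linarith [hr.2]), max_eq_left (by linarith [hr.2])]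
      congr 1
      ring
    rw [h2, intervalIntegral.integral_comp_sub_left (fun r : ℝ => r ^ k) (1 / 2), integral_pow]
    congr 3
    · ring
    · ring
  have e2 : ∫ r in (1 / 2 - t)..(1 / 2 + t), (max |r - 1 / 2| t) ^ k = 2 * t ^ (k + 1) := by
    have h2 : ∫ r in (1 / 2 - t)..(1 / 2 + t), (max |r - 1 / 2| t) ^ k =
        ∫ _r in (1 / 2 - t)..(1 / 2 + t), t ^ k := by
      refine intervalIntegral.integral_congr fun r hr => ?_
      rw [Set.uIcc_of_le (by linarith)] at hr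
      rw [max_eq_right (abs_le.2 ⟨by linarith [hr.1], by linarith [hr.2]⟩)]
    rw [h2, intervalIntegral.integral_const, smul_eq_mul]
    ring
  have e3 : ∫ r in (1 / 2 + t)..1, (max |r - 1 / 2| t) ^ k =
      ((1 / 2) ^ (k + 1) - t ^ (k + 1)) / (k + 1) := by
    have h2 : ∫ r in (1 / 2 + t)..1, (max |r - 1 / 2| t) ^ k =
        ∫ r in (1 / 2 + t)..1, (r - 1 / 2) ^ k := by
      refine intervalIntegral.integral_congr fun r hr => ?_
      rw [Set.uIcc_of_le (by linarith)] at hr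
      rw [abs_of_nonneg (by linarith [hr.1]), max_eq_left (by linarith [hr.1])]
    rw [h2, intervalIntegral.integral_comp_sub_right (fun r : ℝ => r ^ k) (1 / 2), integral_pow]
    congr 3
    · norm_num
    · ring
  rw [e1, e2, e3]
  have h2k : (2 : ℝ) ^ k ≠ 0 := by positivity
  have h3 : ((1 : ℝ) / 2) ^ (k + 1) = 1 / (2 * 2 ^ k) := by
    rw [pow_succ, _root_.one_div_pow]
    field_simp
  rw [h3]
  field_simp
  ring

private theorem int_supk (N k : ℕ) (hk : 1 ≤ k) :
    ∫ y in cube N, ‖y - hf N‖ ^ k = N / ((N + k) * 2 ^ k) := by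
  induction N generalizing k with
  | zero =>
    have h1 : ∀ y : Fin 0 → ℝ, ‖y - hf 0‖ ^ k = 0 := by
      intro y
      have : y - hf 0 = 0 := Subsingleton.elim _ _
      rw [this, norm_zero]
      exact zero_pow (by omega)
    simp only [h1]
    simp
  | succ N ih =>
    have hc : ∀ k : ℕ, ∀ M : ℕ, Continuous fun x : Fin M → ℝ => ‖x - hf M‖ ^ k := fun k M =>
      ((continuous_id.sub continuous_const).norm).pow k
    rw [int_cons (hc k (N + 1))]
    have h1 : ∫ z in cube N, ∫ r in (0 : ℝ)..1,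
        ‖(Fin.cons r z : Fin (N + 1) → ℝ) - hf (N + 1)‖ ^ k =
        ∫ z in cube N, (2 * k / (k + 1) * ‖z - hf N‖ ^ (k + 1) + 1 / ((k + 1) * 2 ^ k)) := by
      refine setIntegral_congr_fun dn_meas fun z hz => ?_
      simp only [dn_norm_cons]
      refine dn_inner (norm_nonneg _) ?_ k
      rw [pi_norm_le_iff_of_nonneg (by norm_num)]
      intro i
      have h2 := dn_cube hz i
      rw [← sub_eq_add_neg] at h2
      exact h2
    rw [h1]
    have hi1 : IntegrableOn (fun z : Fin N → ℝ => 2 * (k : ℝ) / (k + 1) * ‖z - hf N‖ ^ (k + 1))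
        (cube N) := integrableOn_cube (continuous_const.mul (hc (k + 1) N))
    have hi2 : IntegrableOn (fun _ : Fin N → ℝ => 1 / (((k : ℝ) + 1) * 2 ^ k)) (cube N) :=
      integrableOn_cube continuous_const
    rw [integral_add hi1 hi2, integral_const_mul, ih (k + 1) (by omega), setIntegral_const,
      Measure.real, vol_cube]
    simp only [ENNReal.toReal_one, one_smul]
    have h2k : (2 : ℝ) ^ k ≠ 0 := by positivity
    have h3 : ((k : ℝ) + 1) ≠ 0 := by positivity
    have h4 : ((N : ℝ) + (k + 1)) ≠ 0 := by positivity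
    have h5 : ((N : ℝ) + 1 + k) ≠ 0 := by positivity
    push_cast
    rw [pow_succ]
    field_simp
    ring

/-- **The mean of the square of a coordinate** (integration over a product; `int_cons` and
induction, or `MeasureTheory.integral_fin_nat_prod_eq_prod`). -/
theorem int_sq (i : Fin n) : ∫ y in cube n, (y i - 1 / 2) ^ 2 = 1 / 12 := by
  induction n with
  | zero => exact i.elim0
  | succ n ih =>
    rw [int_cons (f := fun y : Fin (n + 1) → ℝ => (y i - 1 / 2) ^ 2) (by fun_prop)]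
    refine Fin.cases ?_ (fun j => ?_) i
    · have h1 : ∫ r in (0 : ℝ)..1, (r - 1 / 2) ^ 2 = 1 / 12 := by
        rw [intervalIntegral.integral_comp_sub_right (fun r : ℝ => r ^ 2) (1 / 2), integral_pow]
        norm_num
      simp only [Fin.cons_zero, h1]
      rw [setIntegral_const, Measure.real, vol_cube]
      simp
    · simp only [Fin.cons_succ]
      have h1 : ∀ z : Fin n → ℝ, ∫ _r in (0 : ℝ)..1, (z j - 1 / 2) ^ 2 = (z j - 1 / 2) ^ 2 := by
        intro z
        rw [intervalIntegral.integral_const]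
        simp
      simp only [h1]
      exact ih j

/-- **The mean of the sup norm** on the cube `[-1/2, 1/2]^N` is `N / (2 (N + 1))`. PROOF. Layer cake
formula: the mean is `∫ t in 0..1/2, (1 - volume {y | ‖y‖ ≤ t}) = ∫ t in 0..1/2, (1 - (2 t)^N)`
(`Real.volume_pi_closedBall`, `MeasureTheory.integral_eq_integral_meas_lt` or the version of your
choice). Alternatively induction with `int_cons` (`‖cons r z‖ = max |r| ‖z‖`), proving the formula
for all powers `‖y‖^k`: `N / ((N + k) 2^k)`. -/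
theorem int_sup (n : ℕ) :
    ∫ y in cube (n + 1), ‖y - hf (n + 1)‖ = (n + 1) / (2 * (n + 2)) := by
  have h := int_supk (n + 1) 1 le_rfl
  simp only [pow_one] at h
  rw [h]
  push_cast
  have : (n : ℝ) + 1 + 1 = n + 2 := by ring
  rw [this]
  ring

/-- **The second moment of `D_N`.** PROOF. `FF_DnG_unfold`, `int_shift` with the translation
`- hf` (`fD_sum_per`), then `fD_in`, `fD_out` for `y - hf`, `y` in the cube, and `int_sq`,
`int_sup`, `vol_cube`: `(1/2) (2 N / 12 + 1 - 2 N / (2 (N + 1)))`. -/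
theorem FF_DnG (n : ℕ) : FF (DnG n) = (n + 1) / 12 + 1 / (2 * (n + 2)) := by
  rw [FF_DnG_unfold, ← int_shift (fD_sum_per (n := n)) (-hf (n + 1))]
  have h1 : ∫ x in cube (n + 1), (fD (x + -hf (n + 1)) + fD (x + -hf (n + 1) + e0 n)) =
      ∫ x in cube (n + 1), ((2 * ∑ i, (x i - 1 / 2) ^ 2 + 1) - 2 * ‖x - hf (n + 1)‖) := by
    refine setIntegral_congr_fun dn_meas fun x hx => ?_
    have h2 : ∀ i, |(x + -hf (n + 1)) i| ≤ 1 / 2 := dn_cube hx
    rw [fD_in h2, fD_out h2]
    have h3 : ∀ i, (x + -hf (n + 1)) i = x i - 1 / 2 := fun i => (sub_eq_add_neg _ _).symm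
    simp only [h3]
    rw [← sub_eq_add_neg x (hf (n + 1))]
    ring
  have hc : Continuous fun x : Fin (n + 1) → ℝ => ‖x - hf (n + 1)‖ :=
    (continuous_id.sub continuous_const).norm
  have hc1 : Continuous fun x : Fin (n + 1) → ℝ => ∑ i, (x i - 1 / 2) ^ 2 := by fun_prop
  have hi1 : IntegrableOn (fun x : Fin (n + 1) → ℝ => ∑ i, (x i - 1 / 2) ^ 2) (cube (n + 1)) :=
    integrableOn_cube hc1
  have hi2 : IntegrableOn (fun x : Fin (n + 1) → ℝ => 2 * ∑ i, (x i - 1 / 2) ^ 2)
      (cube (n + 1)) := integrableOn_cube (by fun_prop)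
  have hi3 : IntegrableOn (fun x : Fin (n + 1) → ℝ => 2 * ∑ i, (x i - 1 / 2) ^ 2 + 1)
      (cube (n + 1)) := integrableOn_cube (by fun_prop)
  have hi4 : IntegrableOn (fun x : Fin (n + 1) → ℝ => 2 * ‖x - hf (n + 1)‖) (cube (n + 1)) :=
    integrableOn_cube (continuous_const.mul hc)
  have hi5 : IntegrableOn (fun _ : Fin (n + 1) → ℝ => (1 : ℝ)) (cube (n + 1)) :=
    integrableOn_cube continuous_const
  have e1 : ∫ x in cube (n + 1), ∑ i, (x i - 1 / 2) ^ 2 = ((n : ℝ) + 1) / 12 := by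
    rw [integral_finsetSum _ fun i _ => integrableOn_cube (by fun_prop)]
    simp only [int_sq]
    rw [Finset.sum_const, Finset.card_univ, Fintype.card_fin, nsmul_eq_mul]
    push_cast
    ring
  have e2 : ∫ _x in cube (n + 1), (1 : ℝ) = 1 := by
    rw [setIntegral_const, Measure.real, vol_cube]
    simp
  rw [h1, integral_sub hi3 hi4, integral_add hi2 hi5, integral_const_mul, integral_const_mul, e1,
    e2, int_sup]
  have hn : ((n : ℝ) + 2) ≠ 0 := by positivity
  field_simp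
  ring

/-- The distance for a diagonal form at a point of the centered cube. -/
theorem dsq_diag {ρ : Fin n → ℝ} (hρ : ∀ i, 0 ≤ ρ i) {y : Fin n → ℝ} (hy : ∀ i, |y i| ≤ 1 / 2) :
    dsq (Matrix.diagonal ρ) y = ∑ i, ρ i * y i ^ 2 := by
  have hq : ∀ x : Fin n → ℝ, qf (Matrix.diagonal ρ) x = ∑ i, ρ i * x i ^ 2 := by
    intro x
    unfold qf
    rw [dotProduct]
    refine Finset.sum_congr rfl fun i _ => ?_
    rw [mulVec_diagonal]
    ring
  have hb : BddBelow (Set.range fun l : Fin n → ℤ => qf (Matrix.diagonal ρ) (y - ic l)) := by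
    refine ⟨0, ?_⟩
    rintro _ ⟨l, rfl⟩
    simp only [hq]
    exact Finset.sum_nonneg fun i _ => mul_nonneg (hρ i) (sq_nonneg _)
  refine le_antisymm ?_ ?_
  · have h1 := ciInf_le hb 0
    rw [hq] at h1
    simpa [dsq, ic] using h1
  · refine le_ciInf fun l => ?_
    rw [hq]
    exact Finset.sum_le_sum fun i _ => mul_le_mul_of_nonneg_left (dn_sq (hy i) (l i)) (hρ i)

/-- **Diagonal forms.** PROOF. `int_shift` (`dsq_per`) with `- hf`, `dsq_diag`, `int_sq`. -/
theorem FF_diag {ρ : Fin n → ℝ} (hρ : ∀ i, 0 ≤ ρ i) :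
    FF (Matrix.diagonal ρ) = (∑ i, ρ i) / 12 := by
  unfold FF
  rw [← int_shift (dsq_per (Q := Matrix.diagonal ρ)) (-hf n)]
  have h1 : ∫ x in cube n, dsq (Matrix.diagonal ρ) (x + -hf n) =
      ∫ x in cube n, ∑ i, ρ i * (x i - 1 / 2) ^ 2 := by
    refine setIntegral_congr_fun dn_meas fun x hx => ?_
    rw [dsq_diag hρ (dn_cube hx)]
    rfl
  rw [h1, integral_finsetSum _ fun i _ => integrableOn_cube (by fun_prop)]
  simp only [integral_const_mul, int_sq]
  rw [← Finset.sum_mul]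
  ring

end Pool.Agent.D4Q
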