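import Pool.Agent.D4Q.Defs

set_option autoImplicit false

/-!
# P03. First properties of the distance function
-/

namespace Pool.Agent.D4Q

open MeasureTheory Matrix

variable {n : ℕ} {Q : Matrix (Fin n) (Fin n) ℝ}

/-- `qf` is nonnegative for positive definite `Q`. -/
theorem qf_nonneg (hQ : Q.PosDef) (x : Fin n → ℝ) : 0 ≤ qf Q x :=
  hQ.posSemidef.dotProduct_mulVec_nonneg x

theorem qf_pos (hQ : Q.PosDef) {x : Fin n → ℝ} (hx : x ≠ 0) : 0 < qf Q x :=
  hQ.dotProduct_mulVec_pos hx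

theorem qf_neg (x : Fin n → ℝ) : qf Q (-x) = qf Q x := by
  unfold qf
  rw [mulVec_neg, neg_dotProduct, dotProduct_neg, neg_neg]

private theorem qf_smul (c : ℝ) (x : Fin n → ℝ) : qf Q (c • x) = c ^ 2 * qf Q x := by
  unfold qf
  rw [mulVec_smul, smul_dotProduct, dotProduct_smul, smul_eq_mul, smul_eq_mul]
  ring

private theorem qf_contDiff (Q : Matrix (Fin n) (Fin n) ℝ) : ContDiff ℝ 1 (qf Q) := by
  unfold qf
  simp only [dotProduct, mulVec]
  fun_prop

/-- **Coercivity.** PROOF. `qf Q` is continuous and positive on the compact unit sphere of the sup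
norm (for `n = 0` everything is zero), hence at least some `c > 0` there; homogeneity. -/
theorem qf_coer (hQ : Q.PosDef) : ∃ c : ℝ, 0 < c ∧ ∀ x : Fin n → ℝ, c * ‖x‖ ^ 2 ≤ qf Q x := by
  have hsph : ∀ x : Fin n → ℝ, x ≠ 0 → ‖x‖⁻¹ • x ∈ Metric.sphere (0 : Fin n → ℝ) 1 := by
    intro x hx
    rw [mem_sphere_zero_iff_norm, norm_smul, norm_inv, norm_norm,
      inv_mul_cancel₀ (norm_ne_zero_iff.mpr hx)]
  have hx0 : ∀ x : Fin n → ℝ, x ≠ 0 → qf Q x = ‖x‖ ^ 2 * qf Q (‖x‖⁻¹ • x) := by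
    intro x hx
    rw [qf_smul, ← mul_assoc, ← mul_pow, mul_inv_cancel₀ (norm_ne_zero_iff.mpr hx), one_pow,
      one_mul]
  by_cases hne : (Metric.sphere (0 : Fin n → ℝ) 1).Nonempty
  · obtain ⟨y, hy, hmin⟩ := (isCompact_sphere (0 : Fin n → ℝ) 1).exists_isMinOn hne
      (qf_contDiff Q).continuous.continuousOn
    have hy0 : y ≠ 0 := by
      rintro rfl
      rw [mem_sphere_zero_iff_norm, norm_zero] at hy
      exact zero_ne_one hy
    refine ⟨qf Q y, qf_pos hQ hy0, fun x => ?_⟩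
    by_cases hx : x = 0
    · rw [hx, norm_zero]
      simpa using qf_nonneg hQ 0
    · rw [hx0 x hx, mul_comm]
      exact mul_le_mul_of_nonneg_left (hmin (hsph x hx)) (sq_nonneg _)
  · refine ⟨1, one_pos, fun x => ?_⟩
    by_cases hx : x = 0
    · rw [hx, norm_zero]
      simpa using qf_nonneg hQ 0
    · exact absurd ⟨_, hsph x hx⟩ hne

theorem dsq_le (hQ : Q.PosDef) (x : Fin n → ℝ) (l : Fin n → ℤ) : dsq Q x ≤ qf Q (x - ic l) := by
  refine ciInf_le ⟨0, ?_⟩ l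
  rintro _ ⟨m, rfl⟩
  exact qf_nonneg hQ _

theorem dsq_nonneg (hQ : Q.PosDef) (x : Fin n → ℝ) : 0 ≤ dsq Q x :=
  Real.iInf_nonneg fun _ => qf_nonneg hQ _

/-- **The infimum is attained.** PROOF. By `qf_coer` only finitely many `l` satisfy
`qf Q (x - ic l) ≤ qf Q (x - ic 0)` (integral points in a bounded set), and a minimum over this
nonempty finite set is the infimum. -/
theorem dsq_attained (hQ : Q.PosDef) (x : Fin n → ℝ) :
    ∃ l : Fin n → ℤ, dsq Q x = qf Q (x - ic l) := by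
  obtain ⟨c, hc, hco⟩ := qf_coer hQ
  set S : Set (Fin n → ℤ) := {l | qf Q (x - ic l) ≤ qf Q (x - ic 0)} with hS
  have hS0 : (0 : Fin n → ℤ) ∈ S := le_refl (qf Q (x - ic 0))
  have hfin : S.Finite := by
    set R : ℝ := Real.sqrt (qf Q (x - ic 0) / c) + ‖x‖ with hR
    refine (Set.finite_Icc (fun _ : Fin n => -⌈R⌉) (fun _ => ⌈R⌉)).subset ?_
    intro l hl
    have h1 : ‖x - ic l‖ ≤ Real.sqrt (qf Q (x - ic 0) / c) := by
      rw [← Real.sqrt_sq (norm_nonneg (x - ic l))]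
      apply Real.sqrt_le_sqrt
      rw [le_div_iff₀ hc, mul_comm]
      exact (hco _).trans hl
    have h2 : ‖ic l‖ ≤ R := by
      have e : ic l = x - (x - ic l) := by abel
      rw [e]
      calc ‖x - (x - ic l)‖ ≤ ‖x‖ + ‖x - ic l‖ := norm_sub_le _ _
        _ ≤ R := by linarith
    have h3 : ∀ i, |(l i : ℝ)| ≤ ⌈R⌉ := by
      intro i
      calc |(l i : ℝ)| = ‖ic l i‖ := rfl
        _ ≤ ‖ic l‖ := norm_le_pi_norm _ i
        _ ≤ R := h2
        _ ≤ ⌈R⌉ := Int.le_ceil _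
    constructor
    · intro i
      have := (abs_le.mp (h3 i)).1
      exact_mod_cast this
    · intro i
      have := (abs_le.mp (h3 i)).2
      exact_mod_cast this
  obtain ⟨l, hl, hmin⟩ := Set.exists_min_image S (fun l => qf Q (x - ic l)) hfin ⟨0, hS0⟩
  refine ⟨l, le_antisymm (dsq_le hQ x l) (le_ciInf fun m => ?_)⟩
  by_cases hm : m ∈ S
  · exact hmin m hm
  · exact (hmin 0 hS0).trans (not_le.mp hm).le

/-- Periodicity (shift the index of the infimum; no hypothesis on `Q`). -/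
theorem dsq_per : Per (dsq Q) := by
  intro x l
  unfold dsq
  refine Equiv.iInf_congr (Equiv.subRight l) fun m => ?_
  congr 1
  funext i
  simp only [Equiv.subRight_apply, Pi.sub_apply, Pi.add_apply, ic]
  push_cast
  ring

theorem dsq_neg (x : Fin n → ℝ) : dsq Q (-x) = dsq Q x := by
  unfold dsq
  refine Equiv.iInf_congr (Equiv.neg _) fun m => ?_
  rw [← qf_neg]
  congr 1
  funext i
  simp only [Equiv.neg_apply, Pi.sub_apply, Pi.neg_apply, ic]
  push_cast
  ring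

/-- **Boundedness.** For `x` in the cube `dsq Q x ≤ qf Q x ≤ C`; then periodicity. -/
theorem dsq_bdd (hQ : Q.PosDef) : ∃ C : ℝ, ∀ x : Fin n → ℝ, dsq Q x ≤ C := by
  obtain ⟨C, hC⟩ := (isCompact_closedBall (0 : Fin n → ℝ) 1).exists_bound_of_continuousOn
    (qf_contDiff Q).continuous.continuousOn
  refine ⟨C, fun x => ?_⟩
  have h1 : x - ic (fun i => ⌊x i⌋) ∈ Metric.closedBall (0 : Fin n → ℝ) 1 := by
    rw [mem_closedBall_zero_iff, pi_norm_le_iff_of_nonneg zero_le_one]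
    intro i
    have h2 : (x - ic (fun i => ⌊x i⌋)) i = Int.fract (x i) := rfl
    rw [h2, Real.norm_eq_abs, abs_of_nonneg (Int.fract_nonneg _)]
    exact (Int.fract_lt_one _).le
  calc dsq Q x ≤ qf Q (x - ic fun i => ⌊x i⌋) := dsq_le hQ x _
    _ ≤ ‖qf Q (x - ic fun i => ⌊x i⌋)‖ := Real.le_norm_self _
    _ ≤ C := hC _ h1

/-- The minimizers are uniformly bounded: combine `dsq_bdd` and `qf_coer`. -/
theorem min_bdd (hQ : Q.PosDef) :
    ∃ C : ℝ, ∀ (x : Fin n → ℝ) (l : Fin n → ℤ), dsq Q x = qf Q (x - ic l) → ‖x - ic l‖ ≤ C := by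
  obtain ⟨c, hc, hco⟩ := qf_coer hQ
  obtain ⟨C, hC⟩ := dsq_bdd hQ
  refine ⟨Real.sqrt (C / c), fun x l h => ?_⟩
  rw [← Real.sqrt_sq (norm_nonneg (x - ic l))]
  apply Real.sqrt_le_sqrt
  rw [le_div_iff₀ hc, mul_comm]
  calc c * ‖x - ic l‖ ^ 2 ≤ qf Q (x - ic l) := hco _
    _ = dsq Q x := h.symm
    _ ≤ C := hC x

/-- **Continuity.** PROOF. With `C` as in `min_bdd` for `Q`: for `‖x - y‖ ≤ 1` let `l` be a minimizer
for `y`; then `dsq Q x ≤ qf Q (x - ic l) ≤ dsq Q y + K ‖x - y‖` with `K` depending only on `Q, C`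
(`qf Q (u + h) - qf Q u` is bounded by `K ‖h‖` for `‖u‖ ≤ C`, `‖h‖ ≤ 1`); symmetrically. So `dsq Q`
is locally Lipschitz with a uniform constant. -/
theorem dsq_cont (hQ : Q.PosDef) : Continuous (dsq Q) := by
  obtain ⟨C, hC⟩ := min_bdd hQ
  obtain ⟨K, hK⟩ := ContDiffOn.exists_lipschitzOnWith
    ((qf_contDiff Q).contDiffOn (s := Metric.closedBall (0 : Fin n → ℝ) (C + 1))) one_ne_zero
    (convex_closedBall _ _) (isCompact_closedBall _ _)
  have key : ∀ x y : Fin n → ℝ, ‖x - y‖ ≤ 1 → dsq Q x ≤ dsq Q y + K * ‖x - y‖ := by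
    intro x y hxy
    obtain ⟨l, hl⟩ := dsq_attained hQ y
    have h1 : ‖y - ic l‖ ≤ C := hC y l hl
    have e : x - ic l = (x - y) + (y - ic l) := by abel
    have h2 : ‖x - ic l‖ ≤ C + 1 := by
      rw [e]
      calc ‖(x - y) + (y - ic l)‖ ≤ ‖x - y‖ + ‖y - ic l‖ := norm_add_le _ _
        _ ≤ C + 1 := by linarith
    have h3 := hK.dist_le_mul (x - ic l) (mem_closedBall_zero_iff.mpr h2) (y - ic l)
      (mem_closedBall_zero_iff.mpr (by linarith))
    rw [dist_sub_right, dist_eq_norm, dist_eq_norm, Real.norm_eq_abs] at h3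
    have h4 := le_abs_self (qf Q (x - ic l) - qf Q (y - ic l))
    calc dsq Q x ≤ qf Q (x - ic l) := dsq_le hQ x l
      _ ≤ qf Q (y - ic l) + K * ‖x - y‖ := by linarith
      _ = dsq Q y + K * ‖x - y‖ := by rw [hl]
  rw [Metric.continuous_iff]
  intro x ε hε
  have hK0 : (0 : ℝ) < K + 1 := by positivity
  refine ⟨min 1 (ε / (K + 1)), lt_min one_pos (div_pos hε hK0), fun y hy => ?_⟩
  rw [dist_eq_norm] at hy
  have h1 : ‖y - x‖ ≤ 1 := hy.le.trans (min_le_left _ _)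
  have h2 : ‖y - x‖ < ε / (K + 1) := hy.trans_le (min_le_right _ _)
  rw [lt_div_iff₀ hK0] at h2
  have h3 := key y x h1
  have h4 := key x y (by rwa [norm_sub_rev])
  rw [norm_sub_rev x y] at h4
  have h5 := norm_nonneg (y - x)
  rw [Real.dist_eq, abs_lt]
  constructor <;> nlinarith

end Pool.Agent.D4Q
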