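import Pool.Agent.D4Q.DsqA
import Pool.Agent.D4Q.Tor
import Pool.Agent.D4Q.Fub

set_option autoImplicit false

/-!
# P04. Change of basis, scaling, perturbation
-/

namespace Pool.Agent.D4Q

open MeasureTheory Matrix

variable {n : ℕ} {Q : Matrix (Fin n) (Fin n) ℝ}

theorem qf_tr (W : Matrix (Fin n) (Fin n) ℤ) (x : Fin n → ℝ) :
    qf (tr W Q) x = qf Q (mc W *ᵥ x) := by
  unfold qf tr
  rw [← mulVec_mulVec, ← mulVec_mulVec, dotProduct_mulVec x (mc W)ᵀ, vecMul_transpose]

theorem det_tr (W : Matrix (Fin n) (Fin n) ℤ) (hW : IsUnit W.det) : (tr W Q).det = Q.det := by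
  have h1 : (mc W).det = (W.det : ℝ) := by
    have h2 := (Int.castRingHom ℝ).map_det W
    exact h2.symm
  unfold tr
  rw [det_mul, det_mul, det_transpose, h1]
  rcases Int.isUnit_iff.1 hW with h | h
  · rw [h]; simp
  · rw [h]; simp

theorem posDef_tr (hQ : Q.PosDef) (W : Matrix (Fin n) (Fin n) ℤ) (hW : IsUnit W.det) :
    (tr W Q).PosDef := by
  have h1 : IsUnit (mc W).det := by
    have h2 := (Int.castRingHom ℝ).map_det W
    have h3 : (mc W).det = (W.det : ℝ) := h2.symm
    rw [h3]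
    rcases Int.isUnit_iff.1 hW with h | h
    · rw [h]; simp
    · rw [h]; simp
  have h4 : Function.Injective (mc W).mulVec :=
    mulVec_injective_iff_isUnit.2 ((isUnit_iff_isUnit_det _).2 h1)
  have h5 := hQ.conjTranspose_mul_mul_same h4
  rw [conjTranspose_eq_transpose_of_trivial] at h5
  exact h5

/-- The substitution `l ↦ W l` is a bijection of the integral vectors. -/
theorem dsq_tr (W : Matrix (Fin n) (Fin n) ℤ) (hW : IsUnit W.det) (x : Fin n → ℝ) :
    dsq (tr W Q) x = dsq Q (mc W *ᵥ x) := by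
  have h1 : ∀ l : Fin n → ℤ, mc W *ᵥ ic l = ic (W *ᵥ l) := by
    intro l
    funext i
    unfold mc ic mulVec dotProduct
    push_cast
    rfl
  have hs : Function.Surjective fun l : Fin n → ℤ => W *ᵥ l := by
    intro y
    refine ⟨W⁻¹ *ᵥ y, ?_⟩
    change W *ᵥ (W⁻¹ *ᵥ y) = y
    rw [mulVec_mulVec, mul_nonsing_inv W hW, one_mulVec]
  unfold dsq
  rw [← hs.iInf_comp (fun m => qf Q (mc W *ᵥ x - ic m))]
  refine iInf_congr fun l => ?_
  rw [qf_tr, mulVec_sub, h1]

/-- From `dsq_tr`, `dsq_per` and `int_uni`. -/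
theorem FF_tr (W : Matrix (Fin n) (Fin n) ℤ) (hW : IsUnit W.det) : FF (tr W Q) = FF Q := by
  unfold FF
  rw [← int_uni (dsq_per (Q := Q)) W hW]
  refine integral_congr_ae (Filter.Eventually.of_forall fun x => ?_)
  exact dsq_tr W hW x

/-- Homogeneity. -/
theorem FF_smul (c : ℝ) (hc : 0 ≤ c) : FF (c • Q) = c * FF Q := by
  have h1 : ∀ x, dsq (c • Q) x = c * dsq Q x := by
    intro x
    unfold dsq
    rw [Real.mul_iInf_of_nonneg hc]
    refine iInf_congr fun l => ?_
    unfold qf
    rw [smul_mulVec, dotProduct_smul, smul_eq_mul]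
  unfold FF
  rw [← integral_const_mul]
  refine integral_congr_ae (Filter.Eventually.of_forall fun x => ?_)
  exact h1 x

/-- **Perturbation.** PROOF. With `C` as in `min_bdd` and `K` such that `qf E u ≤ K` for `‖u‖ ≤ C`:
for a minimizer `l` of `x` for `Q`, `dsq (Q + ε E) x ≤ qf Q (x - l) + ε qf E (x - l)
≤ dsq Q x + ε K` (the infimum is bounded below by zero since `Q + ε E` is positive definite).
Integrate over the cube (`dsq` is continuous, `integrableOn_cube`, volume one). -/
theorem FF_perturb (hQ : Q.PosDef) (E : Matrix (Fin n) (Fin n) ℝ) (hE : E.PosSemidef) :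
    ∃ K : ℝ, ∀ ε : ℝ, 0 ≤ ε → FF (Q + ε • E) ≤ FF Q + ε * K := by
  obtain ⟨C, hC⟩ := min_bdd hQ
  have hcont : Continuous (qf E) := by
    unfold qf
    fun_prop
  obtain ⟨K, hK⟩ := (isCompact_closedBall (0 : Fin n → ℝ) C).exists_bound_of_continuousOn
    hcont.continuousOn
  refine ⟨K, fun ε hε => ?_⟩
  have hQE : (Q + ε • E).PosDef := hQ.add_posSemidef (hE.smul hε)
  have h1 : ∀ x, dsq (Q + ε • E) x ≤ dsq Q x + ε * K := by
    intro x
    obtain ⟨l, hl⟩ := dsq_attained hQ x
    have h2 := hC x l hl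
    have h3 := hK (x - ic l) (by rw [mem_closedBall_zero_iff]; exact h2)
    have h4 : qf E (x - ic l) ≤ K := (le_abs_self _).trans h3
    have h5 := dsq_le hQE x l
    have h6 : qf (Q + ε • E) (x - ic l) = qf Q (x - ic l) + ε * qf E (x - ic l) := by
      unfold qf
      rw [add_mulVec, dotProduct_add, smul_mulVec, dotProduct_smul, smul_eq_mul]
    rw [h6, ← hl] at h5
    have h7 := mul_le_mul_of_nonneg_left h4 hε
    linarith
  have hi1 : IntegrableOn (dsq (Q + ε • E)) (cube n) := integrableOn_cube (dsq_cont hQE)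
  have hi2 : IntegrableOn (dsq Q) (cube n) := integrableOn_cube (dsq_cont hQ)
  have hi3 : IntegrableOn (fun _ : Fin n → ℝ => ε * K) (cube n) :=
    integrableOn_cube continuous_const
  have h8 : ∫ x in cube n, dsq (Q + ε • E) x ≤ ∫ x in cube n, (dsq Q x + ε * K) :=
    integral_mono hi1 (hi2.add hi3) h1
  have h9 : ∫ x in cube n, (dsq Q x + ε * K) = (∫ x in cube n, dsq Q x) + ε * K := by
    rw [integral_add hi2 hi3, integral_const]
    congr 1
    rw [Measure.real, Measure.restrict_apply_univ, vol_cube]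
    simp
  rw [h9] at h8
  exact h8

/-- `FF` does not depend on the numbering of the basis. -/
theorem FF_perm (e : Fin n ≃ Fin n) : FF (Q.submatrix e e) = FF Q := by
  have h1 : Q.submatrix e e = tr ((1 : Matrix (Fin n) (Fin n) ℤ).submatrix id e) Q := by
    ext i j
    unfold tr mc
    simp [Matrix.mul_apply, Matrix.one_apply]
  rw [h1, FF_tr]
  rw [det_permute']
  simp

end Pool.Agent.D4Q
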