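import Pool.Agent.D4Q.Chk1a

set_option autoImplicit false
set_option maxRecDepth 100000

/-!
# The inequality for the cone I
-/

namespace Pool.Agent.D4Q.C1

theorem E_P0 :
    AvE gens P0 [] (fun x => ev 10 x P) :=
  rule_start setup iP K_P0

theorem E_D0 :
    AvE gens D0 [] (fun x => ev 10 x D) :=
  rule_start setup iD K_D0

theorem L_A1 :
    LinR gens nu P0 A1 :=
  linR_of_ok setup (by decide) w_nu K_A1

theorem L_B1 :
    LinR gens nu D0 B1 :=
  linR_of_ok setup (by decide) w_nu K_B1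

theorem L_B2 :
    LinR gens nu B1 B2 :=
  linR_of_ok setup (by decide) w_nu K_B2

theorem L_U1 :
    LinR gens tt D0 U1 :=
  linR_of_ok setup (by decide) w_tt K_U1

theorem L_U2 :
    LinR gens tt U1 U2 :=
  linR_of_ok setup (by decide) w_tt K_U2

theorem E_W :
    AvE gens Wp Wm (fun x => (44 : ℕ) * (linV nu x * ev 10 x P) - ((39 : ℕ) * (linV nu x * (linV nu x * ev 10 x D)) +
    linV tt x * (linV tt x * ev 10 x D))) :=
  rule_cancel (rule_sub (rule_smul 44 (rule_lin L_A1 (linR_nil _) E_P0))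
    (rule_add (rule_smul 39 (rule_lin L_B2 (linR_nil _) (rule_lin L_B1 (linR_nil _) E_D0)))
      (rule_lin L_U2 (linR_nil _) (rule_lin L_U1 (linR_nil _) E_D0)))) c_W

theorem L_Yp :
    LinR gens nu Wp Yp :=
  linR_of_ok setup (by decide) w_nu K_Yp

theorem L_Ym :
    LinR gens nu Wm Ym :=
  linR_nil _

theorem L_Xp :
    LinR gens nu Zp Xp :=
  linR_of_ok setup (by decide) w_nu K_Xp

theorem L_Xm :
    LinR gens nu Zm Xm :=
  linR_nil _

theorem E_X :
    AvE gens Xp Xm (fun x => linV nu x * (linV nu x * ((44 : ℕ) * (linV nu x * ev 10 x P) -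
    ((39 : ℕ) * (linV nu x * (linV nu x * ev 10 x D)) + linV tt x * (linV tt x * ev 10 x D))))) :=
  rule_lin L_Xp L_Xm (rule_cancel (rule_lin L_Yp L_Ym E_W) c_Z)

theorem E_DD :
    AvE gens DD [] (fun x => ev 10 x D * ev 10 x D) :=
  rule_mul setup iD K_DD E_D0

theorem main {x : ℕ → ℝ} (hx : ∀ i, 0 ≤ x i) :
    761332 * (ev 10 x D * ev 10 x D) ≤
      linV nu x * (linV nu x * ((44 : ℕ) * (linV nu x * ev 10 x P) -
        ((39 : ℕ) * (linV nu x * (linV nu x * ev 10 x D)) + linV tt x * (linV tt x * ev 10 x D)))) := by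
  refine rule_fin hx E_X E_DD ?_ c_fin
  intro s hs
  simp only [S, List.mem_cons, List.not_mem_nil, or_false] at hs
  subst hs
  · exact rule_sq setup K_0a hx

end Pool.Agent.D4Q.C1
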