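import Pool.Agent.D4Q.LatB

set_option autoImplicit false

/-!
# P40. The second moment of the Voronoi cell
-/

namespace Pool.Agent.D4Q

open MeasureTheory Matrix

variable {n : ℕ}

/-- **The integral over the Voronoi cell.** PROOF. Let `b` be a real basis with Gram matrix `Q`
spanning `L`, and `F = ZSpan.fundamentalDomain b` (the half open parallelepiped), a fundamental
domain of the same lattice. On the Voronoi cell `‖x‖^2 = dL L x` (`dL_eq_on_Vor`), and `dL L` is
invariant (`dL_add`), so by `IsAddFundamentalDomain.setIntegral_eq` (`isFund_Vor`) the integral is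
`∫ x in F, dL L x`. The linear map `t ↦ ∑ t_i b_i` sends the cube onto `F` and multiplies the volume
by `|det B| = covolume`; so this is `covolume * ∫ t in cube n, dsq Q t` (`dL_coord`). -/
theorem vor_integral {L : Submodule ℤ (EuclideanSpace ℝ (Fin n))} [DiscreteTopology L]
    [IsZLattice ℝ L] {Q : Matrix (Fin n) (Fin n) ℝ} (h : HasForm L Q) :
    ∫ x in {x : EuclideanSpace ℝ (Fin n) | ∀ v ∈ L, ‖x‖ ≤ ‖x - v‖}, ‖x‖ ^ 2 =
      ZLattice.covolume L * FF Q := by
  obtain ⟨b, hb, hL, hQ⟩ := h
  have hsp : (⊤ : Submodule ℝ (EuclideanSpace ℝ (Fin n))) ≤ Submodule.span ℝ (Set.range b) :=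
    (hb.span_eq_top_of_card_eq_finrank' (by simp)).ge
  set B : Module.Basis (Fin n) ℝ (EuclideanSpace ℝ (Fin n)) := Module.Basis.mk hb hsp with hB
  have hBb : ⇑B = b := Module.Basis.coe_mk hb hsp
  have hLB : L = Submodule.span ℤ (Set.range B) := by rw [hBb]; exact hL
  have : MeasurableVAdd L (EuclideanSpace ℝ (Fin n)) :=
    (inferInstance : MeasurableVAdd L.toAddSubgroup (EuclideanSpace ℝ (Fin n)))
  have : VAddInvariantMeasure L (EuclideanSpace ℝ (Fin n)) volume :=
    (inferInstance : VAddInvariantMeasure L.toAddSubgroup (EuclideanSpace ℝ (Fin n)) volume)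
  have hF : IsAddFundamentalDomain L (ZSpan.fundamentalDomain B)
      (volume : Measure (EuclideanSpace ℝ (Fin n))) := by
    subst hLB
    exact ZSpan.isAddFundamentalDomain B volume
  have h1 : ∫ x in Vor L, ‖x‖ ^ 2 = ∫ x in Vor L, dL L x :=
    setIntegral_congr_fun (isClosed_Vor L).measurableSet fun x hx => (dL_eq_on_Vor hx).symm
  have h2 : ∫ x in Vor L, dL L x = ∫ x in ZSpan.fundamentalDomain B, dL L x := by
    refine (isFund_Vor L).setIntegral_eq hF fun g x => ?_
    have : g +ᵥ x = x + (g : EuclideanSpace ℝ (Fin n)) := by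
      rw [add_comm]; rfl
    rw [this]
    exact dL_add x g.2
  -- the linear map from the cube to the parallelepiped
  set φ : (Fin n → ℝ) ≃L[ℝ] EuclideanSpace ℝ (Fin n) := B.equivFunL.symm with hφ
  have hφa : ∀ t : Fin n → ℝ, φ t = ∑ i, t i • b i := by
    intro t
    have := B.equivFun_symm_apply t
    rw [hBb] at this
    exact this
  have hpre : φ ⁻¹' (ZSpan.fundamentalDomain B) = cube n := by
    ext t
    rw [Set.mem_preimage, ZSpan.mem_fundamentalDomain]
    unfold cube
    simp only [Set.mem_pi, Set.mem_univ, true_implies]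
    have : ∀ i, B.repr (φ t) i = t i := fun i => by
      have := B.equivFun.apply_symm_apply t
      exact congrFun this i
    simp only [this]
  have hemb : MeasurableEmbedding φ := φ.toHomeomorph.measurableEmbedding
  set ν : Measure (EuclideanSpace ℝ (Fin n)) := Measure.map φ volume with hν
  have : ν.IsAddHaarMeasure := φ.isAddHaarMeasure_map volume
  obtain ⟨c, hc⟩ : ∃ c : ENNReal, (volume : Measure (EuclideanSpace ℝ (Fin n))) = c • ν :=
    ⟨_, Measure.isAddLeftInvariant_eq_smul (volume : Measure (EuclideanSpace ℝ (Fin n))) ν⟩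
  have hcube : volume (cube n) = 1 := by
    unfold cube
    rw [volume_pi_pi]
    simp
  have hνF : ν (ZSpan.fundamentalDomain B) = 1 := by
    rw [hν, hemb.map_apply, hpre, hcube]
  have hcov : ZLattice.covolume L = c.toReal := by
    rw [ZLattice.covolume_eq_measure_fundamentalDomain L volume hF, Measure.real, hc,
      Measure.smul_apply, hνF, smul_eq_mul, mul_one]
  have h3 : ∫ x in ZSpan.fundamentalDomain B, dL L x =
      c.toReal * ∫ x in ZSpan.fundamentalDomain B, dL L x ∂ν := by
    rw [hc, Measure.restrict_smul, integral_smul_measure, smul_eq_mul]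
  have h4 : ∫ x in ZSpan.fundamentalDomain B, dL L x ∂ν = FF Q := by
    rw [hν, hemb.setIntegral_map, hpre]
    unfold FF
    congr 1
    funext t
    rw [hφa]
    exact dL_coord hL hQ t
  change ∫ x in Vor L, ‖x‖ ^ 2 = _
  rw [h1, h2, h3, h4, hcov]

end Pool.Agent.D4Q
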