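import Pool.Agent.D4Q.LatA
import Pool.Agent.D4Q.DsqA

set_option autoImplicit false

/-!
# P41. Dual lattices and minimal vectors
-/

namespace Pool.Agent.D4Q

open MeasureTheory Matrix

variable {n : ℕ}

private theorem eq_of_inner {b : Fin n → EuclideanSpace ℝ (Fin n)} (hb : LinearIndependent ℝ b)
    {y z : EuclideanSpace ℝ (Fin n)} (h : ∀ j, inner ℝ y (b j) = inner ℝ z (b j)) : y = z := by
  have hsp : ∀ v : EuclideanSpace ℝ (Fin n), v ∈ Submodule.span ℝ (Set.range b) := by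
    intro v
    rw [hb.span_eq_top_of_card_eq_finrank' (by simp)]
    exact Submodule.mem_top
  have h1 : ∀ v : EuclideanSpace ℝ (Fin n), inner ℝ (y - z) v = 0 := by
    intro v
    obtain ⟨a, ha⟩ := (Submodule.mem_span_range_iff_exists_fun ℝ).1 (hsp v)
    rw [← ha, inner_sum]
    refine Finset.sum_eq_zero fun i _ => ?_
    rw [real_inner_smul_right, inner_sub_left, h i, sub_self, mul_zero]
  have h2 := h1 (y - z)
  rw [inner_self_eq_zero] at h2
  exact sub_eq_zero.1 h2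

private theorem dual_expand {b c : Fin n → EuclideanSpace ℝ (Fin n)} (hb : LinearIndependent ℝ b)
    (hcb : ∀ i j, inner ℝ (c i) (b j) = if i = j then (1 : ℝ) else 0)
    (y : EuclideanSpace ℝ (Fin n)) : y = ∑ i, (inner ℝ y (b i) : ℝ) • c i := by
  refine eq_of_inner hb fun j => ?_
  rw [sum_inner]
  simp [real_inner_smul_left, hcb]

private theorem dual_li {b c : Fin n → EuclideanSpace ℝ (Fin n)}
    (hcb : ∀ i j, inner ℝ (c i) (b j) = if i = j then (1 : ℝ) else 0) :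
    LinearIndependent ℝ c := by
  rw [Fintype.linearIndependent_iff]
  intro x hx j
  have h1 : inner ℝ (∑ i, x i • c i) (b j) = (0 : ℝ) := by rw [hx, inner_zero_left]
  rw [sum_inner] at h1
  simpa [real_inner_smul_left, hcb] using h1

private theorem int_smul_eq (k : ℤ) (v : EuclideanSpace ℝ (Fin n)) : k • v = (k : ℝ) • v :=
  (Int.cast_smul_eq_zsmul ℝ k v).symm

private theorem mem_dual {b c : Fin n → EuclideanSpace ℝ (Fin n)} (hb : LinearIndependent ℝ b)
    (hcb : ∀ i j, inner ℝ (c i) (b j) = if i = j then (1 : ℝ) else 0)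
    (y : EuclideanSpace ℝ (Fin n)) :
    y ∈ Submodule.span ℤ (Set.range c) ↔
      ∀ v ∈ Submodule.span ℤ (Set.range b), ∃ k : ℤ, inner ℝ y v = (k : ℝ) := by
  constructor
  · intro hy v hv
    obtain ⟨a, rfl⟩ := (Submodule.mem_span_range_iff_exists_fun ℤ).1 hy
    obtain ⟨d, rfl⟩ := (Submodule.mem_span_range_iff_exists_fun ℤ).1 hv
    refine ⟨∑ i, a i * d i, ?_⟩
    rw [sum_inner]
    push_cast
    refine Finset.sum_congr rfl fun i _ => ?_
    rw [inner_sum, int_smul_eq]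
    simp only [int_smul_eq, real_inner_smul_left, real_inner_smul_right, hcb]
    simp [mul_comm]
  · intro h
    have h1 : ∀ i, ∃ k : ℤ, inner ℝ y (b i) = (k : ℝ) := fun i =>
      h (b i) (Submodule.subset_span ⟨i, rfl⟩)
    choose k hk using h1
    refine (Submodule.mem_span_range_iff_exists_fun ℤ).2 ⟨k, ?_⟩
    conv_rhs => rw [dual_expand hb hcb y]
    refine Finset.sum_congr rfl fun i _ => ?_
    rw [int_smul_eq, hk i]

private theorem exists_dual_basis {b : Fin n → EuclideanSpace ℝ (Fin n)}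
    {Q : Matrix (Fin n) (Fin n) ℝ} (hQd : Q.PosDef)
    (hQ : ∀ i j, Q i j = inner ℝ (b i) (b j)) :
    ∃ c : Fin n → EuclideanSpace ℝ (Fin n),
      (∀ i j, inner ℝ (c i) (b j) = if i = j then (1 : ℝ) else 0) ∧
      ∀ i j, Q⁻¹ i j = inner ℝ (c i) (c j) := by
  have hdet : IsUnit Q.det := isUnit_iff_ne_zero.2 hQd.det_pos.ne'
  have hcb : ∀ i j, inner ℝ (∑ k, Q⁻¹ i k • b k) (b j) = if i = j then (1 : ℝ) else 0 := by
    intro i j
    rw [sum_inner]
    have h1 : ∑ k, inner ℝ (Q⁻¹ i k • b k) (b j) = (Q⁻¹ * Q) i j := by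
      rw [Matrix.mul_apply]
      refine Finset.sum_congr rfl fun k _ => ?_
      rw [real_inner_smul_left, hQ]
    rw [h1, Matrix.nonsing_inv_mul Q hdet, Matrix.one_apply]
  refine ⟨fun i => ∑ j, Q⁻¹ i j • b j, hcb, fun i j => ?_⟩
  have h2 : inner ℝ (∑ k, Q⁻¹ i k • b k) (∑ l, Q⁻¹ j l • b l) = Q⁻¹ j i := by
    rw [inner_sum]
    simp only [real_inner_smul_right, hcb]
    simp
  rw [h2]
  have h3 : (Q⁻¹)ᵀ = Q⁻¹ := by
    rw [Matrix.transpose_nonsing_inv]
    congr 1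
    ext i j
    rw [Matrix.transpose_apply, hQ, hQ, real_inner_comm]
  calc Q⁻¹ i j = (Q⁻¹)ᵀ j i := rfl
    _ = Q⁻¹ j i := by rw [h3]

private theorem delta_symm {b c : Fin n → EuclideanSpace ℝ (Fin n)}
    (hcb : ∀ i j, inner ℝ (c i) (b j) = if i = j then (1 : ℝ) else 0) (i j : Fin n) :
    inner ℝ (b i) (c j) = if i = j then (1 : ℝ) else 0 := by
  rw [real_inner_comm, hcb]
  simp [eq_comm]

/-- **The dual lattice has the inverse form.** PROOF. Let `b` be the basis of `M` with Gram matrix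
`R`, and `c i = ∑ j, R⁻¹ i j • b j` the dual basis: `inner (c i) (b j) = δ i j` and
`inner (c i) (c j) = R⁻¹ i j`. A vector `y = ∑ (inner y (b i)) • c i` belongs to `L` iff all
`inner y (b i)` are integers (then all `inner y v`, `v ∈ M`, are), i.e. iff `y` is in the integral
span of `c`. -/
theorem hasForm_dual {L M : Submodule ℤ (EuclideanSpace ℝ (Fin n))}
    {R : Matrix (Fin n) (Fin n) ℝ} (h : HasForm M R)
    (hL : ∀ y : EuclideanSpace ℝ (Fin n), y ∈ L ↔ ∀ v ∈ M, ∃ k : ℤ, inner ℝ y v = (k : ℝ)) :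
    HasForm L R⁻¹ := by
  have hR := hasForm_posDef h
  obtain ⟨b, hb, hM, hG⟩ := h
  obtain ⟨c, hcb, hcc⟩ := exists_dual_basis hR hG
  refine ⟨c, dual_li hcb, ?_, hcc⟩
  ext y
  rw [hL y, mem_dual hb hcb y, hM]

/-- **Existence of the dual lattice.** PROOF. With the basis `b` of `L` and the dual basis `c` take
`M` = the integral span of `c`; its Gram matrix is `Q⁻¹`, and the dual basis of `c` is `b`. -/
theorem exists_dual {L : Submodule ℤ (EuclideanSpace ℝ (Fin n))}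
    {Q : Matrix (Fin n) (Fin n) ℝ} (h : HasForm L Q) :
    ∃ M : Submodule ℤ (EuclideanSpace ℝ (Fin n)), HasForm M Q⁻¹ ∧
      ∀ y : EuclideanSpace ℝ (Fin n), y ∈ L ↔ ∀ v ∈ M, ∃ k : ℤ, inner ℝ y v = (k : ℝ) := by
  have hQ := hasForm_posDef h
  obtain ⟨b, hb, hL, hG⟩ := h
  obtain ⟨c, hcb, hcc⟩ := exists_dual_basis hQ hG
  refine ⟨Submodule.span ℤ (Set.range c), ⟨c, dual_li hcb, rfl, hcc⟩, fun y => ?_⟩
  rw [hL]
  exact mem_dual (dual_li hcb) (delta_symm hcb) y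

/-- The nonzero vectors of the lattice are the combinations with nonzero coefficient vectors. -/
theorem mem_iff {L : Submodule ℤ (EuclideanSpace ℝ (Fin n))} {Q : Matrix (Fin n) (Fin n) ℝ}
    (h : HasForm L Q) (t : ℝ) :
    (∃ w ∈ L, w ≠ 0 ∧ ‖w‖ ^ 2 = t) ↔ ∃ v : Fin n → ℤ, v ≠ 0 ∧ qf Q (ic v) = t := by
  obtain ⟨b, hb, hL, hG⟩ := h
  have key : ∀ v : Fin n → ℤ, ∑ i, v i • b i = ∑ i, ic v i • b i := fun v =>
    Finset.sum_congr rfl fun i _ => int_smul_eq (v i) (b i)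
  constructor
  · rintro ⟨w, hw, hw0, hwt⟩
    rw [hL] at hw
    obtain ⟨v, rfl⟩ := (Submodule.mem_span_range_iff_exists_fun ℤ).1 hw
    refine ⟨v, ?_, ?_⟩
    · rintro rfl
      apply hw0
      simp
    · rw [← norm_sq_comb hG, ← key, hwt]
  · rintro ⟨v, hv0, hvt⟩
    refine ⟨∑ i, v i • b i, ?_, ?_, ?_⟩
    · rw [hL]
      exact (Submodule.mem_span_range_iff_exists_fun ℤ).2 ⟨v, rfl⟩
    · intro h0
      apply hv0
      rw [key] at h0
      funext i
      have h1 := Fintype.linearIndependent_iff.1 hb _ h0 i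
      simpa [ic] using h1
    · rw [key, norm_sq_comb hG, hvt]

/-- **The minimum is attained** (`n ≥ 1`). PROOF. By `qf_coer` only finitely many `v` have
`qf Q (ic v) ≤ qf Q (ic v0)` for a fixed `v0 ≠ 0`. -/
theorem exists_min [NeZero n] {Q : Matrix (Fin n) (Fin n) ℝ} (hQ : Q.PosDef) :
    ∃ v : Fin n → ℤ, v ≠ 0 ∧ ∀ w : Fin n → ℤ, w ≠ 0 → qf Q (ic v) ≤ qf Q (ic w) := by
  obtain ⟨c, hc, hco⟩ := qf_coer hQ
  obtain ⟨v0, hv0⟩ : ∃ v : Fin n → ℤ, v ≠ 0 :=
    ⟨fun _ => 1, fun h => one_ne_zero (congrFun h 0)⟩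
  set S : Set (Fin n → ℤ) := {l | l ≠ 0 ∧ qf Q (ic l) ≤ qf Q (ic v0)} with hS
  have hS0 : v0 ∈ S := ⟨hv0, le_refl _⟩
  have hfin : S.Finite := by
    set R : ℝ := Real.sqrt (qf Q (ic v0) / c) with hR
    refine (Set.finite_Icc (fun _ : Fin n => -⌈R⌉) (fun _ => ⌈R⌉)).subset ?_
    intro l hl
    have h2 : ‖ic l‖ ≤ R := by
      rw [← Real.sqrt_sq (norm_nonneg (ic l))]
      apply Real.sqrt_le_sqrt
      rw [le_div_iff₀ hc, mul_comm]
      exact (hco _).trans hl.2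
    have h3 : ∀ i, |(l i : ℝ)| ≤ ⌈R⌉ := by
      intro i
      calc |(l i : ℝ)| = ‖ic l i‖ := rfl
        _ ≤ ‖ic l‖ := norm_le_pi_norm _ i
        _ ≤ R := h2
        _ ≤ ⌈R⌉ := Int.le_ceil _
    constructor
    · intro i
      have := (abs_le.mp (h3 i)).1
      exact_mod_cast this
    · intro i
      have := (abs_le.mp (h3 i)).2
      exact_mod_cast this
  obtain ⟨l, hl, hmin⟩ := Set.exists_min_image S (fun l => qf Q (ic l)) hfin ⟨v0, hS0⟩
  refine ⟨l, hl.1, fun w hw => ?_⟩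
  by_cases hm : w ∈ S
  · exact hmin w hm
  · have h4 : ¬ qf Q (ic w) ≤ qf Q (ic v0) := fun h => hm ⟨hw, h⟩
    exact (hmin v0 hS0).trans (not_le.mp h4).le

end Pool.Agent.D4Q
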