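import Pool.Agent.D4Q.MainF
import Pool.Agent.D4Q.Dens
import Pool.Agent.D4Q.LatC
import Pool.Agent.D4Q.LatD

set_option autoImplicit false

/-!
# P42. The optimal lattice quantizer in dimension four (final assembly)
-/

namespace Pool.Agent.D4Q

open MeasureTheory Matrix

private theorem FF_nn {Q : Matrix (Fin 4) (Fin 4) ℝ} (hQ : Q.PosDef) : 0 ≤ FF Q :=
  integral_nonneg fun x => dsq_nonneg hQ x

private theorem cov_one {L : Submodule ℤ (EuclideanSpace ℝ (Fin 4))} [DiscreteTopology L]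
    [IsZLattice ℝ L] {Q : Matrix (Fin 4) (Fin 4) ℝ} (h : HasForm L Q) (hd : Q.det = 1) :
    ZLattice.covolume L = 1 := by
  have h1 := covolume_sq h
  rw [hd] at h1
  have h2 : 0 ≤ ZLattice.covolume L := ENNReal.toReal_nonneg
  nlinarith

private theorem det_one {L : Submodule ℤ (EuclideanSpace ℝ (Fin 4))} [DiscreteTopology L]
    [IsZLattice ℝ L] {Q : Matrix (Fin 4) (Fin 4) ℝ} (h : HasForm L Q)
    (hd : ZLattice.covolume L = 1) : Q.det = 1 := by
  rw [← covolume_sq h, hd]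
  norm_num

private theorem det_inv_one {Q : Matrix (Fin 4) (Fin 4) ℝ} (hd : Q.det = 1) : Q⁻¹.det = 1 := by
  rw [Matrix.det_nonsing_inv, hd, Ring.inverse_one]

private theorem exists_Q0 : ∃ Q0 : Matrix (Fin 4) (Fin 4) ℝ, IsD4 Q0 ∧ Q0.det = 1 := by
  have hs : (0 : ℝ) < Real.sqrt (1 / 2) := Real.sqrt_pos.2 (by norm_num)
  refine ⟨Real.sqrt (1 / 2) • Gm, ⟨1, Real.sqrt (1 / 2), ?_, hs, ?_⟩, ?_⟩
  · rw [Matrix.det_one]
    exact isUnit_one
  · have h1 : mc (1 : Matrix (Fin 4) (Fin 4) ℤ) = 1 := by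
      unfold mc
      exact Matrix.map_one _ Int.cast_zero Int.cast_one
    unfold tr
    rw [h1, Matrix.transpose_one, Matrix.one_mul, Matrix.mul_one]
  · rw [Matrix.det_smul, FF_Gm.1, Fintype.card_fin]
    have h2 : Real.sqrt (1 / 2) ^ 2 = 1 / 2 := Real.sq_sqrt (by norm_num)
    have h3 : Real.sqrt (1 / 2) ^ 4 = 1 / 4 := by
      rw [show (4 : ℕ) = 2 * 2 from rfl, pow_mul, h2]
      norm_num
    rw [h3]
    norm_num

private theorem le_of_pow4 {a b : ℝ} (hb : 0 ≤ b) (h : a ^ 4 ≤ b ^ 4) : a ≤ b :=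
  le_of_pow_le_pow_left₀ (by norm_num) hb h

/-- **The frozen statement for `d = 4`.** PROOF. Let `Q` be a form of `L` (`exists_form`,
`covolume_sq`: `Q.det = 1`, `hasForm_posDef`), so the integral of `L` is `FF Q` (`vor_integral`).
Let `Q0 = s0 • Gm` with `4 s0^4 = 1`, `s0 > 0`; it is of type `IsD4` with determinant one, and there
is a lattice `L0` of covolume one with this form (`exists_lattice`, `hasForm_lattice`,
`covolume_sq`, the covolume is positive).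

`→`: if `L` is a minimizer then `FF Q ≤ FF Q0`; by `main_form` and `eq_of_isD4`
`28561 ≤ 3240000 FF Q^4 ≤ 3240000 FF Q0^4 = 28561` (`FF ≥ 0`: integral of a nonnegative function), so
equality holds and `IsD4 Q`. Take `M` from `exists_dual`: it has the form `Q⁻¹`, of type `IsD4`
(`isD4_inv`), determinant one, so covolume one. `M` is densest: for `M'` of covolume one with form
`R'`, `R'.det = 1`, take a minimal vector (`exists_min`, `mem_iff`) with value `m > 0`; `dens` gives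
`m^4 ≤ 4`, and by `isD4_min` every nonzero `w ∈ M` has `4 ≤ (‖w‖^2)^4`; so `m ≤ ‖w‖^2`.

`←`: let `M` be densest with form `R`, `R.det = 1`, and `L` its dual, with the form `R⁻¹`
(`hasForm_dual`). Apply the hypothesis to `M' = L0`: there is `v ∈ L0`, `v ≠ 0`, with
`‖v‖ ≤ ‖w‖` for all nonzero `w ∈ M`, and `4 ≤ (‖v‖^2)^4` (`isD4_min`, `mem_iff`). With
`m = √2`, that is `m > 0`, `m^4 = 4`, this gives `m ≤ qf R (ic w)` for all `w ≠ 0`, so by `dens`
(equality) `IsD4 R`, hence `IsD4 R⁻¹`. So `3240000 FF (R⁻¹)^4 = 28561 ≤ 3240000 (FF Q')^4` for the form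
`Q'` of any `L'` of covolume one, and `FF (R⁻¹) ≤ FF Q'`. -/
theorem final :
    ∀ (L : Submodule ℤ (EuclideanSpace ℝ (Fin 4))) [DiscreteTopology L] [IsZLattice ℝ L],
      ZLattice.covolume L = 1 →
      ((∀ (L' : Submodule ℤ (EuclideanSpace ℝ (Fin 4))) [DiscreteTopology L'] [IsZLattice ℝ L'],
          ZLattice.covolume L' = 1 →
          ∫ x in {x : EuclideanSpace ℝ (Fin 4) | ∀ v ∈ L, ‖x‖ ≤ ‖x - v‖}, ‖x‖ ^ 2 ≤
            ∫ x in {x : EuclideanSpace ℝ (Fin 4) | ∀ v ∈ L', ‖x‖ ≤ ‖x - v‖}, ‖x‖ ^ 2) ↔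
        ∃ (M : Submodule ℤ (EuclideanSpace ℝ (Fin 4))) (_ : DiscreteTopology M)
          (_ : IsZLattice ℝ M),
          ZLattice.covolume M = 1 ∧
          (∀ (M' : Submodule ℤ (EuclideanSpace ℝ (Fin 4))) [DiscreteTopology M'] [IsZLattice ℝ M'],
            ZLattice.covolume M' = 1 →
            ∃ v ∈ M', v ≠ 0 ∧ ∀ w ∈ M, w ≠ 0 → ‖v‖ ≤ ‖w‖) ∧
          ∀ y : EuclideanSpace ℝ (Fin 4),
            y ∈ L ↔ ∀ v ∈ M, ∃ n : ℤ, inner ℝ y v = (n : ℝ)) := by
  obtain ⟨Q0, hD0, hd0⟩ := exists_Q0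
  obtain ⟨L0, hL0⟩ := exists_lattice (isD4_posDef hD0)
  obtain ⟨i1, i2⟩ := hasForm_lattice hL0
  have hc0 : ZLattice.covolume L0 = 1 := cov_one hL0 hd0
  have hE0 := eq_of_isD4 hD0
  rw [hd0] at hE0
  intro L _ _ hL
  obtain ⟨Q, hQ⟩ := exists_form L
  have hdQ : Q.det = 1 := det_one hQ hL
  constructor
  · intro hmin
    have h1 := hmin L0 hc0
    rw [vor_integral hQ, vor_integral hL0, hL, hc0, one_mul, one_mul] at h1
    have hP := hasForm_posDef hQ
    obtain ⟨h2, h3⟩ := main_form hP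
    rw [hdQ] at h2 h3
    have h4 : FF Q ^ 4 ≤ FF Q0 ^ 4 := pow_le_pow_left₀ (FF_nn hP) h1 4
    have hD : IsD4 Q := h3 (by linarith)
    have hDi := isD4_inv hD
    have hdi := det_inv_one hdQ
    obtain ⟨M, hM, hdual⟩ := exists_dual hQ
    obtain ⟨j1, j2⟩ := hasForm_lattice hM
    refine ⟨M, j1, j2, cov_one hM hdi, ?_, hdual⟩
    intro M' _ _ hM'
    obtain ⟨R', hR'⟩ := exists_form M'
    have hdR := det_one hR' hM'
    have hPR := hasForm_posDef hR'
    obtain ⟨v, hv0, hv⟩ := exists_min hPR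
    have hvr : ic v ≠ 0 := by
      intro h5
      apply hv0
      funext i
      have h6 : ((v i : ℤ) : ℝ) = 0 := congrFun h5 i
      exact_mod_cast h6
    have hm : 0 < qf R' (ic v) := qf_pos hPR hvr
    have h5 := (dens hPR hm hv).1
    rw [hdR] at h5
    obtain ⟨u, hu, hu0, hun⟩ := (mem_iff hR' (qf R' (ic v))).2 ⟨v, hv0, rfl⟩
    refine ⟨u, hu, hu0, fun w hw hw0 => ?_⟩
    obtain ⟨z, hz0, hz⟩ := (mem_iff hM (‖w‖ ^ 2)).1 ⟨w, hw, hw0, rfl⟩
    have h6 := (isD4_min hDi hz0).1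
    rw [hdi, hz] at h6
    have h7 : ‖u‖ ^ 2 ≤ ‖w‖ ^ 2 := by
      rw [hun]
      exact le_of_pow4 (sq_nonneg _) (by linarith)
    exact le_of_sq_le_sq h7 (norm_nonneg w)
  · rintro ⟨M, j1, j2, hM, hdens, hdual⟩ L' _ _ hL'
    obtain ⟨R, hR⟩ := exists_form M
    have hdR := det_one hR hM
    have hPR := hasForm_posDef hR
    have hLR := hasForm_dual hR hdual
    obtain ⟨v, hv, hv0, hvm⟩ := hdens L0 hc0
    obtain ⟨v', hv'0, hv'⟩ := (mem_iff hL0 (‖v‖ ^ 2)).1 ⟨v, hv, hv0, rfl⟩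
    have h1 := (isD4_min hD0 hv'0).1
    rw [hd0, hv'] at h1
    have hs : (0 : ℝ) < Real.sqrt 2 := Real.sqrt_pos.2 (by norm_num)
    have hs4 : Real.sqrt 2 ^ 4 = 4 := by
      rw [show (4 : ℕ) = 2 * 2 from rfl, pow_mul, Real.sq_sqrt (by norm_num)]
      norm_num
    have h2 : ∀ w : Fin 4 → ℤ, w ≠ 0 → Real.sqrt 2 ≤ qf R (ic w) := by
      intro w hw
      obtain ⟨u, hu, hu0, hun⟩ := (mem_iff hR (qf R (ic w))).2 ⟨w, hw, rfl⟩
      have h3 := hvm u hu hu0
      have h4 : ‖v‖ ^ 2 ≤ qf R (ic w) := by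
        rw [← hun]
        exact pow_le_pow_left₀ (norm_nonneg v) h3 2
      have h5 : (‖v‖ ^ 2) ^ 4 ≤ qf R (ic w) ^ 4 := pow_le_pow_left₀ (sq_nonneg _) h4 4
      exact le_of_pow4 (qf_nonneg hPR _) (by rw [hs4]; linarith)
    have hDR := (dens hPR hs h2).2 (by rw [hs4, hdR]; norm_num)
    have hDi := isD4_inv hDR
    have hE := eq_of_isD4 hDi
    rw [det_inv_one hdR] at hE
    obtain ⟨Q', hQ'⟩ := exists_form L'
    have hP' := hasForm_posDef hQ'
    have h3 := (main_form hP').1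
    rw [det_one hQ' hL'] at h3
    rw [vor_integral hLR, vor_integral hQ', hL, hL', one_mul, one_mul]
    exact le_of_pow4 (FF_nn hP') (by linarith)

end Pool.Agent.D4Q
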