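import Pool.Agent.D4Q.Final

set_option autoImplicit false

/-!
# P43. The value of the minimum and the minimizers
-/

namespace Pool.Agent.D4Q

open MeasureTheory Matrix

/-- the value of the minimum -/
private noncomputable def cmin : ℝ := 13 * Real.sqrt 2 / 60

private theorem cmin_nonneg : 0 ≤ cmin := by
  unfold cmin
  positivity

private theorem cmin_pow : 3240000 * cmin ^ 4 = 28561 := by
  have h : Real.sqrt 2 ^ 2 = 2 := Real.sq_sqrt (by norm_num)
  have h4 : Real.sqrt 2 ^ 4 = 4 := by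
    rw [show Real.sqrt 2 ^ 4 = (Real.sqrt 2 ^ 2) ^ 2 by ring, h]
    norm_num
  unfold cmin
  rw [div_pow, mul_pow, h4]
  norm_num

/-- the second moment of the Voronoi cell -/
private noncomputable def vint (L : Submodule ℤ (EuclideanSpace ℝ (Fin 4))) : ℝ :=
  ∫ x in {x : EuclideanSpace ℝ (Fin 4) | ∀ v ∈ L, ‖x‖ ≤ ‖x - v‖}, ‖x‖ ^ 2

private theorem vint_nonneg (L : Submodule ℤ (EuclideanSpace ℝ (Fin 4))) : 0 ≤ vint L :=
  integral_nonneg fun _ => by positivity

private theorem vint_form (L : Submodule ℤ (EuclideanSpace ℝ (Fin 4))) [DiscreteTopology L]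
    [IsZLattice ℝ L] (hL : ZLattice.covolume L = 1) {Q : Matrix (Fin 4) (Fin 4) ℝ}
    (h : HasForm L Q) : Q.det = 1 ∧ vint L = FF Q := by
  refine ⟨?_, ?_⟩
  · rw [← covolume_sq h, hL, one_pow]
  · have h1 := vor_integral h
    rw [hL, one_mul] at h1
    exact h1

private theorem vint_main (L : Submodule ℤ (EuclideanSpace ℝ (Fin 4))) [DiscreteTopology L]
    [IsZLattice ℝ L] (hL : ZLattice.covolume L = 1) :
    cmin ≤ vint L ∧ (vint L = cmin → ∃ Q, HasForm L Q ∧ Q.det = 1 ∧ IsD4 Q) := by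
  obtain ⟨Q, hQ⟩ := exists_form L
  obtain ⟨h1, h2⟩ := vint_form L hL hQ
  obtain ⟨h3, h4⟩ := main_form (hasForm_posDef hQ)
  rw [h1, ← h2, mul_one] at h3 h4
  refine ⟨?_, fun h => ⟨Q, hQ, h1, h4 ?_⟩⟩
  · rw [← cmin_pow] at h3
    have h5 : cmin ^ 4 ≤ vint L ^ 4 := by linarith
    exact (pow_le_pow_iff_left₀ cmin_nonneg (vint_nonneg L) (by norm_num)).1 h5
  · rw [h, cmin_pow]

private theorem s_eq {s : ℝ} (hs : 0 < s) (h : s ^ 4 * 4 = 1) : s = 1 / Real.sqrt 2 := by
  have h2 : Real.sqrt 2 ^ 2 = 2 := Real.sq_sqrt (by norm_num)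
  have hp : 0 < Real.sqrt 2 := Real.sqrt_pos.2 (by norm_num)
  have h3 : (s ^ 2) ^ 2 = (1 / 2 : ℝ) ^ 2 := by
    nlinarith
  have h4 : s ^ 2 = 1 / 2 :=
    (pow_left_inj₀ (by positivity) (by norm_num) (by norm_num)).1 h3
  have h5 : s ^ 2 = (1 / Real.sqrt 2) ^ 2 := by
    rw [div_pow, h2, h4]
    norm_num
  exact (pow_left_inj₀ hs.le (by positivity) (by norm_num)).1 h5

private theorem s_pos : 0 < 1 / Real.sqrt 2 := by positivity

private theorem s_pow : (1 / Real.sqrt 2) ^ 4 * 4 = 1 := by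
  have h2 : Real.sqrt 2 ^ 2 = 2 := Real.sq_sqrt (by norm_num)
  have h4 : Real.sqrt 2 ^ 4 = 4 := by
    rw [show Real.sqrt 2 ^ 4 = (Real.sqrt 2 ^ 2) ^ 2 by ring, h2]
    norm_num
  rw [div_pow, h4]
  norm_num

private theorem det_s (s : ℝ) : (s • Gm).det = s ^ 4 * 4 := by
  rw [det_smul, FF_Gm.1, Fintype.card_fin]

private theorem FF_s : FF ((1 / Real.sqrt 2) • Gm) = cmin := by
  rw [FF_smul _ s_pos.le, FF_Gm.2]
  have h2 : Real.sqrt 2 * Real.sqrt 2 = 2 := Real.mul_self_sqrt (by norm_num)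
  have hp : 0 < Real.sqrt 2 := Real.sqrt_pos.2 (by norm_num)
  unfold cmin
  field_simp
  nlinarith

private theorem inner_comb {b : Fin 4 → EuclideanSpace ℝ (Fin 4)} {Q : Matrix (Fin 4) (Fin 4) ℝ}
    (h : ∀ i j, Q i j = inner ℝ (b i) (b j)) (x y : Fin 4 → ℝ) :
    inner ℝ (∑ i, x i • b i) (∑ j, y j • b j) = x ⬝ᵥ (Q *ᵥ y) := by
  rw [sum_inner]
  unfold dotProduct mulVec dotProduct
  refine Finset.sum_congr rfl fun i _ => ?_
  rw [inner_sum, Finset.mul_sum]
  refine Finset.sum_congr rfl fun j _ => ?_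
  rw [real_inner_smul_left, real_inner_smul_right]
  show x i * (y j * inner ℝ (b i) (b j)) = x i * (Q i j * y j)
  rw [h i j, mul_comm (y j)]

/-- change of the basis -/
private theorem basis_change {L : Submodule ℤ (EuclideanSpace ℝ (Fin 4))}
    {Q : Matrix (Fin 4) (Fin 4) ℝ} (h : HasForm L Q) {W : Matrix (Fin 4) (Fin 4) ℤ}
    (hW : IsUnit W.det) :
    ∃ b : Fin 4 → EuclideanSpace ℝ (Fin 4), L = Submodule.span ℤ (Set.range b) ∧
      ∀ i j, inner ℝ (b i) (b j) = tr W Q i j := by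
  obtain ⟨b, -, hL, hQ⟩ := h
  refine ⟨fun j => ∑ i, W i j • b i, ?_, ?_⟩
  · rw [hL]
    refine le_antisymm ?_ ?_
    · rw [Submodule.span_le]
      rintro _ ⟨i, rfl⟩
      have h1 : b i = ∑ j, W⁻¹ j i • ∑ k, W k j • b k := by
        have h2 : ∀ k, (∑ j, W k j * W⁻¹ j i) = if k = i then 1 else 0 := by
          intro k
          have h3 := congrFun (congrFun (Matrix.mul_nonsing_inv W hW) k) i
          rw [Matrix.mul_apply, Matrix.one_apply] at h3
          exact h3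
        calc b i = ∑ k, (∑ j, W k j * W⁻¹ j i) • b k := by
              simp only [h2, ite_smul, one_smul, zero_smul, Finset.sum_ite_eq',
                Finset.mem_univ, if_true]
          _ = ∑ k, ∑ j, (W k j * W⁻¹ j i) • b k := by
              refine Finset.sum_congr rfl fun k _ => ?_
              rw [Finset.sum_smul]
          _ = ∑ j, ∑ k, (W k j * W⁻¹ j i) • b k := Finset.sum_comm
          _ = ∑ j, W⁻¹ j i • ∑ k, W k j • b k := by
              refine Finset.sum_congr rfl fun j _ => ?_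
              rw [Finset.smul_sum]
              refine Finset.sum_congr rfl fun k _ => ?_
              rw [smul_smul, mul_comm]
      rw [SetLike.mem_coe, h1]
      exact Submodule.sum_mem _ fun j _ =>
        Submodule.smul_mem _ _ (Submodule.subset_span ⟨j, rfl⟩)
    · rw [Submodule.span_le]
      rintro _ ⟨j, rfl⟩
      exact Submodule.sum_mem _ fun i _ =>
        Submodule.smul_mem _ _ (Submodule.subset_span ⟨i, rfl⟩)
  · intro i j
    have h1 : ∀ j, (∑ i, W i j • b i) = ∑ i, (W i j : ℝ) • b i := fun j =>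
      Finset.sum_congr rfl fun i _ => (Int.cast_smul_eq_zsmul ℝ (W i j) (b i)).symm
    simp only
    rw [h1 i, h1 j, inner_comb hQ]
    unfold tr
    rw [Matrix.mul_assoc, Matrix.mul_apply]
    rfl

private theorem li_of_gram {b : Fin 4 → EuclideanSpace ℝ (Fin 4)} {Q : Matrix (Fin 4) (Fin 4) ℝ}
    (hQ : Q.PosDef) (h : ∀ i j, Q i j = inner ℝ (b i) (b j)) : LinearIndependent ℝ b := by
  rw [Fintype.linearIndependent_iff]
  intro g hg
  by_contra hne
  push Not at hne
  obtain ⟨i, hi⟩ := hne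
  have h1 : g ≠ 0 := fun h0 => hi (by rw [h0]; rfl)
  have h2 := hQ.dotProduct_mulVec_pos h1
  have h3 := norm_sq_comb h g
  rw [hg, norm_zero] at h3
  rw [star_trivial] at h2
  unfold qf at h3
  rw [← h3] at h2
  norm_num at h2

private theorem exists_L0 : ∃ (L : Submodule ℤ (EuclideanSpace ℝ (Fin 4)))
    (_ : DiscreteTopology L) (_ : IsZLattice ℝ L), ZLattice.covolume L = 1 ∧ vint L = cmin := by
  have hP : ((1 / Real.sqrt 2) • Gm).PosDef := Gm_posDef.smul s_pos
  obtain ⟨L, hL⟩ := exists_lattice hP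
  obtain ⟨h1, h2⟩ := hasForm_lattice hL
  have h3 := covolume_sq hL
  rw [det_s, s_pow] at h3
  have h4 : ZLattice.covolume L = 1 := by
    have h5 : 0 < ZLattice.covolume L := ZLattice.covolume_pos L volume
    nlinarith
  refine ⟨L, h1, h2, h4, ?_⟩
  rw [(vint_form L h4 hL).2, FF_s]

/-- **The minimum and the minimizers.** PROOF. Let `Q` be a form of `L`, `Q.det = 1`, and let `I` be
the integral, `I = FF Q ≥ 0` (`exists_form`, `covolume_sq`, `vor_integral`). `main_form` gives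
`28561 ≤ 3240000 I^4`; since `(13 √2 / 60)^4 = 28561 * 4 / 12960000 = 28561 / 3240000` this is the
first claim, and `I = 13 √2 / 60` is equivalent to `28561 = 3240000 I^4`. If this holds, then
`IsD4 Q`
(`main_form`): `tr W Q = s • Gm` with `1 = Q.det = 4 s^4`, so `s = 1 / √2`; the basis
`b' j = ∑ i, W i j • b i` spans the same lattice (the inverse of `W` is integral) and has the Gram
matrix `tr W Q`. Conversely, if there is such a basis then `HasForm L ((1 / √2) • Gm)` (linear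
independence: the Gram matrix is positive definite) and `vor_integral`, `FF_smul`, `FF_Gm` give
`I = (1 / √2) * (13 / 30)`. A minimizer has `I ≤ 13 √2 / 60`, by comparison with the lattice of the
form `(1 / √2) • Gm` (`exists_lattice`, `hasForm_lattice`, `covolume_sq`), so `I = 13 √2 / 60`; and
conversely by the first claim for all `L'`. -/
theorem final2 (L : Submodule ℤ (EuclideanSpace ℝ (Fin 4))) [DiscreteTopology L]
    [IsZLattice ℝ L] (hL : ZLattice.covolume L = 1) :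
    13 * Real.sqrt 2 / 60 ≤
        ∫ x in {x : EuclideanSpace ℝ (Fin 4) | ∀ v ∈ L, ‖x‖ ≤ ‖x - v‖}, ‖x‖ ^ 2 ∧
      ((∀ (L' : Submodule ℤ (EuclideanSpace ℝ (Fin 4))) [DiscreteTopology L'] [IsZLattice ℝ L'],
          ZLattice.covolume L' = 1 →
          ∫ x in {x : EuclideanSpace ℝ (Fin 4) | ∀ v ∈ L, ‖x‖ ≤ ‖x - v‖}, ‖x‖ ^ 2 ≤
            ∫ x in {x : EuclideanSpace ℝ (Fin 4) | ∀ v ∈ L', ‖x‖ ≤ ‖x - v‖}, ‖x‖ ^ 2) ↔
        ∫ x in {x : EuclideanSpace ℝ (Fin 4) | ∀ v ∈ L, ‖x‖ ≤ ‖x - v‖}, ‖x‖ ^ 2 =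
          13 * Real.sqrt 2 / 60) ∧
      (∫ x in {x : EuclideanSpace ℝ (Fin 4) | ∀ v ∈ L, ‖x‖ ≤ ‖x - v‖}, ‖x‖ ^ 2 =
          13 * Real.sqrt 2 / 60 ↔
        ∃ b : Fin 4 → EuclideanSpace ℝ (Fin 4), L = Submodule.span ℤ (Set.range b) ∧
          ∀ i j, inner ℝ (b i) (b j) =
            (!![2, 0, 1, 0; 0, 2, -1, 0; 1, -1, 2, -1; 0, 0, -1, 2] :
              Matrix (Fin 4) (Fin 4) ℝ) i j / Real.sqrt 2) := by
  have hmain := vint_main L hL
  refine ⟨hmain.1, ⟨fun h => ?_, fun h L' _ _ hL' => ?_⟩, fun h => ?_, ?_⟩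
  · obtain ⟨L0, i1, i2, h1, h2⟩ := exists_L0
    have h3 : vint L ≤ vint L0 := h L0 h1
    rw [h2] at h3
    exact le_antisymm h3 hmain.1
  · have h1 := (vint_main L' hL').1
    have h2 : vint L = cmin := h
    show vint L ≤ vint L'
    rw [h2]
    exact h1
  · obtain ⟨Q, hQ, h1, W, s, hW, hs, hWQ⟩ := hmain.2 h
    have h2 : (tr W Q).det = Q.det := det_tr W hW
    rw [hWQ, det_s, h1] at h2
    have h3 := s_eq hs h2
    obtain ⟨b, h4, h5⟩ := basis_change hQ hW
    refine ⟨b, h4, fun i j => ?_⟩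
    rw [h5, hWQ, h3, Matrix.smul_apply, smul_eq_mul]
    show 1 / Real.sqrt 2 * Gm i j = Gm i j / Real.sqrt 2
    ring
  · rintro ⟨b, h1, h2⟩
    have hP : ((1 / Real.sqrt 2) • Gm).PosDef := Gm_posDef.smul s_pos
    have h3 : ∀ i j, ((1 / Real.sqrt 2) • Gm) i j = inner ℝ (b i) (b j) := by
      intro i j
      rw [h2, Matrix.smul_apply, smul_eq_mul]
      show 1 / Real.sqrt 2 * Gm i j = Gm i j / Real.sqrt 2
      ring
    have h4 : HasForm L ((1 / Real.sqrt 2) • Gm) := ⟨b, li_of_gram hP h3, h1, h3⟩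
    show vint L = cmin
    rw [(vint_form L hL h4).2, FF_s]

end Pool.Agent.D4Q
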