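import Mathlib

set_option autoImplicit false

/-!
# P22. Averages over a group of permutations of the variables
-/

namespace Pool.Agent.D4Q

variable {n : ℕ}

/-- Permutation of the first `n` variables. -/
def xs (σ : Equiv.Perm (Fin n)) (x : ℕ → ℝ) : ℕ → ℝ :=
  fun i => if h : i < n then x (σ ⟨i, h⟩) else x i

theorem xs_one (x : ℕ → ℝ) : xs (1 : Equiv.Perm (Fin n)) x = x := by
  funext i
  unfold xs
  by_cases h : i < n
  · rw [dif_pos h]
    rfl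
  · rw [dif_neg h]

theorem xs_xs (σ τ : Equiv.Perm (Fin n)) (x : ℕ → ℝ) : xs σ (xs τ x) = xs (τ * σ) x := by
  funext i
  unfold xs
  by_cases h : i < n
  · rw [dif_pos h, dif_pos h, dif_pos (σ ⟨i, h⟩).2]
    rfl
  · rw [dif_neg h, dif_neg h, dif_neg h]

theorem xs_nonneg (σ : Equiv.Perm (Fin n)) {x : ℕ → ℝ} (hx : ∀ i, 0 ≤ x i) (i : ℕ) :
    0 ≤ xs σ x i := by
  unfold xs
  split_ifs
  · exact hx _
  · exact hx _

/-- The average over the subgroup `G`. -/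
noncomputable def Av (G : Subgroup (Equiv.Perm (Fin n))) (f : (ℕ → ℝ) → ℝ) (x : ℕ → ℝ) : ℝ :=
  (Nat.card G : ℝ)⁻¹ * ∑ᶠ σ : G, f (xs (σ : Equiv.Perm (Fin n)) x)

variable (G : Subgroup (Equiv.Perm (Fin n)))

private theorem Av_eq [Fintype G] (f : (ℕ → ℝ) → ℝ) (x : ℕ → ℝ) :
    Av G f x = (Nat.card G : ℝ)⁻¹ * ∑ σ : G, f (xs (σ : Equiv.Perm (Fin n)) x) := by
  unfold Av
  rw [finsum_eq_sum_of_fintype]

theorem Av_add (f g : (ℕ → ℝ) → ℝ) (x : ℕ → ℝ) :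
    Av G (fun y => f y + g y) x = Av G f x + Av G g x := by
  have := Fintype.ofFinite G
  rw [Av_eq, Av_eq, Av_eq, Finset.sum_add_distrib, mul_add]

theorem Av_smul (c : ℝ) (f : (ℕ → ℝ) → ℝ) (x : ℕ → ℝ) :
    Av G (fun y => c * f y) x = c * Av G f x := by
  have := Fintype.ofFinite G
  rw [Av_eq, Av_eq, ← Finset.mul_sum]
  ring

/-- Invariant factors come out. -/
theorem Av_mul_inv {u : (ℕ → ℝ) → ℝ} (hu : ∀ σ ∈ G, ∀ y, u (xs σ y) = u y) (f : (ℕ → ℝ) → ℝ)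
    (x : ℕ → ℝ) : Av G (fun y => u y * f y) x = u x * Av G f x := by
  have := Fintype.ofFinite G
  rw [Av_eq, Av_eq]
  have h1 : ∑ σ : G, u (xs (σ : Equiv.Perm (Fin n)) x) * f (xs (σ : Equiv.Perm (Fin n)) x) =
      u x * ∑ σ : G, f (xs (σ : Equiv.Perm (Fin n)) x) := by
    rw [Finset.mul_sum]
    exact Finset.sum_congr rfl fun σ _ => by rw [hu _ σ.2]
  rw [h1]
  ring

theorem Av_inv {u : (ℕ → ℝ) → ℝ} (hu : ∀ σ ∈ G, ∀ y, u (xs σ y) = u y) (x : ℕ → ℝ) :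
    Av G u x = u x := by
  have := Fintype.ofFinite G
  rw [Av_eq]
  have h1 : ∑ σ : G, u (xs (σ : Equiv.Perm (Fin n)) x) = (Nat.card G : ℝ) * u x := by
    rw [Finset.sum_congr rfl fun σ _ => hu _ σ.2 x, Finset.sum_const, nsmul_eq_mul,
      Finset.card_univ, Nat.card_eq_fintype_card]
  have h2 : (Nat.card G : ℝ) ≠ 0 := Nat.cast_ne_zero.2 Nat.card_pos.ne'
  rw [h1, ← mul_assoc, inv_mul_cancel₀ h2, one_mul]

/-- Substitution (`xs_xs`, right multiplication by an element of the group is a bijection). -/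
theorem Av_comp {σ : Equiv.Perm (Fin n)} (hσ : σ ∈ G) (f : (ℕ → ℝ) → ℝ) (x : ℕ → ℝ) :
    Av G (fun y => f (xs σ y)) x = Av G f x := by
  have := Fintype.ofFinite G
  rw [Av_eq, Av_eq]
  congr 1
  have h1 := Equiv.sum_comp (Equiv.mulRight (⟨σ, hσ⟩ : G))
    fun τ : G => f (xs (τ : Equiv.Perm (Fin n)) x)
  rw [← h1]
  refine Finset.sum_congr rfl fun τ _ => ?_
  rw [xs_xs]
  rfl

theorem Av_mono {f g : (ℕ → ℝ) → ℝ} (h : ∀ y : ℕ → ℝ, (∀ i, 0 ≤ y i) → f y ≤ g y) {x : ℕ → ℝ}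
    (hx : ∀ i, 0 ≤ x i) : Av G f x ≤ Av G g x := by
  have := Fintype.ofFinite G
  rw [Av_eq, Av_eq]
  refine mul_le_mul_of_nonneg_left ?_ (inv_nonneg.2 (Nat.cast_nonneg _))
  exact Finset.sum_le_sum fun σ _ => h _ (xs_nonneg _ hx)

/-- The functions invariant under a set of permutations are invariant under the subgroup. -/
theorem inv_closure {S : Set (Equiv.Perm (Fin n))} {u : (ℕ → ℝ) → ℝ}
    (hu : ∀ σ ∈ S, ∀ y, u (xs σ y) = u y) :
    ∀ σ ∈ Subgroup.closure S, ∀ y, u (xs σ y) = u y := by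
  intro σ hσ
  induction hσ using Subgroup.closure_induction with
  | mem τ hτ => exact hu τ hτ
  | one =>
    intro y
    rw [xs_one]
  | mul τ ρ _ _ h1 h2 =>
    intro y
    rw [← xs_xs, h2, h1]
  | inv τ _ h1 =>
    intro y
    have h2 := h1 (xs τ⁻¹ y)
    rw [xs_xs, inv_mul_cancel, xs_one] at h2
    exact h2.symm

end Pool.Agent.D4Q
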