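import Pool.Agent.D4Q.Mon
import Pool.Agent.D4Q.Sym

set_option autoImplicit false

/-!
# P22. Permutations as lists

A permutation `σ` is represented by the list `h` of the numbers `σ⁻¹ 0, σ⁻¹ 1, ...`.
-/

namespace Pool.Agent.D4Q

/-- The entry number `i` of a list, with a default value. -/
def getL {α : Type} (z : α) (l : List α) : ℕ → α :=
  List.rec (motive := fun _ => ℕ → α) (fun _ => z)
    (fun a _ ih i => Nat.rec (motive := fun _ => α) a (fun j _ => ih j) i) l

theorem getL_eq {α : Type} (z : α) (l : List α) (i : ℕ) : getL z l i = l.getD i z := by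
  induction l generalizing i with
  | nil => rfl
  | cons a l ih =>
    cases i with
    | zero => rfl
    | succ i => exact ih i

/-- The action on exponent lists, and the composition of permutations: the entry number `j` of
`act h es` is the entry number `h j` of `es`. -/
def act (h es : List ℕ) : List ℕ := mapL (fun i => getL 0 es i) h

/-- `h` represents `σ`. -/
def Rep {n : ℕ} (h : List ℕ) (σ : Equiv.Perm (Fin n)) : Prop :=
  h = (List.finRange n).map fun j => ((σ⁻¹ j : Fin n) : ℕ)

/-- The group generated by the permutations represented by the members of the list. -/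
def Gp (n : ℕ) (gens : List (List ℕ)) : Subgroup (Equiv.Perm (Fin n)) :=
  Subgroup.closure {σ | ∃ h ∈ gens, Rep h σ}

/-- Equality of lists of numbers. -/
def beqN (l : List ℕ) : List ℕ → Bool :=
  List.rec (motive := fun _ => List ℕ → Bool)
    (fun m => List.rec (motive := fun _ => Bool) true (fun _ _ _ => false) m)
    (fun a _ ih m => List.rec (motive := fun _ => Bool) false (fun b m' _ => Nat.beq a b && ih m') m)
    l

theorem beqN_iff (l m : List ℕ) : beqN l m = true ↔ l = m := by
  induction l generalizing m with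
  | nil =>
    cases m with
    | nil => exact ⟨fun _ => rfl, fun _ => rfl⟩
    | cons b m => exact ⟨fun h => absurd h Bool.false_ne_true, fun h => absurd h (by simp)⟩
  | cons a l ih =>
    cases m with
    | nil => exact ⟨fun h => absurd h Bool.false_ne_true, fun h => absurd h (by simp)⟩
    | cons b m =>
      have h1 : beqN (a :: l) (b :: m) = (Nat.beq a b && beqN l m) := rfl
      rw [h1, Bool.and_eq_true, ih, List.cons.injEq]
      exact and_congr_left fun _ => ⟨Nat.eq_of_beq_eq_true, fun h => h ▸ Nat.beq_refl a⟩

private theorem mapL_eq {α β : Type} (f : α → β) (l : List α) : mapL f l = l.map f := by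
  induction l with
  | nil => rfl
  | cons a l ih => rw [mapL_cons, ih, List.map_cons]

private theorem allL_iff {α : Type} (z : α → Bool) (l : List α) :
    allL z l = true ↔ ∀ a ∈ l, z a = true := by
  induction l with
  | nil => simp [allL_nil]
  | cons a l ih => rw [allL_cons, Bool.and_eq_true, ih, List.forall_mem_cons]

/-- Some element of the list satisfies the test. -/
def anyL {α : Type} (z : α → Bool) (l : List α) : Bool := List.rec false (fun a _ r => z a || r) l

private theorem anyL_iff {α : Type} (z : α → Bool) (l : List α) :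
    anyL z l = true ↔ ∃ a ∈ l, z a = true := by
  induction l with
  | nil =>
    constructor
    · intro h
      exact absurd h Bool.false_ne_true
    · rintro ⟨a, ha, -⟩
      exact absurd ha List.not_mem_nil
  | cons a l ih =>
    have h1 : anyL z (a :: l) = (z a || anyL z l) := rfl
    rw [h1, Bool.or_eq_true, ih]
    constructor
    · rintro (h | ⟨b, hb, h⟩)
      · exact ⟨a, List.mem_cons_self, h⟩
      · exact ⟨b, List.mem_cons_of_mem a hb, h⟩
    · rintro ⟨b, hb, h⟩
      rcases List.mem_cons.1 hb with rfl | hb
      · exact Or.inl h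
      · exact Or.inr ⟨b, hb, h⟩

private theorem Rep.length {n : ℕ} {h : List ℕ} {σ : Equiv.Perm (Fin n)} (hr : Rep h σ) :
    h.length = n := by
  rw [hr, List.length_map, List.length_finRange]

private theorem Rep.getD {n : ℕ} {h : List ℕ} {σ : Equiv.Perm (Fin n)} (hr : Rep h σ)
    (j : Fin n) : h.getD j 0 = ((σ⁻¹ j : Fin n) : ℕ) := by
  have h1 : (j : ℕ) < h.length := by
    rw [hr.length]
    exact j.2
  rw [List.getD_eq_getElem _ _ h1]
  have h2 : h = (List.finRange n).map fun j => ((σ⁻¹ j : Fin n) : ℕ) := hr
  simp only [h2, List.getElem_map, List.getElem_finRange]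
  rfl

private theorem rep_intro {n : ℕ} {h : List ℕ} {σ : Equiv.Perm (Fin n)} (hl : h.length = n)
    (hh : ∀ j : Fin n, h.getD j 0 = ((σ⁻¹ j : Fin n) : ℕ)) : Rep h σ := by
  unfold Rep
  refine List.ext_getElem ?_ fun j h1 h2 => ?_
  · rw [List.length_map, List.length_finRange, hl]
  · have hj : j < n := by rwa [hl] at h1
    have h3 := hh ⟨j, hj⟩
    rw [List.getD_eq_getElem _ _ h1] at h3
    rw [h3, List.getElem_map, List.getElem_finRange]
    rfl

private theorem act_length (h es : List ℕ) : (act h es).length = h.length := by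
  unfold act
  rw [mapL_eq, List.length_map]

private theorem act_getD {n : ℕ} {h : List ℕ} {σ : Equiv.Perm (Fin n)} (hr : Rep h σ)
    (es : List ℕ) (j : Fin n) : (act h es).getD j 0 = es.getD ((σ⁻¹ j : Fin n) : ℕ) 0 := by
  have h1 : (j : ℕ) < h.length := by
    rw [hr.length]
    exact j.2
  have h2 : (j : ℕ) < (act h es).length := by
    rw [act_length]
    exact h1
  have h3 := hr.getD j
  rw [List.getD_eq_getElem _ _ h1] at h3
  rw [List.getD_eq_getElem _ _ h2]
  unfold act
  simp only [mapL_eq, List.getElem_map, getL_eq, h3]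

/-- Every member of the list is the identity or the composition of a generator and a later
member. -/
def chkG (n : ℕ) (gens : List (List ℕ)) (H : List (List ℕ)) : Bool :=
  List.rec (motive := fun _ => Bool) true
    (fun h H' r => r && (beqN h (List.range n) ||
      anyL (fun g => anyL (fun h' => beqN h (act h' g) || beqN h (act g h')) H') gens)) H

/-- A permutation of `0, ..., n - 1` as a list represents a permutation. -/
theorem exists_rep {n : ℕ} {h : List ℕ} (hp : h.Perm (List.range n)) :
    ∃ σ : Equiv.Perm (Fin n), Rep h σ := by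
  have hl : h.length = n := by rw [hp.length_eq, List.length_range]
  have hlt : ∀ j : Fin n, h[(j : ℕ)]'(by rw [hl]; exact j.2) < n := fun j =>
    List.mem_range.1 (hp.mem_iff.1 (List.getElem_mem _))
  have hnd : h.Nodup := hp.nodup_iff.2 List.nodup_range
  let f : Fin n → Fin n := fun j => ⟨h[(j : ℕ)]'(by rw [hl]; exact j.2), hlt j⟩
  have hf : Function.Injective f := by
    intro i j hij
    have h1 := congrArg Fin.val hij
    exact Fin.ext ((hnd.getElem_inj_iff).1 h1)
  have hb : Function.Bijective f := Finite.injective_iff_bijective.1 hf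
  refine ⟨(Equiv.ofBijective f hb)⁻¹, rep_intro hl fun j => ?_⟩
  rw [inv_inv, List.getD_eq_getElem _ _ (by rw [hl]; exact j.2)]
  rfl

/-- `act g h` (the entry number `j` is `h (g j)`) represents the product. -/
theorem rep_act {n : ℕ} {g h : List ℕ} {σ τ : Equiv.Perm (Fin n)} (hg : Rep g σ) (hh : Rep h τ) :
    Rep (act g h) (σ * τ) := by
  refine rep_intro (by rw [act_length, hg.length]) fun j => ?_
  rw [act_getD hg, hh.getD, mul_inv_rev]
  rfl

/-- PROOF. `evM_eq_prod`: the left side is the product over `j` of `x j ^ es (σ⁻¹ j)`, the right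
side the product over `i` of `x (σ i) ^ es i`. -/
theorem evM_act {n : ℕ} {h : List ℕ} {σ : Equiv.Perm (Fin n)} (hr : Rep h σ) {es : List ℕ}
    (hl : es.length = n) (x : ℕ → ℝ) : evM x (act h es) = evM (xs σ x) es := by
  rw [evM_eq_prod, evM_eq_prod, act_length, hr.length, hl, Finset.prod_range, Finset.prod_range]
  rw [← Equiv.prod_comp σ]
  refine Finset.prod_congr rfl fun i _ => ?_
  have h1 : σ⁻¹ (σ i) = i := σ.symm_apply_apply i
  rw [act_getD hr, h1]
  congr 1
  unfold xs
  rw [dif_pos i.2]

private theorem rep_range (n : ℕ) : Rep (List.range n) (1 : Equiv.Perm (Fin n)) := by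
  refine rep_intro List.length_range fun j => ?_
  rw [List.getD_eq_getElem _ _ (by rw [List.length_range]; exact j.2), List.getElem_range,
    inv_one]
  rfl

/-- Induction on `H` (`rep_act`, `exists_rep` for the generators). -/
theorem chkG_rep {n : ℕ} {gens H : List (List ℕ)} (hg : ∀ g ∈ gens, g.Perm (List.range n))
    (h : chkG n gens H = true) : ∀ u ∈ H, ∃ σ ∈ Gp n gens, Rep u σ := by
  induction H with
  | nil => exact fun u hu => absurd hu List.not_mem_nil
  | cons a H ih =>
    have h1 : chkG n gens (a :: H) = (chkG n gens H && (beqN a (List.range n) ||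
      anyL (fun g => anyL (fun h' => beqN a (act h' g) || beqN a (act g h')) H) gens)) := rfl
    rw [h1, Bool.and_eq_true, Bool.or_eq_true, beqN_iff, anyL_iff] at h
    obtain ⟨h2, h3⟩ := h
    intro u hu
    rcases List.mem_cons.1 hu with rfl | hu
    · rcases h3 with rfl | ⟨g, hg1, h3⟩
      · exact ⟨1, one_mem _, rep_range n⟩
      · obtain ⟨σ, hσ⟩ := exists_rep (hg g hg1)
        have hσG : σ ∈ Gp n gens := Subgroup.subset_closure ⟨g, hg1, hσ⟩
        rw [anyL_iff] at h3
        obtain ⟨h', hh', h4⟩ := h3
        obtain ⟨τ, hτG, hτ⟩ := ih h2 h' hh'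
        rw [Bool.or_eq_true, beqN_iff, beqN_iff] at h4
        rcases h4 with rfl | rfl
        · exact ⟨τ * σ, mul_mem hτG hσG, rep_act hτ hσ⟩
        · exact ⟨σ * τ, mul_mem hσG hτG, rep_act hσ hτ⟩
    · exact ih h2 u hu

/-- Equality of polynomials (up to zero coefficients). -/
def eqP (n : ℕ) (p q : MP n) : Bool := leP n p q && leP n q p

theorem ev_eqP {n : ℕ} {p q : MP n} (h : eqP n p q = true) (x : ℕ → ℝ) : ev n x p = ev n x q := by
  unfold eqP at h
  rw [Bool.and_eq_true] at h
  exact ev_eq_of_leP h.1 h.2 x

/-- Invariance of a polynomial under the generators, checked by computation. -/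
def invP (n : ℕ) (gens : List (List ℕ)) (p : MP n) : Bool :=
  allL (fun g => eqP n (toMP n (mapL (fun q => (q.1, act g q.2)) (mons n p))) p) gens

theorem ev_inv {n : ℕ} {gens : List (List ℕ)} {p : MP n} (h : invP n gens p = true) :
    ∀ σ ∈ Gp n gens, ∀ y, ev n (xs σ y) p = ev n y p := by
  unfold invP at h
  rw [allL_iff] at h
  refine inv_closure (u := fun y => ev n y p) ?_
  rintro σ ⟨g, hg, hr⟩ y
  have h1 := ev_eqP (h g hg) y
  have h2 := len_mons n p
  have h3 : Len n (mapL (fun q : Mo => (q.1, act g q.2)) (mons n p)) := by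
    intro q hq
    rw [mapL_eq] at hq
    obtain ⟨q', -, rfl⟩ := List.mem_map.1 hq
    show (act g q'.2).length = n
    rw [act_length, hr.length]
  rw [ev_toMP h3] at h1
  show ev n (xs σ y) p = ev n y p
  rw [← h1, ← evS_mons n (xs σ y) p, mapL_eq]
  unfold evS
  rw [List.map_map]
  congr 1
  refine List.map_congr_left fun q hq => ?_
  show (q.1 : ℝ) * evM (xs σ y) q.2 = (q.1 : ℝ) * evM y (act g q.2)
  rw [evM_act hr (h2 q hq)]

/-- Invariance of a linear form. -/
def invW (gens : List (List ℕ)) (w : List ℕ) : Bool := allL (fun g => beqN (act g w) w) gens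

theorem lin_inv {n : ℕ} {gens : List (List ℕ)} {w : List ℕ} (hw : w.length = n)
    (h : invW gens w = true) :
    ∀ σ ∈ Gp n gens, ∀ y, linV w (xs σ y) = linV w y := by
  unfold invW at h
  rw [allL_iff] at h
  refine inv_closure (u := fun y => linV w y) ?_
  rintro σ ⟨g, hg, hr⟩ y
  have h1 := (beqN_iff _ _).1 (h g hg)
  show linV w (xs σ y) = linV w y
  unfold linV
  rw [hw, Finset.sum_range, Finset.sum_range, ← Equiv.sum_comp σ (fun i => (w.getD i 0 : ℝ) * y i)]
  refine Finset.sum_congr rfl fun i _ => ?_
  have h2 := act_getD hr w (σ i)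
  have h3 : σ⁻¹ (σ i) = i := σ.symm_apply_apply i
  rw [h1, h3] at h2
  rw [h2]
  congr 1
  unfold xs
  rw [dif_pos i.2]

end Pool.Agent.D4Q
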