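import Pool.Agent.D4Q.Key
import Pool.Agent.D4Q.Perm

set_option autoImplicit false

/-!
# P24. Vector keys and hints

`Gk` is a list of lists of ten powers of `16`: the list `gk` with the number `m` is the permutation
number `m`, in the sense that `act h gk = pw` for the corresponding list `h`. `keyL es gk` is the key
of the permuted exponent list `act h es`. The list `W` contains ten large numbers: `W i` is
`∑ m, (Gk m i) * 2 ^ (40 m)`; so `keyL es W` is a vector which contains the keys of all permuted
exponent lists as digits in base `2 ^ 40`.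
-/

namespace Pool.Agent.D4Q

/-- The powers of sixteen. -/
def pw : List ℕ :=
  [68719476736, 4294967296, 268435456, 16777216, 1048576, 65536, 4096, 256, 16, 1]

/-- Packing. -/
def packW (Gk : List (List ℕ)) : List ℕ :=
  fold (fun g r => addL Nat.add g (mapL (fun w => Nat.mul 1099511627776 w) r)) [] Gk

/-- The lists `H` and `Gk` correspond. -/
def okG (H : List (List ℕ)) : List (List ℕ) → Bool :=
  List.rec (motive := fun _ => List (List ℕ) → Bool)
    (fun m => List.rec (motive := fun _ => Bool) true (fun _ _ _ => false) m)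
    (fun h _ ih m => List.rec (motive := fun _ => Bool) false
      (fun g m' _ => beqN (act h g) pw && ih m') m) H

/-- The vector keys of a list of monomials. -/
def vkL (W : List ℕ) (l : List Mo) : KL := mapL (fun q => (keyL q.2 W, q.1)) l

/-- The contributions of one source to the product with a linear form, in front of `r`. -/
def linW (q : ℕ × ℕ) (r : KL) (W : List ℕ) : List ℕ → KL :=
  List.rec (motive := fun _ => List ℕ → KL) (fun _ => r)
    (fun a _ ih w => List.rec (motive := fun _ => KL) r
      (fun c w' _ => bif Nat.beq c 0 then ih w' else (Nat.add q.1 a, Nat.mul c q.2) :: ih w') w) W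

/-- Product with a linear form. -/
def mulLinV (W w : List ℕ) (v : KL) : KL := fold (fun q r => linW q r W w) [] v

/-- Product of two lists with vector keys. -/
def mulV2 (v v' : KL) : KL :=
  fold (fun q r => fold (fun p s => (Nat.add q.1 p.1, Nat.mul q.2 p.2) :: s) r v') [] v

/-- The square of the sum of variables, with vector keys. -/
def sqV (W : List ℕ) (c X : ℕ) (l : List ℕ) (r : KL) : KL :=
  List.rec (motive := fun _ => KL) r
    (fun i l ih => (Nat.add (Nat.add X (getL 0 W i)) (getL 0 W i), c) ::
      fold (fun j s => (Nat.add (Nat.add X (getL 0 W j)) (getL 0 W i), Nat.mul 2 c) :: s) ih l) l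

/-- The product of two sums of variables, with vector keys. -/
def crV (W : List ℕ) (c X : ℕ) (l l' : List ℕ) (r : KL) : KL :=
  fold (fun i s => fold (fun j s' =>
    (Nat.add (Nat.add X (getL 0 W j)) (getL 0 W i), Nat.mul 2 c) :: s') s l') r l

/-- The positive part of the squares. -/
def posV (W : List ℕ) (qs : List Sq) : KL :=
  fold (fun q r => sqV W q.1 (keyL q.2.1 W) q.2.2.1 (sqV W q.1 (keyL q.2.1 W) q.2.2.2 r)) [] qs

/-- The negative part of the squares. -/
def negV (W : List ℕ) (qs : List Sq) : KL :=
  fold (fun q r => crV W q.1 (keyL q.2.1 W) q.2.2.1 q.2.2.2 r) [] qs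

/-- The keys chosen by the hints. -/
def hintV (v : KL) : List ℕ → KL :=
  List.rec (motive := fun _ => List ℕ → KL) (fun _ => [])
    (fun q _ ih hs => List.rec (motive := fun _ => KL) []
      (fun h hs' _ =>
        (Nat.mod (Nat.shiftRight q.1 (Nat.mul 40 h)) 1099511627776, q.2) :: ih hs') hs) v

/-- One hint, below `m`, for every member. -/
def okHs (m : ℕ) (v : KL) : List ℕ → Bool :=
  List.rec (motive := fun _ => List ℕ → Bool)
    (fun m => List.rec (motive := fun _ => Bool) true (fun _ _ _ => false) m)
    (fun _ _ ih hs => List.rec (motive := fun _ => Bool) false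
      (fun h hs' _ => Nat.ble (Nat.succ h) m && ih hs') hs) v

/-- All exponents are at most `b`. -/
def bdd (b : ℕ) (l : List Mo) : Bool := allL (fun q => allL (fun e => Nat.ble e b) q.2) l

/-! ### Auxiliary lemmas -/

private theorem getL_zero (a : ℕ) (l : List ℕ) : getL 0 (a :: l) 0 = a := rfl

private theorem getL_succ (a : ℕ) (l : List ℕ) (i : ℕ) : getL 0 (a :: l) (i + 1) = getL 0 l i := rfl

private theorem keyL_rnil (es : List ℕ) : keyL es [] = 0 := by
  cases es <;> rfl

private theorem keyL_incr (i : ℕ) : ∀ es W : List ℕ, i < es.length →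
    keyL (incr i es) W = keyL es W + getL 0 W i := by
  induction i with
  | zero =>
    intro es W h
    cases es with
    | nil => exact absurd h (Nat.not_lt_zero _)
    | cons e es =>
      rw [incr_zero_cons]
      cases W with
      | nil => rfl
      | cons a W =>
        rw [keyL_cons_cons, keyL_cons_cons, getL_zero]
        ring
  | succ i ih =>
    intro es W h
    cases es with
    | nil => exact absurd h (Nat.not_lt_zero _)
    | cons e es =>
      rw [incr_succ_cons]
      cases W with
      | nil => rfl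
      | cons a W =>
        rw [keyL_cons_cons, keyL_cons_cons, getL_succ, ih es W (Nat.lt_of_succ_lt_succ h)]
        ring

private theorem keyL_addE (es : List ℕ) : ∀ fs W : List ℕ, es.length = fs.length →
    keyL (addE es fs) W = keyL es W + keyL fs W := by
  induction es with
  | nil =>
    intro fs W h
    cases fs with
    | nil => rfl
    | cons f fs => exact absurd h.symm (Nat.succ_ne_zero _)
  | cons e es ih =>
    intro fs W h
    cases fs with
    | nil => exact absurd h (Nat.succ_ne_zero _)
    | cons f fs =>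
      have h1 : addE (e :: es) (f :: fs) = (e + f) :: addE es fs := rfl
      rw [h1]
      cases W with
      | nil => rfl
      | cons a W =>
        rw [keyL_cons_cons, keyL_cons_cons, keyL_cons_cons, ih fs W (Nat.succ.inj h)]
        ring

private theorem keyL_addL (es : List ℕ) : ∀ a b : List ℕ,
    keyL es (addL Nat.add a b) = keyL es a + keyL es b := by
  induction es with
  | nil => intro a b; rfl
  | cons e es ih =>
    intro a b
    cases a with
    | nil => rw [addL_nil, keyL_cons_nil, zero_add]
    | cons x a =>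
      cases b with
      | nil => rw [addL_cons_nil, keyL_cons_nil, add_zero]
      | cons y b =>
        rw [addL_cons_cons, keyL_cons_cons, keyL_cons_cons, keyL_cons_cons, ih]
        change e * (x + y) + _ = _
        ring

private theorem keyL_mapL (c : ℕ) (es : List ℕ) : ∀ b : List ℕ,
    keyL es (mapL (fun w => Nat.mul c w) b) = c * keyL es b := by
  induction es with
  | nil => intro b; rfl
  | cons e es ih =>
    intro b
    cases b with
    | nil => rw [mapL_nil, keyL_cons_nil, mul_zero]
    | cons y b =>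
      rw [mapL_cons, keyL_cons_cons, keyL_cons_cons, ih]
      change e * (c * y) + _ = _
      ring

private theorem keyL_le (es : List ℕ) (hb : ∀ e ∈ es, e ≤ 15) : ∀ g : List ℕ,
    keyL es g ≤ 15 * g.sum := by
  induction es with
  | nil => intro g; exact Nat.zero_le _
  | cons e es ih =>
    intro g
    cases g with
    | nil => exact Nat.zero_le _
    | cons a g =>
      rw [keyL_cons_cons, List.sum_cons, mul_add]
      exact add_le_add (Nat.mul_le_mul_right a (hb e List.mem_cons_self))
        (ih (fun x hx => hb x (List.mem_cons_of_mem _ hx)) g)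

private theorem vkL_cons (W : List ℕ) (q : Mo) (l : List Mo) :
    vkL W (q :: l) = (keyL q.2 W, q.1) :: vkL W l := rfl

/-- The recursion in `linL` from the index `i`. -/
private def linA (q : Mo) (r : List Mo) (w : List ℕ) : ℕ → List Mo :=
  List.rec (motive := fun _ => ℕ → List Mo) (fun _ => r)
    (fun c _ ih i => bif Nat.beq c 0 then ih (i + 1) else (Nat.mul c q.1, incr i q.2) :: ih (i + 1))
    w

private theorem linW_eq {W : List ℕ} (hW : W.length = 10) {q : Mo} (hq : q.2.length = 10)
    (r : List Mo) (w : List ℕ) : ∀ i, w.length + i ≤ 10 →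
    linW (keyL q.2 W, q.1) (vkL W r) (W.drop i) w = vkL W (linA q r w i) := by
  induction w with
  | nil =>
    intro i _
    cases W.drop i with
    | nil => rfl
    | cons a W' => rfl
  | cons c w ih =>
    intro i hi
    rw [List.length_cons] at hi
    have hi' : i < W.length := by omega
    rw [List.drop_eq_getElem_cons hi']
    have h1 := ih (i + 1) (by omega)
    have h2 : linW (keyL q.2 W, q.1) (vkL W r) (W[i] :: W.drop (i + 1)) (c :: w) =
        bif Nat.beq c 0 then linW (keyL q.2 W, q.1) (vkL W r) (W.drop (i + 1)) w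
        else (Nat.add (keyL q.2 W) W[i], Nat.mul c q.1) ::
          linW (keyL q.2 W, q.1) (vkL W r) (W.drop (i + 1)) w := rfl
    have h3 : linA q r (c :: w) i = bif Nat.beq c 0 then linA q r w (i + 1)
        else (Nat.mul c q.1, incr i q.2) :: linA q r w (i + 1) := rfl
    rw [h2, h3, h1]
    cases Nat.beq c 0 with
    | true => rfl
    | false =>
      have h4 : keyL (incr i q.2) W = keyL q.2 W + W[i] := by
        rw [keyL_incr i q.2 W (by omega), getL_eq, List.getD_eq_getElem _ _ hi']
      change (keyL q.2 W + W[i], Nat.mul c q.1) :: vkL W (linA q r w (i + 1)) =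
        (keyL (incr i q.2) W, Nat.mul c q.1) :: vkL W (linA q r w (i + 1))
      rw [h4]

private theorem fold_mul {W : List ℕ} {q : Mo} (hq : q.2.length = 10) (r : List Mo)
    {m : List Mo} (hm : Len 10 m) :
    fold (fun (p : ℕ × ℕ) (s : KL) => (Nat.add (keyL q.2 W) p.1, Nat.mul q.1 p.2) :: s)
      (vkL W r) (vkL W m) =
    vkL W (fold (fun (p : Mo) (s : List Mo) => (Nat.mul q.1 p.1, addE q.2 p.2) :: s) r m) := by
  induction m with
  | nil => rfl
  | cons p m ih =>
    have hp : p.2.length = 10 := hm p List.mem_cons_self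
    have h1 := ih fun p' hp' => hm p' (List.mem_cons_of_mem _ hp')
    rw [vkL_cons, fold_cons, fold_cons, vkL_cons, h1, keyL_addE q.2 p.2 W (by omega)]
    rfl

private theorem keyL_two {W es : List ℕ} (hes : es.length = 10) {i j : ℕ} (hi : i < 10)
    (hj : j < 10) : keyL (incr i (incr j es)) W =
      Nat.add (Nat.add (keyL es W) (getL 0 W j)) (getL 0 W i) := by
  have h1 : j < es.length := by omega
  rw [keyL_incr i _ W (by rw [length_incr h1]; omega), keyL_incr j es W h1]
  rfl

private theorem allL_lt {l : List ℕ} (h : allL (fun i => Nat.blt i 10) l = true) :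
    ∀ i ∈ l, i < 10 := by
  induction l with
  | nil => exact fun i hi => absurd hi List.not_mem_nil
  | cons a l ih =>
    rw [allL_cons, Bool.and_eq_true] at h
    intro i hi
    rcases List.mem_cons.1 hi with rfl | hi
    · have h1 := h.1
      rwa [Nat.blt_eq] at h1
    · exact ih h.2 i hi

private theorem fold_two {W es : List ℕ} (hes : es.length = 10) (c : ℕ) {i : ℕ} (hi : i < 10)
    (r : List Mo) {l : List ℕ} (hl : ∀ j ∈ l, j < 10) :
    fold (fun (j : ℕ) (s : KL) =>
      (Nat.add (Nat.add (keyL es W) (getL 0 W j)) (getL 0 W i), Nat.mul 2 c) :: s) (vkL W r) l =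
    vkL W (fold (fun (j : ℕ) (s : List Mo) => (Nat.mul 2 c, incr i (incr j es)) :: s) r l) := by
  induction l with
  | nil => rfl
  | cons j l ih =>
    rw [fold_cons, fold_cons, vkL_cons, ih fun j' hj' => hl j' (List.mem_cons_of_mem _ hj'),
      keyL_two hes hi (hl j List.mem_cons_self)]

private theorem sqV_eq {W es : List ℕ} (hes : es.length = 10) (c : ℕ) (r : List Mo)
    {l : List ℕ} (hl : ∀ j ∈ l, j < 10) :
    sqV W c (keyL es W) l (vkL W r) = vkL W (sqL c es l r) := by
  induction l with
  | nil => rfl
  | cons i l ih =>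
    have hi := hl i List.mem_cons_self
    have hl' : ∀ j ∈ l, j < 10 := fun j hj => hl j (List.mem_cons_of_mem _ hj)
    have h1 : sqV W c (keyL es W) (i :: l) (vkL W r) =
        (Nat.add (Nat.add (keyL es W) (getL 0 W i)) (getL 0 W i), c) ::
          fold (fun (j : ℕ) (s : KL) =>
            (Nat.add (Nat.add (keyL es W) (getL 0 W j)) (getL 0 W i), Nat.mul 2 c) :: s)
            (sqV W c (keyL es W) l (vkL W r)) l := rfl
    have h2 : sqL c es (i :: l) r = (c, incr i (incr i es)) ::
        fold (fun (j : ℕ) (s : List Mo) => (Nat.mul 2 c, incr i (incr j es)) :: s)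
          (sqL c es l r) l := rfl
    rw [h1, h2, ih hl', fold_two hes c hi _ hl', vkL_cons, keyL_two hes hi hi]

private theorem crV_eq {W es : List ℕ} (hes : es.length = 10) (c : ℕ) (r : List Mo)
    {l l' : List ℕ} (hl : ∀ j ∈ l, j < 10) (hl' : ∀ j ∈ l', j < 10) :
    crV W c (keyL es W) l l' (vkL W r) = vkL W (crL c es l l' r) := by
  induction l with
  | nil => rfl
  | cons i l ih =>
    have hi := hl i List.mem_cons_self
    have h3 := ih fun j hj => hl j (List.mem_cons_of_mem _ hj)
    have h1 : crV W c (keyL es W) (i :: l) l' (vkL W r) =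
          fold (fun (j : ℕ) (s : KL) =>
            (Nat.add (Nat.add (keyL es W) (getL 0 W j)) (getL 0 W i), Nat.mul 2 c) :: s)
            (crV W c (keyL es W) l l' (vkL W r)) l' := rfl
    have h2 : crL c es (i :: l) l' r =
        fold (fun (j : ℕ) (s : List Mo) => (Nat.mul 2 c, incr i (incr j es)) :: s)
          (crL c es l l' r) l' := rfl
    rw [h1, h2, h3, fold_two hes c hi _ hl']

private theorem okS_cons {q : Sq} {qs : List Sq} (h : okS 10 (q :: qs) = true) :
    q.2.1.length = 10 ∧ (∀ j ∈ q.2.2.1, j < 10) ∧ (∀ j ∈ q.2.2.2, j < 10) ∧ okS 10 qs = true := by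
  unfold okS at h ⊢
  rw [allL_cons, Bool.and_eq_true, Bool.and_eq_true, Bool.and_eq_true] at h
  exact ⟨Nat.eq_of_beq_eq_true h.1.1.1, allL_lt h.1.1.2, allL_lt h.1.2, h.2⟩

theorem vkL_mulLin {W w : List ℕ} (hW : W.length = 10) (hw : w.length = 10) {l : List Mo}
    (hl : Len 10 l) : mulLinV W w (vkL W l) = vkL W (mulLin w l) := by
  induction l with
  | nil => rfl
  | cons q l ih =>
    have hq : q.2.length = 10 := hl q List.mem_cons_self
    have h1 := ih fun p hp => hl p (List.mem_cons_of_mem _ hp)
    have h2 : mulLin w (q :: l) = linA q (mulLin w l) w 0 := rfl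
    have h3 : mulLinV W w (vkL W (q :: l)) =
        linW (keyL q.2 W, q.1) (mulLinV W w (vkL W l)) W w := rfl
    have h4 := linW_eq hW hq (mulLin w l) w 0 (by omega)
    rw [List.drop_zero] at h4
    rw [h2, h3, h1, h4]

theorem vkL_mulLL {W : List ℕ} (hW : W.length = 10) {l m : List Mo} (hl : Len 10 l)
    (hm : Len 10 m) : mulV2 (vkL W l) (vkL W m) = vkL W (mulLL l m) := by
  induction l with
  | nil => rfl
  | cons q l ih =>
    have hq : q.2.length = 10 := hl q List.mem_cons_self
    have h1 := ih fun p hp => hl p (List.mem_cons_of_mem _ hp)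
    have h2 : mulLL (q :: l) m = fold (fun (p : Mo) (s : List Mo) =>
        (Nat.mul q.1 p.1, addE q.2 p.2) :: s) (mulLL l m) m := rfl
    have h3 : mulV2 (vkL W (q :: l)) (vkL W m) =
        fold (fun (p : ℕ × ℕ) (s : KL) => (Nat.add (keyL q.2 W) p.1, Nat.mul q.1 p.2) :: s)
          (mulV2 (vkL W l) (vkL W m)) (vkL W m) := rfl
    rw [h2, h3, h1, fold_mul hq _ hm]

theorem vkL_posL {W : List ℕ} (hW : W.length = 10) {qs : List Sq} (h : okS 10 qs = true) :
    posV W qs = vkL W (posL qs) := by
  induction qs with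
  | nil => rfl
  | cons q qs ih =>
    obtain ⟨h1, h2, h3, h4⟩ := okS_cons h
    have h5 : posV W (q :: qs) = sqV W q.1 (keyL q.2.1 W) q.2.2.1
        (sqV W q.1 (keyL q.2.1 W) q.2.2.2 (posV W qs)) := rfl
    have h6 : posL (q :: qs) = sqL q.1 q.2.1 q.2.2.1 (sqL q.1 q.2.1 q.2.2.2 (posL qs)) := rfl
    rw [h5, h6, ih h4, sqV_eq h1 _ _ h3, sqV_eq h1 _ _ h2]

theorem vkL_negL {W : List ℕ} (hW : W.length = 10) {qs : List Sq} (h : okS 10 qs = true) :
    negV W qs = vkL W (negL qs) := by
  induction qs with
  | nil => rfl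
  | cons q qs ih =>
    obtain ⟨h1, h2, h3, h4⟩ := okS_cons h
    have h5 : negV W (q :: qs) = crV W q.1 (keyL q.2.1 W) q.2.2.1 q.2.2.2 (negV W qs) := rfl
    have h6 : negL (q :: qs) = crL q.1 q.2.1 q.2.2.1 q.2.2.2 (negL qs) := rfl
    rw [h5, h6, ih h4, crV_eq h1 _ _ h2 h3]

private theorem mapL_map {α β : Type} (f : α → β) (l : List α) : mapL f l = l.map f := by
  induction l with
  | nil => rfl
  | cons a l ih => rw [mapL_cons, List.map_cons, ih]

private theorem act_range {es : List ℕ} (h : es.length = 10) : act (List.range 10) es = es := by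
  match es, h with
  | [_, _, _, _, _, _, _, _, _, _], _ => rfl

private theorem act_act (h es g : List ℕ) :
    keyL (act h es) (act h g) = (h.map fun i => getL 0 es i * getL 0 g i).sum := by
  induction h with
  | nil => rfl
  | cons i h ih =>
    have h1 : act (i :: h) es = getL 0 es i :: act h es := rfl
    have h2 : act (i :: h) g = getL 0 g i :: act h g := rfl
    rw [h1, h2, keyL_cons_cons, ih, List.map_cons, List.sum_cons]

private theorem perm_pw {h g : List ℕ} (hg : act h g = pw) (hp : h.Perm (List.range 10))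
    (hgl : g.length = 10) : g.Perm pw := by
  have h1 : (act h g).Perm (act (List.range 10) g) := by
    unfold act
    rw [mapL_map, mapL_map]
    exact hp.map _
  rw [hg, act_range hgl] at h1
  exact h1.symm

private theorem keyL_lt {h g es : List ℕ} (hg : act h g = pw) (hp : h.Perm (List.range 10))
    (hgl : g.length = 10) (hb : ∀ e ∈ es, e ≤ 15) : keyL es g < 1099511627776 := by
  refine (keyL_le es hb g).trans_lt ?_
  rw [(perm_pw hg hp hgl).sum_eq]
  decide

private theorem okG_cons {h : List ℕ} {H Gk : List (List ℕ)} (hG : okG (h :: H) Gk = true) :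
    ∃ g Gk', Gk = g :: Gk' ∧ act h g = pw ∧ okG H Gk' = true := by
  cases Gk with
  | nil => exact absurd hG Bool.false_ne_true
  | cons g Gk' =>
    have h1 : (beqN (act h g) pw && okG H Gk') = true := hG
    rw [Bool.and_eq_true] at h1
    exact ⟨g, Gk', rfl, (beqN_iff _ _).1 h1.1, h1.2⟩

private theorem okG_nil {Gk : List (List ℕ)} (hG : okG [] Gk = true) : Gk = [] := by
  cases Gk with
  | nil => rfl
  | cons g Gk' => exact absurd hG Bool.false_ne_true

private theorem digit_aux {es : List ℕ} (hb : ∀ e ∈ es, e ≤ 15) (H : List (List ℕ)) :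
    ∀ (Gk : List (List ℕ)), okG H Gk = true → (∀ h ∈ H, h.Perm (List.range 10)) →
      (∀ g ∈ Gk, g.length = 10) → ∀ m, m < Gk.length →
      keyL es (packW Gk) / 2 ^ (40 * m) % 1099511627776 = keyL es (Gk.getD m []) := by
  induction H with
  | nil =>
    intro Gk hG _ _ m hm
    rw [okG_nil hG] at hm
    exact absurd hm (Nat.not_lt_zero _)
  | cons h H ih =>
    intro Gk hG hH hg m hm
    obtain ⟨g, Gk', rfl, h1, h2⟩ := okG_cons hG
    have h3 : packW (g :: Gk') =
        addL Nat.add g (mapL (fun w => Nat.mul 1099511627776 w) (packW Gk')) := rfl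
    have h4 : keyL es (packW (g :: Gk')) =
        keyL es g + 1099511627776 * keyL es (packW Gk') := by
      rw [h3, keyL_addL, keyL_mapL]
    have h5 := keyL_lt h1 (hH h List.mem_cons_self) (hg g List.mem_cons_self) hb
    cases m with
    | zero =>
      rw [List.getD_cons_zero, h4, mul_zero, pow_zero, Nat.div_one, Nat.add_mul_mod_self_left,
        Nat.mod_eq_of_lt h5]
    | succ m =>
      rw [List.getD_cons_succ, ← ih Gk' h2 (fun u hu => hH u (List.mem_cons_of_mem _ hu))
        (fun u hu => hg u (List.mem_cons_of_mem _ hu)) m (Nat.lt_of_succ_lt_succ hm), h4,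
        mul_add, mul_one, add_comm (40 * m) 40, pow_add, ← Nat.div_div_eq_div_mul]
      have h6 : (keyL es g + 1099511627776 * keyL es (packW Gk')) / 2 ^ 40 =
          keyL es (packW Gk') := by
        have h7 : (2 : ℕ) ^ 40 = 1099511627776 := by norm_num
        rw [h7, Nat.add_mul_div_left _ _ (by norm_num), Nat.div_eq_of_lt h5, zero_add]
      rw [h6]

/-- **Digits of the vector keys.** PROOF. `keyL es W = ∑ m, keyL es (Gk m) * 2 ^ (40 m)` (bilinear),
and each `keyL es (Gk m) < 2 ^ 40`, because the entries of `Gk m` are the ten powers of `16` in some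
order (`act h g = pw` for a permutation list `h`) and the exponents are at most `15`. -/
theorem digit {H Gk : List (List ℕ)} (hG : okG H Gk = true)
    (hH : ∀ h ∈ H, h.Perm (List.range 10)) {es : List ℕ} (hl : es.length = 10)
    (hb : ∀ e ∈ es, e ≤ 15) {m : ℕ} (hm : m < Gk.length) (hg : ∀ g ∈ Gk, g.length = 10) :
    Nat.mod (Nat.shiftRight (keyL es (packW Gk)) (Nat.mul 40 m)) 1099511627776 =
      keyL es (Gk.getD m []) := by
  have h1 := digit_aux hb H Gk hG hH hg m hm
  change (keyL es (packW Gk) >>> (40 * m)) % 1099511627776 = _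
  rw [Nat.shiftRight_eq_div_pow]
  exact h1

private theorem dec_pw {ds : List ℕ} (hl : ds.length = 10) (hb : ∀ d ∈ ds, d ≤ 15) :
    dec 10 (keyL ds pw) = ds := by
  match ds, hl with
  | [d0, d1, d2, d3, d4, d5, d6, d7, d8, d9], _ =>
    have b0 : d0 ≤ 15 := hb _ (by simp)
    have b1 : d1 ≤ 15 := hb _ (by simp)
    have b2 : d2 ≤ 15 := hb _ (by simp)
    have b3 : d3 ≤ 15 := hb _ (by simp)
    have b4 : d4 ≤ 15 := hb _ (by simp)
    have b5 : d5 ≤ 15 := hb _ (by simp)
    have b6 : d6 ≤ 15 := hb _ (by simp)
    have b7 : d7 ≤ 15 := hb _ (by simp)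
    have b8 : d8 ≤ 15 := hb _ (by simp)
    have b9 : d9 ≤ 15 := hb _ (by simp)
    have hk : keyL [d0, d1, d2, d3, d4, d5, d6, d7, d8, d9] pw =
        d0 * 68719476736 + (d1 * 4294967296 + (d2 * 268435456 + (d3 * 16777216 +
        (d4 * 1048576 + (d5 * 65536 + (d6 * 4096 + (d7 * 256 + (d8 * 16 +
        (d9 * 1 + 0))))))))) := rfl
    rw [hk]
    set K := d0 * 68719476736 + (d1 * 4294967296 + (d2 * 268435456 + (d3 * 16777216 +
        (d4 * 1048576 + (d5 * 65536 + (d6 * 4096 + (d7 * 256 + (d8 * 16 +
        (d9 * 1 + 0))))))))) with hK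
    have hd : dec 10 K = [K / 16 ^ 9 % 16, K / 16 ^ 8 % 16, K / 16 ^ 7 % 16, K / 16 ^ 6 % 16,
        K / 16 ^ 5 % 16, K / 16 ^ 4 % 16, K / 16 ^ 3 % 16, K / 16 ^ 2 % 16, K / 16 ^ 1 % 16,
        K / 16 ^ 0 % 16] := rfl
    rw [hd]
    have e9 : K / 16 ^ 9 % 16 = d0 := by norm_num; omega
    have e8 : K / 16 ^ 8 % 16 = d1 := by norm_num; omega
    have e7 : K / 16 ^ 7 % 16 = d2 := by norm_num; omega
    have e6 : K / 16 ^ 6 % 16 = d3 := by norm_num; omega
    have e5 : K / 16 ^ 5 % 16 = d4 := by norm_num; omega
    have e4 : K / 16 ^ 4 % 16 = d5 := by norm_num; omega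
    have e3 : K / 16 ^ 3 % 16 = d6 := by norm_num; omega
    have e2 : K / 16 ^ 2 % 16 = d7 := by norm_num; omega
    have e1 : K / 16 ^ 1 % 16 = d8 := by norm_num; omega
    have e0 : K / 16 ^ 0 % 16 = d9 := by norm_num; omega
    rw [e9, e8, e7, e6, e5, e4, e3, e2, e1, e0]

private theorem getL_le {es : List ℕ} (hb : ∀ e ∈ es, e ≤ 15) (i : ℕ) : getL 0 es i ≤ 15 := by
  rw [getL_eq]
  by_cases h : i < es.length
  · rw [List.getD_eq_getElem _ _ h]
    exact hb _ (List.getElem_mem h)
  · rw [List.getD_eq_default _ _ (not_lt.1 h)]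
    exact Nat.zero_le _

/-- **Keys are permuted exponents.** PROOF. `keyL es g = ∑ j, (act h es) j * (act h g) j` is the
number with the digits `act h es` in base `16`. -/
theorem dec_keyL {h g : List ℕ} (hg : beqN (act h g) pw = true) (hp : h.Perm (List.range 10))
    (hgl : g.length = 10) {es : List ℕ} (hl : es.length = 10) (hb : ∀ e ∈ es, e ≤ 15) :
    dec 10 (keyL es g) = act h es := by
  have h1 : act h g = pw := (beqN_iff _ _).1 hg
  have h2 : keyL es g = keyL (act h es) (act h g) := by
    rw [act_act, (hp.map fun i => getL 0 es i * getL 0 g i).sum_eq, ← act_act, act_range hl,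
      act_range hgl]
  rw [h2, h1]
  refine dec_pw ?_ ?_
  · unfold act
    rw [mapL_map, List.length_map, hp.length_eq, List.length_range]
  · intro d hd
    unfold act at hd
    rw [mapL_map] at hd
    obtain ⟨i, -, rfl⟩ := List.mem_map.1 hd
    exact getL_le hb i

private theorem okG_getD (H : List (List ℕ)) : ∀ Gk : List (List ℕ), okG H Gk = true →
    ∀ m, m < Gk.length → beqN (act (H.getD m []) (Gk.getD m [])) pw = true ∧
      H.getD m [] ∈ H ∧ Gk.getD m [] ∈ Gk := by
  induction H with
  | nil =>
    intro Gk hG m hm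
    rw [okG_nil hG] at hm
    exact absurd hm (Nat.not_lt_zero _)
  | cons h H ih =>
    intro Gk hG m hm
    obtain ⟨g, Gk', rfl, h1, h2⟩ := okG_cons hG
    cases m with
    | zero =>
      rw [List.getD_cons_zero, List.getD_cons_zero]
      exact ⟨(beqN_iff _ _).2 h1, List.mem_cons_self, List.mem_cons_self⟩
    | succ m =>
      rw [List.getD_cons_succ, List.getD_cons_succ]
      obtain ⟨h3, h4, h5⟩ := ih Gk' h2 m (Nat.lt_of_succ_lt_succ hm)
      exact ⟨h3, List.mem_cons_of_mem _ h4, List.mem_cons_of_mem _ h5⟩

private theorem allL_le {b : ℕ} {l : List ℕ} (h : allL (fun e => Nat.ble e b) l = true) :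
    ∀ e ∈ l, e ≤ b := by
  induction l with
  | nil => exact fun i hi => absurd hi List.not_mem_nil
  | cons a l ih =>
    rw [allL_cons, Bool.and_eq_true] at h
    intro i hi
    rcases List.mem_cons.1 hi with rfl | hi
    · exact Nat.le_of_ble_eq_true h.1
    · exact ih h.2 i hi

/-- **The average of a list is the average of the list of the hinted keys.** PROOF. Induction on
`l`, generalizing `hs`: for the member `(c, es)` with the hint `m` the key is
`keyL es (Gk.getD m [])` (`digit`), its monomial is `act h es` (`dec_keyL`), `h = H.getD m []`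
represents an element `σ` of the group, and `evM y (act h es) = evM (xs σ y) es` (`evM_act`), so
`Av_comp` applies. -/
theorem Av_hint {gens H Gk : List (List ℕ)} (hG : okG H Gk = true)
    (hH : ∀ h ∈ H, h.Perm (List.range 10)) (hg : ∀ g ∈ Gk, g.length = 10)
    (hr : ∀ h ∈ H, ∃ σ ∈ Gp 10 gens, Rep h σ) {l : List Mo} (hl : Len 10 l)
    (hb : bdd 15 l = true) {hs : List ℕ} (hhs : okHs Gk.length (vkL (packW Gk) l) hs = true)
    (x : ℕ → ℝ) :
    Av (Gp 10 gens) (fun y => evK y (hintV (vkL (packW Gk) l) hs)) x =
      Av (Gp 10 gens) (fun y => evS y l) x := by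
  induction l generalizing hs with
  | nil => rfl
  | cons q l ih =>
    cases hs with
    | nil => exact absurd hhs Bool.false_ne_true
    | cons m hs =>
      have h1 : (Nat.ble (Nat.succ m) Gk.length &&
          okHs Gk.length (vkL (packW Gk) l) hs) = true := hhs
      rw [Bool.and_eq_true] at h1
      have hm : m < Gk.length := Nat.le_of_ble_eq_true h1.1
      have h2 : (allL (fun e => Nat.ble e 15) q.2 && bdd 15 l) = true := hb
      rw [Bool.and_eq_true] at h2
      have hq : q.2.length = 10 := hl q List.mem_cons_self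
      have hbq := allL_le h2.1
      have ih' := ih (fun p hp => hl p (List.mem_cons_of_mem _ hp)) h2.2 h1.2
      obtain ⟨h3, h4, h5⟩ := okG_getD H Gk hG m hm
      obtain ⟨σ, hσ, hrep⟩ := hr _ h4
      have h6 : hintV (vkL (packW Gk) (q :: l)) (m :: hs) =
          (Nat.mod (Nat.shiftRight (keyL q.2 (packW Gk)) (Nat.mul 40 m)) 1099511627776, q.1) ::
            hintV (vkL (packW Gk) l) hs := rfl
      have h7 : ∀ y : ℕ → ℝ, evK y (hintV (vkL (packW Gk) (q :: l)) (m :: hs)) =
          (q.1 : ℝ) * evM (xs σ y) q.2 + evK y (hintV (vkL (packW Gk) l) hs) := by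
        intro y
        rw [h6, evK_cons]
        simp only
        rw [digit hG hH hq hbq hm hg, dec_keyL h3 (hH _ h4) (hg _ h5) hq hbq, evM_act hrep hq]
      have h8 : ∀ y : ℕ → ℝ, evS y (q :: l) = (q.1 : ℝ) * evM y q.2 + evS y l := by
        intro y
        unfold evS
        rw [List.map_cons, List.sum_cons]
      simp only [h7, h8]
      rw [Av_add, Av_smul, Av_add, Av_smul, ih', Av_comp _ hσ (fun y => evM y q.2)]

end Pool.Agent.D4Q
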