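import Pool.Agent.D4Q.SqL

set_option autoImplicit false

/-!
# P23. Keys: monomials packed in natural numbers, sorted lists

A polynomial in ten variables is a list of pairs (key, coefficient); the exponents are the digits of
the key in base `16`, the first variable has the most significant digit. (Functions are defined by
recursors for speed in the kernel; do not change them.)
-/

namespace Pool.Agent.D4Q

/-- Lists of pairs (key, coefficient). -/
abbrev KL := List (ℕ × ℕ)

/-- The last `n` digits of a key. -/
def dec (n K : ℕ) : List ℕ :=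
  Nat.rec (motive := fun _ => List ℕ) []
    (fun m r => Nat.mod (Nat.div K (Nat.pow 16 m)) 16 :: r) n

theorem dec_zero (K : ℕ) : dec 0 K = [] := rfl

theorem dec_succ (n K : ℕ) : dec (n + 1) K = (K / 16 ^ n % 16) :: dec n K := rfl

/-- The scalar product of two lists. -/
def keyL (es : List ℕ) : List ℕ → ℕ :=
  List.rec (motive := fun _ => List ℕ → ℕ) (fun _ => 0)
    (fun e _ ih k => List.rec (motive := fun _ => ℕ) 0
      (fun a k' _ => Nat.add (Nat.mul e a) (ih k')) k) es

theorem keyL_nil (k : List ℕ) : keyL [] k = 0 := rfl

theorem keyL_cons_nil (e : ℕ) (es : List ℕ) : keyL (e :: es) [] = 0 := rfl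

theorem keyL_cons_cons (e a : ℕ) (es k : List ℕ) :
    keyL (e :: es) (a :: k) = e * a + keyL es k := rfl

/-- The monomials of a keyed list. -/
def monsK (n : ℕ) (p : KL) : List Mo := mapL (fun q => (q.2, dec n q.1)) p

/-- The value of a keyed list, ten variables. -/
noncomputable def evK (x : ℕ → ℝ) (p : KL) : ℝ := evS x (monsK 10 p)

theorem evK_nil (x : ℕ → ℝ) : evK x [] = 0 := by
  change ((List.map (fun q : Mo => (q.1 : ℝ) * evM x q.2) []).sum) = 0
  rw [List.map_nil, List.sum_nil]

theorem evK_cons (x : ℕ → ℝ) (a : ℕ × ℕ) (p : KL) :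
    evK x (a :: p) = a.2 * evM x (dec 10 a.1) + evK x p := by
  change ((List.map (fun q : Mo => (q.1 : ℝ) * evM x q.2)
    ((a.2, dec 10 a.1) :: monsK 10 p)).sum) = _
  rw [List.map_cons, List.sum_cons]
  rfl

private theorem length_dec (n K : ℕ) : (dec n K).length = n := by
  induction n with
  | zero => rw [dec_zero, List.length_nil]
  | succ n ih => rw [dec_succ, List.length_cons, ih]

theorem len_monsK (n : ℕ) (p : KL) : Len n (monsK n p) := by
  induction p with
  | nil =>
    intro q hq
    change q ∈ ([] : List Mo) at hq
    exact absurd hq List.not_mem_nil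
  | cons a p ih =>
    intro q hq
    change q ∈ ((a.2, dec n a.1) :: monsK n p : List Mo) at hq
    rcases List.mem_cons.1 hq with rfl | hq
    · exact length_dec n a.1
    · exact ih q hq

/-- Merging of two lists. -/
def mrg (l : KL) : KL → KL :=
  List.rec (motive := fun _ => KL → KL) (fun m => m)
    (fun a l' ih m => List.rec (motive := fun _ => KL) (a :: l')
      (fun b m' ihm => bif Nat.blt a.1 b.1 then a :: ih (b :: m')
        else bif Nat.beq a.1 b.1 then (a.1, Nat.add a.2 b.2) :: ih m' else b :: ihm) m) l

/-- One round of pairwise merging. -/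
def pairR (ls : List KL) : List KL :=
  List.rec (motive := fun _ => Option KL → List KL)
    (fun o => Option.rec (motive := fun _ => List KL) [] (fun a => [a]) o)
    (fun a _ ih o =>
      Option.rec (motive := fun _ => List KL) (ih (some a)) (fun b => mrg b a :: ih none) o) ls none

/-- Rounds of pairwise merging. -/
def roundsR (k : ℕ) : List KL → List KL :=
  Nat.rec (motive := fun _ => List KL → List KL) (fun l => l) (fun _ ih l => ih (pairR l)) k

/-- Sorting and collecting. -/
def sortK (l : KL) : KL := fold mrg [] (roundsR 14 (mapL (fun q => [q]) l))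

/-- Multiplication of the coefficients by a number. -/
def smulK (c : ℕ) (p : KL) : KL := mapL (fun q => (q.1, Nat.mul c q.2)) p

/-- Equality. -/
def beqK (l : KL) : KL → Bool :=
  List.rec (motive := fun _ => KL → Bool)
    (fun m => List.rec (motive := fun _ => Bool) true (fun _ _ _ => false) m)
    (fun a _ ih m => List.rec (motive := fun _ => Bool) false
      (fun b m' _ => Nat.beq a.1 b.1 && Nat.beq a.2 b.2 && ih m') m) l

/-- Coefficientwise comparison of sorted lists. -/
def leK (l : KL) : KL → Bool :=
  List.rec (motive := fun _ => KL → Bool) (fun _ => true)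
    (fun a _ ih m => List.rec (motive := fun _ => Bool) false
      (fun b m' ihm => bif Nat.beq a.1 b.1 then Nat.ble a.2 b.2 && ih m'
        else bif Nat.blt b.1 a.1 then ihm else Nat.beq a.2 0 && ih (b :: m')) m) l

private theorem mrg_nil (m : KL) : mrg [] m = m := rfl

private theorem mrg_cons_nil (a : ℕ × ℕ) (l : KL) : mrg (a :: l) [] = a :: l := rfl

private theorem mrg_cons_cons (a b : ℕ × ℕ) (l m : KL) : mrg (a :: l) (b :: m) =
    bif Nat.blt a.1 b.1 then a :: mrg l (b :: m)
      else bif Nat.beq a.1 b.1 then (a.1, a.2 + b.2) :: mrg l m else b :: mrg (a :: l) m := rfl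

theorem evK_mrg (x : ℕ → ℝ) (l m : KL) : evK x (mrg l m) = evK x l + evK x m := by
  induction l generalizing m with
  | nil => rw [mrg_nil, evK_nil, zero_add]
  | cons a l ih =>
    induction m with
    | nil => rw [mrg_cons_nil, evK_nil, add_zero]
    | cons b m ihm =>
      rw [mrg_cons_cons]
      cases h1 : Nat.blt a.1 b.1 with
      | true =>
        rw [cond_true, evK_cons, ih, evK_cons x a, add_assoc]
      | false =>
        rw [cond_false]
        cases h2 : Nat.beq a.1 b.1 with
        | true =>
          have h3 : a.1 = b.1 := Nat.eq_of_beq_eq_true h2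
          rw [cond_true, evK_cons, ih, evK_cons x a, evK_cons x b, ← h3]
          push_cast
          ring
        | false =>
          rw [cond_false, evK_cons, ihm, evK_cons x b]
          ring

/-- The inner recursion of `pairR`. -/
private def pairO (ls : List KL) : Option KL → List KL :=
  List.rec (motive := fun _ => Option KL → List KL)
    (fun o => Option.rec (motive := fun _ => List KL) [] (fun a => [a]) o)
    (fun a _ ih o =>
      Option.rec (motive := fun _ => List KL) (ih (some a)) (fun b => mrg b a :: ih none) o) ls

private theorem pairR_eq (ls : List KL) : pairR ls = pairO ls none := rfl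

private theorem pairO_nil_none : pairO [] none = [] := rfl

private theorem pairO_nil_some (a : KL) : pairO [] (some a) = [a] := rfl

private theorem pairO_cons_none (a : KL) (ls : List KL) :
    pairO (a :: ls) none = pairO ls (some a) := rfl

private theorem pairO_cons_some (a b : KL) (ls : List KL) :
    pairO (a :: ls) (some b) = mrg b a :: pairO ls none := rfl

private noncomputable def sumV (x : ℕ → ℝ) (ls : List KL) : ℝ := (ls.map (evK x)).sum

private theorem sumV_nil (x : ℕ → ℝ) : sumV x [] = 0 := by
  rw [sumV, List.map_nil, List.sum_nil]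

private theorem sumV_cons (x : ℕ → ℝ) (a : KL) (ls : List KL) :
    sumV x (a :: ls) = evK x a + sumV x ls := by
  rw [sumV, List.map_cons, List.sum_cons, sumV]

private theorem sumV_pairO (x : ℕ → ℝ) (ls : List KL) :
    sumV x (pairO ls none) = sumV x ls ∧
      ∀ b, sumV x (pairO ls (some b)) = evK x b + sumV x ls := by
  induction ls with
  | nil =>
    refine ⟨by rw [pairO_nil_none], fun b => ?_⟩
    rw [pairO_nil_some, sumV_cons]
  | cons a ls ih =>
    refine ⟨?_, fun b => ?_⟩
    · rw [pairO_cons_none, ih.2, sumV_cons]
    · rw [pairO_cons_some, sumV_cons, evK_mrg, ih.1, sumV_cons]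
      ring

private theorem sumV_rounds (x : ℕ → ℝ) (k : ℕ) (ls : List KL) :
    sumV x (roundsR k ls) = sumV x ls := by
  induction k generalizing ls with
  | zero => rfl
  | succ k ih =>
    have h : roundsR (k + 1) ls = roundsR k (pairR ls) := rfl
    rw [h, ih, pairR_eq, (sumV_pairO x ls).1]

private theorem evK_fold (x : ℕ → ℝ) (ls : List KL) : evK x (fold mrg [] ls) = sumV x ls := by
  induction ls with
  | nil => rw [fold_nil, evK_nil, sumV_nil]
  | cons a ls ih => rw [fold_cons, evK_mrg, ih, sumV_cons]

private theorem sumV_single (x : ℕ → ℝ) (l : KL) :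
    sumV x (mapL (fun q => [q]) l) = evK x l := by
  induction l with
  | nil => rw [mapL_nil, evK_nil, sumV_nil]
  | cons a l ih => rw [mapL_cons, sumV_cons, ih, evK_cons, evK_cons, evK_nil, add_zero]

/-- All rounds preserve the sum of the values. -/
theorem evK_sortK (x : ℕ → ℝ) (l : KL) : evK x (sortK l) = evK x l := by
  rw [sortK, evK_fold, sumV_rounds, sumV_single]

theorem evK_smulK (x : ℕ → ℝ) (c : ℕ) (p : KL) : evK x (smulK c p) = c * evK x p := by
  induction p with
  | nil =>
    change evK x [] = _
    rw [evK_nil, mul_zero]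
  | cons a p ih =>
    change evK x ((a.1, c * a.2) :: smulK c p) = _
    rw [evK_cons, ih, evK_cons]
    push_cast
    ring

private theorem beqK_nil_nil : beqK [] [] = true := rfl

private theorem beqK_nil_cons (b : ℕ × ℕ) (m : KL) : beqK [] (b :: m) = false := rfl

private theorem beqK_cons_nil (a : ℕ × ℕ) (l : KL) : beqK (a :: l) [] = false := rfl

private theorem beqK_cons_cons (a b : ℕ × ℕ) (l m : KL) :
    beqK (a :: l) (b :: m) = (Nat.beq a.1 b.1 && Nat.beq a.2 b.2 && beqK l m) := rfl

theorem beqK_iff (l m : KL) : beqK l m = true ↔ l = m := by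
  induction l generalizing m with
  | nil =>
    cases m with
    | nil => exact ⟨fun _ => rfl, fun _ => rfl⟩
    | cons b m =>
      rw [beqK_nil_cons]
      exact ⟨fun h => absurd h Bool.false_ne_true, fun h => by cases h⟩
  | cons a l ih =>
    cases m with
    | nil =>
      rw [beqK_cons_nil]
      exact ⟨fun h => absurd h Bool.false_ne_true, fun h => by cases h⟩
    | cons b m =>
      rw [beqK_cons_cons, Bool.and_eq_true, Bool.and_eq_true, ih, Nat.beq_eq, Nat.beq_eq,
        List.cons.injEq, Prod.ext_iff]

private theorem leK_cons_nil (a : ℕ × ℕ) (l : KL) : leK (a :: l) [] = false := rfl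

private theorem leK_cons_cons (a b : ℕ × ℕ) (l m : KL) : leK (a :: l) (b :: m) =
    bif Nat.beq a.1 b.1 then Nat.ble a.2 b.2 && leK l m
      else bif Nat.blt b.1 a.1 then leK (a :: l) m else Nat.beq a.2 0 && leK l (b :: m) := rfl

private theorem evM_nn (es : List ℕ) {x : ℕ → ℝ} (hx : ∀ i, 0 ≤ x i) : 0 ≤ evM x es := by
  induction es generalizing x with
  | nil => rw [evM_nil]; exact zero_le_one
  | cons e es ih =>
    rw [evM_cons]
    exact mul_nonneg (pow_nonneg (hx 0) e) (ih fun i => hx (i + 1))

private theorem evK_nn (l : KL) {x : ℕ → ℝ} (hx : ∀ i, 0 ≤ x i) : 0 ≤ evK x l := by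
  induction l with
  | nil => rw [evK_nil]
  | cons a l ih =>
    rw [evK_cons]
    exact add_nonneg (mul_nonneg (Nat.cast_nonneg _) (evM_nn _ hx)) ih

theorem evK_leK {l m : KL} (h : leK l m = true) {x : ℕ → ℝ} (hx : ∀ i, 0 ≤ x i) :
    evK x l ≤ evK x m := by
  induction l generalizing m with
  | nil =>
    rw [evK_nil]
    exact evK_nn m hx
  | cons a l ih =>
    induction m with
    | nil =>
      rw [leK_cons_nil] at h
      exact absurd h Bool.false_ne_true
    | cons b m ihm =>
      rw [leK_cons_cons] at h
      cases h1 : Nat.beq a.1 b.1 with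
      | true =>
        have h3 : a.1 = b.1 := Nat.eq_of_beq_eq_true h1
        rw [h1, cond_true, Bool.and_eq_true] at h
        rw [evK_cons, evK_cons, h3]
        have h4 : (a.2 : ℝ) ≤ b.2 := by exact_mod_cast Nat.le_of_ble_eq_true h.1
        exact add_le_add (mul_le_mul_of_nonneg_right h4 (evM_nn _ hx)) (ih h.2)
      | false =>
        rw [h1, cond_false] at h
        cases h2 : Nat.blt b.1 a.1 with
        | true =>
          rw [h2, cond_true] at h
          rw [evK_cons x b]
          have h5 := ihm h
          have h6 : 0 ≤ (b.2 : ℝ) * evM x (dec 10 b.1) :=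
            mul_nonneg (Nat.cast_nonneg _) (evM_nn _ hx)
          linarith
        | false =>
          rw [h2, cond_false, Bool.and_eq_true] at h
          have h7 : a.2 = 0 := Nat.eq_of_beq_eq_true h.1
          rw [evK_cons, h7, Nat.cast_zero, zero_mul, zero_add]
          exact ih h.2

end Pool.Agent.D4Q
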