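import Pool.Agent.D4Q.Defs

set_option autoImplicit false

/-!
# P38. Lattices and their forms
-/

namespace Pool.Agent.D4Q

open MeasureTheory Matrix

variable {n : ℕ}

/-- The lattice `L` has a basis with Gram matrix `Q`. -/
def HasForm (L : Submodule ℤ (EuclideanSpace ℝ (Fin n))) (Q : Matrix (Fin n) (Fin n) ℝ) : Prop :=
  ∃ b : Fin n → EuclideanSpace ℝ (Fin n), LinearIndependent ℝ b ∧
    L = Submodule.span ℤ (Set.range b) ∧ ∀ i j, Q i j = inner ℝ (b i) (b j)

/-- The squared norm of an integral combination. -/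
theorem norm_sq_comb {b : Fin n → EuclideanSpace ℝ (Fin n)} {Q : Matrix (Fin n) (Fin n) ℝ}
    (h : ∀ i j, Q i j = inner ℝ (b i) (b j)) (x : Fin n → ℝ) :
    ‖∑ i, x i • b i‖ ^ 2 = qf Q x := by
  rw [← real_inner_self_eq_norm_sq, sum_inner, qf, dotProduct]
  refine Finset.sum_congr rfl fun i _ => ?_
  rw [real_inner_smul_left, inner_sum, mulVec, dotProduct]
  congr 1
  refine Finset.sum_congr rfl fun j _ => ?_
  rw [real_inner_smul_right, h i j, mul_comm]

/-- A Gram matrix of linearly independent vectors is positive definite. -/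
theorem hasForm_posDef {L : Submodule ℤ (EuclideanSpace ℝ (Fin n))}
    {Q : Matrix (Fin n) (Fin n) ℝ} (h : HasForm L Q) : Q.PosDef := by
  obtain ⟨b, hb, -, hQ⟩ := h
  refine PosDef.of_dotProduct_mulVec_pos ?_ ?_
  · ext i j
    rw [conjTranspose_apply, star_trivial, hQ, hQ, real_inner_comm]
  · intro x hx
    rw [star_trivial]
    have h1 := norm_sq_comb hQ x
    rw [qf] at h1
    rw [← h1]
    have h2 : ∑ i, x i • b i ≠ 0 := by
      intro h0
      apply hx
      funext i
      exact Fintype.linearIndependent_iff.1 hb x h0 i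
    have h3 : 0 < ‖∑ i, x i • b i‖ := norm_pos_iff.2 h2
    positivity

/-- The basis. -/
private noncomputable def latB (b : Fin n → EuclideanSpace ℝ (Fin n))
    (hb : LinearIndependent ℝ b) : Module.Basis (Fin n) ℝ (EuclideanSpace ℝ (Fin n)) :=
  basisOfLinearIndependentOfCardEqFinrank' b hb (by simp)

private theorem latB_coe (b : Fin n → EuclideanSpace ℝ (Fin n))
    (hb : LinearIndependent ℝ b) : ⇑(latB b hb) = b := by
  simp [latB]

/-- **Existence of the form.** PROOF. Take a `ℤ`-basis of `L` (`ZLattice` API: `L` is free of rank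
`n`), reindexed by `Fin n`; the vectors are linearly independent over `ℝ`
(`Basis.ofZLatticeBasis`). -/
theorem exists_form (L : Submodule ℤ (EuclideanSpace ℝ (Fin n))) [DiscreteTopology L]
    [IsZLattice ℝ L] : ∃ Q : Matrix (Fin n) (Fin n) ℝ, HasForm L Q := by
  have : Module.Finite ℤ L := ZLattice.module_finite ℝ L
  have : Module.Free ℤ L := ZLattice.module_free ℝ L
  have hcard : Fintype.card (Module.Free.ChooseBasisIndex ℤ L) = Fintype.card (Fin n) := by
    rw [← Module.finrank_eq_card_chooseBasisIndex, ZLattice.rank ℝ]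
    simp
  let b0 : Module.Basis (Fin n) ℤ L :=
    (Module.Free.chooseBasis ℤ L).reindex (Fintype.equivOfCardEq hcard)
  let b := b0.ofZLatticeBasis ℝ L
  exact ⟨Matrix.of fun i j => inner ℝ (b i) (b j), b, b.linearIndependent,
    (b0.ofZLatticeBasis_span ℝ L).symm, fun i j => rfl⟩

/-- **The covolume.** PROOF. `ZLattice.covolume_eq_measure_fundamentalDomain` (or similar) and the
volume of the parallelepiped spanned by `b`, which is `|det B|` for the matrix `B` with the
coordinates of `b` (`EuclideanSpace.volume_preserving_symm_measurableEquiv_toLp` and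
`ZSpan.volume_fundamentalDomain`, or the `addHaar` scaling of a linear map); `Bᵀ B = Q` gives
`det B ^ 2 = det Q`. -/
theorem covolume_sq {L : Submodule ℤ (EuclideanSpace ℝ (Fin n))} [DiscreteTopology L]
    [IsZLattice ℝ L] {Q : Matrix (Fin n) (Fin n) ℝ} (h : HasForm L Q) :
    ZLattice.covolume L ^ 2 = Q.det := by
  obtain ⟨b, hb, hL, hQ⟩ := h
  have hL' : L = Submodule.span ℤ (Set.range (latB b hb)) := by rw [latB_coe, hL]
  subst hL'
  let o : OrthonormalBasis (Fin n) ℝ (EuclideanSpace ℝ (Fin n)) := EuclideanSpace.basisFun (Fin n) ℝ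
  have h1 := ZLattice.covolume_eq_measure_fundamentalDomain
    (Submodule.span ℤ (Set.range (latB b hb))) volume
    (ZSpan.isAddFundamentalDomain (latB b hb) volume)
  have h2 : (volume : Measure (EuclideanSpace ℝ (Fin n))).real
      (ZSpan.fundamentalDomain o.toBasis) = 1 := by
    rw [measureReal_congr (ZSpan.fundamentalDomain_ae_parallelepiped o.toBasis volume)]
    rw [measureReal_def]
    have h3 := o.volume_parallelepiped
    rw [OrthonormalBasis.coe_toBasis, h3]
    simp
  rw [h1, ZSpan.measureReal_fundamentalDomain _ _ o.toBasis, h2, mul_one, sq_abs,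
    Module.Basis.det_apply]
  have h4 : Q = (o.toBasis.toMatrix (latB b hb))ᵀ * o.toBasis.toMatrix (latB b hb) := by
    ext i j
    rw [hQ, Matrix.mul_apply]
    simp only [Matrix.transpose_apply, Module.Basis.toMatrix_apply, latB_coe]
    rw [PiLp.inner_apply]
    refine Finset.sum_congr rfl fun k _ => ?_
    simp [o, mul_comm]
  rw [h4, Matrix.det_mul, Matrix.det_transpose, sq]

/-- **A span of a basis is a lattice.** (`ZSpan` API.) -/
theorem hasForm_lattice {L : Submodule ℤ (EuclideanSpace ℝ (Fin n))}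
    {Q : Matrix (Fin n) (Fin n) ℝ} (h : HasForm L Q) :
    ∃ _ : DiscreteTopology L, IsZLattice ℝ L := by
  obtain ⟨b, hb, hL, hQ⟩ := h
  have hL' : L = Submodule.span ℤ (Set.range (latB b hb)) := by rw [latB_coe, hL]
  subst hL'
  exact ⟨inferInstance, inferInstance⟩

open scoped MatrixOrder ComplexOrder in
/-- **Every positive definite form is the form of a lattice.** PROOF. `Q = Bᵀ * B` with `B`
invertible (positive square root or Cholesky); take the columns of `B`. -/
theorem exists_lattice {Q : Matrix (Fin n) (Fin n) ℝ} (hQ : Q.PosDef) :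
    ∃ L : Submodule ℤ (EuclideanSpace ℝ (Fin n)), HasForm L Q := by
  obtain ⟨B, hB⟩ := CStarAlgebra.nonneg_iff_eq_star_mul_self.mp hQ.posSemidef.nonneg
  have hB' : Q = Bᵀ * B := by
    rw [hB]
    ext i j
    simp [Matrix.mul_apply, Matrix.star_apply]
  let b : Fin n → EuclideanSpace ℝ (Fin n) := fun i => WithLp.toLp 2 (fun k => B k i)
  have hin : ∀ i j, Q i j = inner ℝ (b i) (b j) := by
    intro i j
    rw [hB', Matrix.mul_apply, PiLp.inner_apply]
    refine Finset.sum_congr rfl fun k _ => ?_
    simp [b, mul_comm]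
  refine ⟨Submodule.span ℤ (Set.range b), b, ?_, rfl, hin⟩
  rw [Fintype.linearIndependent_iff]
  intro x hx
  by_contra hcon
  have hx0 : x ≠ 0 := by
    intro h0
    apply hcon
    intro i
    rw [h0]
    rfl
  have h1 := norm_sq_comb hin x
  rw [hx, norm_zero] at h1
  have h2 := hQ.dotProduct_mulVec_pos hx0
  rw [star_trivial] at h2
  rw [qf] at h1
  rw [← h1] at h2
  norm_num at h2

end Pool.Agent.D4Q
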