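import Pool.Agent.D4Q.LatA
import Pool.Agent.D4Q.DsqA

set_option autoImplicit false

/-!
# P39. The Voronoi cell as a fundamental domain
-/

namespace Pool.Agent.D4Q

open MeasureTheory Matrix

variable {n : ℕ}

/-- The Voronoi cell. -/
def Vor (L : Submodule ℤ (EuclideanSpace ℝ (Fin n))) : Set (EuclideanSpace ℝ (Fin n)) :=
  {x | ∀ v ∈ L, ‖x‖ ≤ ‖x - v‖}

/-- The squared distance to the lattice. -/
noncomputable def dL (L : Submodule ℤ (EuclideanSpace ℝ (Fin n)))
    (x : EuclideanSpace ℝ (Fin n)) : ℝ := ⨅ v : L, ‖x - v‖ ^ 2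

theorem dL_eq_on_Vor {L : Submodule ℤ (EuclideanSpace ℝ (Fin n))}
    {x : EuclideanSpace ℝ (Fin n)} (hx : x ∈ Vor L) : dL L x = ‖x‖ ^ 2 := by
  have hb : BddBelow (Set.range fun v : L => ‖x - v‖ ^ 2) :=
    ⟨0, by rintro _ ⟨v, rfl⟩; exact sq_nonneg _⟩
  refine le_antisymm ?_ ?_
  · have h := ciInf_le hb (0 : L)
    rw [ZeroMemClass.coe_zero, sub_zero] at h
    exact h
  · exact le_ciInf fun v => pow_le_pow_left₀ (norm_nonneg _) (hx v v.2) 2

theorem dL_add {L : Submodule ℤ (EuclideanSpace ℝ (Fin n))} (x : EuclideanSpace ℝ (Fin n))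
    {v : EuclideanSpace ℝ (Fin n)} (hv : v ∈ L) : dL L (x + v) = dL L x := by
  unfold dL
  refine Equiv.iInf_congr (Equiv.subRight (⟨v, hv⟩ : L)) fun w => ?_
  have h : x - ((Equiv.subRight (⟨v, hv⟩ : L)) w : L) = x + v - w := by
    simp only [Equiv.subRight_apply, AddSubgroupClass.coe_sub]
    abel
  rw [h]

/-- In coordinates the squared distance is `dsq`. -/
theorem dL_coord {L : Submodule ℤ (EuclideanSpace ℝ (Fin n))} {Q : Matrix (Fin n) (Fin n) ℝ}
    {b : Fin n → EuclideanSpace ℝ (Fin n)} (hL : L = Submodule.span ℤ (Set.range b))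
    (h : ∀ i j, Q i j = inner ℝ (b i) (b j)) (x : Fin n → ℝ) :
    dL L (∑ i, x i • b i) = dsq Q x := by
  unfold dL dsq
  symm
  refine Function.Surjective.iInf_congr
    (fun l : Fin n → ℤ => (⟨∑ i, l i • b i, by
      rw [hL]
      exact Submodule.sum_mem _ fun i _ =>
        Submodule.smul_mem _ _ (Submodule.subset_span ⟨i, rfl⟩)⟩ : L)) ?_ fun l => ?_
  · rintro ⟨v, hv⟩
    have hv' := hv
    rw [hL, Submodule.mem_span_range_iff_exists_fun] at hv'
    obtain ⟨c, hc⟩ := hv'
    exact ⟨c, Subtype.ext hc⟩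
  · have h1 : (∑ i, x i • b i) - ∑ i, l i • b i = ∑ i, (x - ic l) i • b i := by
      rw [← Finset.sum_sub_distrib]
      refine Finset.sum_congr rfl fun i _ => ?_
      rw [Pi.sub_apply, sub_smul, ic, Int.cast_smul_eq_zsmul]
    show ‖(∑ i, x i • b i) - ∑ i, l i • b i‖ ^ 2 = _
    rw [h1, norm_sq_comb h]

/-- The Voronoi cell is closed, hence measurable. -/
theorem isClosed_Vor (L : Submodule ℤ (EuclideanSpace ℝ (Fin n))) : IsClosed (Vor L) := by
  have h : Vor L = ⋂ v ∈ L, {x | ‖x‖ ≤ ‖x - v‖} := by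
    ext x
    simp only [Vor, Set.mem_ofPred_eq, Set.mem_iInter]
  rw [h]
  exact isClosed_biInter fun v _ => isClosed_le continuous_norm (continuous_id.sub
    continuous_const).norm

/-- **The Voronoi cell is a fundamental domain** of the lattice acting by translations. PROOF.
Covering: a discrete lattice has a point `v` nearest to `x` (finitely many lattice points in a
ball), and `x - v` belongs to the cell. Almost disjointness: for `v ≠ 0` in `L` the intersection
of the cell and its translate by `v` is contained in the hyperplane of the points equidistant from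
`0` and `v`, which has measure zero (`Measure.addHaar_affineSubspace`). `L` is countable. -/
theorem isFund_Vor (L : Submodule ℤ (EuclideanSpace ℝ (Fin n))) [DiscreteTopology L]
    [IsZLattice ℝ L] : IsAddFundamentalDomain L (Vor L) := by
  have hcl : IsClosed (L : Set (EuclideanSpace ℝ (Fin n))) := by
    have : DiscreteTopology L.toAddSubgroup := inferInstanceAs (DiscreteTopology L)
    exact AddSubgroup.isClosed_of_discrete (H := L.toAddSubgroup)
  refine IsAddFundamentalDomain.mk'' (isClosed_Vor L).measurableSet.nullMeasurableSet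
    (Filter.Eventually.of_forall fun x => ?_) (fun g hg => ?_) fun g =>
      (measurePreserving_add_left volume (g : EuclideanSpace ℝ (Fin n))).quasiMeasurePreserving
  · obtain ⟨v, hv, hd⟩ := hcl.exists_infDist_eq_dist ⟨0, L.zero_mem⟩ x
    refine ⟨⟨-v, L.neg_mem hv⟩, fun w hw => ?_⟩
    have h1 : Metric.infDist x (L : Set (EuclideanSpace ℝ (Fin n))) ≤ dist x (v + w) :=
      Metric.infDist_le_dist_of_mem (L.add_mem hv hw)
    rw [hd, dist_eq_norm, dist_eq_norm] at h1
    have e1 : (⟨-v, L.neg_mem hv⟩ : L) +ᵥ x = x - v := by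
      rw [Submodule.vadd_def]
      show -v + x = x - v
      abel
    have e2 : ((⟨-v, L.neg_mem hv⟩ : L) +ᵥ x) - w = x - (v + w) := by
      rw [e1]
      abel
    rw [e2, e1]
    exact h1
  · have hne : AffineSubspace.perpBisector (0 : EuclideanSpace ℝ (Fin n)) g ≠ ⊤ := by
      rw [Ne, AffineSubspace.perpBisector_eq_top]
      exact fun h => hg (Subtype.ext h.symm)
    refine measure_mono_null ?_ (Measure.addHaar_affineSubspace volume _ hne)
    rintro x ⟨⟨y, hy, rfl⟩, hx⟩
    rw [SetLike.mem_coe, AffineSubspace.mem_perpBisector_iff_dist_eq, dist_eq_norm, dist_eq_norm,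
      sub_zero]
    have e1 : g +ᵥ y = (g : EuclideanSpace ℝ (Fin n)) + y := Submodule.vadd_def g y
    have e2 : (g +ᵥ y) - (g : EuclideanSpace ℝ (Fin n)) = y := by
      rw [e1]
      abel
    refine le_antisymm (hx g g.2) ?_
    have h2 := hy (-(g : EuclideanSpace ℝ (Fin n))) (L.neg_mem g.2)
    show ‖(g +ᵥ y) - (g : EuclideanSpace ℝ (Fin n))‖ ≤ ‖g +ᵥ y‖
    rw [e2, e1]
    have e3 : y - -(g : EuclideanSpace ℝ (Fin n)) = g + y := by abel
    rw [e3] at h2
    exact h2

end Pool.Agent.D4Q
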