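import Pool.Agent.D4Q.Lyr

set_option autoImplicit false

/-!
# P09. Adding a multiple of `x 0 ^ 2`
-/

namespace Pool.Agent.D4Q

open MeasureTheory Matrix

variable {n : ℕ} {Q : Matrix (Fin (n + 1)) (Fin (n + 1)) ℝ}

/-- **The recursion step.** PROOF. Take `p, q` from `schur`. The form `Q' = Q + t E00` has
`low Q' = low Q`, the same `p`, and `q + t` instead of `q` (`qf_E00`), and `LayC Q'` holds with the
same companions (`t * 0 ≤ t * 4`). `layer_formula` for both, with
`I = ∫ z in cube n, (g (z - p) - g z)^2`: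
`q FF Q = q F₁ + q^2 / 12 - I / 4` and `(q + t) FF Q' = (q + t) F₁ + (q + t)^2 / 12 - I / 4`, where
`F₁ = FF (low Q)`. Subtract, multiply by `D₁ = (low Q).det` and use `Q.det = q D₁`,
`Q'.det = (q + t) D₁` (`det_E00`). -/
theorem stepA (hQ : Q.PosDef) (hC : LayC Q) {t : ℝ} (ht : 0 ≤ t) :
    (Q + t • E00 n).det * FF (Q + t • E00 n) =
      Q.det * FF Q + t * ((low Q).det * FF (low Q) + Q.det / 6) + t ^ 2 / 12 * (low Q).det := by
  obtain ⟨p, q, hq, h, hdet⟩ := schur hQ
  have h1 : (low Q).PosDef := posDef_low hQ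
  have hqt : 0 < q + t := by linarith
  have h' : ∀ (r : ℝ) (z : Fin n → ℝ),
      qf (Q + t • E00 n) (Fin.cons r z : Fin (n + 1) → ℝ) =
        qf (low (Q + t • E00 n)) (z + r • p) + (q + t) * r ^ 2 := by
    intro r z
    rw [qf_E00, low_E00, h, Fin.cons_zero]
    ring
  have hC' : LayC (Q + t • E00 n) := by
    intro d hd
    obtain ⟨v, hv0, hv, hvd⟩ := hC d hd
    refine ⟨v, hv0, hv, ?_⟩
    rw [qf_E00, qf_E00]
    have e1 : ic v 0 = 0 := by simp [ic, hv0]
    have e2 : ic d 0 = 2 := by simp [ic, hd]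
    rw [e1, e2]
    linarith
  have f1 := layer_formula hQ h1 hC hq h
  have f2 := layer_formula (posDef_E00 hQ ht) (by rw [low_E00]; exact h1) hC' hqt h'
  rw [low_E00] at f2
  rw [f1, f2, det_E00, hdet]
  field_simp
  ring

end Pool.Agent.D4Q
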