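import Pool.Agent.D4Q.DsqB

set_option autoImplicit false

/-!
# P10. Integral vectors with four coordinates, lists of vectors, Gram matrices
-/

namespace Pool.Agent.D4Q

open Matrix

/-- Integral vectors (also functionals) as tuples, for computations in the kernel. -/
abbrev V := ℤ × ℤ × ℤ × ℤ

/-- The standard pairing. -/
def dot (a b : V) : ℤ := a.1 * b.1 + a.2.1 * b.2.1 + a.2.2.1 * b.2.2.1 + a.2.2.2 * b.2.2.2

/-- `a - k b`. -/
def subm (k : ℤ) (a b : V) : V :=
  (a.1 - k * b.1, a.2.1 - k * b.2.1, a.2.2.1 - k * b.2.2.1, a.2.2.2 - k * b.2.2.2)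

/-- The tuple as a vector. -/
def vc (x : V) : Fin 4 → ℤ := ![x.1, x.2.1, x.2.2.1, x.2.2.2]

/-- The bilinear form with matrix `B` on integral vectors. -/
def bl (B : Matrix (Fin 4) (Fin 4) ℝ) (u v : V) : ℝ := ic (vc u) ⬝ᵥ (B *ᵥ ic (vc v))

/-- The rank one form `x ↦ (a · x)^2`. -/
def r1 (a : V) : Matrix (Fin 4) (Fin 4) ℝ := vecMulVec (ic (vc a)) (ic (vc a))

/-- The linear combination of the members of a list. -/
def comb (cs : List V) (k : Fin cs.length → ℤ) : V := ∑ i, k i • cs.get i

/-- The Gram matrix of a list of vectors. -/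
def gram (B : Matrix (Fin 4) (Fin 4) ℝ) (cs : List V) :
    Matrix (Fin cs.length) (Fin cs.length) ℝ :=
  Matrix.of fun i j => bl B (cs.get i) (cs.get j)

/-- Linear independence. -/
def LI (cs : List V) : Prop := ∀ k : Fin cs.length → ℤ, comb cs k = 0 → k = 0

/-- `x` is an integral combination of the list. -/
def Sp (cs : List V) (x : V) : Prop := ∃ k : Fin cs.length → ℤ, x = comb cs k

/-- `2` divides all coordinates. -/
def Ev (x : V) : Prop := ∃ y : V, x = y + y

/-- Sixty times the determinant times the second moment. -/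
noncomputable def PH {n : ℕ} (M : Matrix (Fin n) (Fin n) ℝ) : ℝ := 60 * M.det * FF M

theorem dot_add (a x y : V) : dot a (x + y) = dot a x + dot a y := by
  simp only [dot, Prod.fst_add, Prod.snd_add]
  ring

theorem dot_sub (a x y : V) : dot a (x - y) = dot a x - dot a y := by
  simp only [dot, Prod.fst_sub, Prod.snd_sub]
  ring

theorem dot_zsmul (a x : V) (k : ℤ) : dot a (k • x) = k * dot a x := by
  simp only [dot, Prod.smul_fst, Prod.smul_snd, smul_eq_mul]
  ring

theorem dot_subm (a x y : V) (k : ℤ) : dot a (subm k x y) = dot a x - k * dot a y := by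
  simp only [dot, subm]
  ring

theorem subm_eq (k : ℤ) (x y : V) : subm k x y = x - k • y := by
  simp only [subm, Prod.ext_iff, Prod.fst_sub, Prod.snd_sub, Prod.smul_fst, Prod.smul_snd,
    smul_eq_mul, and_self]

theorem dot_comb (a : V) (cs : List V) (k : Fin cs.length → ℤ) :
    dot a (comb cs k) = ∑ i, k i * dot a (cs.get i) := by
  unfold comb
  have h := map_sum (AddMonoidHom.mk' (dot a) (dot_add a)) (fun i => k i • cs.get i) Finset.univ
  simp only [AddMonoidHom.mk'_apply] at h
  rw [h]
  exact Finset.sum_congr rfl fun i _ => dot_zsmul a _ _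

theorem comb_cons (c : V) (cs : List V) (r : ℤ) (k : Fin cs.length → ℤ) :
    comb (c :: cs) (Fin.cons r k : Fin (cs.length + 1) → ℤ) = r • c + comb cs k := by
  unfold comb
  exact Fin.sum_univ_succ (n := cs.length) _

theorem comb_add (cs : List V) (k l : Fin cs.length → ℤ) :
    comb cs (k + l) = comb cs k + comb cs l := by
  unfold comb
  rw [← Finset.sum_add_distrib]
  exact Finset.sum_congr rfl fun i _ => by rw [Pi.add_apply, add_smul]

theorem comb_sub (cs : List V) (k l : Fin cs.length → ℤ) :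
    comb cs (k - l) = comb cs k - comb cs l := by
  unfold comb
  rw [← Finset.sum_sub_distrib]
  exact Finset.sum_congr rfl fun i _ => by rw [Pi.sub_apply, sub_smul]

private theorem vc_add (x y : V) : vc (x + y) = vc x + vc y := by
  funext i
  fin_cases i <;> simp [vc]

private theorem vc_zsmul (k : ℤ) (x : V) : vc (k • x) = k • vc x := by
  funext i
  fin_cases i <;> simp [vc]

private theorem ic_add (x y : Fin 4 → ℤ) : ic (x + y) = ic x + ic y := by
  funext i
  simp [ic]

private theorem ic_zsmul (k : ℤ) (x : Fin 4 → ℤ) : ic (k • x) = (k : ℝ) • ic x := by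
  funext i
  simp [ic]

theorem bl_add_left (B : Matrix (Fin 4) (Fin 4) ℝ) (x y z : V) :
    bl B (x + y) z = bl B x z + bl B y z := by
  unfold bl
  rw [vc_add, ic_add, add_dotProduct]

theorem bl_add_right (B : Matrix (Fin 4) (Fin 4) ℝ) (x y z : V) :
    bl B z (x + y) = bl B z x + bl B z y := by
  unfold bl
  rw [vc_add, ic_add, mulVec_add, dotProduct_add]

theorem bl_zsmul_left (B : Matrix (Fin 4) (Fin 4) ℝ) (k : ℤ) (x y : V) :
    bl B (k • x) y = k * bl B x y := by
  unfold bl
  rw [vc_zsmul, ic_zsmul, smul_dotProduct, smul_eq_mul]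

theorem bl_zsmul_right (B : Matrix (Fin 4) (Fin 4) ℝ) (k : ℤ) (x y : V) :
    bl B x (k • y) = k * bl B x y := by
  unfold bl
  rw [vc_zsmul, ic_zsmul, mulVec_smul, dotProduct_smul, smul_eq_mul]

theorem bl_comm {B : Matrix (Fin 4) (Fin 4) ℝ} (hB : B.IsSymm) (x y : V) : bl B x y = bl B y x := by
  unfold bl
  rw [dotProduct_comm, dotProduct_mulVec (ic (vc y)) B, ← mulVec_transpose, hB.eq]

theorem bl_self (B : Matrix (Fin 4) (Fin 4) ℝ) (x : V) : bl B x x = qf B (ic (vc x)) := rfl

theorem bl_r1 (B : Matrix (Fin 4) (Fin 4) ℝ) (a : V) (t : ℝ) (x y : V) :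
    bl (B + t • r1 a) x y = bl B x y + t * dot a x * dot a y := by
  have h1 : bl (r1 a) x y = dot a x * dot a y := by
    simp only [bl, r1, dot, dotProduct, mulVec, vecMulVec_apply, ic, vc, Fin.sum_univ_four]
    simp only [Matrix.cons_val]
    push_cast
    ring
  have h2 : bl (B + t • r1 a) x y = bl B x y + t * bl (r1 a) x y := by
    unfold bl
    rw [add_mulVec, smul_mulVec, dotProduct_add, dotProduct_smul, smul_eq_mul]
  rw [h2, h1]
  ring

/-- the matrix with the columns `cs` -/
private def WW (cs : List V) : Matrix (Fin 4) (Fin cs.length) ℤ :=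
  Matrix.of fun r i => vc (cs.get i) r

private theorem vc_comb (cs : List V) (k : Fin cs.length → ℤ) : vc (comb cs k) = WW cs *ᵥ k := by
  unfold comb
  have h := map_sum (AddMonoidHom.mk' vc vc_add) (fun i => k i • cs.get i) Finset.univ
  simp only [AddMonoidHom.mk'_apply] at h
  rw [h]
  funext r
  rw [Finset.sum_apply]
  unfold mulVec dotProduct
  refine Finset.sum_congr rfl fun i _ => ?_
  rw [vc_zsmul, Pi.smul_apply, smul_eq_mul, mul_comm]
  rfl

private theorem gram_eq (B : Matrix (Fin 4) (Fin 4) ℝ) (cs : List V) :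
    gram B cs = (mc (WW cs))ᵀ * B * mc (WW cs) := by
  rw [Matrix.mul_assoc]
  ext i j
  rw [Matrix.mul_apply]
  simp only [Matrix.mul_apply]
  rfl

private theorem mc_ic (cs : List V) (k : Fin cs.length → ℤ) :
    mc (WW cs) *ᵥ ic k = ic (WW cs *ᵥ k) := by
  funext i
  unfold mc ic mulVec dotProduct
  push_cast
  rfl

/-- The value of the Gram matrix (bilinearity). -/
theorem qf_gram (B : Matrix (Fin 4) (Fin 4) ℝ) (cs : List V) (k : Fin cs.length → ℤ) :
    qf (gram B cs) (ic k) = bl B (comb cs k) (comb cs k) := by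
  rw [bl_self, vc_comb, ← mc_ic, gram_eq]
  unfold qf
  rw [← mulVec_mulVec, ← mulVec_mulVec, dotProduct_mulVec (ic k) (mc (WW cs))ᵀ, vecMul_transpose]

/-- **Positive definite Gram matrices.** PROOF. For real `x ≠ 0` the value is `qf B y` with
`y = ∑ x_i ic (vc (cs i))`; `y ≠ 0` because integral vectors which are linearly independent over the
integers are linearly independent over the reals (`LinearIndependent` over `ℤ` of vectors in `ℤ^n`
implies over `ℚ` and over `ℝ`; or: the Gram determinant over the integers with the standard form is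
a nonzero integer). Hint: `LinearIndependent.map'`, `LinearIndependent.iff_fractionRing`,
`linearIndependent_algebraMap...`; a matrix over `ℤ` with trivial kernel has a nonzero minor. -/
theorem gram_posDef {B : Matrix (Fin 4) (Fin 4) ℝ} (hB : B.PosDef) {cs : List V} (h : LI cs) :
    (gram B cs).PosDef := by
  have hv : ∀ x : V, vc x = 0 → x = 0 := by
    intro x hx
    have h0 := congrFun hx 0
    have h1 := congrFun hx 1
    have h2 := congrFun hx 2
    have h3 := congrFun hx 3
    simp only [vc, Matrix.cons_val, Pi.zero_apply] at h0 h1 h2 h3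
    exact Prod.ext h0 (Prod.ext h1 (Prod.ext h2 h3))
  have hdet : ((WW cs)ᵀ * WW cs).det ≠ 0 := by
    intro h0
    obtain ⟨v, hv0, hv1⟩ := Matrix.exists_mulVec_eq_zero_iff.2 h0
    have h2 : (WW cs *ᵥ v) ⬝ᵥ (WW cs *ᵥ v) = 0 := by
      have h3 : v ⬝ᵥ (((WW cs)ᵀ * WW cs) *ᵥ v) = 0 := by rw [hv1, dotProduct_zero]
      rw [← mulVec_mulVec, dotProduct_mulVec v (WW cs)ᵀ, vecMul_transpose] at h3
      exact h3
    have h3 : WW cs *ᵥ v = 0 := dotProduct_self_eq_zero.1 h2
    exact hv0 (h v (hv _ (by rw [vc_comb, h3])))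
  have hdet2 : ((mc (WW cs))ᵀ * mc (WW cs)).det ≠ 0 := by
    have h1 : ((mc (WW cs))ᵀ * mc (WW cs)) = ((WW cs)ᵀ * WW cs).map (Int.castRingHom ℝ) := by
      rw [Matrix.map_mul]
      rfl
    rw [h1]
    have h2 := (Int.castRingHom ℝ).map_det ((WW cs)ᵀ * WW cs)
    rw [RingHom.mapMatrix_apply] at h2
    rw [← h2]
    simpa using hdet
  have hinj : Function.Injective (mc (WW cs)).mulVec := by
    intro x y hxy
    have h1 : mc (WW cs) *ᵥ (x - y) = 0 := by
      rw [mulVec_sub]
      exact sub_eq_zero.2 hxy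
    have h2 : ((mc (WW cs))ᵀ * mc (WW cs)) *ᵥ (x - y) = 0 := by
      rw [← mulVec_mulVec, h1, mulVec_zero]
    exact sub_eq_zero.1 (Matrix.eq_zero_of_mulVec_eq_zero hdet2 h2)
  have h5 := hB.conjTranspose_mul_mul_same hinj
  rw [conjTranspose_eq_transpose_of_trivial] at h5
  rw [gram_eq]
  exact h5

theorem r1_posSemidef (a : V) : (r1 a).PosSemidef := by
  have h := Matrix.posSemidef_vecMulVec_self_star (ic (vc a))
  rwa [star_trivial] at h

end Pool.Agent.D4Q
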