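import Pool.Agent.D4Q.DnB
import Pool.Agent.D4Q.StepA
import Pool.Agent.D4Q.Vec

set_option autoImplicit false

/-!
# P16. Second moments of the forms of the leaves
-/

namespace Pool.Agent.D4Q

open Matrix

/-- The table of the ternary forms (upper triangular entries). -/
def T3 : List (ℤ × ℤ × ℤ × ℤ × ℤ × ℤ) :=
  [(2, 1, 0, 2, -1, 2), (2, -1, 0, 2, -2, 4), (2, 1, 0, 2, -2, 4), (2, -1, 0, 2, -1, 2),
    (2, 0, 1, 2, -1, 2), (4, -2, 0, 2, -1, 2)]

/-- The table of the binary forms of determinant four. -/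
def T2a : List (ℤ × ℤ × ℤ) := [(2, -2, 4), (2, 0, 2), (2, 2, 4), (4, -2, 2)]

/-- The table of the binary forms of determinant three. -/
def T2b : List (ℤ × ℤ × ℤ) := [(2, 1, 2), (2, -3, 6), (2, -1, 2)]

private theorem dnG2 : DnG 2 = !![4, 2, 2; 2, 2, 1; 2, 1, 2] := by
  ext i j
  fin_cases i <;> fin_cases j <;> simp [DnG]

private theorem dnG1 : DnG 1 = !![4, 2; 2, 2] := by
  ext i j
  fin_cases i <;> fin_cases j <;> simp [DnG]

private theorem leaf3 (W : Matrix (Fin 3) (Fin 3) ℤ) (hW : W.det = 1 ∨ W.det = -1)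
    {M : Matrix (Fin 3) (Fin 3) ℝ} (h : tr W (DnG 2) = M) : M.det = 4 ∧ FF M = 3 / 8 := by
  have hu : IsUnit W.det := Int.isUnit_iff.2 hW
  rw [← h, det_tr W hu, FF_tr W hu, FF_DnG, dnG2, Matrix.det_fin_three]
  constructor
  · simp
    norm_num
  · norm_num

private theorem leaf2 (W : Matrix (Fin 2) (Fin 2) ℤ) (hW : W.det = 1 ∨ W.det = -1)
    {M : Matrix (Fin 2) (Fin 2) ℝ} (h : tr W (DnG 1) = M) : M.det = 4 ∧ FF M = 1 / 3 := by
  have hu : IsUnit W.det := Int.isUnit_iff.2 hW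
  rw [← h, det_tr W hu, FF_tr W hu, FF_DnG, dnG1, Matrix.det_fin_two]
  constructor
  · simp
    norm_num
  · norm_num

/-- **Ternary leaves.** PROOF. Every form of the table is `tr W (DnG 2)` with an explicit matrix `W`
of determinant one or minus one (rows of `W` in the order of the table:
`![![-1,-1,0],![0,1,0],![1,0,1]]`, `![![-1,0,1],![0,1,-2],![1,-1,0]]`,
`![![-1,-1,1],![0,1,-2],![1,0,0]]`, `![![-1,0,0],![0,1,0],![1,-1,1]]`,
`![![-1,0,-1],![0,0,1],![1,-1,1]]`, `![![-1,0,0],![0,0,1],![0,1,-1]]`); `FF_tr` and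
`FF_DnG 2 : FF = 3/12 + 1/8 = 3/8`. -/
theorem FF_T3 {a b c d e f : ℤ} (h : (a, b, c, d, e, f) ∈ T3) :
    (!![(a : ℝ), b, c; b, d, e; c, e, f]).det = 4 ∧
      FF !![(a : ℝ), b, c; b, d, e; c, e, f] = 3 / 8 := by
  simp only [T3, List.mem_cons, List.not_mem_nil, or_false, Prod.mk.injEq] at h
  obtain ⟨rfl, rfl, rfl, rfl, rfl, rfl⟩ | ⟨rfl, rfl, rfl, rfl, rfl, rfl⟩ |
    ⟨rfl, rfl, rfl, rfl, rfl, rfl⟩ | ⟨rfl, rfl, rfl, rfl, rfl, rfl⟩ |
    ⟨rfl, rfl, rfl, rfl, rfl, rfl⟩ | ⟨rfl, rfl, rfl, rfl, rfl, rfl⟩ := h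
  · refine leaf3 !![-1, -1, 0; 0, 1, 0; 1, 0, 1] (by simp [Matrix.det_fin_three]) ?_
    rw [dnG2]
    ext i j
    fin_cases i <;> fin_cases j <;>
      simp only [tr, mc, Matrix.mul_apply, Fin.sum_univ_three, Matrix.transpose_apply,
        Matrix.map_apply, Matrix.of_apply, Matrix.cons_val] <;> norm_num
  · refine leaf3 !![-1, 0, 1; 0, 1, -2; 1, -1, 0] (by simp [Matrix.det_fin_three]) ?_
    rw [dnG2]
    ext i j
    fin_cases i <;> fin_cases j <;>
      simp only [tr, mc, Matrix.mul_apply, Fin.sum_univ_three, Matrix.transpose_apply,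
        Matrix.map_apply, Matrix.of_apply, Matrix.cons_val] <;> norm_num
  · refine leaf3 !![-1, -1, 1; 0, 1, -2; 1, 0, 0] (by simp [Matrix.det_fin_three]) ?_
    rw [dnG2]
    ext i j
    fin_cases i <;> fin_cases j <;>
      simp only [tr, mc, Matrix.mul_apply, Fin.sum_univ_three, Matrix.transpose_apply,
        Matrix.map_apply, Matrix.of_apply, Matrix.cons_val] <;> norm_num
  · refine leaf3 !![-1, 0, 0; 0, 1, 0; 1, -1, 1] (by simp [Matrix.det_fin_three]) ?_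
    rw [dnG2]
    ext i j
    fin_cases i <;> fin_cases j <;>
      simp only [tr, mc, Matrix.mul_apply, Fin.sum_univ_three, Matrix.transpose_apply,
        Matrix.map_apply, Matrix.of_apply, Matrix.cons_val] <;> norm_num
  · refine leaf3 !![-1, 0, -1; 0, 0, 1; 1, -1, 1] (by simp [Matrix.det_fin_three]) ?_
    rw [dnG2]
    ext i j
    fin_cases i <;> fin_cases j <;>
      simp only [tr, mc, Matrix.mul_apply, Fin.sum_univ_three, Matrix.transpose_apply,
        Matrix.map_apply, Matrix.of_apply, Matrix.cons_val] <;> norm_num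
  · refine leaf3 !![-1, 0, 0; 0, 0, 1; 0, 1, -1] (by simp [Matrix.det_fin_three]) ?_
    rw [dnG2]
    ext i j
    fin_cases i <;> fin_cases j <;>
      simp only [tr, mc, Matrix.mul_apply, Fin.sum_univ_three, Matrix.transpose_apply,
        Matrix.map_apply, Matrix.of_apply, Matrix.cons_val] <;> norm_num

/-- **Binary leaves of determinant four.** `tr W (DnG 1)`, in the order of the table
`![![-1,1],![1,-2]]`, `![![-1,0],![1,-1]]`, `![![-1,-1],![1,0]]`, `![![-1,0],![0,1]]`. -/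
theorem FF_T2a {a b d : ℤ} (h : (a, b, d) ∈ T2a) :
    (!![(a : ℝ), b; b, d]).det = 4 ∧ FF !![(a : ℝ), b; b, d] = 1 / 3 := by
  simp only [T2a, List.mem_cons, List.not_mem_nil, or_false, Prod.mk.injEq] at h
  obtain ⟨rfl, rfl, rfl⟩ | ⟨rfl, rfl, rfl⟩ | ⟨rfl, rfl, rfl⟩ | ⟨rfl, rfl, rfl⟩ := h
  · refine leaf2 !![-1, 1; 1, -2] (by simp [Matrix.det_fin_two]) ?_
    rw [dnG1]
    ext i j
    fin_cases i <;> fin_cases j <;>
      norm_num [tr, mc, Matrix.mul_apply, Fin.sum_univ_two]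
  · refine leaf2 !![-1, 0; 1, -1] (by simp [Matrix.det_fin_two]) ?_
    rw [dnG1]
    ext i j
    fin_cases i <;> fin_cases j <;>
      norm_num [tr, mc, Matrix.mul_apply, Fin.sum_univ_two]
  · refine leaf2 !![-1, -1; 1, 0] (by simp [Matrix.det_fin_two]) ?_
    rw [dnG1]
    ext i j
    fin_cases i <;> fin_cases j <;>
      norm_num [tr, mc, Matrix.mul_apply, Fin.sum_univ_two]
  · refine leaf2 !![-1, 0; 0, 1] (by simp [Matrix.det_fin_two]) ?_
    rw [dnG1]
    ext i j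
    fin_cases i <;> fin_cases j <;>
      norm_num [tr, mc, Matrix.mul_apply, Fin.sum_univ_two]

/-- The auxiliary form. -/
private theorem q0_eq : tr !![(1 : ℤ), 1; 0, 1] (1 : Matrix (Fin 2) (Fin 2) ℝ) =
    !![(1 : ℝ), 1; 1, 2] := by
  ext i j
  fin_cases i <;> fin_cases j <;>
    norm_num [tr, mc, Matrix.mul_apply, Fin.sum_univ_two]

private theorem q0_unit : IsUnit (!![(1 : ℤ), 1; 0, 1]).det := by
  simp [Matrix.det_fin_two]

private theorem q0_lay : LayC !![(1 : ℝ), 1; 1, 2] := by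
  have hq : ∀ l : Fin 2 → ℤ, qf !![(1 : ℝ), 1; 1, 2] (ic l) =
      ((l 0 : ℝ) + l 1) ^ 2 + (l 1 : ℝ) ^ 2 := by
    intro l
    simp only [qf, ic, dotProduct, mulVec, Fin.sum_univ_two, Matrix.of_apply, Matrix.cons_val',
      Matrix.cons_val_zero, Matrix.cons_val_one, Matrix.cons_val_fin_one]
    ring
  intro d hd
  refine ⟨![0, d 1 % 2], rfl, ?_, ?_⟩
  · intro i
    fin_cases i
    · show (2 : ℤ) ∣ d 0 - 0
      rw [hd]
      norm_num
    · show (2 : ℤ) ∣ d 1 - d 1 % 2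
      omega
  · rw [hq, hq, hd]
    show (((0 : ℤ) : ℝ) + ((d 1 % 2 : ℤ) : ℝ)) ^ 2 + ((d 1 % 2 : ℤ) : ℝ) ^ 2 ≤
      (((2 : ℤ) : ℝ) + (d 1 : ℝ)) ^ 2 + (d 1 : ℝ) ^ 2
    have key : ((0 : ℤ) + (d 1 % 2 : ℤ)) ^ 2 + (d 1 % 2 : ℤ) ^ 2 ≤
        ((2 : ℤ) + d 1) ^ 2 + d 1 ^ 2 := by
      rcases Int.emod_two_eq_zero_or_one (d 1) with h | h
      · rw [h]
        positivity
      · rw [h]
        have h1 : d 1 ≠ 0 := by
          intro h2
          rw [h2] at h
          norm_num at h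
        have h3 : (2 : ℤ) + d 1 ≠ 0 := by omega
        have h4 : 1 ≤ d 1 ^ 2 := by
          have := sq_pos_of_ne_zero h1
          omega
        have h5 : 1 ≤ (2 + d 1) ^ 2 := by
          have := sq_pos_of_ne_zero h3
          omega
        linarith
    exact_mod_cast key

private theorem ff_const (n : ℕ) {g : ℝ} (hg : 0 ≤ g) :
    FF (Matrix.diagonal fun _ : Fin n => g) = n * g / 12 := by
  rw [FF_diag fun _ => hg]
  simp

/-- **The hexagonal form.** PROOF. `stepA` for the form `Q = tr W 1` (`W` with columns `(1, 0)` and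
`(1, 1)`), that is `Q[x] = (x 0 + x 1)^2 + x 1^2 = x 0^2 + 2 x 0 x 1 + 2 x 1^2`, and `t = 1`:
`LayC`: for `d 0 = 2` take `v 0 = 0` and `v 1` equal to `0` or `1`, congruent to `d 1`; if `d 1` is
odd then `Q[d] = (2 + d 1)^2 + d 1^2 ≥ 2 = Q[v]`. `Q.det = 1`, `FF Q = FF 1 = 2/12`
(`FF_diag`, `FF_tr`), `low Q` is the form `2 y^2` with determinant `2` and second moment `2/12`. So
`3 FF = 1/6 + (1/3 + 1/6) + 1/6 = 5/6` for the form `2 x0^2 + 2 x0 x1 + 2 x1^2`. -/
theorem FF_hex : FF !![(2 : ℝ), 1; 1, 2] = 5 / 18 := by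
  have hQ : (!![(1 : ℝ), 1; 1, 2]).PosDef := by
    rw [← q0_eq]
    exact posDef_tr Matrix.PosDef.one _ q0_unit
  have h := stepA (n := 1) hQ q0_lay (t := 1) zero_le_one
  have e1 : !![(1 : ℝ), 1; 1, 2] + (1 : ℝ) • E00 1 = !![(2 : ℝ), 1; 1, 2] := by
    ext i j
    fin_cases i <;> fin_cases j <;> norm_num [E00]
  have e2 : low !![(1 : ℝ), 1; 1, 2] = Matrix.diagonal fun _ : Fin 1 => (2 : ℝ) := by
    ext i j
    fin_cases i
    fin_cases j
    simp [low]
  have e3 : FF !![(1 : ℝ), 1; 1, 2] = 1 / 6 := by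
    rw [← q0_eq, FF_tr _ q0_unit, ← Matrix.diagonal_one, ff_const 2 zero_le_one]
    norm_num
  have e4 : (!![(1 : ℝ), 1; 1, 2]).det = 1 := by
    rw [Matrix.det_fin_two]
    norm_num
  have e5 : (!![(2 : ℝ), 1; 1, 2]).det = 3 := by
    rw [Matrix.det_fin_two]
    norm_num
  have e6 : (Matrix.diagonal fun _ : Fin 1 => (2 : ℝ)).det = 2 := by
    rw [Matrix.det_diagonal]
    simp
  rw [e1, e2, e3, e4, e5, e6, ff_const 1 zero_le_two] at h
  norm_num at h
  linarith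

/-- **Binary leaves of determinant three.** `tr W` of the hexagonal form with explicit `W`. -/
theorem FF_T2b {a b d : ℤ} (h : (a, b, d) ∈ T2b) :
    (!![(a : ℝ), b; b, d]).det = 3 ∧ FF !![(a : ℝ), b; b, d] = 5 / 18 := by
  have key : ∀ (W : Matrix (Fin 2) (Fin 2) ℤ) (_ : W.det = 1 ∨ W.det = -1)
      (M : Matrix (Fin 2) (Fin 2) ℝ) (_ : tr W !![(2 : ℝ), 1; 1, 2] = M),
      M.det = 3 ∧ FF M = 5 / 18 := by
    intro W hW M hM
    have hu : IsUnit W.det := Int.isUnit_iff.2 hW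
    rw [← hM, det_tr W hu, FF_tr W hu, FF_hex, Matrix.det_fin_two]
    constructor
    · norm_num
    · rfl
  simp only [T2b, List.mem_cons, List.not_mem_nil, or_false, Prod.mk.injEq] at h
  obtain ⟨rfl, rfl, rfl⟩ | ⟨rfl, rfl, rfl⟩ | ⟨rfl, rfl, rfl⟩ := h
  · refine key !![-1, -1; 0, 1] (by simp [Matrix.det_fin_two]) _ ?_
    ext i j
    fin_cases i <;> fin_cases j <;>
      norm_num [tr, mc, Matrix.mul_apply, Fin.sum_univ_two]
  · refine key !![-1, 1; 0, 1] (by simp [Matrix.det_fin_two]) _ ?_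
    ext i j
    fin_cases i <;> fin_cases j <;>
      norm_num [tr, mc, Matrix.mul_apply, Fin.sum_univ_two]
  · refine key !![-1, 0; 0, 1] (by simp [Matrix.det_fin_two]) _ ?_
    ext i j
    fin_cases i <;> fin_cases j <;>
      norm_num [tr, mc, Matrix.mul_apply, Fin.sum_univ_two]

/-- `FF_diag` in dimension one. -/
theorem FF_one (g : ℝ) (hg : 0 ≤ g) : FF !![g] = g / 12 := by
  have e : !![g] = Matrix.diagonal fun _ : Fin 1 => g := by
    ext i j
    fin_cases i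
    fin_cases j
    simp
  rw [e, ff_const 1 hg]
  simp

/-- Dimension zero: everything is zero. -/
theorem FF_zero (Q : Matrix (Fin 0) (Fin 0) ℝ) : FF Q = 0 := by
  have h : ∀ x, dsq Q x = 0 := by
    intro x
    unfold dsq
    have h1 : ∀ l : Fin 0 → ℤ, qf Q (x - ic l) = 0 := by
      intro l
      simp [qf]
    rw [iInf_congr h1, ciInf_const]
  unfold FF
  simp [h]

end Pool.Agent.D4Q
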