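import Pool.Agent.D4Q.Defs

set_option autoImplicit false

/-!
# P07. Completing the square
-/

namespace Pool.Agent.D4Q

open Matrix

variable {n : ℕ} {Q : Matrix (Fin (n + 1)) (Fin (n + 1)) ℝ}

private theorem qf_pos {m : ℕ} {A : Matrix (Fin m) (Fin m) ℝ} (hA : A.PosDef) {x : Fin m → ℝ}
    (hx : x ≠ 0) : 0 < qf A x := by
  have h := hA.dotProduct_mulVec_pos hx
  rwa [star_trivial] at h

private theorem symm_entry {m : ℕ} {A : Matrix (Fin m) (Fin m) ℝ} (hA : A.PosDef)
    (i j : Fin m) : A i j = A j i := by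
  have h := hA.isHermitian.apply j i
  rwa [star_trivial] at h

private theorem posDef_of {m : ℕ} {A : Matrix (Fin m) (Fin m) ℝ} (hs : ∀ i j, A i j = A j i)
    (h : ∀ x, x ≠ 0 → 0 < qf A x) : A.PosDef := by
  refine Matrix.PosDef.of_dotProduct_mulVec_pos (Matrix.IsHermitian.ext fun i j => ?_)
    fun x hx => ?_
  · rw [star_trivial]
    exact hs j i
  · rw [star_trivial]
    exact h x hx

private theorem qf_cons (A : Matrix (Fin (n + 1)) (Fin (n + 1)) ℝ) (r : ℝ) (z : Fin n → ℝ) :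
    qf A (Fin.cons r z : Fin (n + 1) → ℝ) = A 0 0 * r ^ 2 +
      r * ((fun j : Fin n => A 0 j.succ) ⬝ᵥ z) + r * ((fun i : Fin n => A i.succ 0) ⬝ᵥ z) +
      qf (low A) z := by
  simp only [qf, dotProduct, mulVec, Fin.sum_univ_succ, Fin.cons_zero, Fin.cons_succ, low,
    submatrix_apply, mul_add, Finset.sum_add_distrib]
  have h1 : ∑ i : Fin n, z i * (A i.succ 0 * r) = r * ∑ i : Fin n, A i.succ 0 * z i := by
    rw [Finset.mul_sum]
    exact Finset.sum_congr rfl fun i _ => by ring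
  rw [h1]
  ring

theorem posDef_low (hQ : Q.PosDef) : (low Q).PosDef := by
  refine posDef_of (fun i j => symm_entry hQ _ _) fun x hx => ?_
  have h1 := qf_cons Q 0 x
  have h2 : 0 < qf Q (Fin.cons 0 x : Fin (n + 1) → ℝ) := by
    refine qf_pos hQ fun h => hx ?_
    funext i
    have h3 := congrFun h i.succ
    rwa [Fin.cons_succ] at h3
  rw [h1] at h2
  simpa using h2

/-- **Completing the square.** PROOF. Let `b i = Q (succ i) 0`, `p = (low Q)⁻¹ b`,
`q = Q 0 0 - b ⬝ᵥ p`. Expand `qf Q (cons r z) = Q 0 0 r^2 + 2 r (b ⬝ᵥ z) + qf (low Q) z` and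
`qf (low Q) (z + r p) = qf (low Q) z + 2 r (z ⬝ᵥ b) + r^2 (p ⬝ᵥ b)` (symmetry). `q > 0`: it is the
value of `qf Q` at `cons 1 (-p)`. Determinant: subtract from the first row the combination of the
other rows with coefficients `p` (or `Matrix.det_fromBlocks₂₂`, or apply the identity
`Q = Cᵀ diag(q, low Q) C` with the unipotent matrix `C` of `(r, z) ↦ (r, z + r p)`). -/
theorem schur (hQ : Q.PosDef) :
    ∃ (p : Fin n → ℝ) (q : ℝ), 0 < q ∧
      (∀ (r : ℝ) (z : Fin n → ℝ),
        qf Q (Fin.cons r z : Fin (n + 1) → ℝ) = qf (low Q) (z + r • p) + q * r ^ 2) ∧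
      Q.det = q * (low Q).det := by
  have hL := posDef_low hQ
  have hu : IsUnit (low Q) := hL.isUnit
  let iD : Invertible (low Q) := hu.invertible
  obtain ⟨b, hb⟩ : ∃ b : Fin n → ℝ, b = fun i => Q i.succ 0 := ⟨_, rfl⟩
  have hb' : (fun j : Fin n => Q 0 j.succ) = b := by
    rw [hb]
    funext j
    exact symm_entry hQ _ _
  obtain ⟨p, hp⟩ : ∃ p : Fin n → ℝ, p = (⅟(low Q)) *ᵥ b := ⟨_, rfl⟩
  have hLp : low Q *ᵥ p = b := by
    rw [hp, mulVec_mulVec, mul_invOf_self, one_mulVec]
  have hsymm : ∀ z : Fin n → ℝ, p ⬝ᵥ (low Q *ᵥ z) = b ⬝ᵥ z := by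
    intro z
    have h1 : (low Q)ᵀ = low Q := by
      ext i j
      exact symm_entry hQ _ _
    rw [dotProduct_mulVec, ← mulVec_transpose, h1, hLp]
  have hexp : ∀ (r : ℝ) (z : Fin n → ℝ), qf Q (Fin.cons r z : Fin (n + 1) → ℝ) =
      qf (low Q) (z + r • p) + (Q 0 0 - b ⬝ᵥ p) * r ^ 2 := by
    intro r z
    have h1 : qf (low Q) (z + r • p) =
        qf (low Q) z + 2 * r * (b ⬝ᵥ z) + r ^ 2 * (b ⬝ᵥ p) := by
      unfold qf
      rw [mulVec_add, mulVec_smul, hLp, add_dotProduct, dotProduct_add, dotProduct_add,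
        smul_dotProduct, smul_dotProduct, dotProduct_smul, dotProduct_smul, hsymm,
        dotProduct_comm z b, dotProduct_comm p b]
      simp only [smul_eq_mul]
      ring
    rw [qf_cons, h1, hb', ← hb]
    ring
  have hq : 0 < Q 0 0 - b ⬝ᵥ p := by
    have h1 := hexp 1 (-p)
    have h2 : 0 < qf Q (Fin.cons 1 (-p) : Fin (n + 1) → ℝ) := by
      refine qf_pos hQ fun h => ?_
      have h3 := congrFun h 0
      rw [Fin.cons_zero] at h3
      exact one_ne_zero h3
    rw [h1, one_smul, neg_add_cancel] at h2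
    have h4 : qf (low Q) 0 = 0 := by
      unfold qf
      rw [mulVec_zero, dotProduct_zero]
    rw [h4] at h2
    linarith
  refine ⟨p, Q 0 0 - b ⬝ᵥ p, hq, hexp, ?_⟩
  let e : Unit ⊕ Fin n ≃ Fin (n + 1) :=
    { toFun := Sum.elim (fun _ => 0) Fin.succ
      invFun := Fin.cases (Sum.inl ()) Sum.inr
      left_inv := by
        rintro (a | a)
        · rfl
        · simp
      right_inv := by
        intro a
        refine Fin.cases ?_ (fun i => ?_) a
        · simp
        · simp }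
  have h1 : Q.submatrix e e = Matrix.fromBlocks (Matrix.of fun _ _ : Unit => Q 0 0)
      (Matrix.of fun (_ : Unit) (j : Fin n) => Q 0 j.succ)
      (Matrix.of fun (i : Fin n) (_ : Unit) => Q i.succ 0) (low Q) := by
    ext i j
    rcases i with i | i <;> rcases j with j | j <;> rfl
  rw [← Matrix.det_submatrix_equiv_self e Q, h1, Matrix.det_fromBlocks₂₂, mul_comm]
  congr 1
  rw [Matrix.det_unique, Matrix.sub_apply, Matrix.mul_assoc]
  have h2 : ((Matrix.of fun (_ : Unit) (j : Fin n) => Q 0 j.succ) *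
      (⅟(low Q) * (Matrix.of fun (i : Fin n) (_ : Unit) => Q i.succ 0))) default default =
      b ⬝ᵥ p := by
    have g1 : ∀ j : Fin n, Q 0 j.succ = b j := fun j => congrFun hb' j
    have g2 : ∀ j : Fin n, Q j.succ 0 = b j := fun j => by rw [hb]
    rw [Matrix.mul_apply, hp, dotProduct]
    refine Finset.sum_congr rfl fun j _ => ?_
    rw [Matrix.mul_apply, mulVec, dotProduct]
    simp only [Matrix.of_apply, g1, g2]
  rw [h2]
  rfl

/-- The determinant is affine in the entry `(0, 0)` (expand along the first row). -/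
theorem det_E00 (t : ℝ) : (Q + t • E00 n).det = Q.det + t * (low Q).det := by
  rw [Matrix.det_succ_row_zero, Matrix.det_succ_row_zero Q, Fin.sum_univ_succ,
    Fin.sum_univ_succ]
  have h1 : ∀ j : Fin (n + 1), (Q + t • E00 n).submatrix Fin.succ j.succAbove =
      Q.submatrix Fin.succ j.succAbove := by
    intro j
    ext i l
    simp [E00, Fin.succ_ne_zero]
  have h2 : (Q + t • E00 n) 0 0 = Q 0 0 + t := by simp [E00]
  have h3 : ∀ j : Fin n, (Q + t • E00 n) 0 j.succ = Q 0 j.succ := by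
    intro j
    simp [E00, Fin.succ_ne_zero]
  have h4 : Q.submatrix Fin.succ (Fin.succAbove 0) = low Q := by
    rw [Fin.succAbove_zero]
    rfl
  simp only [h1, h2, h3, h4]
  simp only [Fin.val_zero, pow_zero, one_mul]
  ring

theorem low_E00 (t : ℝ) : low (Q + t • E00 n) = low Q := by
  ext i j
  simp [low, E00, Fin.succ_ne_zero]

theorem qf_E00 (t : ℝ) (x : Fin (n + 1) → ℝ) : qf (Q + t • E00 n) x = qf Q x + t * x 0 ^ 2 := by
  have h1 : E00 n *ᵥ x = fun i => if i = 0 then x 0 else 0 := by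
    funext i
    unfold E00 mulVec dotProduct
    by_cases hi : i = 0
    · simp [hi]
    · simp [hi]
  have h2 : x ⬝ᵥ (E00 n *ᵥ x) = x 0 ^ 2 := by
    rw [h1, dotProduct]
    simp [pow_two]
  unfold qf
  rw [add_mulVec, dotProduct_add, smul_mulVec, dotProduct_smul, h2, smul_eq_mul]

theorem posDef_E00 (hQ : Q.PosDef) {t : ℝ} (ht : 0 ≤ t) : (Q + t • E00 n).PosDef := by
  refine posDef_of (fun i j => ?_) fun x hx => ?_
  · rw [Matrix.add_apply, Matrix.add_apply, Matrix.smul_apply, Matrix.smul_apply,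
      symm_entry hQ i j]
    congr 2
    unfold E00
    rw [Matrix.of_apply, Matrix.of_apply]
    simp only [and_comm]
  · rw [qf_E00]
    have h1 := qf_pos hQ hx
    positivity

end Pool.Agent.D4Q
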