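import Pool.Agent.D4Q.DsqB
import Pool.Agent.D4Q.Core
import Pool.Agent.D4Q.Schur

set_option autoImplicit false

/-!
# P08. The layer formula for quadratic forms
-/

namespace Pool.Agent.D4Q

open MeasureTheory Matrix

variable {n : ℕ} {Q : Matrix (Fin (n + 1)) (Fin (n + 1)) ℝ}

/-- **Convex layers**, combinatorial form, for the functional `x 0`: every integral vector `d` with
`d 0 = 2` has a companion `v ≡ d (mod 2)` with `v 0 = 0` and `Q[v] ≤ Q[d]`. -/
def LayC (Q : Matrix (Fin (n + 1)) (Fin (n + 1)) ℝ) : Prop :=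
  ∀ d : Fin (n + 1) → ℤ, d 0 = 2 →
    ∃ v : Fin (n + 1) → ℤ, v 0 = 0 ∧ (∀ i, (2 : ℤ) ∣ d i - v i) ∧ qf Q (ic v) ≤ qf Q (ic d)

private theorem lyr_cons_sub (r : ℝ) (z : Fin n → ℝ) (l : Fin (n + 1) → ℤ) :
    (Fin.cons r z : Fin (n + 1) → ℝ) - ic l =
      Fin.cons (r - (l 0 : ℝ)) (z - ic fun i => l i.succ) := by
  funext i
  refine Fin.cases ?_ (fun j => ?_) i
  · simp [ic]
  · simp [ic]

private theorem lyr_vec (r k : ℝ) (z p : Fin n → ℝ) (l : Fin n → ℤ) :
    z - ic l + (r - k) • p = z + r • p - k • p - ic l := by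
  rw [sub_smul]
  abel

private theorem lyr_par (Q : Matrix (Fin n) (Fin n) ℝ) (a b : Fin n → ℝ) :
    qf Q (a + b) + qf Q (a - b) = 2 * qf Q a + 2 * qf Q b := by
  simp only [qf, Matrix.mulVec_add, Matrix.mulVec_sub, dotProduct_add, dotProduct_sub,
    add_dotProduct, sub_dotProduct]
  ring

/-- **Distance by layers.** PROOF. The infimum over `l : Fin (n + 1) → ℤ` is the infimum over
`k = l 0` of the infimum over the tail `l'`; `cons r z - ic (cons k l') = cons (r - k) (z - ic l')`,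
so by `h` the inner infimum is `⨅ l', qf (low Q) (z + (r - k) p - ic l') + q (r - k)^2`
`= dsq (low Q) (z + (r - k) • p) + q (r - k)^2`. (All families are bounded below by zero;
`Equiv.iInf_congr` with `Fin.consEquiv`/`Fin.insertNthEquiv`, `ciInf_prod` or two inequalities using
`dsq_le` and `dsq_attained`.) -/
theorem dsq_cons (hQ : Q.PosDef) (h1 : (low Q).PosDef) {p : Fin n → ℝ} {q : ℝ} (hq : 0 < q)
    (h : ∀ (r : ℝ) (z : Fin n → ℝ),
      qf Q (Fin.cons r z : Fin (n + 1) → ℝ) = qf (low Q) (z + r • p) + q * r ^ 2)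
    (r : ℝ) (z : Fin n → ℝ) :
    dsq Q (Fin.cons r z : Fin (n + 1) → ℝ) = lay (dsq (low Q)) p q (z + r • p) r := by
  apply le_antisymm
  · refine le_ciInf fun k => ?_
    obtain ⟨l, hl⟩ := dsq_attained h1 (z + r • p - (k : ℝ) • p)
    have h2 := dsq_le hQ (Fin.cons r z : Fin (n + 1) → ℝ) (Fin.cons k l : Fin (n + 1) → ℤ)
    rw [lyr_cons_sub, h] at h2
    simp only [Fin.cons_zero, Fin.cons_succ] at h2
    rw [lyr_vec] at h2
    rw [hl]
    exact h2
  · obtain ⟨l, hl⟩ := dsq_attained hQ (Fin.cons r z : Fin (n + 1) → ℝ)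
    rw [hl, lyr_cons_sub, h, lyr_vec]
    have hb : BddBelow (Set.range fun k : ℤ =>
        dsq (low Q) (z + r • p - (k : ℝ) • p) + q * (r - k) ^ 2) := by
      refine ⟨0, ?_⟩
      rintro _ ⟨k, rfl⟩
      have h3 := dsq_nonneg h1 (z + r • p - (k : ℝ) • p)
      positivity
    refine (ciInf_le hb (l 0)).trans ?_
    have h3 := dsq_le h1 (z + r • p - ((l 0 : ℤ) : ℝ) • p) fun i => l i.succ
    linarith

/-- **Convexity of the layers.** PROOF. Let `g = dsq (low Q)`. Given `z`, consider the point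
`x = cons 0 z`. Choose minimizers: `g (z - p) = qf (low Q) (z - p - ic l')` and
`g (z + p) = qf (low Q) (z + p - ic l'')`; put `l₊ = cons 1 l'`, `l₋ = cons (-1) l''`. By `h`,
`qf Q (x - ic l₊) = g (z - p) + q` and `qf Q (x - ic l₋) = g (z + p) + q`. Let `d = l₊ - l₋`, so
`d 0 = 2`, and take `v` from `hC`. Put `l₀ = (l₊ + l₋ + v) / 2`, `l₀' = (l₊ + l₋ - v) / 2`,
integral since `l₊ + l₋ = d + 2 l₋` and `d ≡ v`; both have first coordinate `0`. The parallelogram
identity gives `qf Q (x - l₊) + qf Q (x - l₋) = (qf Q (2 x - l₊ - l₋) + qf Q d) / 2` and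
`qf Q (x - l₀) + qf Q (x - l₀') = (qf Q (2 x - l₊ - l₋) + qf Q v) / 2`. Hence
`g (z - p) + g (z + p) + 2 q ≥ qf Q (x - l₀) + qf Q (x - l₀') ≥ 2 g z`, the last step because
`qf Q (x - ic (cons 0 l)) = qf (low Q) (z - ic l) ≥ g z`. -/
theorem layC_second (hQ : Q.PosDef) (h1 : (low Q).PosDef) (hC : LayC Q) {p : Fin n → ℝ} {q : ℝ}
    (hq : 0 < q)
    (h : ∀ (r : ℝ) (z : Fin n → ℝ),
      qf Q (Fin.cons r z : Fin (n + 1) → ℝ) = qf (low Q) (z + r • p) + q * r ^ 2)
    (z : Fin n → ℝ) :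
    -(2 * q) ≤ dsq (low Q) (z + p) + dsq (low Q) (z - p) - 2 * dsq (low Q) z := by
  obtain ⟨lp, hlp⟩ := dsq_attained h1 (z - p)
  obtain ⟨lm, hlm⟩ := dsq_attained h1 (z + p)
  obtain ⟨v, hv0, hv, hvd⟩ := hC
    ((Fin.cons 1 lp : Fin (n + 1) → ℤ) - (Fin.cons (-1) lm : Fin (n + 1) → ℤ)) (by simp)
  choose c hc using hv
  have hc0 : c 0 = 1 := by
    have h2 := hc 0
    simp only [Pi.sub_apply, Fin.cons_zero, hv0] at h2
    omega
  set l1 : Fin (n + 1) → ℤ := Fin.cons 1 lp with hl1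
  set l2 : Fin (n + 1) → ℤ := Fin.cons (-1) lm with hl2
  have hl20 : l2 0 = -1 := by rw [hl2, Fin.cons_zero]
  set x : Fin (n + 1) → ℝ := Fin.cons 0 z with hx
  have ha : qf Q (x - ic l1) = dsq (low Q) (z - p) + q := by
    rw [hx, lyr_cons_sub, h, hlp, lyr_vec]
    simp [hl1]
  have hb : qf Q (x - ic l2) = dsq (low Q) (z + p) + q := by
    rw [hx, lyr_cons_sub, h, hlm, lyr_vec]
    simp [hl2]
  have hge : ∀ l : Fin (n + 1) → ℤ, l 0 = 0 → dsq (low Q) z ≤ qf Q (x - ic l) := by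
    intro l hl
    rw [hx, lyr_cons_sub, h, lyr_vec, hl]
    have h3 := dsq_le h1 z fun i => l i.succ
    simp only [Int.cast_zero, zero_smul, add_zero, sub_zero]
    have h4 : (0 : ℝ) ≤ q * 0 ^ 2 := by positivity
    linarith
  have h3 := hge (l2 + v + c) (by
    rw [Pi.add_apply, Pi.add_apply, hl20, hv0, hc0]
    norm_num)
  have h4 := hge (l2 + c) (by
    rw [Pi.add_apply, hl20, hc0]
    norm_num)
  have h5 := lyr_par Q (x - ic l1) (x - ic l2)
  have h6 := lyr_par Q (x - ic (l2 + v + c)) (x - ic (l2 + c))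
  have hci : ∀ i, (l1 i : ℝ) - l2 i - v i = 2 * c i := fun i => by
    have h7 := hc i
    rw [Pi.sub_apply] at h7
    exact_mod_cast h7
  have e1 : x - ic l1 + (x - ic l2) = x - ic (l2 + v + c) + (x - ic (l2 + c)) := by
    funext i
    have h7 := hci i
    simp only [Pi.add_apply, Pi.sub_apply, ic, Int.cast_add]
    linarith
  have e2 : x - ic l1 - (x - ic l2) = -ic (l1 - l2) := by
    funext i
    simp only [Pi.sub_apply, Pi.neg_apply, ic, Int.cast_sub]
    ring
  have e3 : x - ic (l2 + v + c) - (x - ic (l2 + c)) = -ic v := by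
    funext i
    simp only [Pi.add_apply, Pi.sub_apply, Pi.neg_apply, ic, Int.cast_add]
    ring
  rw [e1, e2, qf_neg] at h5
  rw [e3, qf_neg] at h6
  rw [ha, hb] at h5
  linarith

/-- **The layer formula for forms.** PROOF. `int_cons'` (for the continuous function `dsq Q`),
`dsq_cons`, for every fixed `r` the translation by `r • p` (`int_shift` and `lay_per`), `int_swap`
(`lay_cont`), and `core` with `g = dsq (low Q)` (`dsq_cont`, `dsq_per`, `layC_second`). -/
theorem layer_formula (hQ : Q.PosDef) (h1 : (low Q).PosDef) (hC : LayC Q) {p : Fin n → ℝ} {q : ℝ}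
    (hq : 0 < q)
    (h : ∀ (r : ℝ) (z : Fin n → ℝ),
      qf Q (Fin.cons r z : Fin (n + 1) → ℝ) = qf (low Q) (z + r • p) + q * r ^ 2) :
    FF Q = FF (low Q) + q / 12 -
      (1 / (4 * q)) * ∫ z in cube n, (dsq (low Q) (z - p) - dsq (low Q) z) ^ 2 := by
  have hg := dsq_cont h1
  have hp : Per (dsq (low Q)) := dsq_per
  rw [FF, int_cons' (dsq_cont hQ)]
  have e1 : ∀ r : ℝ, (∫ z in cube n, dsq Q (Fin.cons r z : Fin (n + 1) → ℝ)) =
      ∫ z in cube n, lay (dsq (low Q)) p q z r := by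
    intro r
    rw [← int_shift (lay_per hp p q r) (r • p)]
    simp only [dsq_cons hQ h1 hq h]
  simp only [e1]
  rw [int_swap (lay_cont hg hp p hq)]
  exact core hg hp p hq (layC_second hQ h1 hC hq h)

end Pool.Agent.D4Q
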