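import Pool.Agent.D4Q.RedI
import Pool.Agent.D4Q.RedD
import Pool.Agent.D4Q.Bnd
import Pool.Agent.D4Q.IsD

set_option autoImplicit false

/-!
# P34. The optimal quantizer among quaternary forms
-/

namespace Pool.Agent.D4Q

open Matrix

private theorem det_smul_Gm (s : ℝ) : (s • Gm).det = s ^ 4 * 4 := by
  rw [det_smul, FF_Gm.1, Fintype.card_fin]

private theorem pos_of_posDef {s : ℝ} (hs : 0 ≤ s) (h : (s • Gm).PosDef) : 0 < s := by
  rcases hs.lt_or_eq with h1 | h1
  · exact h1
  · have h2 := h.det_pos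
    rw [det_smul_Gm, ← h1] at h2
    norm_num at h2

/-- **Main theorem for forms.** PROOF. `reduce` gives `U` and the perfect form; `tr U Q` is
symmetric and positive definite (`posDef_tr`). In the case `AAz` use `caseI` and `bnd1` (strict
inequality), in the case `ADz` use `caseD`, `tr_tr`, and `bnd3` or `bnd2`; `det_tr`, `FF_tr`. In the
case of equality `tr (U * V) Q = x 0 • Gm`, and `x 0 > 0` because the form is positive definite.
(`IsD4` and the converse `eq_of_isD4` are in the file `IsD`.) -/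
theorem main_form {Q : Matrix (Fin 4) (Fin 4) ℝ} (hQ : Q.PosDef) :
    28561 * Q.det ≤ 3240000 * FF Q ^ 4 ∧
      (28561 * Q.det = 3240000 * FF Q ^ 4 → IsD4 Q) := by
  obtain ⟨U, hU, A, hA, hmin⟩ := reduce hQ
  have hQ1 : (tr U Q).PosDef := posDef_tr hQ U hU
  have hs : (tr U Q).IsSymm := by
    have h := hQ1.isHermitian.eq
    rw [conjTranspose_eq_transpose_of_trivial] at h
    exact h
  have hd : (tr U Q).det = Q.det := det_tr U hU
  have hf : FF (tr U Q) = FF Q := FF_tr U hU
  rcases hA with rfl | rfl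
  · obtain ⟨x, hx, hQx⟩ := caseI hs fun U' hU' => hmin U' hU' ADz (Or.inr rfl)
    have hP : (QL (Bd x) x L1).PosDef := hQx ▸ hQ1
    have hb := bnd1 hx hP
    rw [← hQx, hd, hf] at hb
    exact ⟨hb.le, fun he => absurd he hb.ne⟩
  · obtain ⟨V, x, hV, hx, hor⟩ := caseD hs hmin
    have hQ2 : (tr V (tr U Q)).PosDef := posDef_tr hQ1 V hV
    have hd2 : (tr V (tr U Q)).det = Q.det := (det_tr V hV).trans hd
    have hf2 : FF (tr V (tr U Q)) = FF Q := (FF_tr V hV).trans hf
    have hUV : IsUnit (U * V).det := by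
      rw [det_mul]
      exact hU.mul hV
    rcases hor with h3 | h2
    · have hP : (QL (x 0 • Gm) x L3).PosDef := h3 ▸ hQ2
      have hb := bnd3 hx hP
      rw [← h3, hd2, hf2, tr_tr] at hb
      refine ⟨hb.1, fun he => ⟨U * V, x 0, hUV, ?_, hb.2 he⟩⟩
      have hG := hb.2 he
      rw [← tr_tr] at hG
      exact pos_of_posDef (hx 0) (hG ▸ hQ2)
    · have hP : (QL (x 0 • Gm) x L2).PosDef := h2 ▸ hQ2
      have hb := bnd2 hx hP
      rw [← h2, hd2, hf2, tr_tr] at hb
      refine ⟨hb.1, fun he => ⟨U * V, x 0, hUV, ?_, hb.2 he⟩⟩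
      have hG := hb.2 he
      rw [← tr_tr] at hG
      exact pos_of_posDef (hx 0) (hG ▸ hQ2)

end Pool.Agent.D4Q
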