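import Mathlib

set_option autoImplicit false

/-!
# P18. Polynomials with natural coefficients as nested lists (for computations in the kernel)

`MP n` is the type of polynomials in `n` variables: a list of coefficients in `MP (n - 1)`, the
variable number `0` outermost. `ev n x p` is the value at `x : ℕ → ℝ`. All functions are defined
directly by recursors (much faster in the kernel than compiled recursion); the defining equations
are the lemmas proved by `rfl` below. Do not change the definitions.
-/

namespace Pool.Agent.D4Q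

/-- Polynomials in `n` variables with natural coefficients. -/
def MP (n : ℕ) : Type := Nat.rec ℕ (fun _ T => List T) n

/-- Pointwise operation on lists of different lengths. -/
def addL {α : Type} (f : α → α → α) (l : List α) : List α → List α :=
  List.rec (motive := fun _ => List α → List α) (fun m => m)
    (fun a l ih m => List.rec (motive := fun _ => List α) (a :: l) (fun b m' _ => f a b :: ih m') m)
    l

section
variable {α : Type} (f : α → α → α)

theorem addL_nil (m : List α) : addL f [] m = m := rfl

theorem addL_cons_nil (a : α) (l : List α) : addL f (a :: l) [] = a :: l := rfl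

theorem addL_cons_cons (a b : α) (l m : List α) :
    addL f (a :: l) (b :: m) = f a b :: addL f l m := rfl

end

def addP (n : ℕ) : MP n → MP n → MP n :=
  Nat.rec (motive := fun n => MP n → MP n → MP n) (fun (a b : ℕ) => Nat.add a b)
    (fun _ ih => addL ih) n

theorem addP_zero (a b : ℕ) : addP 0 a b = (a + b : ℕ) := rfl

theorem addP_succ (n : ℕ) (a b : List (MP n)) : addP (n + 1) a b = addL (addP n) a b := rfl

def zeroP (n : ℕ) : MP n :=
  Nat.rec (motive := fun n => MP n) (0 : ℕ) (fun n _ => ([] : List (MP n))) n

theorem zeroP_zero : zeroP 0 = (0 : ℕ) := rfl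

theorem zeroP_succ (n : ℕ) : zeroP (n + 1) = ([] : List (MP n)) := rfl

/-- Mapping a list. -/
def mapL {α β : Type} (f : α → β) (l : List α) : List β := List.rec [] (fun a _ r => f a :: r) l

theorem mapL_nil {α β : Type} (f : α → β) : mapL f [] = [] := rfl

theorem mapL_cons {α β : Type} (f : α → β) (a : α) (l : List α) :
    mapL f (a :: l) = f a :: mapL f l := rfl

/-- Folding a list from the right. -/
def fold {α β : Type} (f : α → β → β) (b : β) (l : List α) : β := List.rec b (fun a _ r => f a r) l

theorem fold_nil {α β : Type} (f : α → β → β) (b : β) : fold f b [] = b := rfl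

theorem fold_cons {α β : Type} (f : α → β → β) (b : β) (a : α) (l : List α) :
    fold f b (a :: l) = f a (fold f b l) := rfl

def smulP (c n : ℕ) : MP n → MP n :=
  Nat.rec (motive := fun n => MP n → MP n) (fun a => Nat.mul c a) (fun _ ih l => mapL ih l) n

theorem smulP_zero (c a : ℕ) : smulP c 0 a = (c * a : ℕ) := rfl

theorem smulP_succ (c n : ℕ) (a : List (MP n)) : smulP c (n + 1) a = mapL (smulP c n) a := rfl

/-- Multiplication by the variable number `i`. -/
def mulV (i : ℕ) : (n : ℕ) → MP n → MP n :=
  Nat.rec (motive := fun _ => (n : ℕ) → MP n → MP n)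
    (fun n => Nat.rec (motive := fun n => MP n → MP n) (fun a => a)
      (fun n _ a => (zeroP n :: a : List (MP n))) n)
    (fun _ ih n => Nat.rec (motive := fun n => MP n → MP n) (fun a => a)
      (fun n _ a => mapL (ih n) a) n) i

theorem mulV_zero_succ (n : ℕ) (a : List (MP n)) :
    mulV 0 (n + 1) a = (zeroP n :: a : List (MP n)) := rfl

theorem mulV_succ_succ (i n : ℕ) (a : List (MP n)) :
    mulV (i + 1) (n + 1) a = mapL (mulV i n) a := rfl

/-- All elements of a list satisfy the test. -/
def allL {α : Type} (z : α → Bool) (l : List α) : Bool := List.rec true (fun a _ r => z a && r) l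

theorem allL_nil {α : Type} (z : α → Bool) : allL z [] = true := rfl

theorem allL_cons {α : Type} (z : α → Bool) (a : α) (l : List α) :
    allL z (a :: l) = (z a && allL z l) := rfl

/-- All coefficients are zero. -/
def isZ (n : ℕ) : MP n → Bool :=
  Nat.rec (motive := fun n => MP n → Bool) (fun a => Nat.beq a 0) (fun _ ih => allL ih) n

theorem isZ_zero (a : ℕ) : isZ 0 a = Nat.beq a 0 := rfl

theorem isZ_succ (n : ℕ) (a : List (MP n)) : isZ (n + 1) a = allL (isZ n) a := rfl

/-- Comparison of lists. -/
def leL {α : Type} (z : α → Bool) (f : α → α → Bool) (l : List α) : List α → Bool :=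
  List.rec (motive := fun _ => List α → Bool) (fun _ => true)
    (fun a l ih m => List.rec (motive := fun _ => Bool) (z a && allL z l)
      (fun b m' _ => f a b && ih m') m) l

theorem leL_nil {α : Type} (z : α → Bool) (f : α → α → Bool) (m : List α) :
    leL z f [] m = true := rfl

theorem leL_cons_nil {α : Type} (z : α → Bool) (f : α → α → Bool) (a : α) (l : List α) :
    leL z f (a :: l) [] = (z a && allL z l) := rfl

theorem leL_cons_cons {α : Type} (z : α → Bool) (f : α → α → Bool) (a b : α) (l m : List α) :
    leL z f (a :: l) (b :: m) = (f a b && leL z f l m) := rfl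

/-- Coefficientwise comparison. -/
def leP (n : ℕ) : MP n → MP n → Bool :=
  Nat.rec (motive := fun n => MP n → MP n → Bool) (fun a b => Nat.ble a b)
    (fun n ih => leL (isZ n) ih) n

theorem leP_zero (a b : ℕ) : leP 0 a b = Nat.ble a b := rfl

theorem leP_succ (n : ℕ) (a b : List (MP n)) : leP (n + 1) a b = leL (isZ n) (leP n) a b := rfl

/-- `e` zeros in front of a list. -/
def repL {α : Type} (z : α) (l : List α) (e : ℕ) : List α := Nat.rec l (fun _ r => z :: r) e

theorem repL_zero {α : Type} (z : α) (l : List α) : repL z l 0 = l := rfl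

theorem repL_succ {α : Type} (z : α) (l : List α) (e : ℕ) :
    repL z l (e + 1) = z :: repL z l e := rfl

/-- The monomial with the coefficient `c`; the list contains the exponents. -/
def monP (n : ℕ) : List ℕ → ℕ → MP n :=
  Nat.rec (motive := fun n => List ℕ → ℕ → MP n) (fun _ c => c)
    (fun n ih es c => List.rec (motive := fun _ => List (MP n)) [ih [] c]
      (fun e es' _ => repL (zeroP n) [ih es' c] e) es) n

theorem monP_zero (es : List ℕ) (c : ℕ) : monP 0 es c = c := rfl

theorem monP_succ_nil (n c : ℕ) : monP (n + 1) [] c = ([monP n [] c] : List (MP n)) := rfl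

theorem monP_succ_cons (n e c : ℕ) (es : List ℕ) :
    monP (n + 1) (e :: es) c = repL (zeroP n) [monP n es c] e := rfl

/-- Horner evaluation of a list. -/
noncomputable def evL {α : Type} (f : α → ℝ) (x : ℝ) (l : List α) : ℝ :=
  List.rec 0 (fun a _ r => f a + x * r) l

theorem evL_nil {α : Type} (f : α → ℝ) (x : ℝ) : evL f x [] = 0 := rfl

theorem evL_cons {α : Type} (f : α → ℝ) (x : ℝ) (a : α) (l : List α) :
    evL f x (a :: l) = f a + x * evL f x l := rfl

/-- The value of a polynomial. -/
noncomputable def ev (n : ℕ) : (ℕ → ℝ) → MP n → ℝ :=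
  Nat.rec (motive := fun n => (ℕ → ℝ) → MP n → ℝ) (fun _ (a : ℕ) => (a : ℝ))
    (fun _ ih x a => evL (ih fun i => x (i + 1)) (x 0) a) n

theorem ev_zero (x : ℕ → ℝ) (a : ℕ) : ev 0 x a = (a : ℝ) := rfl

theorem ev_succ (n : ℕ) (x : ℕ → ℝ) (a : List (MP n)) :
    ev (n + 1) x a = evL (ev n fun i => x (i + 1)) (x 0) a := rfl

/-- The value of a monomial. -/
noncomputable def evM (x : ℕ → ℝ) (es : List ℕ) : ℝ :=
  List.rec (motive := fun _ => (ℕ → ℝ) → ℝ) (fun _ => 1)
    (fun e _ ih x => x 0 ^ e * ih fun i => x (i + 1)) es x

theorem evM_nil (x : ℕ → ℝ) : evM x [] = 1 := rfl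

theorem evM_cons (x : ℕ → ℝ) (e : ℕ) (es : List ℕ) :
    evM x (e :: es) = x 0 ^ e * evM (fun i => x (i + 1)) es := rfl

/-! The lemmas to be proved. Induction on `n` (generalizing `x`), then on the lists. -/

private theorem evL_addL {α : Type} {f : α → ℝ} {g : α → α → α}
    (h : ∀ a b, f (g a b) = f a + f b) (x : ℝ) (l m : List α) :
    evL f x (addL g l m) = evL f x l + evL f x m := by
  induction l generalizing m with
  | nil => rw [addL_nil, evL_nil, zero_add]
  | cons a l ih =>
    cases m with
    | nil => rw [addL_cons_nil, evL_nil, add_zero]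
    | cons b m =>
      rw [addL_cons_cons, evL_cons, evL_cons, evL_cons, ih, h]
      ring

private theorem evL_mapL {α : Type} {f : α → ℝ} {g : α → α} {c : ℝ}
    (h : ∀ a, f (g a) = c * f a) (x : ℝ) (l : List α) :
    evL f x (mapL g l) = c * evL f x l := by
  induction l with
  | nil => rw [mapL_nil, evL_nil, mul_zero]
  | cons a l ih =>
    rw [mapL_cons, evL_cons, evL_cons, ih, h]
    ring

private theorem evL_allL {α : Type} {f : α → ℝ} {z : α → Bool}
    (h : ∀ a, z a = true → f a = 0) (x : ℝ) (l : List α) (hl : allL z l = true) :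
    evL f x l = 0 := by
  induction l with
  | nil => rw [evL_nil]
  | cons a l ih =>
    rw [allL_cons, Bool.and_eq_true] at hl
    rw [evL_cons, h a hl.1, ih hl.2, mul_zero, add_zero]

private theorem evL_nonneg {α : Type} {f : α → ℝ} (h : ∀ a, 0 ≤ f a) {x : ℝ} (hx : 0 ≤ x)
    (l : List α) : 0 ≤ evL f x l := by
  induction l with
  | nil => rw [evL_nil]
  | cons a l ih =>
    rw [evL_cons]
    exact add_nonneg (h a) (mul_nonneg hx ih)

private theorem evL_le {α : Type} {f : α → ℝ} {z : α → Bool} {g : α → α → Bool}
    (h0 : ∀ a, 0 ≤ f a) (hz : ∀ a, z a = true → f a = 0) (h : ∀ a b, g a b = true → f a ≤ f b)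
    {x : ℝ} (hx : 0 ≤ x) (l m : List α) (hl : leL z g l m = true) :
    evL f x l ≤ evL f x m := by
  induction l generalizing m with
  | nil =>
    rw [evL_nil]
    exact evL_nonneg h0 hx m
  | cons a l ih =>
    cases m with
    | nil =>
      rw [leL_cons_nil] at hl
      have h1 : evL f x (a :: l) = 0 := evL_allL hz x (a :: l) hl
      rw [h1, evL_nil]
    | cons b m =>
      rw [leL_cons_cons, Bool.and_eq_true] at hl
      rw [evL_cons, evL_cons]
      exact add_le_add (h a b hl.1) (mul_le_mul_of_nonneg_left (ih m hl.2) hx)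

private theorem evL_eq {α : Type} {f : α → ℝ} {z : α → Bool} {g : α → α → Bool}
    (hz : ∀ a, z a = true → f a = 0)
    (h : ∀ a b, g a b = true → g b a = true → f a = f b)
    (x : ℝ) (l m : List α) (hl : leL z g l m = true) (hm : leL z g m l = true) :
    evL f x l = evL f x m := by
  induction l generalizing m with
  | nil =>
    cases m with
    | nil => rfl
    | cons b m =>
      rw [leL_cons_nil] at hm
      rw [evL_nil, evL_allL hz x (b :: m) hm]
  | cons a l ih =>
    cases m with
    | nil =>
      rw [leL_cons_nil] at hl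
      rw [evL_nil, evL_allL hz x (a :: l) hl]
    | cons b m =>
      rw [leL_cons_cons, Bool.and_eq_true] at hl hm
      rw [evL_cons, evL_cons, h a b hl.1 hm.1, ih m hl.2 hm.2]

theorem ev_addP (n : ℕ) (x : ℕ → ℝ) (a b : MP n) : ev n x (addP n a b) = ev n x a + ev n x b := by
  induction n generalizing x with
  | zero => exact Nat.cast_add (R := ℝ) a b
  | succ n ih => exact evL_addL (fun a b => ih _ a b) (x 0) a b

theorem ev_zeroP (n : ℕ) (x : ℕ → ℝ) : ev n x (zeroP n) = 0 := by
  cases n with
  | zero => exact Nat.cast_zero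
  | succ n => rfl

theorem ev_smulP (c n : ℕ) (x : ℕ → ℝ) (a : MP n) : ev n x (smulP c n a) = c * ev n x a := by
  induction n generalizing x with
  | zero => exact Nat.cast_mul (α := ℝ) c a
  | succ n ih => exact evL_mapL (fun a => ih _ a) (x 0) a

theorem ev_mulV {i n : ℕ} (hi : i < n) (x : ℕ → ℝ) (a : MP n) :
    ev n x (mulV i n a) = x i * ev n x a := by
  induction i generalizing n x with
  | zero =>
    cases n with
    | zero => exact absurd hi (Nat.lt_irrefl 0)
    | succ n =>
      have h : ev (n + 1) x (mulV 0 (n + 1) a) =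
          ev n (fun i => x (i + 1)) (zeroP n) + x 0 * ev (n + 1) x a := rfl
      rw [h, ev_zeroP, zero_add]
  | succ i ih =>
    cases n with
    | zero => exact absurd hi (Nat.not_lt_zero _)
    | succ n =>
      exact evL_mapL (fun a => ih (Nat.lt_of_succ_lt_succ hi) (fun i => x (i + 1)) a) (x 0) a

theorem ev_isZ {n : ℕ} {a : MP n} (h : isZ n a = true) (x : ℕ → ℝ) : ev n x a = 0 := by
  induction n generalizing x with
  | zero =>
    have h1 : a = (0 : ℕ) := Nat.eq_of_beq_eq_true h
    rw [h1]
    exact Nat.cast_zero
  | succ n ih => exact evL_allL (fun b hb => ih hb _) (x 0) a h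

theorem ev_nonneg {n : ℕ} {x : ℕ → ℝ} (hx : ∀ i, 0 ≤ x i) (a : MP n) : 0 ≤ ev n x a := by
  induction n generalizing x with
  | zero => exact Nat.cast_nonneg (α := ℝ) a
  | succ n ih => exact evL_nonneg (fun b => ih (fun i => hx (i + 1)) b) (hx 0) a

theorem ev_leP {n : ℕ} {a b : MP n} (h : leP n a b = true) {x : ℕ → ℝ} (hx : ∀ i, 0 ≤ x i) :
    ev n x a ≤ ev n x b := by
  induction n generalizing x with
  | zero => exact Nat.cast_le (α := ℝ).2 (Nat.le_of_ble_eq_true h)
  | succ n ih =>
    exact evL_le (fun c => ev_nonneg (fun i => hx (i + 1)) c) (fun c hc => ev_isZ hc _)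
      (fun c d hcd => ih hcd fun i => hx (i + 1)) (hx 0) a b h

/-- Antisymmetry (no sign condition on `x`): both lists have the same coefficients up to zeros. -/
theorem ev_eq_of_leP {n : ℕ} {a b : MP n} (h : leP n a b = true) (h' : leP n b a = true)
    (x : ℕ → ℝ) : ev n x a = ev n x b := by
  induction n generalizing x with
  | zero =>
    have h1 : a = b := Nat.le_antisymm (Nat.le_of_ble_eq_true h) (Nat.le_of_ble_eq_true h')
    rw [h1]
  | succ n ih =>
    exact evL_eq (z := isZ n) (g := leP n) (fun c hc => ev_isZ hc _)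
      (fun c d h1 h2 => ih h1 h2 _) (x 0) a b h h'

private theorem evL_repL {α : Type} {f : α → ℝ} {z : α} (hz : f z = 0) (x : ℝ) (l : List α)
    (e : ℕ) : evL f x (repL z l e) = x ^ e * evL f x l := by
  induction e with
  | zero => rw [repL_zero, pow_zero, one_mul]
  | succ e ih =>
    rw [repL_succ, evL_cons, hz, ih, pow_succ]
    ring

theorem ev_monP {n : ℕ} (x : ℕ → ℝ) {es : List ℕ} (hl : es.length = n) (c : ℕ) :
    ev n x (monP n es c) = c * evM x es := by
  induction n generalizing x es with
  | zero =>
    rw [List.length_eq_zero_iff.1 hl, evM_nil, mul_one]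
    rfl
  | succ n ih =>
    cases es with
    | nil => simp at hl
    | cons e es =>
      have hl' : es.length = n := by simpa using hl
      rw [evM_cons]
      have h1 : ev (n + 1) x (monP (n + 1) (e :: es) c) =
          evL (ev n fun i => x (i + 1)) (x 0) (repL (zeroP n) [monP n es c] e) := rfl
      rw [h1, evL_repL (ev_zeroP n _), evL_cons, evL_nil, ih _ hl']
      ring

theorem evM_nonneg {x : ℕ → ℝ} (hx : ∀ i, 0 ≤ x i) (es : List ℕ) : 0 ≤ evM x es := by
  induction es generalizing x with
  | nil =>
    rw [evM_nil]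
    exact zero_le_one
  | cons e es ih =>
    rw [evM_cons]
    exact mul_nonneg (pow_nonneg (hx 0) e) (ih fun i => hx (i + 1))

/-- The product formula for the value of a monomial. -/
theorem evM_eq_prod (x : ℕ → ℝ) (es : List ℕ) :
    evM x es = ∏ i ∈ Finset.range es.length, x i ^ es.getD i 0 := by
  induction es generalizing x with
  | nil =>
    rw [evM_nil]
    simp
  | cons e es ih =>
    rw [evM_cons, ih, List.length_cons, Finset.prod_range_succ', mul_comm]
    congr 1

end Pool.Agent.D4Q
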