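import Pool.Agent.D4Q.DsqB

set_option autoImplicit false

/-!
# P31. Voronoi reduction: a perfect form of smallest inner product
-/

namespace Pool.Agent.D4Q

open Matrix

/-- The perfect form `A_4`. -/
def AAz : Matrix (Fin 4) (Fin 4) ℤ := !![2, 1, 1, 1; 1, 2, 1, 1; 1, 1, 2, 1; 1, 1, 1, 2]

/-- The perfect form `D_4` (twice the inverse of `Gm`). -/
def ADz : Matrix (Fin 4) (Fin 4) ℤ := !![2, -1, -2, -1; -1, 2, 2, 1; -2, 2, 4, 2; -1, 1, 2, 2]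

/-- The inner product of an integral and a real matrix. -/
noncomputable def pr (A : Matrix (Fin 4) (Fin 4) ℤ) (Q : Matrix (Fin 4) (Fin 4) ℝ) : ℝ :=
  ∑ i, ∑ j, (A i j : ℝ) * Q i j

private theorem redA_pr (A : Matrix (Fin 4) (Fin 4) ℤ) (Q : Matrix (Fin 4) (Fin 4) ℝ) :
    pr A Q = Matrix.trace ((mc A)ᵀ * Q) := by
  unfold pr Matrix.trace
  simp only [Matrix.diag_apply, Matrix.mul_apply, Matrix.transpose_apply]
  rw [Finset.sum_comm]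
  rfl

private theorem redA_mc_mul {a b c : ℕ} (A : Matrix (Fin a) (Fin b) ℤ)
    (B : Matrix (Fin b) (Fin c) ℤ) : mc (A * B) = mc A * mc B := by
  ext i j
  simp [mc, Matrix.mul_apply, Matrix.map_apply]

private theorem redA_mc_tr {a b : ℕ} (A : Matrix (Fin a) (Fin b) ℤ) : mc Aᵀ = (mc A)ᵀ := rfl

theorem pr_tr (A U : Matrix (Fin 4) (Fin 4) ℤ) (Q : Matrix (Fin 4) (Fin 4) ℝ) :
    pr A (tr U Q) = pr (U * A * Uᵀ) Q := by
  rw [redA_pr, redA_pr, tr, redA_mc_mul, redA_mc_mul, redA_mc_tr, Matrix.transpose_mul,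
    Matrix.transpose_mul, Matrix.transpose_transpose]
  rw [← Matrix.mul_assoc, ← Matrix.mul_assoc, Matrix.trace_mul_comm]
  simp only [Matrix.mul_assoc]

/-- `tr` is a right action. -/
theorem tr_tr (U V : Matrix (Fin 4) (Fin 4) ℤ) (Q : Matrix (Fin 4) (Fin 4) ℝ) :
    tr V (tr U Q) = tr (U * V) Q := by
  unfold tr
  rw [redA_mc_mul, Matrix.transpose_mul]
  simp only [Matrix.mul_assoc]

/-- Both forms are Gram matrices of integral vectors. -/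
private theorem redA_gram {A : Matrix (Fin 4) (Fin 4) ℤ} (hA : A = AAz ∨ A = ADz) :
    ∃ V : Matrix (Fin 4) (Fin 5) ℤ, A = V * Vᵀ := by
  rcases hA with rfl | rfl
  · exact ⟨!![1, 0, 0, 0, 1; 0, 1, 0, 0, 1; 0, 0, 1, 0, 1; 0, 0, 0, 1, 1], by decide⟩
  · exact ⟨!![-1, -1, 0, 0, 0; 1, 0, 1, 0, 0; 1, 1, 1, 1, 0; 1, 0, 0, 1, 0], by decide⟩

private theorem redA_sum (F : Matrix (Fin 4) (Fin 5) ℤ) (Q : Matrix (Fin 4) (Fin 4) ℝ) :
    pr (F * Fᵀ) Q = ∑ k, qf Q fun i => (F i k : ℝ) := by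
  have h1 : ∀ k, (qf Q fun i => (F i k : ℝ)) = ∑ i, ∑ j, (F i k : ℝ) * (Q i j * (F j k : ℝ)) := by
    intro k
    unfold qf
    simp only [dotProduct, Matrix.mulVec, Finset.mul_sum]
  have h2 : ∀ i j, (((F * Fᵀ) i j : ℤ) : ℝ) * Q i j =
      ∑ k, (F i k : ℝ) * (Q i j * (F j k : ℝ)) := by
    intro i j
    rw [Matrix.mul_apply, Int.cast_sum, Finset.sum_mul]
    refine Finset.sum_congr rfl fun k _ => ?_
    rw [Matrix.transpose_apply, Int.cast_mul]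
    ring
  unfold pr
  simp only [h1, h2]
  rw [Finset.sum_comm]
  rw [Finset.sum_congr rfl fun j _ => Finset.sum_comm]
  rw [Finset.sum_comm]
  exact Finset.sum_congr rfl fun k _ => Finset.sum_comm

private theorem redA_bound {Q : Matrix (Fin 4) (Fin 4) ℝ} {c : ℝ} (hc : 0 < c)
    (hcoer : ∀ x : Fin 4 → ℝ, c * ‖x‖ ^ 2 ≤ qf Q x) (F : Matrix (Fin 4) (Fin 5) ℤ) (i j : Fin 4) :
    c * |((F * Fᵀ) i j : ℝ)| ≤ pr (F * Fᵀ) Q := by
  rw [redA_sum]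
  have h1 : |(((F * Fᵀ) i j : ℤ) : ℝ)| ≤ ∑ k, ‖(fun i => (F i k : ℝ) : Fin 4 → ℝ)‖ ^ 2 := by
    rw [Matrix.mul_apply, Int.cast_sum]
    refine (Finset.abs_sum_le_sum_abs _ _).trans (Finset.sum_le_sum fun k _ => ?_)
    rw [Matrix.transpose_apply, Int.cast_mul, abs_mul, pow_two]
    have a1 := norm_le_pi_norm (fun i => (F i k : ℝ) : Fin 4 → ℝ) i
    have a2 := norm_le_pi_norm (fun i => (F i k : ℝ) : Fin 4 → ℝ) j
    rw [Real.norm_eq_abs] at a1 a2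
    exact mul_le_mul a1 a2 (abs_nonneg _) (norm_nonneg _)
  calc c * |(((F * Fᵀ) i j : ℤ) : ℝ)| ≤ c * ∑ k, ‖(fun i => (F i k : ℝ) : Fin 4 → ℝ)‖ ^ 2 :=
        mul_le_mul_of_nonneg_left h1 hc.le
    _ = ∑ k, c * ‖(fun i => (F i k : ℝ) : Fin 4 → ℝ)‖ ^ 2 := Finset.mul_sum _ _ _
    _ ≤ ∑ k, qf Q fun i => (F i k : ℝ) := Finset.sum_le_sum fun k _ => hcoer _

/-- **Reduction.** PROOF. Call a matrix `M` admissible if `M = U * A * Uᵀ` with `U` unimodular and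
`A` one of `AAz`, `ADz`. Both `AAz` and `ADz` are sums `∑ k, v_k v_kᵀ` over a few integral vectors
(`AAz`: the four unit vectors and `(1,1,1,1)`; `ADz`: four vectors, the rows of a matrix `F` with
`Fᵀ F = ADz`, found by completing `D_4 ⊆ ℤ^4`), so `pr M Q = ∑ k, qf Q (U v_k)`. With `c > 0` such
that `c ‖x‖^2 ≤ qf Q x` (`qf_coer`), `pr M Q ≤ K` bounds the vectors `U v_k`, hence the entries of
`M = ∑ k, (U v_k) (U v_k)ᵀ`. So the set of admissible `M` with `pr M Q ≤ pr AAz Q` is finite (integral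
matrices with bounded entries) and nonempty; let `M = U * A * Uᵀ` be a member with the smallest
`pr M Q`. Then `pr M Q ≤ pr M' Q` for all admissible `M'`. By `pr_tr`, `pr A (tr U Q) = pr M Q` and
`pr (U' * A' * U'ᵀ) (tr U Q) = pr ((U U') * A' * (U U')ᵀ) Q`. -/
theorem reduce {Q : Matrix (Fin 4) (Fin 4) ℝ} (hQ : Q.PosDef) :
    ∃ U : Matrix (Fin 4) (Fin 4) ℤ, IsUnit U.det ∧ ∃ A : Matrix (Fin 4) (Fin 4) ℤ,
      (A = AAz ∨ A = ADz) ∧ ∀ U' : Matrix (Fin 4) (Fin 4) ℤ, IsUnit U'.det →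
        ∀ A' : Matrix (Fin 4) (Fin 4) ℤ, (A' = AAz ∨ A' = ADz) →
          pr A (tr U Q) ≤ pr (U' * A' * U'ᵀ) (tr U Q) := by
  obtain ⟨c, hc, hcoer⟩ := qf_coer hQ
  let S : Set (Matrix (Fin 4) (Fin 4) ℤ) := {M | ∃ U : Matrix (Fin 4) (Fin 4) ℤ, IsUnit U.det ∧
    ∃ A : Matrix (Fin 4) (Fin 4) ℤ, (A = AAz ∨ A = ADz) ∧ M = U * A * Uᵀ}
  let T : Set (Matrix (Fin 4) (Fin 4) ℤ) := {M | M ∈ S ∧ pr M Q ≤ pr AAz Q}
  have hbd : ∀ M ∈ S, ∀ i j, c * |(M i j : ℝ)| ≤ pr M Q := by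
    rintro M ⟨U, -, A, hA, rfl⟩ i j
    obtain ⟨V, hV⟩ := redA_gram hA
    have h1 : U * A * Uᵀ = (U * V) * (U * V)ᵀ := by
      rw [hV, Matrix.transpose_mul]
      simp only [Matrix.mul_assoc]
    rw [h1]
    exact redA_bound hc hcoer (U * V) i j
  have hT : T.Finite := by
    set b : ℤ := ⌊pr AAz Q / c⌋ with hb
    have hf : Set.Finite (Set.Icc (fun _ _ => -b : Fin 4 → Fin 4 → ℤ) fun _ _ => b) :=
      Set.finite_Icc _ _
    refine Set.Finite.subset (s := {M : Matrix (Fin 4) (Fin 4) ℤ | ∀ i j, -b ≤ M i j ∧ M i j ≤ b})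
      (hf.subset fun M hM => ⟨fun i j => (hM i j).1, fun i j => (hM i j).2⟩) ?_
    rintro M ⟨hM, hle⟩ i j
    have h1 := hbd M hM i j
    have h2 : |(M i j : ℝ)| ≤ pr AAz Q / c := by
      rw [le_div_iff₀ hc]
      linarith
    have h3 : |M i j| ≤ b := by
      rw [hb, Int.le_floor]
      push_cast
      exact h2
    exact abs_le.1 h3
  have hne : T.Nonempty := ⟨AAz, ⟨1, by simp, AAz, Or.inl rfl, by simp⟩, le_rfl⟩
  obtain ⟨M, ⟨hMS, hMle⟩, hmin⟩ := Set.exists_min_image T (fun M => pr M Q) hT hne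
  obtain ⟨U, hU, A, hA, rfl⟩ := hMS
  refine ⟨U, hU, A, hA, fun U' hU' A' hA' => ?_⟩
  rw [pr_tr, pr_tr]
  have hS' : U * (U' * A' * U'ᵀ) * Uᵀ ∈ S := by
    refine ⟨U * U', ?_, A', hA', ?_⟩
    · rw [Matrix.det_mul]
      exact hU.mul hU'
    · rw [Matrix.transpose_mul]
      simp only [Matrix.mul_assoc]
  by_cases h : pr (U * (U' * A' * U'ᵀ) * Uᵀ) Q ≤ pr AAz Q
  · exact hmin _ ⟨hS', h⟩
  · exact hMle.trans (not_le.1 h).le

end Pool.Agent.D4Q
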