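import Pool.Agent.D4Q.Hint

set_option autoImplicit false

/-!
# P25. The rules for the certificates
-/

namespace Pool.Agent.D4Q

/-- The data of the symmetry group. -/
structure Setup (gens H Gk : List (List ℕ)) (W : List ℕ) : Prop where
  gensP : ∀ g ∈ gens, g.Perm (List.range 10)
  HP : ∀ h ∈ H, h.Perm (List.range 10)
  chk : chkG 10 gens H = true
  ok : okG H Gk = true
  len : ∀ g ∈ Gk, g.length = 10
  W10 : W.length = 10
  pack : beqN (packW Gk) W = true

variable {gens H Gk : List (List ℕ)} {W : List ℕ}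

/-- The average of the difference of two keyed lists is the function `f`. -/
def AvE (gens : List (List ℕ)) (p m : KL) (f : (ℕ → ℝ) → ℝ) : Prop :=
  ∀ x, Av (Gp 10 gens) (fun y => evK y p) x - Av (Gp 10 gens) (fun y => evK y m) x = f x

/-- Multiplication by a linear form, for averages. -/
def LinR (gens : List (List ℕ)) (w : List ℕ) (p q : KL) : Prop :=
  ∀ x, Av (Gp 10 gens) (fun y => evK y q) x = linV w x * Av (Gp 10 gens) (fun y => evK y p) x

/-- Check: the hinted keys of `v`, sorted and collected, are the list `q`. -/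
def okV (m : ℕ) (hs : List ℕ) (v q : KL) : Bool := okHs m v hs && beqK (sortK (hintV v hs)) q

def okStart (W : List ℕ) (m : ℕ) (hs : List ℕ) (P : MP 10) (q : KL) : Bool :=
  bdd 15 (mons 10 P) && okV m hs (vkL W (mons 10 P)) q

def okLin (W : List ℕ) (m : ℕ) (w hs : List ℕ) (p q : KL) : Bool :=
  bdd 14 (monsK 10 p) && okV m hs (mulLinV W w (vkL W (monsK 10 p))) q

def okMul (W : List ℕ) (m : ℕ) (hs : List ℕ) (D : MP 10) (p q : KL) : Bool :=
  bdd 7 (mons 10 D) && bdd 8 (monsK 10 p) &&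
    okV m hs (mulV2 (vkL W (mons 10 D)) (vkL W (monsK 10 p))) q

def okSq (W : List ℕ) (m : ℕ) (qs : List Sq) (hp hn : List ℕ) (p q : KL) : Bool :=
  okS 10 qs && allL (fun q => allL (fun e => Nat.ble e 13) q.2.1) qs &&
    (okV m hp (posV W qs) p && okV m hn (negV W qs) q)

private theorem okV_av (h : Setup gens H Gk W) {l : List Mo} (hl : Len 10 l)
    (hb : bdd 15 l = true) {hs : List ℕ} {q : KL} (hc : okV Gk.length hs (vkL W l) q = true)
    (x : ℕ → ℝ) :
    Av (Gp 10 gens) (fun y => evK y q) x = Av (Gp 10 gens) (fun y => evS y l) x := by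
  unfold okV at hc
  rw [Bool.and_eq_true, beqK_iff] at hc
  have hW : W = packW Gk := ((beqN_iff _ _).1 h.pack).symm
  rw [hW] at hc
  rw [← Av_hint h.ok h.HP h.len (chkG_rep h.gensP h.chk) hl hb hc.1 x, ← hc.2]
  congr 1
  funext y
  exact evK_sortK y _

private theorem av_nil (x : ℕ → ℝ) : Av (Gp 10 gens) (fun y => evK y []) x = 0 := by
  rw [Av_inv (u := fun y => evK y []) _ (fun σ _ y => by rw [evK_nil, evK_nil]), evK_nil]

private theorem av_mrg (p q : KL) (x : ℕ → ℝ) :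
    Av (Gp 10 gens) (fun y => evK y (mrg p q)) x =
      Av (Gp 10 gens) (fun y => evK y p) x + Av (Gp 10 gens) (fun y => evK y q) x := by
  rw [← Av_add]
  congr 1
  funext y
  exact evK_mrg y p q

private theorem av_smul (c : ℕ) (p : KL) (x : ℕ → ℝ) :
    Av (Gp 10 gens) (fun y => evK y (smulK c p)) x =
      c * Av (Gp 10 gens) (fun y => evK y p) x := by
  rw [← Av_smul]
  congr 1
  funext y
  exact evK_smulK y c p

private theorem allL_iff {α : Type} {z : α → Bool} {l : List α} :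
    allL z l = true ↔ ∀ a ∈ l, z a = true := by
  induction l with
  | nil => simp [allL_nil]
  | cons a l ih => rw [allL_cons, Bool.and_eq_true, ih, List.forall_mem_cons]

private theorem bdd_iff {b : ℕ} {l : List Mo} :
    bdd b l = true ↔ ∀ q ∈ l, ∀ e ∈ q.2, e ≤ b := by
  unfold bdd
  rw [allL_iff]
  refine forall₂_congr fun q _ => ?_
  rw [allL_iff]
  refine forall₂_congr fun e _ => ?_
  exact ⟨fun h => Nat.le_of_ble_eq_true h, fun h => Nat.ble_eq_true_of_le h⟩

private theorem incr_le {b i : ℕ} {es : List ℕ} (h : ∀ e ∈ es, e ≤ b) :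
    ∀ e ∈ incr i es, e ≤ b + 1 := by
  induction i generalizing es with
  | zero =>
    cases es with
    | nil =>
      intro e he
      have h1 : incr 0 ([] : List ℕ) = [1] := rfl
      rw [h1, List.mem_singleton] at he
      omega
    | cons a es =>
      rw [incr_zero_cons]
      rw [List.forall_mem_cons] at h ⊢
      exact ⟨by omega, fun e he => (h.2 e he).trans (Nat.le_succ b)⟩
  | succ i ih =>
    cases es with
    | nil =>
      have h1 : incr (i + 1) ([] : List ℕ) = 0 :: incr i [] := rfl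
      rw [h1, List.forall_mem_cons]
      exact ⟨Nat.zero_le _, ih (by simp)⟩
    | cons a es =>
      rw [incr_succ_cons]
      rw [List.forall_mem_cons] at h ⊢
      exact ⟨by omega, ih h.2⟩

private theorem addE_le {a b : ℕ} {l m : List ℕ} (hl : ∀ e ∈ l, e ≤ a) (hm : ∀ e ∈ m, e ≤ b) :
    ∀ e ∈ addE l m, e ≤ a + b := by
  unfold addE
  induction l generalizing m with
  | nil =>
    rw [addL_nil]
    exact fun e he => (hm e he).trans (Nat.le_add_left _ _)
  | cons x l ih =>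
    cases m with
    | nil =>
      rw [addL_cons_nil]
      exact fun e he => (hl e he).trans (Nat.le_add_right _ _)
    | cons y m =>
      rw [addL_cons_cons]
      rw [List.forall_mem_cons] at hl hm ⊢
      exact ⟨Nat.add_le_add hl.1 hm.1, ih hl.2 hm.2⟩

private theorem linL_le {b : ℕ} {q : Mo} (hq : ∀ e ∈ q.2, e ≤ b) {r : List Mo}
    (hr : ∀ q ∈ r, ∀ e ∈ q.2, e ≤ b + 1) (w : List ℕ) :
    ∀ i : ℕ, ∀ q' ∈ (List.rec (motive := fun _ => ℕ → List Mo) (fun _ => r)
      (fun c _ ih i => bif Nat.beq c 0 then ih (i + 1) else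
        (Nat.mul c q.1, incr i q.2) :: ih (i + 1)) w i : List Mo), ∀ e ∈ q'.2, e ≤ b + 1 := by
  induction w with
  | nil => exact fun _ => hr
  | cons c w ih =>
    intro i
    change ∀ q' ∈ (bif Nat.beq c 0 then _ else _ : List Mo), _
    cases Nat.beq c 0 with
    | true => exact ih (i + 1)
    | false =>
      rw [cond_false, List.forall_mem_cons]
      exact ⟨incr_le hq, ih (i + 1)⟩

private theorem mulLin_le {b : ℕ} (w : List ℕ) {l : List Mo} (hl : ∀ q ∈ l, ∀ e ∈ q.2, e ≤ b) :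
    ∀ q ∈ mulLin w l, ∀ e ∈ q.2, e ≤ b + 1 := by
  induction l with
  | nil =>
    intro q hq
    have h1 : mulLin w [] = [] := rfl
    rw [h1] at hq
    exact absurd hq List.not_mem_nil
  | cons a l ih =>
    rw [List.forall_mem_cons] at hl
    exact linL_le hl.1 (ih hl.2) w 0

private theorem fold_le {α : Type} {f : α → List Mo → List Mo} {b : ℕ} {l : List α}
    (hf : ∀ a ∈ l, ∀ r : List Mo, (∀ q ∈ r, ∀ e ∈ q.2, e ≤ b) → ∀ q ∈ f a r, ∀ e ∈ q.2, e ≤ b)
    {r : List Mo} (hr : ∀ q ∈ r, ∀ e ∈ q.2, e ≤ b) : ∀ q ∈ fold f r l, ∀ e ∈ q.2, e ≤ b := by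
  induction l with
  | nil => exact hr
  | cons a l ih =>
    rw [List.forall_mem_cons] at hf
    rw [fold_cons]
    exact hf.1 _ (ih hf.2)

private theorem mulLL_le {a b : ℕ} {l m : List Mo} (hl : ∀ q ∈ l, ∀ e ∈ q.2, e ≤ a)
    (hm : ∀ q ∈ m, ∀ e ∈ q.2, e ≤ b) : ∀ q ∈ mulLL l m, ∀ e ∈ q.2, e ≤ a + b := by
  refine fold_le (fun q hq r hr => ?_) (by simp)
  refine fold_le (fun q' hq' r' hr' => ?_) hr
  rw [List.forall_mem_cons]
  exact ⟨addE_le (hl q hq) (hm q' hq'), hr'⟩

private theorem sqL_le {b c : ℕ} {es : List ℕ} (he : ∀ e ∈ es, e ≤ b) (l : List ℕ) {r : List Mo}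
    (hr : ∀ q ∈ r, ∀ e ∈ q.2, e ≤ b + 1 + 1) :
    ∀ q ∈ sqL c es l r, ∀ e ∈ q.2, e ≤ b + 1 + 1 := by
  induction l with
  | nil => exact hr
  | cons i l ih =>
    change ∀ q ∈ (c, incr i (incr i es)) ::
      fold (fun j s => (Nat.mul 2 c, incr i (incr j es)) :: s) (sqL c es l r) l, _
    rw [List.forall_mem_cons]
    refine ⟨incr_le (incr_le he), fold_le (fun j _ r' hr' => ?_) ih⟩
    rw [List.forall_mem_cons]
    exact ⟨incr_le (incr_le he), hr'⟩

private theorem crL_le {b c : ℕ} {es : List ℕ} (he : ∀ e ∈ es, e ≤ b) (l l' : List ℕ)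
    {r : List Mo} (hr : ∀ q ∈ r, ∀ e ∈ q.2, e ≤ b + 1 + 1) :
    ∀ q ∈ crL c es l l' r, ∀ e ∈ q.2, e ≤ b + 1 + 1 := by
  refine fold_le (fun i _ r' hr' => fold_le (fun j _ r'' hr'' => ?_) hr') hr
  rw [List.forall_mem_cons]
  exact ⟨incr_le (incr_le he), hr''⟩

private theorem posL_le {b : ℕ} {qs : List Sq} (h : ∀ q ∈ qs, ∀ e ∈ q.2.1, e ≤ b) :
    ∀ q ∈ posL qs, ∀ e ∈ q.2, e ≤ b + 1 + 1 := by
  refine fold_le (fun q hq r hr => ?_) (by simp)
  exact sqL_le (h q hq) _ (sqL_le (h q hq) _ hr)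

private theorem negL_le {b : ℕ} {qs : List Sq} (h : ∀ q ∈ qs, ∀ e ∈ q.2.1, e ≤ b) :
    ∀ q ∈ negL qs, ∀ e ∈ q.2, e ≤ b + 1 + 1 := by
  refine fold_le (fun q hq r hr => ?_) (by simp)
  exact crL_le (h q hq) _ _ hr

/-- PROOF. `ev_inv`, `evS_mons`, `Av_hint`, `evK_sortK`, `Av_inv`. -/
theorem rule_start (h : Setup gens H Gk W) {P : MP 10} (hP : invP 10 gens P = true)
    {hs : List ℕ} {q : KL} (hc : okStart W Gk.length hs P q = true) :
    AvE gens q [] (fun x => ev 10 x P) := by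
  unfold okStart at hc
  rw [Bool.and_eq_true] at hc
  intro x
  rw [av_nil, sub_zero, okV_av h (len_mons 10 P) hc.1 hc.2 x]
  have h1 : (fun y => evS y (mons 10 P)) = fun y => ev 10 y P := by
    funext y
    exact evS_mons 10 y P
  rw [h1, Av_inv (u := fun y => ev 10 y P) _ (fun σ hσ y => ev_inv hP σ hσ y)]

/-- PROOF. `vkL_mulLin`, `Av_hint` (the exponents of `mulLin w (monsK 10 p)` are at most `15`),
`evS_mulLin`, `lin_inv`, `Av_mul_inv`. -/
theorem linR_of_ok (h : Setup gens H Gk W) {w : List ℕ} (hw : w.length = 10)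
    (hwi : invW gens w = true) {hs : List ℕ} {p q : KL}
    (hc : okLin W Gk.length w hs p q = true) : LinR gens w p q := by
  unfold okLin at hc
  rw [Bool.and_eq_true] at hc
  intro x
  have hl := len_monsK 10 p
  have hb : bdd 15 (mulLin w (monsK 10 p)) = true :=
    bdd_iff.2 (mulLin_le w (bdd_iff.1 hc.1))
  have hc2 := hc.2
  rw [vkL_mulLin h.W10 hw hl] at hc2
  rw [okV_av h (len_mulLin hw hl) hb hc2 x]
  have h1 : (fun y => evS y (mulLin w (monsK 10 p))) = fun y => linV w y * evK y p := by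
    funext y
    exact evS_mulLin hw hl y
  rw [h1, Av_mul_inv (Gp 10 gens) (u := fun y => linV w y)
    (fun σ hσ y => lin_inv hw hwi σ hσ y)]

theorem linR_nil (w : List ℕ) : LinR gens w [] [] := by
  intro x
  rw [av_nil, mul_zero]

/-- Additivity. -/
theorem linR_split {w : List ℕ} {p p1 p2 q q1 q2 : KL} (h1 : LinR gens w p1 q1)
    (h2 : LinR gens w p2 q2) (hp : beqK (mrg p1 p2) p = true) (hq : beqK (mrg q1 q2) q = true) :
    LinR gens w p q := by
  intro x
  rw [← (beqK_iff _ _).1 hp, ← (beqK_iff _ _).1 hq, av_mrg, av_mrg, h1 x, h2 x]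
  ring

theorem rule_lin {w : List ℕ} {p m p' m' : KL} {f : (ℕ → ℝ) → ℝ} (hp : LinR gens w p p')
    (hm : LinR gens w m m') (hA : AvE gens p m f) :
    AvE gens p' m' (fun x => linV w x * f x) := by
  intro x
  rw [hp x, hm x]
  beta_reduce
  rw [← hA x]
  ring

/-- PROOF. As `linR_of_ok`, with `vkL_mulLL`, `evS_mulLL`, `evS_mons`, `ev_inv`. -/
theorem rule_mul (h : Setup gens H Gk W) {D : MP 10} (hD : invP 10 gens D = true)
    {hs : List ℕ} {p q : KL} (hc : okMul W Gk.length hs D p q = true) {f : (ℕ → ℝ) → ℝ}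
    (hA : AvE gens p [] f) : AvE gens q [] (fun x => ev 10 x D * f x) := by
  unfold okMul at hc
  rw [Bool.and_eq_true, Bool.and_eq_true] at hc
  intro x
  have hl := len_monsK 10 p
  have hl' := len_mons 10 D
  have hb : bdd 15 (mulLL (mons 10 D) (monsK 10 p)) = true :=
    bdd_iff.2 (mulLL_le (bdd_iff.1 hc.1.1) (bdd_iff.1 hc.1.2))
  have hc2 := hc.2
  rw [vkL_mulLL h.W10 hl' hl] at hc2
  rw [av_nil, sub_zero, okV_av h (len_mulLL hl' hl) hb hc2 x]
  have h1 : (fun y => evS y (mulLL (mons 10 D) (monsK 10 p))) =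
      fun y => ev 10 y D * evK y p := by
    funext y
    rw [evS_mulLL hl' hl, evS_mons]
    rfl
  have h2 := hA x
  rw [av_nil, sub_zero] at h2
  rw [h1, Av_mul_inv (Gp 10 gens) (u := fun y => ev 10 y D)
    (fun σ hσ y => ev_inv hD σ hσ y), h2]

theorem rule_smul (c : ℕ) {p m : KL} {f : (ℕ → ℝ) → ℝ} (hA : AvE gens p m f) :
    AvE gens (smulK c p) (smulK c m) (fun x => c * f x) := by
  intro x
  rw [av_smul, av_smul]
  beta_reduce
  rw [← hA x]
  ring

theorem rule_add {p m p' m' : KL} {f g : (ℕ → ℝ) → ℝ} (h1 : AvE gens p m f)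
    (h2 : AvE gens p' m' g) : AvE gens (mrg p p') (mrg m m') (fun x => f x + g x) := by
  intro x
  rw [av_mrg, av_mrg]
  beta_reduce
  rw [← h1 x, ← h2 x]
  ring

theorem rule_sub {p m p' m' : KL} {f g : (ℕ → ℝ) → ℝ} (h1 : AvE gens p m f)
    (h2 : AvE gens p' m' g) : AvE gens (mrg p m') (mrg m p') (fun x => f x - g x) := by
  intro x
  rw [av_mrg, av_mrg]
  beta_reduce
  rw [← h1 x, ← h2 x]
  ring

/-- Cancellation. -/
theorem rule_cancel {p m p' m' : KL} {f : (ℕ → ℝ) → ℝ} (hA : AvE gens p m f)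
    (hc : beqK (mrg p m') (mrg m p') = true) : AvE gens p' m' f := by
  intro x
  have h1 := av_mrg (gens := gens) p m' x
  rw [(beqK_iff _ _).1 hc, av_mrg] at h1
  rw [← hA x]
  linarith

/-- PROOF. `vkL_posL`, `vkL_negL`, `Av_hint` (exponents at most `15`), `evS_neg_le_pos`,
`Av_mono`. -/
theorem rule_sq (h : Setup gens H Gk W) {qs : List Sq} {hp hn : List ℕ} {p q : KL}
    (hc : okSq W Gk.length qs hp hn p q = true) {x : ℕ → ℝ} (hx : ∀ i, 0 ≤ x i) :
    Av (Gp 10 gens) (fun y => evK y q) x ≤ Av (Gp 10 gens) (fun y => evK y p) x := by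
  unfold okSq at hc
  simp only [Bool.and_eq_true] at hc
  obtain ⟨⟨h1, h2⟩, h3, h4⟩ := hc
  have h5 : ∀ q ∈ qs, ∀ e ∈ q.2.1, e ≤ 13 := fun q hq e he =>
    Nat.le_of_ble_eq_true (allL_iff.1 (allL_iff.1 h2 q hq) e he)
  rw [vkL_posL h.W10 h1] at h3
  rw [vkL_negL h.W10 h1] at h4
  rw [okV_av h (len_posL h1) (bdd_iff.2 (posL_le h5)) h3 x,
    okV_av h (len_negL h1) (bdd_iff.2 (negL_le h5)) h4 x]
  exact Av_mono _ (fun y hy => evS_neg_le_pos h1 hy) hx

private theorem fold_av {S : List (KL × KL)} {x : ℕ → ℝ}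
    (hS : ∀ s ∈ S, Av (Gp 10 gens) (fun y => evK y s.2) x ≤
      Av (Gp 10 gens) (fun y => evK y s.1) x) :
    Av (Gp 10 gens) (fun y => evK y (fold mrg [] (mapL Prod.snd S))) x ≤
      Av (Gp 10 gens) (fun y => evK y (fold mrg [] (mapL Prod.fst S))) x := by
  induction S with
  | nil => exact le_refl _
  | cons a S ih =>
    rw [List.forall_mem_cons] at hS
    rw [mapL_cons, mapL_cons, fold_cons, fold_cons, av_mrg, av_mrg]
    exact add_le_add hS.1 (ih hS.2)

/-- **The final comparison.** `S` is the list of the pairs (positive part, negative part) of the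
squares. PROOF. `evK_leK` for all nonnegative `y`, `Av_mono`, `evK_mrg`, `evK_smulK`. -/
theorem rule_fin {Xp Xm DD : KL} {fX fD : (ℕ → ℝ) → ℝ} {S : List (KL × KL)} {x : ℕ → ℝ}
    (hx : ∀ i, 0 ≤ x i) (hX : AvE gens Xp Xm fX) (hD : AvE gens DD [] fD)
    (hS : ∀ s ∈ S, Av (Gp 10 gens) (fun y => evK y s.2) x ≤ Av (Gp 10 gens) (fun y => evK y s.1) x)
    (hc : leK (mrg (smulK 761332 DD) (mrg Xm (fold mrg [] (mapL Prod.fst S))))
      (mrg Xp (fold mrg [] (mapL Prod.snd S))) = true) :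
    761332 * fD x ≤ fX x := by
  have h1 := hX x
  have h2 := hD x
  rw [av_nil, sub_zero] at h2
  have h3 := Av_mono (Gp 10 gens) (fun y hy => evK_leK hc hy) hx
  rw [av_mrg, av_mrg, av_mrg, av_smul] at h3
  have h4 := fold_av hS
  rw [← h1, ← h2]
  push_cast at h3
  linarith

end Pool.Agent.D4Q
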