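import Pool.Agent.D4Q.Mon

set_option autoImplicit false

/-!
# P21. Squares of linear forms times monomials

The datum `(c, es, pl, mi)` stands for `c * (monomial es) * (∑ pl x - ∑ mi x)^2`.
-/

namespace Pool.Agent.D4Q

/-- Data of a square. -/
abbrev Sq := ℕ × List ℕ × List ℕ × List ℕ

/-- `c` times the monomial times the square of the sum of the variables of the list, in front of
`r`. -/
def sqL (c : ℕ) (es : List ℕ) (l : List ℕ) (r : List Mo) : List Mo :=
  List.rec (motive := fun _ => List Mo) r
    (fun i l ih => (c, incr i (incr i es)) ::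
      fold (fun j s => (Nat.mul 2 c, incr i (incr j es)) :: s) ih l) l

/-- `2 c` times the monomial times the product of the two sums, in front of `r`. -/
def crL (c : ℕ) (es l l' : List ℕ) (r : List Mo) : List Mo :=
  fold (fun i s => fold (fun j s' => (Nat.mul 2 c, incr i (incr j es)) :: s') s l') r l

/-- The positive part of the squares. -/
def posL (qs : List Sq) : List Mo :=
  fold (fun q r => sqL q.1 q.2.1 q.2.2.1 (sqL q.1 q.2.1 q.2.2.2 r)) [] qs

/-- The negative part of the squares. -/
def negL (qs : List Sq) : List Mo :=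
  fold (fun q r => crL q.1 q.2.1 q.2.2.1 q.2.2.2 r) [] qs

/-- The data are well formed. -/
def okS (n : ℕ) (qs : List Sq) : Bool :=
  allL (fun q => Nat.beq q.2.1.length n && allL (fun i => Nat.blt i n) q.2.2.1 &&
    allL (fun i => Nat.blt i n) q.2.2.2) qs

/-- The sum of the variables of a list. -/
noncomputable def lin (x : ℕ → ℝ) (l : List ℕ) : ℝ := (l.map x).sum

private theorem sqL_nil (c : ℕ) (es : List ℕ) (r : List Mo) : sqL c es [] r = r := rfl

private theorem sqL_cons (c : ℕ) (es : List ℕ) (i : ℕ) (l : List ℕ) (r : List Mo) :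
    sqL c es (i :: l) r = (c, incr i (incr i es)) ::
      fold (fun j s => (Nat.mul 2 c, incr i (incr j es)) :: s) (sqL c es l r) l := rfl

private theorem crL_nil (c : ℕ) (es l' : List ℕ) (r : List Mo) : crL c es [] l' r = r := rfl

private theorem crL_cons (c : ℕ) (es : List ℕ) (i : ℕ) (l l' : List ℕ) (r : List Mo) :
    crL c es (i :: l) l' r =
      fold (fun j s' => (Nat.mul 2 c, incr i (incr j es)) :: s') (crL c es l l' r) l' := rfl

private theorem lin_cons (x : ℕ → ℝ) (i : ℕ) (l : List ℕ) : lin x (i :: l) = x i + lin x l := by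
  unfold lin
  rw [List.map_cons, List.sum_cons]

private theorem lin_nil (x : ℕ → ℝ) : lin x [] = 0 := by
  unfold lin
  rw [List.map_nil, List.sum_nil]

private theorem evS_cons (x : ℕ → ℝ) (q : Mo) (l : List Mo) :
    evS x (q :: l) = (q.1 : ℝ) * evM x q.2 + evS x l := by
  unfold evS
  rw [List.map_cons, List.sum_cons]

private theorem len_cons {n : ℕ} {q : Mo} {l : List Mo} (hq : q.2.length = n) (hl : Len n l) :
    Len n (q :: l) := by
  intro p hp
  rcases List.mem_cons.1 hp with rfl | hp
  · exact hq
  · exact hl p hp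

private theorem len_incr2 {n i j : ℕ} {es : List ℕ} (he : es.length = n) (hi : i < n)
    (hj : j < n) : (incr i (incr j es)).length = n := by
  have h1 : (incr j es).length = es.length := length_incr (by rw [he]; exact hj)
  rw [length_incr (by rw [h1, he]; exact hi), h1, he]

private theorem evM_incr2 {n i j : ℕ} {es : List ℕ} (he : es.length = n) (hi : i < n)
    (hj : j < n) (x : ℕ → ℝ) : evM x (incr i (incr j es)) = x i * (x j * evM x es) := by
  have h1 : (incr j es).length = es.length := length_incr (by rw [he]; exact hj)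
  rw [evM_incr (by rw [h1, he]; exact hi), evM_incr (by rw [he]; exact hj)]

private theorem mem_allL {α : Type} {z : α → Bool} {l : List α} (h : allL z l = true) :
    ∀ a ∈ l, z a = true := by
  induction l with
  | nil =>
    intro a ha
    exact absurd ha (List.not_mem_nil)
  | cons b l ih =>
    rw [allL_cons, Bool.and_eq_true] at h
    intro a ha
    rcases List.mem_cons.1 ha with rfl | ha
    · exact h.1
    · exact ih h.2 a ha

private theorem len_fold {n i c : ℕ} {es l : List ℕ} {r : List Mo} (he : es.length = n)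
    (hi : i < n) (hl : ∀ j ∈ l, j < n) (hr : Len n r) :
    Len n (fold (fun j s => (Nat.mul 2 c, incr i (incr j es)) :: s) r l) := by
  induction l with
  | nil => exact hr
  | cons j l ih =>
    rw [fold_cons]
    exact len_cons (len_incr2 he hi (hl j List.mem_cons_self))
      (ih fun k hk => hl k (List.mem_cons_of_mem _ hk))

private theorem evS_fold {n i c : ℕ} {es l : List ℕ} {r : List Mo} (he : es.length = n)
    (hi : i < n) (hl : ∀ j ∈ l, j < n) (x : ℕ → ℝ) :
    evS x (fold (fun j s => (Nat.mul 2 c, incr i (incr j es)) :: s) r l) =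
      2 * c * evM x es * x i * lin x l + evS x r := by
  induction l with
  | nil =>
    rw [fold_nil, lin_nil]
    ring
  | cons j l ih =>
    rw [fold_cons, evS_cons, ih fun k hk => hl k (List.mem_cons_of_mem _ hk), lin_cons]
    simp only
    rw [evM_incr2 he hi (hl j List.mem_cons_self)]
    have h2 : ((Nat.mul 2 c : ℕ) : ℝ) = 2 * c := by
      rw [Nat.mul_eq]
      push_cast
      ring
    rw [h2]
    ring

private theorem len_sqL {n c : ℕ} {es l : List ℕ} {r : List Mo} (he : es.length = n)
    (hl : ∀ j ∈ l, j < n) (hr : Len n r) : Len n (sqL c es l r) := by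
  induction l with
  | nil => exact hr
  | cons i l ih =>
    rw [sqL_cons]
    have hi := hl i List.mem_cons_self
    have hl' : ∀ j ∈ l, j < n := fun k hk => hl k (List.mem_cons_of_mem _ hk)
    exact len_cons (len_incr2 he hi hi) (len_fold he hi hl' (ih hl'))

private theorem len_crL {n c : ℕ} {es l l' : List ℕ} {r : List Mo} (he : es.length = n)
    (hl : ∀ j ∈ l, j < n) (hl' : ∀ j ∈ l', j < n) (hr : Len n r) :
    Len n (crL c es l l' r) := by
  induction l with
  | nil => exact hr
  | cons i l ih =>
    rw [crL_cons]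
    exact len_fold he (hl i List.mem_cons_self) hl'
      (ih fun k hk => hl k (List.mem_cons_of_mem _ hk))

private theorem evS_sqL {n c : ℕ} {es l : List ℕ} {r : List Mo} (he : es.length = n)
    (hl : ∀ j ∈ l, j < n) (x : ℕ → ℝ) :
    evS x (sqL c es l r) = c * evM x es * lin x l ^ 2 + evS x r := by
  induction l with
  | nil =>
    rw [sqL_nil, lin_nil]
    ring
  | cons i l ih =>
    have hi := hl i List.mem_cons_self
    have hl' : ∀ j ∈ l, j < n := fun k hk => hl k (List.mem_cons_of_mem _ hk)
    rw [sqL_cons, evS_cons, evS_fold he hi hl', ih hl', lin_cons]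
    simp only
    rw [evM_incr2 he hi hi]
    ring

private theorem evS_crL {n c : ℕ} {es l l' : List ℕ} {r : List Mo} (he : es.length = n)
    (hl : ∀ j ∈ l, j < n) (hl' : ∀ j ∈ l', j < n) (x : ℕ → ℝ) :
    evS x (crL c es l l' r) = 2 * c * evM x es * lin x l * lin x l' + evS x r := by
  induction l with
  | nil =>
    rw [crL_nil, lin_nil]
    ring
  | cons i l ih =>
    rw [crL_cons, evS_fold he (hl i List.mem_cons_self) hl',
      ih fun k hk => hl k (List.mem_cons_of_mem _ hk), lin_cons]
    ring

private theorem okS_cons {n : ℕ} {q : Sq} {qs : List Sq} (h : okS n (q :: qs) = true) :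
    q.2.1.length = n ∧ (∀ i ∈ q.2.2.1, i < n) ∧ (∀ i ∈ q.2.2.2, i < n) ∧ okS n qs = true := by
  unfold okS at h
  rw [allL_cons, Bool.and_eq_true, Bool.and_eq_true, Bool.and_eq_true] at h
  obtain ⟨⟨⟨h1, h2⟩, h3⟩, h4⟩ := h
  refine ⟨Nat.eq_of_beq_eq_true h1, fun i hi => ?_, fun i hi => ?_, h4⟩
  · have := mem_allL h2 i hi
    simpa [Nat.blt_eq] using this
  · have := mem_allL h3 i hi
    simpa [Nat.blt_eq] using this

private theorem posL_cons (q : Sq) (qs : List Sq) :
    posL (q :: qs) = sqL q.1 q.2.1 q.2.2.1 (sqL q.1 q.2.1 q.2.2.2 (posL qs)) := rfl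

private theorem negL_cons (q : Sq) (qs : List Sq) :
    negL (q :: qs) = crL q.1 q.2.1 q.2.2.1 q.2.2.2 (negL qs) := rfl

theorem len_posL {n : ℕ} {qs : List Sq} (h : okS n qs = true) : Len n (posL qs) := by
  induction qs with
  | nil =>
    intro q hq
    exact absurd hq (List.not_mem_nil)
  | cons q qs ih =>
    obtain ⟨h1, h2, h3, h4⟩ := okS_cons h
    rw [posL_cons]
    exact len_sqL h1 h2 (len_sqL h1 h3 (ih h4))

theorem len_negL {n : ℕ} {qs : List Sq} (h : okS n qs = true) : Len n (negL qs) := by
  induction qs with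
  | nil =>
    intro q hq
    exact absurd hq (List.not_mem_nil)
  | cons q qs ih =>
    obtain ⟨h1, h2, h3, h4⟩ := okS_cons h
    rw [negL_cons]
    exact len_crL h1 h2 h3 (ih h4)

/-- PROOF. `evS x (sqL c es l r) = c * evM x es * (lin x l)^2 + evS x r` by induction on `l` (note
that `incr i (incr j es)` is the product with `x i * x j`), similarly
`evS x (crL c es l l' r) = 2 c * evM x es * lin x l * lin x l' + evS x r`. -/
theorem evS_pos_sub_neg {n : ℕ} {qs : List Sq} (h : okS n qs = true) (x : ℕ → ℝ) :
    evS x (posL qs) - evS x (negL qs) =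
      (qs.map fun q => (q.1 : ℝ) * evM x q.2.1 * (lin x q.2.2.1 - lin x q.2.2.2) ^ 2).sum := by
  induction qs with
  | nil =>
    change evS x [] - evS x [] = _
    simp
  | cons q qs ih =>
    obtain ⟨h1, h2, h3, h4⟩ := okS_cons h
    rw [posL_cons, negL_cons, evS_sqL h1 h2, evS_sqL h1 h3, evS_crL h1 h2 h3, List.map_cons,
      List.sum_cons, ← ih h4]
    ring

theorem evS_neg_le_pos {n : ℕ} {qs : List Sq} (h : okS n qs = true) {x : ℕ → ℝ}
    (hx : ∀ i, 0 ≤ x i) : evS x (negL qs) ≤ evS x (posL qs) := by
  rw [← sub_nonneg, evS_pos_sub_neg h]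
  refine List.sum_nonneg ?_
  intro y hy
  rw [List.mem_map] at hy
  obtain ⟨q, _, rfl⟩ := hy
  exact mul_nonneg (mul_nonneg (Nat.cast_nonneg _) (evM_nonneg hx _)) (sq_nonneg _)

end Pool.Agent.D4Q
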