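import Mathlib

set_option autoImplicit false

/-!
# P35. The inequality of the means for the trace
-/

namespace Pool.Agent.D4Q

open Matrix

/-- Four nonnegative numbers: arithmetic and geometric mean with the case of equality. -/
theorem amgm4 {a b c d : ℝ} (ha : 0 ≤ a) (hb : 0 ≤ b) (hc : 0 ≤ c) (hd : 0 ≤ d) :
    256 * (a * b * c * d) ≤ (a + b + c + d) ^ 4 ∧
      (256 * (a * b * c * d) = (a + b + c + d) ^ 4 → a = b ∧ b = c ∧ c = d) := by
  have hS : 0 ≤ (a + b + c + d) ^ 2 + 4 * ((a + b) * (c + d)) := by positivity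
  have h1 : 0 ≤ (a + b - (c + d)) ^ 2 * ((a + b + c + d) ^ 2 + 4 * ((a + b) * (c + d))) :=
    mul_nonneg (sq_nonneg _) hS
  have h2 : 0 ≤ (c + d) ^ 2 * (a - b) ^ 2 := by positivity
  have h3 : 0 ≤ a * b * (c - d) ^ 2 := by positivity
  have key : (a + b + c + d) ^ 4 - 256 * (a * b * c * d) =
      (a + b - (c + d)) ^ 2 * ((a + b + c + d) ^ 2 + 4 * ((a + b) * (c + d))) +
        16 * ((c + d) ^ 2 * (a - b) ^ 2) + 64 * (a * b * (c - d) ^ 2) := by
    ring
  refine ⟨by linarith, fun h => ?_⟩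
  have e1 : (a + b - (c + d)) ^ 2 * ((a + b + c + d) ^ 2 + 4 * ((a + b) * (c + d))) = 0 := by
    linarith
  have e2 : (c + d) ^ 2 * (a - b) ^ 2 = 0 := by linarith
  have e3 : a * b * (c - d) ^ 2 = 0 := by linarith
  rcases eq_or_lt_of_le (show 0 ≤ a + b + c + d by positivity) with h0 | h0
  · have z1 : a = 0 := by linarith
    have z2 : b = 0 := by linarith
    have z3 : c = 0 := by linarith
    have z4 : d = 0 := by linarith
    rw [z1, z2, z3, z4]
    exact ⟨rfl, rfl, rfl⟩
  · have hpos : 0 < (a + b + c + d) ^ 2 + 4 * ((a + b) * (c + d)) := by positivity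
    have f1 : a + b = c + d := by
      have := (mul_eq_zero.1 e1).resolve_right hpos.ne'
      have := pow_eq_zero_iff (two_ne_zero) |>.1 this
      linarith
    have hcd : 0 < c + d := by linarith
    have f2 : a = b := by
      have := (mul_eq_zero.1 e2).resolve_left (by positivity)
      have := pow_eq_zero_iff (two_ne_zero) |>.1 this
      linarith
    have hapos : 0 < a := by linarith
    have hbpos : 0 < b := by linarith
    have f3 : c = d := by
      have := (mul_eq_zero.1 e3).resolve_left (by positivity)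
      have := pow_eq_zero_iff (two_ne_zero) |>.1 this
      linarith
    exact ⟨f2, by linarith, f3⟩

private theorem exists_sq {A : Matrix (Fin 4) (Fin 4) ℝ} (hA : A.PosDef) :
    ∃ B : Matrix (Fin 4) (Fin 4) ℝ, A = Bᴴ * B := by
  open scoped MatrixOrder Matrix.Norms.L2Operator in
  obtain ⟨B, hB⟩ := CStarAlgebra.nonneg_iff_eq_star_mul_self.mp hA.posSemidef.nonneg
  exact ⟨B, hB⟩

/-- **Trace inequality.** PROOF. Write `A = Bᵀ * B` with `B` invertible (positive square root, or
Cholesky). `S = B * Q * Bᵀ` is positive definite, `S.trace = (A * Q).trace`,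
`S.det = A.det * Q.det`. Apply `amgm4` to the eigenvalues of `S` (`Matrix.IsHermitian.eigenvalues`,
trace is the sum and determinant the product of the eigenvalues). In the case of equality all
eigenvalues are equal to some `c > 0`, so `S = c • 1` (spectral theorem) and
`Q = c • (B⁻¹ * B⁻¹ᵀ) = c • A⁻¹`. -/
theorem trace_amgm {A Q : Matrix (Fin 4) (Fin 4) ℝ} (hA : A.PosDef) (hQ : Q.PosDef) :
    256 * (A.det * Q.det) ≤ (A * Q).trace ^ 4 ∧
      (256 * (A.det * Q.det) = (A * Q).trace ^ 4 → ∃ c : ℝ, 0 < c ∧ Q = c • A⁻¹) := by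
  obtain ⟨B, hB⟩ := exists_sq hA
  have hdA : A.det = B.det * B.det := by
    rw [hB, det_mul, det_conjTranspose, star_trivial]
  have hdB : B.det ≠ 0 := by
    intro h
    have h1 := hA.det_pos
    rw [hdA, h, mul_zero] at h1
    exact lt_irrefl _ h1
  have hu : IsUnit B := (isUnit_iff_isUnit_det B).2 (isUnit_iff_ne_zero.2 hdB)
  have hS : (B * Q * Bᴴ).PosDef := by
    refine hQ.mul_mul_conjTranspose_same ?_
    exact vecMul_injective_of_isUnit hu
  have htr : (B * Q * Bᴴ).trace = (A * Q).trace := by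
    rw [hB, trace_mul_comm, ← Matrix.mul_assoc]
  have hdet : (B * Q * Bᴴ).det = A.det * Q.det := by
    rw [det_mul, det_mul, det_conjTranspose, star_trivial, hdA]
    ring
  have t1 := hS.1.trace_eq_sum_eigenvalues
  have t2 := hS.1.det_eq_prod_eigenvalues
  rw [htr, Fin.sum_univ_four] at t1
  rw [hdet, Fin.prod_univ_four] at t2
  simp only [RCLike.ofReal_real_eq_id, id_eq] at t1 t2
  have hp := hS.eigenvalues_pos
  have key := amgm4 (hp 0).le (hp 1).le (hp 2).le (hp 3).le
  rw [← t1, ← t2] at key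
  refine ⟨key.1, fun h => ?_⟩
  obtain ⟨e1, e2, e3⟩ := key.2 h
  refine ⟨hS.1.eigenvalues 0, hp 0, ?_⟩
  have hall : ∀ i, hS.1.eigenvalues i = hS.1.eigenvalues 0 := by
    intro i
    fin_cases i
    · rfl
    · exact e1.symm
    · exact (e1.trans e2).symm
    · exact (e1.trans (e2.trans e3)).symm
  have hsp := hS.1.spectral_theorem
  have hdiag : (diagonal (RCLike.ofReal ∘ hS.1.eigenvalues) : Matrix (Fin 4) (Fin 4) ℝ) =
      hS.1.eigenvalues 0 • (1 : Matrix (Fin 4) (Fin 4) ℝ) := by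
    rw [← diagonal_one, ← diagonal_smul]
    congr 1
    funext i
    simp only [Function.comp_apply, RCLike.ofReal_real_eq_id, id_eq, Pi.smul_apply, smul_eq_mul,
      mul_one]
    exact hall i
  rw [hdiag, map_smul, map_one] at hsp
  obtain ⟨c, hc⟩ : ∃ c, c = hS.1.eigenvalues 0 := ⟨_, rfl⟩
  rw [← hc] at hsp ⊢
  have hBi : B⁻¹ * B = 1 := nonsing_inv_mul B (isUnit_iff_ne_zero.2 hdB)
  have hBh : IsUnit (Bᴴ).det := by
    rw [det_conjTranspose, star_trivial]
    exact isUnit_iff_ne_zero.2 hdB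
  have hBi' : Bᴴ * (Bᴴ)⁻¹ = 1 := mul_nonsing_inv _ hBh
  calc Q = (B⁻¹ * B) * Q * (Bᴴ * (Bᴴ)⁻¹) := by rw [hBi, hBi', Matrix.one_mul, Matrix.mul_one]
    _ = B⁻¹ * (B * Q * Bᴴ) * (Bᴴ)⁻¹ := by simp only [Matrix.mul_assoc]
    _ = c • (B⁻¹ * (Bᴴ)⁻¹) := by
        rw [hsp, Matrix.mul_smul, Matrix.mul_one, Matrix.smul_mul]
    _ = c • A⁻¹ := by rw [hB, Matrix.mul_inv_rev]

end Pool.Agent.D4Q
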